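import Pool.Agent.H9x.PN.Sys

/-!
# Blocks for the third part of project PN (piece BLKP): the value of a tree is the hidden bit
-/

set_option autoImplicit false
set_option linter.unusedSectionVars false
set_option linter.unusedVariables false

namespace Pool.Agent.H9x.PN

open Finset Pool.Agent.NPC Pool.Agent.H622R2 Pool.Agent.H620R2.Gauge Pool.Agent.H622R2.Exp
  Pool.Agent.TH678.ETH Pool.Agent.TH678.SETH Pool.Agent.TH678.RS Pool.Agent.H9x.Q Filter
  Pool.Agent.H591R3.PHG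

open Pool.Agent.H9x.RT (ll lev HZ HZ_iff Yes No)
open Pool.Agent.H9x.SP (Sys Dt J orc base orc_on orc_off orc_free orc_loc tv tv_congr tv_true
  tv_false tv_iff enc_inj2 Blk Good Fools LB sval exists_for exists_sipB)
open Pool.Agent.H9x.SN (er er_congr er_off nam nam_inj nam_len)

variable {kk k : ℕ} {ma : ℕ → Alg × Polynomial ℕ} {S R : ℕ → Polynomial ℕ}

/-- a block with the truth values exchanged -/
def swB (B : Blk) : Blk where
  I := B.I
  fI := B.fI
  dI := B.dI
  P := fun t => B.P (!t)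
  nn := fun t z => B.nn (!t) z
  s1 := fun t => B.s1 (!t)
  enc := B.enc
  cls := B.cls
  good := fun t V => B.good (!t) V
  sup := fun t z h => B.sup (!t) z h

/-- **BLKP.** -/
theorem exists_bkP (hK : Kh k ma S R) (k' : ℕ) : ∃ Bk : ℕ × List Bool → Blk,
    (∀ c : ℕ × List Bool, ¬ c.1 = 0 → ∀ V, (Bk c).good true V → Yes (lev S c) V) ∧
    (∀ c : ℕ × List Bool, ¬ c.1 = 0 → ∀ V, (Bk c).good false V → No (lev S c) V) ∧
    (∀ c : ℕ × List Bool, c.1 = 0 → ∀ t V, (Bk c).good t V ↔ sval (lev S c) kk V = t) ∧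
    ∀ (c : ℕ × List Bool) (u N Λ : ℕ), ¬ c.1 = 0 → Λ + 16 * lev S c + 84 + k' ≤ 2 ^ (2 * u) →
      Fools (Bk c) k' u N Λ (107 * LB u N k' / 8 ^ (lev S c)) := by
  have h5 : ∀ c : ℕ × List Bool, 5 ≤ lev S c := fun c => by
    have := hK.big c.1 c.2.length
    show 5 ≤ (S c.1).eval c.2.length
    omega
  choose BF hBF1 hBF2 hBF3 using exists_for
  choose BS hBS1 hBS2 using fun c : ℕ × List Bool => exists_sipB (h5 c) kk
  set Bk : ℕ × List Bool → Blk := fun c : ℕ × List Bool =>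
    if c.1 = 0 then swB (BS c) else BF (lev S c) with hBk
  have hBz : ∀ c : ℕ × List Bool, c.1 = 0 → Bk c = swB (BS c) := fun c h => if_pos h
  have hBo : ∀ c : ℕ × List Bool, ¬ c.1 = 0 → Bk c = BF (lev S c) := fun c h => if_neg h
  refine ⟨Bk, fun c h V hV => ?_, fun c h V hV => ?_, fun c h t V => ?_,
    fun c u N Λ h hΛ => ?_⟩
  · rw [hBo c h] at hV
    exact (hBF1 _ V).1 hV
  · rw [hBo c h] at hV
    exact (hBF2 _ V).1 hV
  · rw [hBz c h]
    show (BS c).good (!t) V ↔ _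
    rw [hBS1 c (!t) V, Bool.not_not]
  · rw [hBo c h]
    exact hBF3 _ k' u N Λ hΛ

end Pool.Agent.H9x.PN
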