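import Pool.Agent.H9x.PN.Sys

/-!
# Languages of the level `Σ_k` in quantum polynomial time
-/

set_option autoImplicit false
set_option linter.unusedSectionVars false
set_option linter.unusedVariables false

namespace Pool.Agent.H9x.PN

open Finset Pool.Agent.NPC Pool.Agent.H622R2 Pool.Agent.H620R2.Gauge Pool.Agent.H622R2.Exp
  Pool.Agent.TH678.ETH Pool.Agent.TH678.SETH Pool.Agent.TH678.RS Pool.Agent.H9x.Q Filter
  Pool.Agent.H591R3.PHG

open Pool.Agent.H9x.V1 (poly_rep poly_cS)
open Pool.Agent.H9x.RT (ll lev HZ HZ_iff Yes No FoC FoA isBQP_of_fo cpy ll_eval)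
open Pool.Agent.H9x.SP (Sys Dt J orc base orc_on orc_off orc_free orc_loc tv tv_congr tv_true
  tv_false tv_iff enc_inj2 Blk Good sval)
open Pool.Agent.H9x.SN (er er_congr er_off er_false nam nam_inj nam_len)

variable {kk k : ℕ} {ma : ℕ → Alg × Polynomial ℕ} {S R : ℕ → Polynomial ℕ}

/-- the questions with the whole oracle -/
theorem quH_iff (hK : Kh k ma S R) {i T : ℕ} {A : Oracle} {x : List Bool}
    (hT : (R i).eval x.length ≤ T) :
    QuH k ma i T A x ↔ Quant ((ma i).2.eval x.length)
      (fun y => ((ma i).1.out A y).getD []) k true x := by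
  unfold QuH
  have key : ∀ (j : ℕ) (b : Bool) (y : List Bool), y.length + j * (2 * (ma i).2.eval x.length + 1)
      ≤ x.length + k * (2 * (ma i).2.eval x.length + 1) →
      (Quant ((ma i).2.eval x.length) (fun y => ((ma i).1.out (CC.cut T A) y).getD []) j b y ↔
        Quant ((ma i).2.eval x.length) (fun y => ((ma i).1.out A y).getD []) j b y) := by
    intro j
    induction j with
    | zero =>
      intro b y hy
      simp only [Quant]
      rw [hK.out i x.length y (by omega) A T hT]
    | succ j ih =>
      intro b y hy
      have e : (j + 1) * (2 * (ma i).2.eval x.length + 1) = j * (2 * (ma i).2.eval x.length + 1) +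
        (2 * (ma i).2.eval x.length + 1) := by ring
      have hlen : ∀ w : List Bool, w.length ≤ (ma i).2.eval x.length →
          (pairBits w y).length + j * (2 * (ma i).2.eval x.length + 1) ≤
          x.length + k * (2 * (ma i).2.eval x.length + 1) := by
        intro w hw
        rw [length_pairBits]
        omega
      cases b with
      | true =>
        simp only [Quant]
        exact exists_congr fun w => and_congr_right fun hw => ih false _ (hlen w hw)
      | false =>
        simp only [Quant]
        exact forall_congr' fun w => forall_congr' fun hw => ih true _ (hlen w hw)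
  exact key k true x le_rfl

/-- the prefix of the strings about the zero string -/
theorem base_HZH (D : Dt (sysH kk k ma S).K) {l m : ℕ} (hl : 1 ≤ l) (u : Fin (m * l) → Bool) :
    er (orc (sysH kk k ma S) D) ((false :: false :: (List.replicate l true ++ [false])) ++
      List.ofFn u) = true ↔ ∃ j, cpy u j = fun _ => false := by
  obtain ⟨l, rfl⟩ : ∃ l', l = l' + 1 := ⟨l - 1, by omega⟩
  have h1 : (false :: false :: (List.replicate (l + 1) true ++ [false])) ++ List.ofFn u =
      false :: false :: (List.replicate (l + 1) true ++ false :: List.ofFn u) := by simp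
  rw [h1, er_false, orc_off D (fun c w _ h => by
    by_cases he : c.1 = 0
    · rw [show (sysH kk k ma S).adr c w = adH kk S c w from rfl, adH_zero he,
        List.replicate_succ] at h
      simp at h
    · rw [show (sysH kk k ma S).adr c w = adH kk S c w from rfl, adH_pos he] at h
      simp at h)]
  show @decide (HZ _) (Classical.propDecidable _) = true ↔ _
  exact (@decide_eq_true_iff _ (Classical.propDecidable _)).trans (HZ_iff hl u)

/-- **The level `Σ_k` in quantum polynomial time.** Only the blocks of the questions matter. -/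
theorem bqp_of_sig' (hma : Function.Surjective ma) (hK : Kh k ma S R)
    {Bk : ℕ × List Bool → Blk}
    (hyes : ∀ c : ℕ × List Bool, ¬ c.1 = 0 → ∀ V, (Bk c).good true V → Yes (lev S c) V)
    (hno : ∀ c : ℕ × List Bool, ¬ c.1 = 0 → ∀ V, (Bk c).good false V → No (lev S c) V)
    {D : Dt (sysH kk k ma S).K} (hD : Good (Y := sysH kk k ma S) Bk D.bl)
    {L : Set (List Bool)} (hL : IsSig (er (orc (sysH kk k ma S) D)) k L) :
    IsBQP (er (orc (sysH kk k ma S) D)) L := by
  obtain ⟨V, p, ⟨M, hM⟩, hx⟩ := hL
  obtain ⟨i, hi⟩ := hma (M, p)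
  have hct : ∀ x : List Bool, tv (sysH kk k ma S) (i + 1, x) (orc (sysH kk k ma S) D) = true ↔
      x ∈ L := by
    intro x
    rw [tv_pos hK _ (c := (i + 1, x)) (Nat.succ_ne_zero i)]
    show QuH k ma i ((R i).eval x.length) (er (orc (sysH kk k ma S) D)) x ↔ _
    rw [quH_iff hK le_rfl, hx x, hi]
    have h5 : (fun y => (M.out (er (orc (sysH kk k ma S) D)) y).getD []) = V := by
      funext y
      rw [hM y]
      rfl
    show Quant (p.eval x.length) (fun y => (M.out (er (orc (sysH kk k ma S) D)) y).getD []) k
      true x ↔ _
    rw [h5]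
  have hlen : UPoly (fun u : List Bool => u.length) := UPoly.length Poly.id
  have hSe : UPoly (fun u : List Bool => (S (i + 1)).eval u.length) := hlen.eval (S (i + 1))
  set l : Polynomial ℕ := Polynomial.C 8 * S (i + 1) + Polynomial.C 40 with hl
  have hll : ∀ n, l.eval n = ll ((S (i + 1)).eval n) := fun n => ll_eval _ _
  refine isBQP_of_fo (fun u => false :: true :: cS (i + 1) ((S (i + 1)).eval u.length) [])
    (fun u => false :: false :: (List.replicate (l.eval u.length) true ++ [false])) l
    ?_ ?_ (fun u v huv => by simp only [huv]) (fun u v huv => by simp only [huv])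
    (fun n => by rw [hll]; unfold ll; omega) (fun x k u => ?_) (fun x => ?_)
  · exact Poly.cons (NPC.Poly.const _) (Poly.cons (NPC.Poly.const _)
      (poly_cS (i + 1) hSe (NPC.Poly.const [])))
  · exact Poly.cons (NPC.Poly.const _) (Poly.cons (NPC.Poly.const _)
      (Poly.append (poly_rep (hlen.eval l)) (NPC.Poly.const [false])))
  · exact base_HZH D (by rw [hll]; unfold ll; omega) u
  · -- the forrelation of the block
    have hval : ∀ (c : Bool) (v : Fin (l.eval x.length) → Bool), er (orc (sysH kk k ma S) D)
        ((false :: true :: cS (i + 1) ((S (i + 1)).eval x.length) []) ++ x ++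
          (c :: List.ofFn v)) =
        D.bl (i + 1, x) (tv (sysH kk k ma S) (i + 1, x) (orc (sysH kk k ma S) D))
          (c :: List.ofFn v) := by
      intro c v
      have hw : (c :: List.ofFn v).length = ll ((S (i + 1)).eval x.length) + 1 := by
        rw [List.length_cons, List.length_ofFn, hll]
      have h1 : (false :: true :: cS (i + 1) ((S (i + 1)).eval x.length) []) ++ x ++
          (c :: List.ofFn v) = (sysH kk k ma S).adr (i + 1, x) (c :: List.ofFn v) := by
        show _ = adH kk S (i + 1, x) (c :: List.ofFn v)
        rw [adH_pos (c := (i + 1, x)) (Nat.succ_ne_zero i)]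
        show _ = false :: true :: cS (i + 1) ((S (i + 1)).eval x.length) (x ++ (c :: List.ofFn v))
        simp [cS, pr]
      have h2 : er (orc (sysH kk k ma S) D) ((false :: true ::
          cS (i + 1) ((S (i + 1)).eval x.length) []) ++ x ++ (c :: List.ofFn v)) =
          orc (sysH kk k ma S) D ((false :: true ::
          cS (i + 1) ((S (i + 1)).eval x.length) []) ++ x ++ (c :: List.ofFn v)) := rfl
      rw [h2, h1, orc_on D (show (sysH kk k ma S).ok (i + 1, x) (c :: List.ofFn v) from
        fun _ => hw)]
    have hfo : FoA (er (orc (sysH kk k ma S) D)) ((false :: true ::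
        cS (i + 1) ((S (i + 1)).eval x.length) []) ++ x) (l.eval x.length) =
        FoC (D.bl (i + 1, x) (tv (sysH kk k ma S) (i + 1, x) (orc (sysH kk k ma S) D)))
        (l.eval x.length) := by
      unfold FoA FoC
      simp only [hval]
    constructor
    · intro hx
      have h2 : tv (sysH kk k ma S) (i + 1, x) (orc (sysH kk k ma S) D) = true := (hct x).2 hx
      rw [hfo, h2, hll]
      exact hyes (i + 1, x) (Nat.succ_ne_zero i) _ (hD (i + 1, x) true)
    · intro hx
      have h2 : tv (sysH kk k ma S) (i + 1, x) (orc (sysH kk k ma S) D) = false :=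
        Bool.eq_false_iff.2 fun h3 => hx ((hct x).1 h3)
      rw [hfo, h2, hll]
      exact hno (i + 1, x) (Nat.succ_ne_zero i) _ (hD (i + 1, x) false)

/-- **The level `Σ_k` in quantum polynomial time.** -/
theorem bqp_of_sig (hma : Function.Surjective ma) (hK : Kh k ma S R)
    {Bk : ℕ × List Bool → Blk} (hB : BkH kk k ma S Bk) {D : Dt (sysH kk k ma S).K}
    (hD : Good (Y := sysH kk k ma S) Bk D.bl)
    {L : Set (List Bool)} (hL : IsSig (er (orc (sysH kk k ma S) D)) k L) :
    IsBQP (er (orc (sysH kk k ma S) D)) L :=
  bqp_of_sig' hma hK hB.yes hB.no hD hL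

end Pool.Agent.H9x.PN
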