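import Pool.Agent.H9x.PN.Sys

/-!
# The existence of a hidden bit is decided in the hierarchy (piece DECS of project PN)
-/

set_option autoImplicit false
set_option linter.unusedSectionVars false
set_option linter.unusedVariables false

namespace Pool.Agent.H9x.PN

open Finset Pool.Agent.NPC Pool.Agent.H622R2 Pool.Agent.H620R2.Gauge Pool.Agent.H622R2.Exp
  Pool.Agent.TH678.ETH Pool.Agent.TH678.SETH Pool.Agent.TH678.RS Pool.Agent.H9x.Q Filter
  Pool.Agent.H591R3.PHG

open Pool.Agent.H9x.V1 (poly_rep poly_cS)
open Pool.Agent.H9x.RT (ll lev HZ HZ_iff Yes No)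
open Pool.Agent.H9x.SP (Sys Dt J orc base orc_on orc_off orc_free orc_loc tv tv_congr tv_true
  tv_false tv_iff enc_inj2 Blk Good sval rep quant_rep poly_repl mem_lang_fold fold_sval enc_app)
open Pool.Agent.H9x.SN (er er_congr er_off er_false nam nam_inj nam_len)

/-- **An existential quantifier in front of the language of trees.** -/
theorem isSig_ex {A : Oracle} {k : ℕ} {φ : List Bool → Prop} (pre : List Bool)
    (r : List Bool → List Bool) (hr : Poly r) (p : Polynomial ℕ)
    (hp : ∀ x, (r x).length ≤ p.eval x.length)
    (hL : ∀ x, φ x ↔ r x ∈ lang k (fun q => A (pre ++ q))) :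
    IsSig A (k + 3) {y | ∃ x : List Bool, x.length = y.length ∧ φ x} := by
  set B : Oracle := fun q => A (pre ++ q) with hB
  set e : Bool := !(bot true (k + 1)) with he
  set r' : List Bool → List Bool := fun z =>
    r (LangSig.fit (unpair (unpair z).2).2 (unpair (unpair z).2).1) with hr'
  have hpr' : Poly r' := by
    have h1 : Poly (fun z : List Bool => (unpair z).1) := Poly.fst poly_unpair
    have h2 : Poly (fun z : List Bool => (unpair z).2) := Poly.snd poly_unpair
    exact hr.comp (LangSig.poly_fit (h2.comp h2) (h1.comp h2))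
  refine ⟨fun y => LangSig.Ver (k + 1) e B (rep (k + 1) r' y), p + Polynomial.X, ?_, fun y => ?_⟩
  · have h1 : Poly (fun q : List Bool × List Bool => q.2.all (fun b => !b)) :=
      Poly.all (p := fun _ b => !b) (Poly.snd Poly.id) (Poly.not (Poly.snd Poly.id))
    have h2 : Poly (fun q : List Bool × List Bool => [decide (q.2.all (fun b => !b) = e)]) :=
      Poly.cons (Poly.decide_eq h1 (NPC.Poly.const e)) (NPC.Poly.const [])
    have h3 : Poly (fun y : List Bool => (LangSig.Qs (k + 1) (rep (k + 1) r' y)).map
        (fun q => pre ++ q)) :=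
      NPC.Poly.map (F := fun _ q => pre ++ q) ((LangSig.poly_Qs (k + 1)).comp
        (poly_repl hpr' (k + 1))) (Poly.append (NPC.Poly.const pre) (Poly.snd Poly.id))
    have h4 := IsFP.tt (A := A) (H := fun q => [decide (q.2.all (fun b => !b) = e)]) h3 h2
    have h5 : (fun x => (fun q : List Bool × List Bool => [decide (q.2.all (fun b => !b) = e)])
        (x, ((LangSig.Qs (k + 1) (rep (k + 1) r' x)).map (fun q => pre ++ q)).map A)) =
        fun y => LangSig.Ver (k + 1) e B (rep (k + 1) r' y) := by
      funext y
      show [decide (_ = e)] = [decide (_ = e)]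
      rw [List.map_map]
      rfl
    rw [h5] at h4
    exact h4
  · have hev : (p + Polynomial.X).eval y.length = p.eval y.length + y.length := by
      rw [Polynomial.eval_add, Polynomial.eval_X]
    have key : ∀ w₁ w₂ : List Bool, (Quant ((p + Polynomial.X).eval y.length)
        (fun u => LangSig.Ver (k + 1) e B (rep (k + 1) r' u)) (k + 1) true
          (pairBits w₂ (pairBits w₁ y)) ↔ φ (LangSig.fit y w₁)) := by
      intro w₁ w₂
      have hz : r' (pairBits w₂ (pairBits w₁ y)) = r (LangSig.fit y w₁) := by
        rw [hr']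
        simp only [unpair_pairBits]
      rw [hL, quant_rep (LangSig.Ver (k + 1) e B) r' _ (k + 1) (k + 1) 0 true _ (by omega)]
      show Quant _ _ _ _ (r' _) ↔ _
      rw [hz]
      have hm : (r (LangSig.fit y w₁)).length ≤ (p + Polynomial.X).eval y.length := by
        have h1 := hp (LangSig.fit y w₁)
        rw [LangSig.length_fit] at h1
        rw [hev]
        omega
      rw [LangSig.quant_iff B (k + 1) _ e (k + 1) 0 true (r (LangSig.fit y w₁))
        (r (LangSig.fit y w₁)) (r (LangSig.fit y w₁)) (by omega) rfl hm
        (by rw [he, Bool.not_not])]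
      rfl
    show (∃ x : List Bool, x.length = y.length ∧ φ x) ↔ ∃ w₁ : List Bool, w₁.length ≤ _ ∧
      ∀ w₂ : List Bool, w₂.length ≤ _ → _
    constructor
    · rintro ⟨x, hx, hφ⟩
      refine ⟨x, by rw [hev]; omega, fun w₂ _ => ?_⟩
      rw [key, LangSig.fit_eq hx]
      exact hφ
    · rintro ⟨w₁, _, h⟩
      exact ⟨LangSig.fit y w₁, LangSig.length_fit _ _, (key w₁ []).1 (h [] (Nat.zero_le _))⟩

variable {kk k : ℕ} {ma : ℕ → Alg × Polynomial ℕ} {S R : ℕ → Polynomial ℕ}

/-- **DECS.** -/
theorem sig_hid (hK : Kh k ma S R) {Bk : ℕ × List Bool → Blk} (hB : BkH kk k ma S Bk)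
    {D : Dt (sysH kk k ma S).K} (hD : Good (Y := sysH kk k ma S) Bk D.bl) :
    IsSig (er (orc (sysH kk k ma S) D)) (kk + 3)
      {y | ∃ x : List Bool, x.length = y.length ∧ D.fr (nam 0 x) = true} := by
  have hlen : UPoly (fun u : List Bool => u.length) := UPoly.length Poly.id
  have hSe : UPoly (fun u : List Bool => (S 0).eval u.length) := hlen.eval (S 0)
  set r : List Bool → List Bool := fun x => enc (List.replicate (kk + 1) (64 * (S 0).eval x.length))
    (8 * (S 0).eval x.length) (cS 0 ((S 0).eval x.length) (pairBits x [])) with hr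
  have hrl : ∀ x, (r x).length = 2 * ((kk + 1) * (64 * (S 0).eval x.length)) + (kk + 1) +
      2 * (8 * (S 0).eval x.length) + 1 + ((S 0).eval x.length + 1 + 1 +
        (0 + 1 + (2 * x.length + 1))) := by
    intro x
    rw [hr]
    simp only
    rw [enc_len, length_cS, length_pairBits]
    simp
  have he8 : ∀ n, (Polynomial.C 8 * S 0).eval n = 8 * (S 0).eval n := fun n => by simp
  have he64 : ∀ n, (Polynomial.C 64 * S 0).eval n = 64 * (S 0).eval n := fun n => by simp
  have hpr : Poly r := by
    have h1 : ∀ j : ℕ, Poly (fun x : List Bool => enc (List.replicate j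
        (64 * (S 0).eval x.length)) (8 * (S 0).eval x.length)
        (cS 0 ((S 0).eval x.length) (pairBits x []))) := by
      intro j
      induction j with
      | zero =>
        exact poly_pairBits ((poly_rep (hlen.eval (Polynomial.C 8 * S 0))).congr fun x => by
          simp only [he8]) (poly_cS 0 hSe (poly_pairBits Poly.id (NPC.Poly.const [])))
      | succ j ih =>
        have h2 : ∀ x : List Bool, enc (List.replicate (j + 1) (64 * (S 0).eval x.length))
            (8 * (S 0).eval x.length) (cS 0 ((S 0).eval x.length) (pairBits x [])) =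
            pairBits (List.replicate (64 * (S 0).eval x.length) true)
              (enc (List.replicate j (64 * (S 0).eval x.length)) (8 * (S 0).eval x.length)
                (cS 0 ((S 0).eval x.length) (pairBits x []))) := by
          intro x
          rw [List.replicate_succ', LangTrAux.enc_append]
        have h3 : Poly (fun x : List Bool => List.replicate (64 * (S 0).eval x.length) true) :=
          (poly_rep (hlen.eval (Polynomial.C 64 * S 0))).congr fun x => by simp only [he64]
        exact (poly_pairBits h3 ih).congr fun x => (h2 x).symm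
    exact h1 (kk + 1)
  refine isSig_ex (false :: false :: [false]) r hpr
    (Polynomial.C 2 * (Polynomial.C (kk + 1) * (Polynomial.C 64 * S 0)) + Polynomial.C (kk + 1) +
      Polynomial.C 2 * (Polynomial.C 8 * S 0) + Polynomial.C 1 + (S 0 + Polynomial.C 1 +
      Polynomial.C 1 + (Polynomial.C (0 + 1) + (Polynomial.C 2 * Polynomial.X + Polynomial.C 1))))
    (fun x => ?_) (fun x => ?_)
  · rw [hrl]
    simp only [Polynomial.eval_add, Polynomial.eval_mul, Polynomial.eval_C, Polynomial.eval_X]
    exact le_rfl
  · rw [hr]
    simp only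
    rw [mem_lang_fold _ kk _ (by simp), fold_sval]
    have hcont : (fun v => (fun q => er (orc (sysH kk k ma S) D) ([false, false, false] ++ q))
        (enc (List.replicate (kk + 1) (64 * (S 0).eval x.length)) (8 * (S 0).eval x.length)
          (cS 0 ((S 0).eval x.length) (pairBits x [])) ++ v)) =
        D.bl (0, x) (tv (sysH kk k ma S) (0, x) (orc (sysH kk k ma S) D)) := by
      funext v
      rw [← orc_on D (show (sysH kk k ma S).ok (0, x) v from fun h => absurd rfl h)]
      show _ = orc (sysH kk k ma S) D (adH kk S (0, x) v)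
      rw [adH_zero (c := (0, x)) rfl]
      show orc (sysH kk k ma S) D _ = _
      congr 1
      rw [enc_app]
      have : cS 0 ((S 0).eval x.length) (pairBits x []) ++ v =
          cS 0 ((S 0).eval x.length) (pairBits x v) := by
        simp [cS, pr, pairBits]
      rw [this]
      rfl
    rw [hcont]
    have ht := tv_zero hK D (c := (0, x)) rfl
    rw [ht]
    have hs : sval ((S 0).eval x.length) kk (D.bl (0, x) (D.fr (nam 0 x))) =
        !(D.fr (nam 0 x)) := hB.sip (0, x) rfl _ _ (hD (0, x) (D.fr (nam 0 x)))
    rw [hs]
    cases D.fr (nam 0 x) <;> simp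

end Pool.Agent.H9x.PN
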