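import Pool.Agent.H9x.PN.Sys

/-!
# Bounds and blocks for the system of codes exist
-/

set_option autoImplicit false
set_option linter.unusedSectionVars false
set_option linter.unusedVariables false

namespace Pool.Agent.H9x.PN

open Finset Pool.Agent.NPC Pool.Agent.H622R2 Pool.Agent.H620R2.Gauge Pool.Agent.H622R2.Exp
  Pool.Agent.TH678.ETH Pool.Agent.TH678.SETH Pool.Agent.TH678.RS Pool.Agent.H9x.Q Filter
  Pool.Agent.H591R3.PHG

open Pool.Agent.H9x.RT (ll lev HZ HZ_iff Yes No)
open Pool.Agent.H9x.SP (Sys Dt J orc base orc_on orc_off orc_free orc_loc tv tv_congr tv_true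
  tv_false tv_iff enc_inj2 Blk Good Fools LB sval exists_for exists_sipB)
open Pool.Agent.H9x.SN (er er_congr er_off nam nam_inj nam_len)

variable {kk k : ℕ} {ma : ℕ → Alg × Polynomial ℕ} {S R : ℕ → Polynomial ℕ}

theorem exists_kh (k : ℕ) (ma : ℕ → Alg × Polynomial ℕ) : ∃ S R : ℕ → Polynomial ℕ,
    Kh k ma S R := by
  choose qb hqb using fun i : ℕ => (ma i).1.out_local
  set N : ℕ → Polynomial ℕ := fun i =>
    Polynomial.X + Polynomial.C k * (Polynomial.C 2 * (ma i).2 + Polynomial.C 1) with hN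
  have hNe : ∀ i n, (N i).eval n = n + k * (2 * (ma i).2.eval n + 1) := by
    intro i n
    rw [hN]
    simp
  set R : ℕ → Polynomial ℕ := fun i =>
    (ma i).2 + (ma i).1.p.comp (N i) + (qb i).comp (N i) with hR
  have hRe : ∀ i n, (R i).eval n = (ma i).2.eval n + (ma i).1.p.eval ((N i).eval n) +
      (qb i).eval ((N i).eval n) := by
    intro i n
    rw [hR]
    simp [Polynomial.eval_comp]
  set S : ℕ → Polynomial ℕ := fun e => if e = 0 then Polynomial.C 16 * Polynomial.X +
      Polynomial.C 6 else (R (e - 1) + Polynomial.C 1) ^ 2 + Polynomial.X +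
      Polynomial.C (e + 5) with hS
  have hS0 : ∀ n, (S 0).eval n = 16 * n + 6 := by
    intro n
    show Polynomial.eval n (if 0 = 0 then _ else _) = _
    rw [if_pos rfl]
    simp
  have hSe : ∀ e n, e ≠ 0 → (S e).eval n = ((R (e - 1)).eval n + 1) ^ 2 + n + (e + 5) := by
    intro e n he
    show Polynomial.eval n (if e = 0 then _ else _) = _
    rw [if_neg he]
    simp only [Polynomial.eval_add, Polynomial.eval_pow, Polynomial.eval_C, Polynomial.eval_X]
  refine ⟨S, R, hS0, fun e n => ?_, fun i n => ?_, fun i n => ?_, fun i n y hy => ?_,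
    fun i n y hy A T hT => ?_⟩
  · by_cases he : e = 0
    · subst he
      rw [hS0]
      omega
    · rw [hSe e n he]
      omega
  · rw [hSe (i + 1) n (by omega), Nat.add_sub_cancel]
    omega
  · rw [hRe]
    omega
  · rw [← hNe] at hy
    have h1 := eval_mono (ma i).1.p hy
    rw [hRe]
    omega
  · rw [← hNe] at hy
    obtain ⟨Q, _, h2, h3⟩ := hqb i A y
    refine h3 _ fun q hq => ?_
    unfold CC.cut
    rw [if_pos]
    have h4 := h2 q hq
    have h5 := eval_mono (qb i) hy
    rw [hRe] at hT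
    omega

theorem exists_bkH (hK : Kh k ma S R) : ∃ Bk : ℕ × List Bool → Blk, BkH kk k ma S Bk ∧
    ∀ (c : ℕ × List Bool) (u N Λ : ℕ), (c.1 = 0 → 8 * u ≤ lev S c) →
      Λ + 16 * lev S c + 84 + kk ≤ 2 ^ (2 * u) →
      Fools (Bk c) kk u N Λ (107 * LB u N kk / 8 ^ (lev S c)) := by
  have h5 : ∀ c : ℕ × List Bool, 5 ≤ lev S c := fun c => by
    have := hK.big c.1 c.2.length
    show 5 ≤ (S c.1).eval c.2.length
    omega
  choose BF hBF1 hBF2 hBF3 using exists_for
  choose BS hBS1 hBS2 using fun c : ℕ × List Bool => exists_sipB (h5 c) kk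
  set Bk : ℕ × List Bool → Blk := fun c : ℕ × List Bool =>
    if c.1 = 0 then BS c else BF (lev S c) with hBk
  have hBz : ∀ c : ℕ × List Bool, c.1 = 0 → Bk c = BS c := fun c h => if_pos h
  have hBo : ∀ c : ℕ × List Bool, ¬ c.1 = 0 → Bk c = BF (lev S c) := fun c h => if_neg h
  refine ⟨Bk, ⟨fun c h V hV => ?_, fun c h V hV => ?_, fun c h t V hV => ?_⟩,
    fun c u N Λ hu hΛ => ?_⟩
  · rw [hBo c h] at hV
    exact (hBF1 _ V).1 hV
  · rw [hBo c h] at hV
    exact (hBF2 _ V).1 hV
  · rw [hBz c h] at hV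
    exact (hBS1 c t V).1 hV
  · by_cases h : c.1 = 0
    · rw [hBz c h]
      exact hBS2 c u N Λ (hu h) (by omega)
    · rw [hBo c h]
      exact hBF3 _ kk u N Λ hΛ

end Pool.Agent.H9x.PN
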