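import Pool.Agent.H9x.PN.Req
import Pool.Agent.H9x.PN.Khb
import Pool.Agent.H9x.PN.DecQ
import Pool.Agent.H9x.PN.DecS

/-!
# The world in which `Σ_k` is in `BQP` and the polynomial hierarchy is not
-/

set_option autoImplicit false
set_option linter.unusedSectionVars false
set_option linter.unusedVariables false

namespace Pool.Agent.H9x.PN

open Finset H568R2 Pool.Agent.H676 Pool.Agent.NPC Pool.Agent.H622R2 Pool.Agent.H620R2.Gauge
  Pool.Agent.H622R2.Exp Pool.Agent.TH678.ETH Pool.Agent.TH678.SETH Pool.Agent.TH678.RS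
  Pool.Agent.H9x.Q Filter Pool.Agent.H591R3.PHG

open Pool.Agent.H9x.RT (ll lev HZ HZ_iff Yes No UU mem_UU card_lev)
open Pool.Agent.H9x.SP (Sys Dt J orc base orc_on orc_off orc_free orc_loc tv tv_congr tv_true
  tv_false tv_iff enc_inj2 Blk Good sval Fools LB one_le_LB sum_lev_le Lv dat GLv good_dat
  exists_good)
open Pool.Agent.H9x.SN (er er_congr er_off nam nam_inj nam_len out_iff dtr_runD)
open Pool.Agent.H9x.V1 (finite_ext)

variable {k : ℕ} {ma : ℕ → Alg × Polynomial ℕ} {S R : ℕ → Polynomial ℕ}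

/-- requirements on data in the form of requirements on levels -/
theorem stage_gen {Y : Sys} {Bk : Y.K → Blk} {Q : Dt Y.K → Prop}
    (hreq : ∀ (N₀ : ℕ) (D₀ : Dt Y.K), Good Bk D₀.bl → ∃ (D' : Dt Y.K) (N' : ℕ), Good Bk D'.bl ∧
      (∀ c, Y.lev c < N₀ → D'.bl c = D₀.bl c) ∧
      (∀ u : List Bool, u.length < N₀ → D'.fr u = D₀.fr u) ∧
      ∀ D'' : Dt Y.K, (∀ c, Y.lev c < N' → D''.bl c = D'.bl c) →
        (∀ u : List Bool, u.length < N' → D''.fr u = D'.fr u) → Q D'')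
    (N₀ : ℕ) (κ : ℕ → Lv Y) (hκ : ∀ s, GLv Bk s (κ s)) :
    ∃ (κ' : ℕ → Lv Y) (N' : ℕ), (∀ s, GLv Bk s (κ' s)) ∧ (∀ s < N₀, κ' s = κ s) ∧
      ∀ κ'' : ℕ → Lv Y, (∀ s, GLv Bk s (κ'' s)) → (∀ s < N', κ'' s = κ' s) →
        Q (dat Y κ'') := by
  obtain ⟨D', N', hD', hb, hf, hne⟩ := hreq N₀ (dat Y κ) (good_dat hκ)
  set κ' : ℕ → Lv Y := fun s => if s < N₀ then κ s else (D'.bl, D'.fr) with hκ'
  have hdat : dat Y κ' = D' := by
    have e1 : (dat Y κ').bl = D'.bl := by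
      funext c
      show (κ' (Y.lev c)).1 c = _
      rw [hκ']
      simp only
      split_ifs with hlt
      · exact (hb c hlt).symm
      · rfl
    have e2 : (dat Y κ').fr = D'.fr := by
      funext v
      show (κ' v.length).2 v = _
      rw [hκ']
      simp only
      split_ifs with hlt
      · exact (hf v hlt).symm
      · rfl
    cases D'
    simp only at e1 e2
    rw [← e1, ← e2]
  refine ⟨κ', N', fun s => ?_, fun s hs => by rw [hκ']; exact if_pos hs, fun κ'' _ hag => ?_⟩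
  · rw [hκ']
    simp only
    split_ifs with hlt
    · exact hκ s
    · intro c hcs
      exact hD' c
  · refine hne (dat Y κ'') (fun c hc => ?_) fun v hv => ?_
    · show (κ'' (Y.lev c)).1 c = _
      rw [hag _ hc, ← hdat]
      rfl
    · show (κ'' v.length).2 v = _
      rw [hag _ hv, ← hdat]
      rfl

/-- **The world.** -/
theorem worldH (k : ℕ) : ∃ A : Oracle, (∀ L, IsSig A k L → IsBQP A L) ∧
    ∃ L, IsSig A (k + 6) L ∧ ¬ IsBQP A L := by
  have hne1 : Nonempty (Alg × Polynomial ℕ) := ⟨⟨⟨fun _ => [], CC.const_polyTime _, 0⟩, 0⟩⟩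
  have hcP := CC.poly_countable
  obtain ⟨ma, hma⟩ := exists_surjective_nat (Alg × Polynomial ℕ)
  obtain ⟨S, R, hK⟩ := exists_kh k ma
  obtain ⟨Bk, hB, hBk⟩ := exists_bkH (kk := k + 3) hK
  have hne2 : Nonempty QFamily := ⟨⟨fun _ => [], by
    have h1 : (fun u : List Bool => bits ((fun _ : ℕ => ([] : List Gate)) u.length)) =
        fun _ => bits ([] : List Gate) := rfl
    exact CC.const_polyTime _, 0⟩⟩
  obtain ⟨qf, hqf⟩ := exists_surjective_nat QFamily
  obtain ⟨κ, hκ, hP⟩ := finite_ext (β := Lv (sysH (k + 3) k ma S))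
    (GLv (Y := sysH (k + 3) k ma S) Bk)
    (fun j κ => ¬ Rt (qf j) (er (orc (sysH (k + 3) k ma S) (dat (sysH (k + 3) k ma S) κ)))
          (dat (sysH (k + 3) k ma S) κ).fr)
    (exists_good (Y := sysH (k + 3) k ma S) Bk)
    (fun j N₀ κ hκ => stage_gen (Y := sysH (k + 3) k ma S)
      (fun N₀ D₀ hD₀ => req_H hK hBk (qf j) N₀ D₀ hD₀) N₀ κ hκ)
  refine ⟨er (orc (sysH (k + 3) k ma S) (dat (sysH (k + 3) k ma S) κ)), fun L hL =>
    bqp_of_sig hma hK hB (good_dat hκ) hL, _, sig_hid hK hB (good_dat hκ), ?_⟩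
  rintro ⟨F, hF⟩
  obtain ⟨j, rfl⟩ := hqf F
  exact hP j hF

end Pool.Agent.H9x.PN
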