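import Pool.Agent.H9x.PN.ReqG
import Pool.Agent.H9x.PN.World
import Pool.Agent.H9x.PN.DecS2

/-!
# The world in which `Σ_k` is in `BQP` and `Σ_{k+1}` is not
-/

set_option autoImplicit false
set_option linter.unusedSectionVars false
set_option linter.unusedVariables false

namespace Pool.Agent.H9x.PN

open Finset H568R2 Pool.Agent.H676 Pool.Agent.NPC Pool.Agent.H622R2 Pool.Agent.H620R2.Gauge
  Pool.Agent.H622R2.Exp Pool.Agent.TH678.ETH Pool.Agent.TH678.SETH Pool.Agent.TH678.RS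
  Pool.Agent.H9x.Q Filter Pool.Agent.H591R3.PHG

open Pool.Agent.H9x.RT (ll lev HZ HZ_iff Yes No UU mem_UU card_lev)
open Pool.Agent.H9x.SP (Sys Dt J orc base orc_on orc_off orc_free orc_loc tv tv_congr tv_true
  tv_false tv_iff enc_inj2 Blk Good sval Fools LB one_le_LB sum_lev_le Lv dat GLv good_dat
  exists_good)
open Pool.Agent.H9x.SN (er er_congr er_off nam nam_inj nam_len out_iff dtr_runD)
open Pool.Agent.H9x.V1 (finite_ext)

/-- **The world.** -/
theorem worldG (kk : ℕ) : ∃ A : Oracle, (∀ L, IsSig A (kk + 1) L → IsBQP A L) ∧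
    ∃ L, IsSig A (kk + 2) L ∧ ¬ IsBQP A L := by
  have hne1 : Nonempty (Alg × Polynomial ℕ) := ⟨⟨⟨fun _ => [], CC.const_polyTime _, 0⟩, 0⟩⟩
  have hcP := CC.poly_countable
  obtain ⟨ma, hma⟩ := exists_surjective_nat (Alg × Polynomial ℕ)
  obtain ⟨S, R, hK⟩ := exists_kh (kk + 1) ma
  obtain ⟨Bk, hyes, hno, hsip, hBk⟩ := exists_bkP (kk := kk) hK (kk + 1 + 3)
  have hne2 : Nonempty QFamily := ⟨⟨fun _ => [], by
    have h1 : (fun u : List Bool => bits ((fun _ : ℕ => ([] : List Gate)) u.length)) =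
        fun _ => bits ([] : List Gate) := rfl
    exact CC.const_polyTime _, 0⟩⟩
  obtain ⟨qf, hqf⟩ := exists_surjective_nat QFamily
  obtain ⟨κ, hκ, hP⟩ := finite_ext (β := Lv (sysH kk (kk + 1) ma S))
    (GLv (Y := sysH kk (kk + 1) ma S) Bk)
    (fun j κ => ¬ Rt (qf j) (er (orc (sysH kk (kk + 1) ma S) (dat (sysH kk (kk + 1) ma S) κ)))
          (dat (sysH kk (kk + 1) ma S) κ).fr)
    (exists_good (Y := sysH kk (kk + 1) ma S) Bk)
    (fun j N₀ κ hκ => stage_gen (Y := sysH kk (kk + 1) ma S)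
      (fun N₀ D₀ hD₀ => req_G hK hsip hBk (qf j) N₀ D₀ hD₀) N₀ κ hκ)
  refine ⟨er (orc (sysH kk (kk + 1) ma S) (dat (sysH kk (kk + 1) ma S) κ)), fun L hL =>
    bqp_of_sig' hma hK hyes hno (good_dat hκ) hL, _,
    sig_hidP hK (fun c h t V => (hsip c h t V).1) (good_dat hκ), ?_⟩
  rintro ⟨F, hF⟩
  obtain ⟨j, rfl⟩ := hqf F
  exact hP j hF

end Pool.Agent.H9x.PN
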