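import Pool.Agent.H9x.PN.Row0

/-!
# The blocks with rows exist (piece BLKR)
-/

set_option autoImplicit false
set_option linter.unusedSectionVars false
set_option linter.unusedVariables false

namespace Pool.Agent.H9x.PN

open Finset Pool.Agent.NPC Pool.Agent.H622R2 Pool.Agent.H620R2.Gauge Pool.Agent.H622R2.Exp
  Pool.Agent.TH678.ETH Pool.Agent.TH678.SETH Pool.Agent.TH678.RS Pool.Agent.H9x.Q Filter
  Pool.Agent.H591R3.PHG

open Pool.Agent.H9x.RT (ll lev Yes No)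
open Pool.Agent.H9x.SP (Sys Blk Good Fools LB exists_for)

/-- **BLKR.** -/
theorem exists_bkR (S : ℕ → Polynomial ℕ) (k : ℕ) : ∃ Bk : ℕ × List Bool → Blk, BkR S Bk ∧
    ∀ (c : ℕ × List Bool) (u N Λ : ℕ), ¬ c.1 = 0 → Λ + 16 * lev S c + 84 + k ≤ 2 ^ (2 * u) →
      Fools (Bk c) k u N Λ (107 * LB u N k / 8 ^ (lev S c)) := by
  choose BF hBF1 hBF2 hBF3 using exists_for
  set Bk : ℕ × List Bool → Blk := fun c : ℕ × List Bool =>
    if c.1 = 0 then rowB (lev S c) else BF (lev S c) with hBk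
  have hBz : ∀ c : ℕ × List Bool, c.1 = 0 → Bk c = rowB (lev S c) := fun c h => if_pos h
  have hBo : ∀ c : ℕ × List Bool, ¬ c.1 = 0 → Bk c = BF (lev S c) := fun c h => if_neg h
  refine ⟨Bk, ⟨fun c h V hV => ?_, fun c h V hV => ?_, fun c h => hBz c h⟩,
    fun c u N Λ h hΛ => ?_⟩
  · rw [hBo c h] at hV
    exact (hBF1 _ V).1 hV
  · rw [hBo c h] at hV
    exact (hBF2 _ V).1 hV
  · rw [hBo c h]
    exact hBF3 _ k u N Λ hΛ

end Pool.Agent.H9x.PN
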