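import Pool.Agent.H9x.SP.Blk

/-!
# Two numbers
-/

set_option autoImplicit false

namespace Pool.Agent.H9x.PN

/-- the chance of a switching failure -/
noncomputable def epsS (X N k m t : ℕ) : ℝ :=
  X * (N + 1) * (k * 2 ^ (k * (2 * m + 1) + 2) * (1 / 2) ^ (t + 1))

/-- the chance of a free coordinate -/
noncomputable def pS (k t : ℕ) : ℝ := (1 / (24 * (t : ℝ))) ^ k

end Pool.Agent.H9x.PN
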