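import Pool.Agent.H9x.PN.Step
import Pool.Agent.H9x.PN.Nm0

/-!
# All windows
-/

set_option autoImplicit false
set_option linter.unusedSectionVars false
set_option linter.unusedVariables false

namespace Pool.Agent.H9x.PN

open Finset H568R2 Pool.Agent.H676 Pool.Agent.H620R2.Gauge Pool.Agent.NPC Pool.Agent.H622R2
  Pool.Agent.H622R2.Exp

open Pool.Agent.H9x.SP (Sys Dt J orc base orc_on orc_off orc_free orc_loc tv tv_congr Blk Fools Good)
open Pool.Agent.H9x.SN (er er_congr er_off)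
open Pool.Agent.H9x.RT (mkp EE EC)

theorem QC.zero {I : Type} [Fintype I] [DecidableEq I] {m : ℕ} : ∀ {k : ℕ} {b : Bool}
    {f : (I → Bool) → Bool}, QC 0 m k b f → ∀ z z', f z = f z'
  | 0, _, f, h, z, z' => by
    obtain ⟨c, hc⟩ := h
    rw [hc, hc]
  | k + 1, true, f, ⟨g, h1, h2⟩, z, z' => by
    rw [Bool.eq_iff_iff, h2, h2]
    exact exists_congr fun w => and_congr_right fun _ => by rw [(h1 w).zero z z']
  | k + 1, false, f, ⟨g, h1, h2⟩, z, z' => by
    rw [Bool.eq_iff_iff, h2, h2]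
    exact forall_congr' fun w => forall_congr' fun _ => by rw [(h1 w).zero z z']

variable {Y : Sys} {ι : Type} [Fintype ι] [DecidableEq ι] {fr : Option ι → List Bool → Bool}
  {W : ℕ → List Y.K} {XX : Finset Y.K} {T w m k : ℕ}

/-- collapsed windows -/
theorem Win.base (hW : Win Y fr W XX T w m k) {D : Y.K → Bool → List Bool → Bool}
    (hD : ∀ j, ∀ c ∈ W j, D c true = D c false) (i i' : Option ι) {c : Y.K} (hc : c ∈ XX) :
    tv Y c (orc Y ⟨D, fr i⟩) = tv Y c (orc Y ⟨D, fr i'⟩) := by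
  have h1 : ∀ y : List Bool, y.length ≤ T →
      er (orc Y ⟨D, fr i⟩) y = er (orc Y ⟨D, fr i'⟩) y := by
    intro y hy
    refine er_eq (fun c' hc' => ?_) hy
    by_cases hex : ∃ j, c' ∈ W j
    · obtain ⟨j, hj⟩ := hex
      have h2 : ∀ t, D c' t = D c' true := by
        intro t
        cases t
        · exact (hD j c' hj).symm
        · rfl
      rw [h2, h2 (tv Y c' (orc Y ⟨D, fr i'⟩))]
    · push Not at hex
      rw [hW.a2 c' hc' hex D D (fun _ _ => rfl) i i']
  have h2 := hW.aq Unit (fun z => if z () then orc Y ⟨D, fr i⟩ else orc Y ⟨D, fr i'⟩) 0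
    (fun y hy => by
      refine ⟨er (orc Y ⟨D, fr i'⟩) y, fun z => ?_⟩
      show er (if z () then orc Y ⟨D, fr i⟩ else orc Y ⟨D, fr i'⟩) y = _
      split_ifs
      · exact h1 y hy
      · rfl) c hc
  rw [Nat.mul_zero] at h2
  have h3 := h2.zero (fun _ => true) (fun _ => false)
  simpa using h3

/-- the list of the first windows -/
def Wl {K : Type} (W : ℕ → List K) : ℕ → List K
  | 0 => []
  | j + 1 => Wl W j ++ W j

theorem mem_Wl {K : Type} {W : ℕ → List K} {c : K} : ∀ {j : ℕ}, c ∈ Wl W j ↔ ∃ i < j, c ∈ W i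
  | 0 => by simp [Wl]
  | j + 1 => by
    rw [Wl, List.mem_append, mem_Wl]
    constructor
    · rintro (⟨i, hi, h⟩ | h)
      · exact ⟨i, by omega, h⟩
      · exact ⟨j, by omega, h⟩
    · rintro ⟨i, hi, h⟩
      by_cases hij : i = j
      · subst hij
        exact Or.inr h
      · exact Or.inl ⟨i, by omega, h⟩

variable {Bk : Y.K → Blk}

/-- **All windows.** -/
theorem Win.chain (hW : Win Y fr W XX T w m k) {r m' u Λ : ℕ} {Ks t : ℕ → ℕ} {δ : Y.K → ℝ}
    (hm : m ≤ m')
    (hm2 : ∀ j < r, 2 * (XX.card * Fintype.card ι ^ (Ks (j + 1) + 1)) ≤ 2 ^ m')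
    (hm3 : ∀ j < r, Ks (j + 1) + 2 ≤ 2 ^ m') (hu : w ≤ 2 ^ (2 * u))
    (hΛ : (k + 3) * (2 * m' + 1) ≤ Λ)
    (hfool : ∀ j < r, ∀ c ∈ W j, Fools (Bk c) (k + 3) u 1 Λ (δ c))
    (ht : ∀ j < r, w * (Ks j + 1) ≤ t j) (ht1 : ∀ j < r, 1 ≤ t j)
    (hK : ∀ j < r, 2 * (16 * (t j : ℝ) * Ks j + t j + 1) ≤ pS k (t j) * (Ks (j + 1) + 1))
    {q : ℕ → ℝ} (hq0 : 0 ≤ q 0) (hq : ∀ j < r, ((W j).map δ).sum +
      2 / pS k (t j) * epsS XX.card (Fintype.card ι) k m (t j) +
      (2 / pS k (t j) * (16 * t j) + 1) * q j ≤ q (j + 1)) :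
    ∀ j ≤ r, ∀ D : Y.K → Bool → List Bool → Bool,
      (∀ j', j ≤ j' → ∀ c ∈ W j', D c true = D c false) →
      EE (fun c => (Bk c).P true) (fun c => (Bk c).P false) (fun c => (Bk c).enc) (Wl W j)
        (fun B => ind (bd Y fr XX (if j = 0 then 0 else Ks j) B)) D ≤ q j := by
  have hP : ∀ (c : Y.K) (z : (Bk c).I → Bool), 0 ≤ (Bk c).P true z := fun c z => (Bk c).nn true z
  have hQ : ∀ (c : Y.K) (z : (Bk c).I → Bool), 0 ≤ (Bk c).P false z := fun c z => (Bk c).nn false z
  have hP1 : ∀ c : Y.K, ∑ z, (Bk c).P true z = 1 := fun c => (Bk c).s1 true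
  have hQ1 : ∀ c : Y.K, ∑ z, (Bk c).P false z = 1 := fun c => (Bk c).s1 false
  have hbase : ∀ D : Y.K → Bool → List Bool → Bool, (∀ j', ∀ c ∈ W j', D c true = D c false) →
      ∀ K, ¬ bd Y fr XX K D := by
    rintro D hD K ⟨c, hc, hlt⟩
    rw [filter_false_of_mem fun i _ => by
      rw [ne_eq, not_not]
      exact hW.base hD (some i) none hc] at hlt
    simp at hlt
  intro j
  induction j with
  | zero =>
    intro _ D hD
    show ind _ ≤ q 0
    rw [ind_false (hbase D (fun j' => hD j' (Nat.zero_le _)) _)]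
    exact hq0
  | succ j ih =>
    intro hj D hD
    rw [Wl, EE_append, if_neg (Nat.succ_ne_zero j)]
    set a : ℝ := ((W j).map δ).sum + 2 / pS k (t j) * epsS XX.card (Fintype.card ι) k m (t j) with ha
    set b : ℝ := 2 / pS k (t j) * (16 * t j) + 1 with hb
    have hpos : 0 < pS k (t j) := by
      have : (1 : ℝ) ≤ t j := by exact_mod_cast ht1 j (by omega)
      unfold pS
      positivity
    have hb0 : 0 ≤ b := by positivity
    have h1 := EE_mono (enc := fun c => (Bk c).enc) hP hQ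
      (F := EE (fun c => (Bk c).P true) (fun c => (Bk c).P false) (fun c => (Bk c).enc) (W j)
        (fun B => ind (bd Y fr XX (Ks (j + 1)) B)))
      (G := fun D' => a + b * EC (fun c => (Bk c).P false) (fun c => (Bk c).enc) (W j)
        (fun B => ind (bd Y fr XX (if j = 0 then 0 else Ks j) B)) D') (Wl W j) D
      fun D' hD' => by
        have h2 : ∀ j', j < j' → ∀ c ∈ W j', D' c true = D' c false := by
          intro j' hj' c hc
          rw [hD' c]
          · exact hD j' hj' c hc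
          · intro hcl
            obtain ⟨i, hi, hci⟩ := mem_Wl.1 hcl
            have := hW.dj i j' c hci hc
            omega
        have h3 := hW.step (Bk := Bk) (K := if j = 0 then 0 else Ks j) (K' := Ks (j + 1)) (t := t j) h2
          hm (hm2 j (by omega)) (hm3 j (by omega))
          hu hΛ (hfool j (by omega)) (le_trans (Nat.mul_le_mul_left _ (by
            split_ifs <;> omega)) (ht j (by omega))) (ht1 j (by omega)) rfl (le_refl
              (XX.card * (Fintype.card ι + 1) * (k * 2 ^ (k * (2 * m + 1) + 2) *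
                (1 / 2) ^ (t j + 1)) : ℝ)) (le_trans ?_ (hK j (by omega)))
        · exact h3
        · have h4 : ((if j = 0 then 0 else Ks j : ℕ) : ℝ) ≤ Ks j := by
            split_ifs
            · exact_mod_cast Nat.zero_le _
            · exact le_rfl
          have h5 : (0 : ℝ) ≤ t j := Nat.cast_nonneg _
          nlinarith
    refine h1.trans ?_
    rw [EE_affine hP1 hQ1, EE_EC_comm _ (Wl W j) (W j) (fun c hc hc' => by
      obtain ⟨i, hi, hci⟩ := mem_Wl.1 hc
      have := hW.dj i j c hci hc'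
      omega)]
    refine le_trans ?_ (hq j (by omega))
    have h6 : EC (fun c => (Bk c).P false) (fun c => (Bk c).enc) (W j)
        (EE (fun c => (Bk c).P true) (fun c => (Bk c).P false) (fun c => (Bk c).enc) (Wl W j)
          fun B => ind (bd Y fr XX (if j = 0 then 0 else Ks j) B)) D ≤ q j := by
      refine EC_le_of hQ hQ1 _ _ fun D'' h2 h3 => ih (by omega) D'' fun j' hj' c hc => ?_
      by_cases hjj : j' = j
      · subst hjj
        exact h2 c hc
      · rw [h3 c fun hc' => hjj (hW.dj j' j c hc hc')]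
        exact hD j' (by omega) c hc
    have h7 := mul_le_mul_of_nonneg_left h6 hb0
    linarith

/-- **Good contents in which no question separates many worlds.** -/
theorem Win.exists_good (hW : Win Y fr W XX T w m k) {r m' u Λ : ℕ} {Ks t : ℕ → ℕ} {δ : Y.K → ℝ}
    (hm : m ≤ m')
    (hm2 : ∀ j < r, 2 * (XX.card * Fintype.card ι ^ (Ks (j + 1) + 1)) ≤ 2 ^ m')
    (hm3 : ∀ j < r, Ks (j + 1) + 2 ≤ 2 ^ m') (hu : w ≤ 2 ^ (2 * u))
    (hΛ : (k + 3) * (2 * m' + 1) ≤ Λ)
    (hfool : ∀ j < r, ∀ c ∈ W j, Fools (Bk c) (k + 3) u 1 Λ (δ c))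
    (ht : ∀ j < r, w * (Ks j + 1) ≤ t j) (ht1 : ∀ j < r, 1 ≤ t j)
    (hK : ∀ j < r, 2 * (16 * (t j : ℝ) * Ks j + t j + 1) ≤ pS k (t j) * (Ks (j + 1) + 1))
    {q : ℕ → ℝ} (hq0 : 0 ≤ q 0) (hq : ∀ j < r, ((W j).map δ).sum +
      2 / pS k (t j) * epsS XX.card (Fintype.card ι) k m (t j) +
      (2 / pS k (t j) * (16 * t j) + 1) * q j ≤ q (j + 1)) (hqr : q r < 1) (hr : r ≠ 0)
    (hWr : ∀ j, r ≤ j → W j = []) (D : Y.K → Bool → List Bool → Bool) (hD : Good Bk D) :
    ∃ D' : Y.K → Bool → List Bool → Bool, Good Bk D' ∧ (∀ c, (∀ j, c ∉ W j) → D' c = D c) ∧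
      ¬ bd Y fr XX (Ks r) D' := by
  have hP : ∀ (c : Y.K) (z : (Bk c).I → Bool), 0 ≤ (Bk c).P true z := fun c z => (Bk c).nn true z
  have hQ : ∀ (c : Y.K) (z : (Bk c).I → Bool), 0 ≤ (Bk c).P false z := fun c z => (Bk c).nn false z
  have hP1 : ∀ c : Y.K, ∑ z, (Bk c).P true z = 1 := fun c => (Bk c).s1 true
  have hQ1 : ∀ c : Y.K, ∑ z, (Bk c).P false z = 1 := fun c => (Bk c).s1 false
  by_contra hcon
  push Not at hcon
  have h1 := hW.chain (Bk := Bk) hm hm2 hm3 hu hΛ hfool ht ht1 hK hq0 hq r le_rfl D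
    fun j' hj' c hc => by
      rw [hWr j' hj'] at hc
      exact absurd hc List.not_mem_nil
  rw [if_neg hr] at h1
  have h2 : (1 : ℝ) ≤ EE (fun c => (Bk c).P true) (fun c => (Bk c).P false)
      (fun c => (Bk c).enc) (Wl W r) (fun B => ind (bd Y fr XX (Ks r) B)) D := by
    refine RU.EE_ge hP hQ hP1 hQ1 (G := fun c V => ∀ t, (Bk c).good t (V t)) (fun c z z' hz hz' t => ?_)
      (Wl W r) D fun D' h3 h4 => ?_
    · cases t
      · exact (Bk c).sup false z' hz'
      · exact (Bk c).sup true z hz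
    · rw [ind_true]
      refine hcon D' (fun c t => ?_) fun c hc => h4 c fun hcl => ?_
      · by_cases hc : c ∈ Wl W r
        · exact h3 c hc t
        · rw [h4 c hc]
          exact hD c t
      · obtain ⟨i, _, hci⟩ := mem_Wl.1 hcl
        exact hc i hci
  linarith

end Pool.Agent.H9x.PN
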