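import Pool.Agent.H9x.PN.Chain1

/-!
# All windows, with random contents of the rows
-/

set_option autoImplicit false
set_option linter.unusedSectionVars false
set_option linter.unusedVariables false

namespace Pool.Agent.H9x.PN

open Finset H568R2 Pool.Agent.H676 Pool.Agent.H620R2.Gauge Pool.Agent.NPC Pool.Agent.H622R2
  Pool.Agent.H622R2.Exp

open Pool.Agent.H9x.SP (Sys Dt J orc base orc_on orc_off orc_free orc_loc tv tv_congr Blk Fools Good)
open Pool.Agent.H9x.SN (er er_congr er_off)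
open Pool.Agent.H9x.RT (mkp EE EC EC_sum)

theorem EC_map {K : Type*} [DecidableEq K] {W : Type*} {Z : K → Type*} [∀ c, Fintype (Z c)]
    {Q : ∀ c, Z c → ℝ} {enc : ∀ c, Z c → W} (Φ : (K → Bool → W) → (K → Bool → W))
    (F : (K → Bool → W) → ℝ) : ∀ (C : List K),
    (∀ c ∈ C, ∀ D v, Φ (Function.update D c v) = Function.update (Φ D) c v) →
    ∀ D : K → Bool → W, EC Q enc C F (Φ D) = EC Q enc C (fun D' => F (Φ D')) D
  | [], _, D => rfl
  | c :: C, h, D => by
    simp only [EC]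
    refine sum_congr rfl fun z' _ => ?_
    rw [← h c List.mem_cons_self, EC_map Φ F C fun c' hc' => h c' (List.mem_cons_of_mem _ hc')]

variable {Y : Sys} {ι : Type} [Fintype ι] [DecidableEq ι]
  {W : ℕ → List Y.K} {XX : Finset Y.K} {T w m k : ℕ}

/-- fewer worlds -/
theorem Win.precomp {ι' : Type} [Fintype ι'] [DecidableEq ι'] {fr : Option ι → List Bool → Bool}
    (hW : Win Y fr W XX T w m k) {e : ι' → ι} (he : Function.Injective e) :
    Win Y (fun i : Option ι' => fr (i.map e)) W XX T w m k := by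
  refine ⟨hW.nd, hW.dj, fun j c hc B B' hB i => hW.a1 j c hc B B' hB (i.map e),
    fun c hT hc B B' hB i i' => hW.a2 c hT hc B B' hB (i.map e) (i'.map e), fun j c hc => ?_, hW.aq⟩
  rcases hW.ad j c hc with h | h
  · exact Or.inl h
  · refine Or.inr fun B => le_trans ?_ (h B)
    refine card_le_card_of_injOn e (fun i hi => ?_) he.injOn
    rw [mem_coe, mem_filter] at hi ⊢
    exact ⟨mem_univ _, hi.2⟩

variable {Bk : Y.K → Blk} {Ω : Type} [Fintype Ω] {μ : Ω → ℝ}
  {Φ : Ω → (Y.K → Bool → List Bool → Bool) → (Y.K → Bool → List Bool → Bool)}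
  {fr : Ω → Option ι → List Bool → Bool}

/-- **All windows.** -/
theorem chainO [Nonempty Ω] (hW : ∀ ω, Win Y (fr ω) W XX T w m k) {r m' u Λ : ℕ} {Ks t : ℕ → ℕ} {δ : Y.K → ℝ}
    (hμ : ∀ ω, 0 ≤ μ ω) (hμ1 : ∑ ω, μ ω ≤ 1)
    (hΦ : ∀ ω j, 1 ≤ j → ∀ c ∈ W j, ∀ D v, Φ ω (Function.update D c v) =
      Function.update (Φ ω D) c v)
    (hΦ2 : ∀ ω D c, c ∉ W 0 → Φ ω D c = D c) (hδ : ∀ c, 0 ≤ δ c)
    (hm : m ≤ m')
    (hm2 : ∀ j < r, 2 * (XX.card * Fintype.card ι ^ (Ks (j + 1) + 1)) ≤ 2 ^ m')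
    (hm3 : ∀ j < r, Ks (j + 1) + 2 ≤ 2 ^ m') (hu : w ≤ 2 ^ (2 * u))
    (hΛ : (k + 3) * (2 * m' + 1) ≤ Λ)
    (hfool : ∀ j < r, 1 ≤ j → ∀ c ∈ W j, Fools (Bk c) (k + 3) u 1 Λ (δ c))
    (ht : ∀ j < r, 1 ≤ j → w * (Ks j + 1) ≤ t j) (ht1 : ∀ j < r, 1 ≤ j → 1 ≤ t j)
    (hK : ∀ j < r, 1 ≤ j →
      2 * (16 * (t j : ℝ) * Ks j + t j + 1) ≤ pS k (t j) * (Ks (j + 1) + 1))
    {q : ℕ → ℝ}
    (hbase : ∀ D : Y.K → Bool → List Bool → Bool, (∀ j', 1 ≤ j' → ∀ c ∈ W j', D c true = D c false) →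
      ∑ ω, μ ω * ind (bd Y (fr ω) XX (Ks 1) (Φ ω D)) ≤ q 1)
    (hq : ∀ j < r, 1 ≤ j → ((W j).map δ).sum +
      2 / pS k (t j) * epsS XX.card (Fintype.card ι) k m (t j) +
      (2 / pS k (t j) * (16 * t j) + 1) * q j ≤ q (j + 1)) :
    ∀ j, j + 1 ≤ r → ∀ D : Y.K → Bool → List Bool → Bool,
      (∀ j', j + 1 ≤ j' → ∀ c ∈ W j', D c true = D c false) →
      ∑ ω, μ ω * EE (fun c => (Bk c).P true) (fun c => (Bk c).P false) (fun c => (Bk c).enc)
        (Wl (fun i => W (i + 1)) j) (fun B => ind (bd Y (fr ω) XX (Ks (j + 1)) B)) (Φ ω D) ≤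
        q (j + 1) := by
  have hP : ∀ (c : Y.K) (z : (Bk c).I → Bool), 0 ≤ (Bk c).P true z := fun c z => (Bk c).nn true z
  have hQ : ∀ (c : Y.K) (z : (Bk c).I → Bool), 0 ≤ (Bk c).P false z := fun c z => (Bk c).nn false z
  have hP1 : ∀ c : Y.K, ∑ z, (Bk c).P true z = 1 := fun c => (Bk c).s1 true
  have hQ1 : ∀ c : Y.K, ∑ z, (Bk c).P false z = 1 := fun c => (Bk c).s1 false
  intro j
  induction j with
  | zero =>
    intro _ D hD
    exact hbase D hD
  | succ j ih =>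
    intro hj D hD
    set t' := t (j + 1) with ht'
    set a : ℝ := ((W (j + 1)).map δ).sum +
      2 / pS k t' * epsS XX.card (Fintype.card ι) k m t' with ha
    set b : ℝ := 2 / pS k t' * (16 * t') + 1 with hb
    have hpos : 0 < pS k t' := by
      have : (1 : ℝ) ≤ t' := by exact_mod_cast ht1 (j + 1) (by omega) (by omega)
      unfold pS
      positivity
    have hb0 : 0 ≤ b := by positivity
    have ha0 : 0 ≤ a := by
      have h1 : 0 ≤ ((W (j + 1)).map δ).sum := List.sum_nonneg fun x hx => by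
        obtain ⟨c, _, rfl⟩ := List.mem_map.1 hx
        exact hδ c
      have h2 : 0 ≤ epsS XX.card (Fintype.card ι) k m t' := by
        unfold epsS
        positivity
      positivity
    have hterm : ∀ ω, EE (fun c => (Bk c).P true) (fun c => (Bk c).P false) (fun c => (Bk c).enc)
        (Wl (fun i => W (i + 1)) (j + 1)) (fun B => ind (bd Y (fr ω) XX (Ks (j + 1 + 1)) B))
          (Φ ω D) ≤ a + b * EC (fun c => (Bk c).P false) (fun c => (Bk c).enc) (W (j + 1))
            (fun D' => EE (fun c => (Bk c).P true) (fun c => (Bk c).P false) (fun c => (Bk c).enc)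
              (Wl (fun i => W (i + 1)) j) (fun B => ind (bd Y (fr ω) XX (Ks (j + 1)) B))
                (Φ ω D')) D := by
      intro ω
      rw [Wl, EE_append]
      have h1 := EE_mono (enc := fun c => (Bk c).enc) hP hQ
        (F := EE (fun c => (Bk c).P true) (fun c => (Bk c).P false) (fun c => (Bk c).enc)
          (W (j + 1)) (fun B => ind (bd Y (fr ω) XX (Ks (j + 1 + 1)) B)))
        (G := fun D' => a + b * EC (fun c => (Bk c).P false) (fun c => (Bk c).enc) (W (j + 1))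
          (fun B => ind (bd Y (fr ω) XX (Ks (j + 1)) B)) D')
        (Wl (fun i => W (i + 1)) j) (Φ ω D) fun D' hD' => by
          have h2 : ∀ j', j + 1 < j' → ∀ c ∈ W j', D' c true = D' c false := by
            intro j' hj' c hc
            have h3 : c ∉ Wl (fun i => W (i + 1)) j := by
              intro hcl
              obtain ⟨i, hi, hci⟩ := mem_Wl.1 hcl
              have := (hW ω).dj (i + 1) j' c hci hc
              omega
            have h4 : c ∉ W 0 := fun hc0 => by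
              have := (hW ω).dj 0 j' c hc0 hc
              omega
            rw [hD' c h3, hΦ2 ω D c h4]
            exact hD j' (by omega) c hc
          have h3 := (hW ω).step (Bk := Bk) (K := Ks (j + 1)) (K' := Ks (j + 1 + 1)) (t := t') h2
            hm (hm2 (j + 1) (by omega)) (hm3 (j + 1) (by omega))
            hu hΛ (hfool (j + 1) (by omega) (by omega)) (ht (j + 1) (by omega) (by omega))
            (ht1 (j + 1) (by omega) (by omega)) rfl (le_refl
                (XX.card * (Fintype.card ι + 1) * (k * 2 ^ (k * (2 * m + 1) + 2) *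
                  (1 / 2) ^ (t' + 1)) : ℝ)) (hK (j + 1) (by omega) (by omega))
          exact h3
      refine h1.trans (le_of_eq ?_)
      rw [EE_affine hP1 hQ1, EE_EC_comm _ (Wl (fun i => W (i + 1)) j) (W (j + 1)) (fun c hc hc' => by
        obtain ⟨i, hi, hci⟩ := mem_Wl.1 hc
        have := (hW ω).dj (i + 1) (j + 1) c hci hc'
        omega), EC_map (Φ ω) _ (W (j + 1)) fun c hc D' v => hΦ ω (j + 1) (by omega) c hc D' v]
    have h2 : ∑ ω, μ ω * EE (fun c => (Bk c).P true) (fun c => (Bk c).P false)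
        (fun c => (Bk c).enc) (Wl (fun i => W (i + 1)) (j + 1))
        (fun B => ind (bd Y (fr ω) XX (Ks (j + 1 + 1)) B)) (Φ ω D) ≤
        a + b * ∑ ω, μ ω * EC (fun c => (Bk c).P false) (fun c => (Bk c).enc) (W (j + 1))
            (fun D' => EE (fun c => (Bk c).P true) (fun c => (Bk c).P false) (fun c => (Bk c).enc)
              (Wl (fun i => W (i + 1)) j) (fun B => ind (bd Y (fr ω) XX (Ks (j + 1)) B))
                (Φ ω D')) D := by
      refine (sum_le_sum fun ω _ => mul_le_mul_of_nonneg_left (hterm ω) (hμ ω)).trans ?_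
      rw [sum_congr rfl fun ω _ => mul_add _ _ _, sum_add_distrib, ← sum_mul, mul_sum]
      refine add_le_add ?_ (le_of_eq (sum_congr rfl fun ω _ => by ring))
      nlinarith
    refine h2.trans (le_trans ?_ (hq (j + 1) (by omega) (by omega)))
    have h3 := EC_sum (Q := fun c => (Bk c).P false) (enc := fun c => (Bk c).enc)
      (univ : Finset Ω) μ (fun ω D' => EE (fun c => (Bk c).P true) (fun c => (Bk c).P false)
        (fun c => (Bk c).enc) (Wl (fun i => W (i + 1)) j)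
          (fun B => ind (bd Y (fr ω) XX (Ks (j + 1)) B)) (Φ ω D')) (W (j + 1)) D
    rw [← h3]
    have h6 := EC_le_of (Q := fun c => (Bk c).P false) (enc := fun c => (Bk c).enc)
      (d := q (j + 1)) hQ hQ1 (F := fun D' => ∑ ω, μ ω *
        EE (fun c => (Bk c).P true) (fun c => (Bk c).P false)
        (fun c => (Bk c).enc) (Wl (fun i => W (i + 1)) j)
          (fun B => ind (bd Y (fr ω) XX (Ks (j + 1)) B)) (Φ ω D')) (W (j + 1)) D
      fun D'' h4 h5 => ih (by omega) D'' fun j' hj' c hc => by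
        by_cases hjj : j' = j + 1
        · subst hjj
          exact h4 c hc
        · rw [h5 c fun hc' => ?_]
          · exact hD j' (by omega) c hc
          · obtain ⟨ω⟩ := ‹Nonempty Ω›
            exact hjj ((hW ω).dj j' (j + 1) c hc hc')
    have h7 := mul_le_mul_of_nonneg_left h6 hb0
    linarith

/-- **Good contents in which no question separates many worlds.** -/
theorem exists_goodO [Nonempty Ω] (hW : ∀ ω, Win Y (fr ω) W XX T w m k) {r m' u Λ : ℕ}
    {Ks t : ℕ → ℕ} {δ : Y.K → ℝ}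
    (hμ : ∀ ω, 0 ≤ μ ω) (hμ1 : ∑ ω, μ ω ≤ 1)
    (hΦ : ∀ ω j, 1 ≤ j → ∀ c ∈ W j, ∀ D v, Φ ω (Function.update D c v) =
      Function.update (Φ ω D) c v)
    (hΦ2 : ∀ ω D c, c ∉ W 0 → Φ ω D c = D c) (hδ : ∀ c, 0 ≤ δ c)
    (hm : m ≤ m')
    (hm2 : ∀ j < r, 2 * (XX.card * Fintype.card ι ^ (Ks (j + 1) + 1)) ≤ 2 ^ m')
    (hm3 : ∀ j < r, Ks (j + 1) + 2 ≤ 2 ^ m') (hu : w ≤ 2 ^ (2 * u))
    (hΛ : (k + 3) * (2 * m' + 1) ≤ Λ)
    (hfool : ∀ j < r, 1 ≤ j → ∀ c ∈ W j, Fools (Bk c) (k + 3) u 1 Λ (δ c))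
    (ht : ∀ j < r, 1 ≤ j → w * (Ks j + 1) ≤ t j) (ht1 : ∀ j < r, 1 ≤ j → 1 ≤ t j)
    (hK : ∀ j < r, 1 ≤ j →
      2 * (16 * (t j : ℝ) * Ks j + t j + 1) ≤ pS k (t j) * (Ks (j + 1) + 1))
    {q : ℕ → ℝ}
    (hbase : ∀ D : Y.K → Bool → List Bool → Bool, (∀ j', 1 ≤ j' → ∀ c ∈ W j', D c true = D c false) →
      ∑ ω, μ ω * ind (bd Y (fr ω) XX (Ks 1) (Φ ω D)) ≤ q 1)
    (hq : ∀ j < r, 1 ≤ j → ((W j).map δ).sum +
      2 / pS k (t j) * epsS XX.card (Fintype.card ι) k m (t j) +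
      (2 / pS k (t j) * (16 * t j) + 1) * q j ≤ q (j + 1)) (hqr : q r < ∑ ω, μ ω) (hr : r ≠ 0)
    (hWr : ∀ j, r ≤ j → W j = []) (D : Y.K → Bool → List Bool → Bool)
    (hD : ∀ ω, Good Bk (Φ ω D)) :
    ∃ ω, ∃ D' : Y.K → Bool → List Bool → Bool, Good Bk D' ∧
      (∀ c, (∀ j, 1 ≤ j → c ∉ W j) → D' c = Φ ω D c) ∧ ¬ bd Y (fr ω) XX (Ks r) D' := by
  have hP : ∀ (c : Y.K) (z : (Bk c).I → Bool), 0 ≤ (Bk c).P true z := fun c z => (Bk c).nn true z
  have hQ : ∀ (c : Y.K) (z : (Bk c).I → Bool), 0 ≤ (Bk c).P false z := fun c z => (Bk c).nn false z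
  have hP1 : ∀ c : Y.K, ∑ z, (Bk c).P true z = 1 := fun c => (Bk c).s1 true
  have hQ1 : ∀ c : Y.K, ∑ z, (Bk c).P false z = 1 := fun c => (Bk c).s1 false
  by_contra hcon
  push Not at hcon
  obtain ⟨l, rfl⟩ : ∃ l, r = l + 1 := ⟨r - 1, by omega⟩
  have h1 := chainO (Bk := Bk) hW hμ hμ1 hΦ hΦ2 hδ hm hm2 hm3 hu hΛ hfool ht ht1 hK hbase hq l le_rfl D
    fun j' hj' c hc => by
      rw [hWr j' hj'] at hc
      exact absurd hc List.not_mem_nil
  have h2 : ∀ ω, (1 : ℝ) ≤ EE (fun c => (Bk c).P true) (fun c => (Bk c).P false)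
      (fun c => (Bk c).enc) (Wl (fun i => W (i + 1)) l)
        (fun B => ind (bd Y (fr ω) XX (Ks (l + 1)) B)) (Φ ω D) := by
    intro ω
    refine RU.EE_ge hP hQ hP1 hQ1 (G := fun c V => ∀ t, (Bk c).good t (V t)) (fun c z z' hz hz' t => ?_)
      (Wl (fun i => W (i + 1)) l) (Φ ω D) fun D' h3 h4 => ?_
    · cases t
      · exact (Bk c).sup false z' hz'
      · exact (Bk c).sup true z hz
    · rw [ind_true]
      refine hcon ω D' (fun c t => ?_) fun c hc => h4 c fun hcl => ?_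
      · by_cases hc : c ∈ Wl (fun i => W (i + 1)) l
        · exact h3 c hc t
        · rw [h4 c hc]
          exact hD ω c t
      · obtain ⟨i, _, hci⟩ := mem_Wl.1 hcl
        exact hc (i + 1) (by omega) hci
  have h3 : ∑ ω, μ ω ≤ ∑ ω, μ ω * EE (fun c => (Bk c).P true) (fun c => (Bk c).P false)
      (fun c => (Bk c).enc) (Wl (fun i => W (i + 1)) l)
        (fun B => ind (bd Y (fr ω) XX (Ks (l + 1)) B)) (Φ ω D) :=
    sum_le_sum fun ω _ => le_mul_of_one_le_right (hμ ω) (h2 ω)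
  linarith

end Pool.Agent.H9x.PN
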