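import Pool.Agent.H9x.PN.Cube0

/-!
# Piece CUBE: sensitivity of families of functions on the cube
-/

set_option autoImplicit false
set_option linter.unusedSectionVars false

namespace Pool.Agent.H9x.PN

open Finset H568R2 Pool.Agent.H676

namespace CubeP

variable {I : Type} [Fintype I] [DecidableEq I]

/-- the weight of a biased bit -/
noncomputable def ws (p : ℝ) (s : Bool) : ℝ := if s then p else 1 - p

/-- the weight of a fair bit -/
noncomputable def u (_ : Bool) : ℝ := 1 / 2

theorem ws_sum (p : ℝ) : ∑ a, ws p a = 1 := by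
  rw [Fintype.sum_bool]
  simp [ws]

theorem ws_nonneg {p : ℝ} (h0 : 0 ≤ p) (h1 : p ≤ 1) (a : Bool) : 0 ≤ ws p a := by
  unfold ws
  split_ifs
  · exact h0
  · linarith

theorem u_sum : ∑ a, u a = 1 := by
  rw [Fintype.sum_bool]
  norm_num [u]

theorem Av_eq (F : (I → Bool) → ℝ) : Av F = Ex u F := by
  unfold Av Ex u
  rw [Finset.sum_div]
  refine Finset.sum_congr rfl fun ω _ => ?_
  rw [Finset.prod_const, Finset.card_univ, one_div, inv_pow]
  field_simp

/-- probability of a pattern -/
theorem Ex_pat {θ : ℝ} (i : I) (Q : Finset I) (hi : i ∉ Q) :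
    Ex (ws θ) (fun g : I → Bool => if g i = true ∧ ∀ j ∈ Q, g j = false then (1 : ℝ) else 0) =
      θ * (1 - θ) ^ Q.card := by
  have h1 := Ex_indep (ws_sum θ) (fun a : Bool => a = false) Q
    (fun g : I → Bool => if g i = true then (1 : ℝ) else 0) (by
      intro j hj ω a
      have : i ≠ j := fun h => hi (h ▸ hj)
      simp only [Function.update_of_ne this])
  have h2 := Ex_indep (I := I) (ws_sum θ) (fun a : Bool => a = true) {i}
    (fun _ => (1 : ℝ)) (fun _ _ _ _ => rfl)
  rw [Ex_const (ws_sum θ)] at h2
  have e1 : ∑ a ∈ univ.filter (fun a : Bool => a = false), ws θ a = 1 - θ := by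
    rw [Finset.filter_eq' univ false, if_pos (mem_univ _), sum_singleton]
    simp [ws]
  have e2 : ∑ a ∈ univ.filter (fun a : Bool => a = true), ws θ a = θ := by
    rw [Finset.filter_eq' univ true, if_pos (mem_univ _), sum_singleton]
    simp [ws]
  rw [e1] at h1
  rw [e2, card_singleton, pow_one, mul_one] at h2
  have e3 : (fun g : I → Bool => (1 : ℝ) * (if ∀ j ∈ ({i} : Finset I), g j = true then 1 else 0)) =
      fun g => if g i = true then (1 : ℝ) else 0 := by
    funext g
    simp
  rw [e3] at h2
  rw [h2] at h1
  rw [mul_comm, ← h1]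
  congr 1
  funext g
  by_cases h : g i = true <;> simp [h]

theorem Ex_one {p : ℝ} (i : I) :
    Ex (ws p) (fun s : I → Bool => if s i = true then (1 : ℝ) else 0) = p := by
  have := Ex_pat (θ := p) i ∅ (by simp)
  simpa using this

/-- Markov's inequality for the number of stars -/
theorem stars {p : ℝ} (h0 : 0 < p) (h1 : p ≤ 1) (I₀ : Finset I) (hI : I₀.Nonempty) :
    p / 2 ≤ Ex (ws p) (fun s : I → Bool =>
      if p * I₀.card / 2 ≤ ((I₀.filter fun i => s i = true).card : ℝ) then (1 : ℝ) else 0) := by
  have hM : (0 : ℝ) < I₀.card := by exact_mod_cast card_pos.2 hI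
  have h2 : Ex (ws p) (fun s : I → Bool => ((I₀.filter fun i => s i = true).card : ℝ)) =
      p * I₀.card := by
    have : (fun s : I → Bool => ((I₀.filter fun i => s i = true).card : ℝ)) =
        fun s => ∑ i ∈ I₀, if s i = true then (1 : ℝ) else 0 := by
      funext s
      rw [Finset.sum_boole]
    rw [this, Ex_sum]
    rw [Finset.sum_congr rfl fun i _ => Ex_one i, sum_const, nsmul_eq_mul, mul_comm]
  have h3 : Ex (ws p) (fun s : I → Bool => ((I₀.filter fun i => s i = true).card : ℝ)) ≤
      Ex (ws p) (fun s : I → Bool => I₀.card *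
        (if p * I₀.card / 2 ≤ ((I₀.filter fun i => s i = true).card : ℝ) then (1 : ℝ) else 0) +
        p * I₀.card / 2) := by
    apply Ex_mono (ws_nonneg h0.le h1)
    intro s
    have hc : ((I₀.filter fun i => s i = true).card : ℝ) ≤ I₀.card := by
      exact_mod_cast card_filter_le _ _
    split_ifs with h
    · have : 0 ≤ p * I₀.card / 2 := by positivity
      linarith
    · push Not at h
      linarith
  rw [h2, Ex_add, Ex_smul, Ex_const (ws_sum p)] at h3
  have h4 : p / 2 * I₀.card ≤ Ex (ws p) (fun s : I → Bool =>
      if p * I₀.card / 2 ≤ ((I₀.filter fun i => s i = true).card : ℝ) then (1 : ℝ) else 0) *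
      I₀.card := by linarith
  exact le_of_mul_le_mul_right h4 hM

/-- the main step for a fixed string and a fixed set of stars -/
theorem step_g {t K : ℕ} (ht : 1 ≤ t) {θ : ℝ} (hθ : θ = 1 / (4 * t)) (h0 : I → (I → Bool) → Bool)
    (f0 : (I → Bool) → Bool) (v : I → Bool) (s : I → Bool)
    (hc : ∀ i, s i = true → ∃ P : Finset I, P.card ≤ 2 * t ∧ ∀ y : I → Bool,
      (∀ j, s j = false → y j = v j) → (∀ j ∈ P, y j = flp i v j) →
        (h0 i y = h0 i (flp i v) ∧ f0 y = f0 (flp i v)))
    (I₂ : Finset I) (hI₂ : 16 * t * K + 1 ≤ I₂.card)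
    (hs : ∀ i ∈ I₂, s i = true ∧ h0 i (flp i v) ≠ f0 (flp i v)) :
    1 ≤ 16 * t * Ex (ws θ) (fun g : I → Bool =>
      if K < (univ.filter fun i : I => h0 i (fun j => xor (v j) (s j && g j)) ≠
        f0 (fun j => xor (v j) (s j && g j))).card then (1 : ℝ) else 0) := by
  classical
  obtain ⟨I₁, hI₁, hcard⟩ := exists_subset_card_eq hI₂
  have ht' : (1 : ℝ) ≤ t := by exact_mod_cast ht
  have hθ0 : 0 < θ := by rw [hθ]; positivity
  have hθ1 : θ ≤ 1 / 4 := by
    rw [hθ]
    apply one_div_le_one_div_of_le (by norm_num)
    linarith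
  have key : ∀ i ∈ I₁, 1 / (8 * (t : ℝ)) ≤ Ex (ws θ) (fun g : I → Bool =>
      if h0 i (fun j => xor (v j) (s j && g j)) ≠ f0 (fun j => xor (v j) (s j && g j))
        then (1 : ℝ) else 0) := by
    intro i hi
    obtain ⟨hsi, hne⟩ := hs i (hI₁ hi)
    obtain ⟨P, hP, hcert⟩ := hc i hsi
    have h1 := Ex_pat (θ := θ) i (P.erase i) (notMem_erase i P)
    have h2 : θ / 2 ≤ θ * (1 - θ) ^ (P.erase i).card := by
      have h3 : (P.erase i).card ≤ 2 * t := (card_erase_le).trans hP
      have h4 : (1 - θ) ^ (2 * t) ≤ (1 - θ) ^ (P.erase i).card :=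
        pow_le_pow_of_le_one (by linarith) (by linarith) h3
      have h5 : 1 + (2 * t : ℕ) * (-θ) ≤ (1 + -θ) ^ (2 * t) :=
        one_add_mul_le_pow (by linarith) _
      have h6 : ((2 * t : ℕ) : ℝ) * θ = 1 / 2 := by
        rw [hθ]
        push_cast
        field_simp
        norm_num
      have h7 : (1 : ℝ) / 2 ≤ (1 - θ) ^ (2 * t) := by
        have : (1 : ℝ) + -θ = 1 - θ := by ring
        rw [this] at h5
        linarith
      nlinarith
    have h3 : (1 : ℝ) / (8 * t) = θ / 2 := by
      rw [hθ]
      field_simp
      norm_num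
    rw [h3]
    refine h2.trans (h1.symm.le.trans (Ex_mono (ws_nonneg hθ0.le (by linarith)) ?_))
    intro g
    by_cases hg : g i = true ∧ ∀ j ∈ P.erase i, g j = false
    · rw [if_pos hg, if_pos]
      have h4 := hcert (fun j => xor (v j) (s j && g j)) (by
        intro j hj
        simp [hj]) (by
        intro j hj
        by_cases hji : j = i
        · subst hji
          simp [flp, hsi, hg.1]
        · have := hg.2 j (mem_erase.2 ⟨hji, hj⟩)
          simp [flp, this, Function.update_of_ne hji])
      rw [h4.1, h4.2]
      exact hne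
    · rw [if_neg hg]
      split_ifs <;> norm_num
  have h1 : (I₁.card : ℝ) * (1 / (8 * (t : ℝ))) ≤ ∑ i ∈ I₁, Ex (ws θ) (fun g : I → Bool =>
      if h0 i (fun j => xor (v j) (s j && g j)) ≠ f0 (fun j => xor (v j) (s j && g j))
        then (1 : ℝ) else 0) := by
    rw [← nsmul_eq_mul, ← sum_const]
    exact sum_le_sum key
  rw [← Ex_sum] at h1
  have h2 : Ex (ws θ) (fun g : I → Bool => ∑ i ∈ I₁,
      if h0 i (fun j => xor (v j) (s j && g j)) ≠ f0 (fun j => xor (v j) (s j && g j))
        then (1 : ℝ) else 0) ≤ Ex (ws θ) (fun g : I → Bool => (K : ℝ) + I₁.card *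
      (if K < (univ.filter fun i : I => h0 i (fun j => xor (v j) (s j && g j)) ≠
        f0 (fun j => xor (v j) (s j && g j))).card then (1 : ℝ) else 0)) := by
    apply Ex_mono (ws_nonneg hθ0.le (by linarith))
    intro g
    rw [Finset.sum_boole]
    have h3 : (I₁.filter fun i => h0 i (fun j => xor (v j) (s j && g j)) ≠
        f0 (fun j => xor (v j) (s j && g j))).card ≤ (univ.filter fun i : I =>
          h0 i (fun j => xor (v j) (s j && g j)) ≠
          f0 (fun j => xor (v j) (s j && g j))).card :=
      card_le_card (filter_subset_filter _ (subset_univ _))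
    have h4 := card_filter_le I₁ (fun i => h0 i (fun j => xor (v j) (s j && g j)) ≠
        f0 (fun j => xor (v j) (s j && g j)))
    split_ifs with h5
    · have : ((I₁.filter fun i => h0 i (fun j => xor (v j) (s j && g j)) ≠
        f0 (fun j => xor (v j) (s j && g j))).card : ℝ) ≤ I₁.card := by exact_mod_cast h4
      have : (0 : ℝ) ≤ K := Nat.cast_nonneg _
      linarith
    · have h6 : ((I₁.filter fun i => h0 i (fun j => xor (v j) (s j && g j)) ≠
        f0 (fun j => xor (v j) (s j && g j))).card : ℝ) ≤ K := by
        exact_mod_cast h3.trans (not_lt.1 h5)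
      linarith
  rw [Ex_add, Ex_const (ws_sum θ), Ex_smul, hcard] at h2
  rw [hcard] at h1
  set Z := Ex (ws θ) (fun g : I → Bool =>
      if K < (univ.filter fun i : I => h0 i (fun j => xor (v j) (s j && g j)) ≠
        f0 (fun j => xor (v j) (s j && g j))).card then (1 : ℝ) else 0)
  have hm : (0 : ℝ) < ((16 * t * K + 1 : ℕ) : ℝ) := by positivity
  have h3 : ((16 * t * K + 1 : ℕ) : ℝ) * (1 / (8 * (t : ℝ))) ≤
      K + ((16 * t * K + 1 : ℕ) : ℝ) * Z := h1.trans h2
  have h4 : ((16 * t * K + 1 : ℕ) : ℝ) * (1 / (8 * (t : ℝ))) =
      ((16 * t * K + 1 : ℕ) : ℝ) * (1 / (16 * (t : ℝ))) +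
        ((16 * t * K + 1 : ℕ) : ℝ) * (1 / (16 * (t : ℝ))) := by
    field_simp
    norm_num
  have h5 : (K : ℝ) ≤ ((16 * t * K + 1 : ℕ) : ℝ) * (1 / (16 * (t : ℝ))) := by
    push_cast
    rw [mul_one_div, le_div_iff₀ (by positivity)]
    linarith
  have h6 : ((16 * t * K + 1 : ℕ) : ℝ) * (1 / (16 * (t : ℝ))) ≤
      ((16 * t * K + 1 : ℕ) : ℝ) * Z := by linarith
  have h7 := le_of_mul_le_mul_left h6 hm
  rw [div_le_iff₀ (by positivity)] at h7
  linarith

end CubeP

open Classical in
/-- **CUBE.** -/
theorem cube {I : Type} [Fintype I] [DecidableEq I] : CubeStm I := by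
  intro X _ h t K K' p ε ht hp0 hp1 hA hB
  have ht' : (1 : ℝ) ≤ t := by exact_mod_cast ht
  set θ : ℝ := 1 / (4 * t) with hθ
  have hθ0 : 0 < θ := by rw [hθ]; positivity
  have hθ1 : θ ≤ 1 := by
    rw [hθ, div_le_one (by positivity)]
    linarith
  -- the events
  set E1 : Restr I → ℝ := fun ρ => if ∀ x i, DTr t (rs (h x i) ρ) then (0 : ℝ) else 1 with hE1
  set E2 : (I → Bool) → ℝ := fun b => if ∃ x, K < (univ.filter fun i : I =>
      h x (some i) b ≠ h x none b).card then (1 : ℝ) else 0 with hE2
  set L : (I → Bool) → ℝ := fun b => if ∃ x, K' < (univ.filter fun i : I =>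
      h x (some i) (flp i b) ≠ h x none b).card then (1 : ℝ) else 0 with hL
  have hE1n : ∀ ρ, 0 ≤ E1 ρ := by
    intro ρ
    simp only [hE1]
    split_ifs <;> norm_num
  have hE2n : ∀ b, 0 ≤ E2 b := by
    intro b
    simp only [hE2]
    split_ifs <;> norm_num
  let W : Bool × (Bool × Bool) → ℝ := fun c => CubeP.u c.1 * (CubeP.ws p c.2.1 * CubeP.ws θ c.2.2)
  let Ψ : (I → Bool × (Bool × Bool)) → ℝ := fun ω =>
    E1 (fun i => if (ω i).2.1 then none else some (ω i).1) +
      16 * t * E2 (fun i => xor (ω i).1 ((ω i).2.1 && (ω i).2.2))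
  have hΨ : Ex W Ψ = Ex (wq p) E1 + 16 * t * Av E2 := by
    simp only [Ψ]
    rw [Ex_add, Ex_smul]
    congr 1
    · refine Ex_push (fun c : Bool × (Bool × Bool) => if c.2.1 then none else some c.1) W (wq p)
        ?_ E1
      intro b
      rw [Finset.sum_filter, Fintype.sum_prod_type]
      simp only [Fintype.sum_prod_type, Fintype.sum_bool, W, CubeP.u, CubeP.ws]
      rcases b with _ | _ | _ <;> simp [wq] <;> ring
    · rw [CubeP.Av_eq]
      congr 1
      refine Ex_push (fun c : Bool × (Bool × Bool) => xor c.1 (c.2.1 && c.2.2)) W CubeP.u ?_ E2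
      intro b
      rw [Finset.sum_filter, Fintype.sum_prod_type]
      simp only [Fintype.sum_prod_type, Fintype.sum_bool, W, CubeP.u, CubeP.ws]
      cases b <;> simp <;> ring
  have hmain : ∀ v : I → Bool, L v ≤ 2 / p * Ex (CubeP.ws p) (fun s : I → Bool =>
      Ex (CubeP.ws θ) (fun g : I → Bool => Ψ (fun i => (v i, (s i, g i))))) := by
    intro v
    have hnn : ∀ s : I → Bool, 0 ≤ Ex (CubeP.ws θ) (fun g : I → Bool =>
        Ψ (fun i => (v i, (s i, g i)))) := by
      intro s
      apply Ex_nonneg (CubeP.ws_nonneg hθ0.le hθ1)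
      intro g
      have := hE1n (fun i => if s i then none else some (v i))
      have h2 := hE2n (fun i => xor (v i) (s i && g i))
      have : (0 : ℝ) ≤ 16 * t * E2 (fun i => xor (v i) (s i && g i)) := by positivity
      simp only [Ψ]
      linarith
    by_cases hv : ∃ x, K' < (univ.filter fun i : I => h x (some i) (flp i v) ≠ h x none v).card
    · have hLv : L v = 1 := if_pos hv
      rw [hLv]
      obtain ⟨x, hx⟩ := hv
      obtain ⟨I₀, hI₀, hcard⟩ := exists_subset_card_eq (Nat.succ_le_of_lt hx)
      have hne : I₀.Nonempty := card_pos.1 (by omega)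
      have h1 := CubeP.stars hp0 hp1 I₀ hne
      have h2 : Ex (CubeP.ws p) (fun s : I → Bool =>
          if p * I₀.card / 2 ≤ ((I₀.filter fun i => s i = true).card : ℝ) then (1 : ℝ) else 0) ≤
          Ex (CubeP.ws p) (fun s : I → Bool =>
            Ex (CubeP.ws θ) (fun g : I → Bool => Ψ (fun i => (v i, (s i, g i))))) := by
        apply Ex_mono (CubeP.ws_nonneg hp0.le hp1)
        intro s
        split_ifs with hs
        · by_cases hD : ∀ x i, DTr t (rs (h x i) (fun i => if s i then none else some (v i)))
          · -- all decision trees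
            set ρ : Restr I := fun i => if s i then none else some (v i) with hρ
            have hov : ∀ y : I → Bool, (∀ j, s j = false → y j = v j) → ov ρ y = y := by
              intro y hy
              funext j
              unfold ov
              simp only [hρ]
              cases hsj : s j
              · simp [hy j hsj]
              · simp
            have hflp : ∀ i, s i = true → ∀ j, s j = false → flp i v j = v j := by
              intro i hi j hj
              have : j ≠ i := by
                rintro rfl
                rw [hi] at hj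
                cases hj
              simp [flp, Function.update_of_ne this]
            obtain ⟨A₀, hA₀, hA₀'⟩ := (hD x none).cert _ v rfl
            have hI₂ : 16 * t * K + 1 ≤ ((I₀.filter fun i => s i = true) \ A₀).card := by
              have h3 : (I₀.filter fun i => s i = true).card ≤
                  ((I₀.filter fun i => s i = true) \ A₀).card + A₀.card := by
                rw [← Finset.card_sdiff_add_card_inter (I₀.filter fun i => s i = true) A₀]
                gcongr
                exact inter_subset_right
              have h4 : (16 * (t : ℝ) * K + t + 1) ≤ ((I₀.filter fun i => s i = true).card : ℝ) := by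
                rw [hcard] at hs
                push_cast at hs
                linarith
              have h5 : 16 * t * K + t + 1 ≤ (I₀.filter fun i => s i = true).card := by
                exact_mod_cast h4
              omega
            have hfin := CubeP.step_g (K := K) ht hθ (fun i => h x (some i)) (h x none) v s ?_
              ((I₀.filter fun i => s i = true) \ A₀) hI₂ ?_
            · refine hfin.trans ?_
              rw [← Ex_smul]
              apply Ex_mono (CubeP.ws_nonneg hθ0.le hθ1)
              intro g
              have h3 := hE1n (fun i => if s i then none else some (v i))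
              have h4 : (if K < (univ.filter fun i : I =>
                  h x (some i) (fun j => xor (v j) (s j && g j)) ≠
                  h x none (fun j => xor (v j) (s j && g j))).card then (1 : ℝ) else 0) ≤
                  E2 (fun j => xor (v j) (s j && g j)) := by
                simp only [hE2]
                split_ifs with h5 h6 h6
                · exact le_rfl
                · exact absurd ⟨x, h5⟩ h6
                · norm_num
                · exact le_rfl
              have h5 : 16 * (t : ℝ) * (if K < (univ.filter fun i : I =>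
                  h x (some i) (fun j => xor (v j) (s j && g j)) ≠
                  h x none (fun j => xor (v j) (s j && g j))).card then (1 : ℝ) else 0) ≤
                  16 * t * E2 (fun j => xor (v j) (s j && g j)) := by
                gcongr
              simp only [Ψ]
              linarith
            · intro i hi
              obtain ⟨P1, hP1, hP1'⟩ := (hD x (some i)).cert _ (flp i v) rfl
              obtain ⟨P2, hP2, hP2'⟩ := (hD x none).cert _ (flp i v) rfl
              refine ⟨P1 ∪ P2, (card_union_le _ _).trans (by omega), ?_⟩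
              intro y hy hyP
              have h3 := hP1' y (fun j hj => hyP j (mem_union_left _ hj))
              have h4 := hP2' y (fun j hj => hyP j (mem_union_right _ hj))
              unfold rs at h3 h4
              rw [hov y hy, hov _ (hflp i hi)] at h3 h4
              exact ⟨h3, h4⟩
            · intro i hi
              rw [mem_sdiff, mem_filter] at hi
              obtain ⟨⟨hi1, hi2⟩, hi3⟩ := hi
              refine ⟨hi2, ?_⟩
              have h3 := hA₀' (flp i v) (by
                intro j hj
                have : j ≠ i := by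
                  rintro rfl
                  exact hi3 hj
                simp [flp, Function.update_of_ne this])
              unfold rs at h3
              rw [hov _ (hflp i hi2), hov v (fun _ _ => rfl)] at h3
              rw [h3]
              exact (mem_filter.1 (hI₀ hi1)).2
          · -- the first summand is one
            have h3 : ∀ g : I → Bool, (1 : ℝ) ≤ Ψ (fun i => (v i, (s i, g i))) := by
              intro g
              have h4 : E1 (fun i => if s i then none else some (v i)) = 1 := if_neg hD
              have h5 := hE2n (fun i => xor (v i) (s i && g i))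
              have h6 : (0 : ℝ) ≤ 16 * t * E2 (fun i => xor (v i) (s i && g i)) := by positivity
              simp only [Ψ]
              linarith
            have h4 := Ex_mono (I := I) (CubeP.ws_nonneg hθ0.le hθ1) h3
            rwa [Ex_const (CubeP.ws_sum θ)] at h4
        · exact hnn s
      have h3 := h1.trans h2
      have h4 : 2 / p * (p / 2) = 1 := by field_simp
      calc (1 : ℝ) = 2 / p * (p / 2) := h4.symm
        _ ≤ _ := mul_le_mul_of_nonneg_left h3 (by positivity)
    · have hLv : L v = 0 := if_neg hv
      rw [hLv]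
      have := Ex_nonneg (CubeP.ws_nonneg hp0.le hp1) hnn
      positivity
  have h1 : Av L ≤ 2 / p * Ex W Ψ := by
    rw [CubeP.Av_eq]
    have h2 : Ex W Ψ = Ex CubeP.u (fun v : I → Bool => Ex (CubeP.ws p) (fun s : I → Bool =>
        Ex (CubeP.ws θ) (fun g : I → Bool => Ψ (fun i => (v i, (s i, g i)))))) := by
      have h3 := Ex_prod (I := I) CubeP.u
        (fun c : Bool × Bool => CubeP.ws p c.1 * CubeP.ws θ c.2) Ψ
      rw [show W = fun c : Bool × (Bool × Bool) =>
        CubeP.u c.1 * (fun c : Bool × Bool => CubeP.ws p c.1 * CubeP.ws θ c.2) c.2 from rfl, h3]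
      congr 1
      funext v
      exact Ex_prod (I := I) (CubeP.ws p) (CubeP.ws θ)
        (fun β => Ψ (fun i => (v i, β i)))
    rw [h2, ← Ex_smul]
    exact Ex_mono (fun a => by norm_num [CubeP.u]) hmain
  rw [hΨ] at h1
  refine h1.trans ?_
  apply mul_le_mul_of_nonneg_left _ (by positivity)
  linarith

end Pool.Agent.H9x.PN
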