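import Pool.Agent.H9x.SN.Bs

/-!
# Sensitivity of families of functions on the cube: definitions
-/

/-!
Paper proof of `CubeStm` (piece CUBE). Let `M = K' + 1`, `θ = 1 / (4 t)`, `m = 16 t K + 1`. Product space:
each coordinate `i` has independently `s i` (star, prob. `p`), `v i` (uniform), `g i` (prob. `θ`);
`ρ i = none` if `s i`, else `some (v i)` (law `wq p`, `Ex_push`); `b' i = v i xor (s i && g i)` (uniform).
Fix `v` and `x` with `#{i | h x (some i) (flp i v) ≠ h x none v} ≥ M`, take `I₀` inside with exactly
`M` elements. `E_s #(I₀ ∩ s) = p M` and it is `≤ M`, so `Pr_s [#(I₀ ∩ s) ≥ p M / 2] ≥ p / 2`.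
Let `s` be such and all `rs (h x i) ρ` decision trees of depth `t` (else the first summand is 1).
By certificates (`DTr.cert`) at most `t` of the `i` in `I₀ ∩ s` have
`h x none (flp i v) ≠ h x none v`; for the others, at least `16 t K + 1` many, take `I₁` with exactly
`m` elements, `F_i := (h x (some i) ≠ h x none)` holds at `flp i v` and has a certificate `P_i` there
with at most `2 t` coordinates (for points which agree with `v` outside of `s`). If `g i` and not `g j`
for `j ∈ P_i \ {i}` (prob. `θ (1 - θ) ^ (2 t) ≥ θ / 2 = 1 / (8 t)`, `Ex_indep`) then `F_i` holds at `b'`.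
So `m / (8 t) ≤ E_g #{i ∈ I₁ | F_i b'} ≤ K + m Pr_g [K < #{i | F_i b'}]`, so this probability is
`≥ 1 / (8 t) - K / m ≥ 1 / (16 t)`. Hence for each `v` in the event on the left
`1 ≤ 2 / p * E_{s,g} (1[not all DTr at ρ] + 16 t 1[K < #{i | F_i b'} for some x])`.
-/

set_option autoImplicit false
set_option linter.unusedSectionVars false

namespace Pool.Agent.H9x.PN

open Finset H568R2 Pool.Agent.H676

variable {I : Type} [Fintype I] [DecidableEq I]

/-- the uniform average over the cube -/
noncomputable def Av (F : (I → Bool) → ℝ) : ℝ := (∑ b : I → Bool, F b) / 2 ^ Fintype.card I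

/-- one coordinate is flipped -/
def flp (i : I) (b : I → Bool) : I → Bool := Function.update b i (!b i)

open Classical in
/-- the statement of the lemma on the cube -/
def CubeStm (I : Type) [Fintype I] [DecidableEq I] : Prop :=
  ∀ (X : Type) [Fintype X] (h : X → Option I → (I → Bool) → Bool) (t K K' : ℕ) (p ε : ℝ),
    1 ≤ t → 0 < p → p ≤ 1 →
    Ex (wq p) (fun ρ : Restr I => if ∀ x i, DTr t (rs (h x i) ρ) then (0 : ℝ) else 1) ≤ ε →
    2 * (16 * (t : ℝ) * K + t + 1) ≤ p * (K' + 1) →
    Av (fun b => if ∃ x, K' < (univ.filter fun i : I => h x (some i) (flp i b) ≠ h x none b).card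
      then (1 : ℝ) else 0) ≤
    2 / p * (ε + 16 * t * Av (fun b => if ∃ x, K < (univ.filter fun i : I =>
      h x (some i) b ≠ h x none b).card then (1 : ℝ) else 0))

end Pool.Agent.H9x.PN
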