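import Pool.Agent.H9x.PN.Row0

/-!
# The existence of a hidden bit below rows is decided in the second level (piece DECS1)
-/

set_option autoImplicit false
set_option linter.unusedSectionVars false
set_option linter.unusedVariables false

namespace Pool.Agent.H9x.PN

open Finset Pool.Agent.NPC Pool.Agent.H622R2 Pool.Agent.H620R2.Gauge Pool.Agent.H622R2.Exp
  Pool.Agent.TH678.ETH Pool.Agent.TH678.SETH Pool.Agent.TH678.RS Pool.Agent.H9x.Q Filter
  Pool.Agent.H591R3.PHG

open Pool.Agent.H9x.V1 (poly_rep poly_cS)
open Pool.Agent.H9x.RT (ll lev HZ HZ_iff Yes No)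
open Pool.Agent.H9x.SP (Sys Dt J orc base orc_on orc_off orc_free orc_loc tv tv_congr tv_true
  tv_false tv_iff enc_inj2 Blk Good sval)
open Pool.Agent.H9x.SN (er er_congr er_off er_false nam nam_inj nam_len)

/-- **DECS1.** -/
theorem sig2_hid {kk k : ℕ} {ma : ℕ → Alg × Polynomial ℕ} {S R : ℕ → Polynomial ℕ}
    (hK : Kh k ma S R) {Bk : ℕ × List Bool → Blk} (hB : BkR S Bk)
    {D : Dt (sysH kk k ma S).K} (hD : Good (Y := sysH kk k ma S) Bk D.bl) :
    IsSig (er (orc (sysH kk k ma S) D)) 2
      {y | ∃ x : List Bool, x.length = y.length ∧ D.fr (nam 0 x) = true} := by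
  set A : Oracle := er (orc (sysH kk k ma S) D) with hA
  -- the two strings
  set X : List Bool → List Bool := fun z =>
    LangSig.fit (unpair (unpair z).2).2 (unpair (unpair z).2).1 with hX
  set s : List Bool → ℕ := fun z => (S 0).eval (X z).length with hs
  set W : List Bool → List Bool := fun z =>
    LangSig.fit (List.replicate (s z) true) (unpair z).1 with hW
  set q : List Bool → List Bool := fun z => false :: false :: false ::
    enc (List.replicate (kk + 1) (64 * s z)) (8 * s z) (cS 0 (s z) (pairBits (X z) (W z))) with hq
  have hpX : Poly X := by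
    have h1 : Poly (fun z : List Bool => (unpair z).1) := Poly.fst poly_unpair
    have h2 : Poly (fun z : List Bool => (unpair z).2) := Poly.snd poly_unpair
    exact LangSig.poly_fit (h2.comp h2) (h1.comp h2)
  have hlen : UPoly (fun z : List Bool => (X z).length) := UPoly.length hpX
  have hSe : UPoly s := hlen.eval (S 0)
  have hpW : Poly W := by
    have h1 : Poly (fun z : List Bool => (unpair z).1) := Poly.fst poly_unpair
    exact LangSig.poly_fit (poly_rep hSe) h1
  have he8 : ∀ n, (Polynomial.C 8 * S 0).eval n = 8 * (S 0).eval n := fun n => by simp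
  have he64 : ∀ n, (Polynomial.C 64 * S 0).eval n = 64 * (S 0).eval n := fun n => by simp
  have hpq : Poly q := by
    have h1 : ∀ j : ℕ, Poly (fun z : List Bool => enc (List.replicate j (64 * s z)) (8 * s z)
        (cS 0 (s z) (pairBits (X z) (W z)))) := by
      intro j
      induction j with
      | zero =>
        exact poly_pairBits ((poly_rep (hlen.eval (Polynomial.C 8 * S 0))).congr fun z => by
          simp only [he8, hs]) (poly_cS 0 hSe (poly_pairBits hpX hpW))
      | succ j ih =>
        have h2 : ∀ z : List Bool, enc (List.replicate (j + 1) (64 * s z)) (8 * s z)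
            (cS 0 (s z) (pairBits (X z) (W z))) =
            pairBits (List.replicate (64 * s z) true)
              (enc (List.replicate j (64 * s z)) (8 * s z)
                (cS 0 (s z) (pairBits (X z) (W z)))) := by
          intro z
          rw [List.replicate_succ', LangTrAux.enc_append]
        have h3 : Poly (fun z : List Bool => List.replicate (64 * s z) true) :=
          (poly_rep (hlen.eval (Polynomial.C 64 * S 0))).congr fun z => by simp only [he64, hs]
        exact (poly_pairBits h3 ih).congr fun z => (h2 z).symm
    exact Poly.cons (NPC.Poly.const _) (Poly.cons (NPC.Poly.const _)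
      (Poly.cons (NPC.Poly.const _) (h1 (kk + 1))))
  refine ⟨fun z => [!A (q z)], Polynomial.X + S 0, ?_, fun y => ?_⟩
  · have h1 : Poly (fun r : List Bool × List Bool => r.2.all (fun b => !b)) :=
      Poly.all (p := fun _ b => !b) (Poly.snd Poly.id) (Poly.not (Poly.snd Poly.id))
    have h2 : Poly (fun r : List Bool × List Bool => [r.2.all (fun b => !b)]) :=
      Poly.cons h1 (NPC.Poly.const [])
    have h3 : Poly (fun z : List Bool => [q z]) := Poly.cons hpq (NPC.Poly.const [])
    have h4 := IsFP.tt (A := A) (H := fun r => [r.2.all (fun b => !b)]) h3 h2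
    have h5 : (fun z => (fun r : List Bool × List Bool => [r.2.all (fun b => !b)])
        (z, ([q z]).map A)) = fun z => [!A (q z)] := by
      funext z
      simp
    rw [h5] at h4
    exact h4
  · have hev : (Polynomial.X + S 0).eval y.length = y.length + (S 0).eval y.length := by
      rw [Polynomial.eval_add, Polynomial.eval_X]
    -- the value of the oracle
    have hval : ∀ w₁ w₂ : List Bool, A (q (pairBits w₂ (pairBits w₁ y))) =
        D.bl (0, LangSig.fit y w₁) (D.fr (nam 0 (LangSig.fit y w₁)))
          (LangSig.fit (List.replicate ((S 0).eval y.length) true) w₂) := by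
      intro w₁ w₂
      have hXz : X (pairBits w₂ (pairBits w₁ y)) = LangSig.fit y w₁ := by
        rw [hX]
        simp only [unpair_pairBits]
      have hsz : s (pairBits w₂ (pairBits w₁ y)) = (S 0).eval y.length := by
        rw [hs]
        simp only [hXz, LangSig.length_fit]
      have hWz : W (pairBits w₂ (pairBits w₁ y)) =
          LangSig.fit (List.replicate ((S 0).eval y.length) true) w₂ := by
        rw [hW]
        simp only [hsz, unpair_pairBits]
      set x : List Bool := LangSig.fit y w₁ with hx
      set w : List Bool := LangSig.fit (List.replicate ((S 0).eval y.length) true) w₂ with hw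
      have hlevx : lev S (0, x) = (S 0).eval y.length := by
        show (S 0).eval x.length = _
        rw [hx, LangSig.length_fit]
      have h1 : q (pairBits w₂ (pairBits w₁ y)) = adH kk S (0, x) w := by
        rw [adH_zero (c := (0, x)) rfl, hlevx, hq]
        simp only [hXz, hsz, hWz]
      rw [h1]
      have h2 : A (adH kk S (0, x) w) = orc (sysH kk k ma S) D (adH kk S (0, x) w) := by
        rw [hA, adH_zero (c := (0, x)) rfl]
        exact er_false _ _
      rw [h2]
      have h3 : orc (sysH kk k ma S) D (adH kk S (0, x) w) =
          D.bl (0, x) (tv (sysH kk k ma S) (0, x) (orc (sysH kk k ma S) D)) w :=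
        orc_on D (show (sysH kk k ma S).ok (0, x) w from fun h => absurd rfl h)
      rw [h3, tv_zero hK D (c := (0, x)) rfl]
    -- the blocks
    have hrow : ∀ x : List Bool, x.length = y.length →
        ((∀ w : List Bool, w.length = (S 0).eval y.length →
          D.bl (0, x) (D.fr (nam 0 x)) w = false) ↔ D.fr (nam 0 x) = true) := by
      intro x hx
      have h1 := hD (0, x) (D.fr (nam 0 x))
      rw [hB.row (0, x) rfl] at h1
      have h2 : lev S (0, x) = (S 0).eval y.length := by
        show (S 0).eval x.length = _
        rw [hx]
      have h3 : (∀ w : List Bool, w.length = lev S (0, x) →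
          D.bl (0, x) (D.fr (nam 0 x)) w = false) ↔ D.fr (nam 0 x) = true := h1
      rwa [h2] at h3
    show (∃ x : List Bool, x.length = y.length ∧ D.fr (nam 0 x) = true) ↔
      ∃ w₁ : List Bool, w₁.length ≤ (Polynomial.X + S 0).eval y.length ∧
        ∀ w₂ : List Bool, w₂.length ≤ (Polynomial.X + S 0).eval y.length →
          [!A (q (pairBits w₂ (pairBits w₁ y)))] = [true]
    constructor
    · rintro ⟨x, hx, hφ⟩
      refine ⟨x, by rw [hev]; omega, fun w₂ _ => ?_⟩
      rw [hval, LangSig.fit_eq hx, (hrow x hx).2 hφ _ (by
        rw [LangSig.length_fit, List.length_replicate])]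
      rfl
    · rintro ⟨w₁, _, h⟩
      refine ⟨LangSig.fit y w₁, LangSig.length_fit _ _,
        (hrow _ (LangSig.length_fit _ _)).1 fun w hw => ?_⟩
      have h1 := h w (by rw [hev]; omega)
      rw [hval, LangSig.fit_eq (u := List.replicate ((S 0).eval y.length) true) (w := w) (by
        rw [List.length_replicate, hw])] at h1
      simpa using h1

end Pool.Agent.H9x.PN
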