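import Pool.Agent.H9x.RU.Mach

/-!
# Swapping and selecting contents
-/

set_option autoImplicit false
set_option linter.unusedSectionVars false

namespace Pool.Agent.H9x.PN

open Finset

open Pool.Agent.H9x.RT (mkp EE EC EC_upd EC_sum EC_sub EC_le)

variable {K : Type*} [DecidableEq K] {W : Type*} {Z : K → Type*} [∀ c, Fintype (Z c)]
variable {P Q : ∀ c, Z c → ℝ} {enc : ∀ c, Z c → W}

/-- the two contents of some blocks are swapped -/
def swp (C : List K) (σ : K → Bool) (B : K → Bool → W) : K → Bool → W :=
  fun c => if c ∈ C ∧ σ c = true then fun t => B c (!t) else B c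

/-- one of the two contents is selected -/
def col (C : List K) (σ : K → Bool) (B : K → Bool → W) : K → Bool → W :=
  fun c => if c ∈ C then fun _ => B c (σ c) else B c

theorem EE_append (F : (K → Bool → W) → ℝ) (C₁ C₂ : List K) (D : K → Bool → W) :
    EE P Q enc (C₁ ++ C₂) F D = EE P Q enc C₁ (EE P Q enc C₂ F) D := by
  induction C₁ generalizing D with
  | nil => rfl
  | cons c C₁ ih =>
    rw [List.cons_append]
    simp only [EE]
    exact sum_congr rfl fun z _ => sum_congr rfl fun z' _ => by rw [ih]

theorem EE_upd (F : (K → Bool → W) → ℝ) (c : K) (v : Bool → W) (C : List K) (D : K → Bool → W)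
    (h : c ∉ C) : EE P Q enc C F (Function.update D c v) =
      EE P Q enc C (fun D' => F (Function.update D' c v)) D := by
  induction C generalizing D with
  | nil => rfl
  | cons c' C ih =>
    simp only [EE]
    have hne : c ≠ c' := fun h' => h (h' ▸ List.mem_cons_self)
    refine sum_congr rfl fun z _ => sum_congr rfl fun z' _ => ?_
    rw [Function.update_comm hne, ih _ fun h' => h (List.mem_cons_of_mem _ h')]

theorem EE_lin {ι : Type*} (s : Finset ι) (w : ι → ℝ) (F : ι → (K → Bool → W) → ℝ) (C : List K)
    (D : K → Bool → W) : EE P Q enc C (fun D' => ∑ i ∈ s, w i * F i D') D =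
      ∑ i ∈ s, w i * EE P Q enc C (F i) D := by
  induction C generalizing D with
  | nil => rfl
  | cons c' C ih =>
    simp only [EE, ih, mul_sum]
    rw [sum_congr rfl fun z _ => sum_comm, sum_comm]
    refine sum_congr rfl fun i _ => sum_congr rfl fun z _ => sum_congr rfl fun z' _ => ?_
    ring

theorem EE_affine (hP1 : ∀ c, ∑ z, P c z = 1) (hQ1 : ∀ c, ∑ z, Q c z = 1) (a r : ℝ)
    (F : (K → Bool → W) → ℝ) (C : List K) (D : K → Bool → W) :
    EE P Q enc C (fun D' => r + a * F D') D = r + a * EE P Q enc C F D := by
  induction C generalizing D with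
  | nil => rfl
  | cons c' C ih =>
    simp only [EE, ih]
    have h1 : ∀ z z', P c' z * (Q c' z' * (r + a * EE P Q enc C F
        (Function.update D c' (mkp (enc c' z) (enc c' z'))))) =
        P c' z * (Q c' z' * r) + a * (P c' z * (Q c' z' * EE P Q enc C F
        (Function.update D c' (mkp (enc c' z) (enc c' z'))))) := fun z z' => by ring
    simp only [h1, sum_add_distrib, ← mul_sum]
    congr 1
    rw [← sum_mul, ← sum_mul, hP1, hQ1, one_mul, one_mul]

theorem EE_mono (hP : ∀ c z, 0 ≤ P c z) (hQ : ∀ c z, 0 ≤ Q c z) {F G : (K → Bool → W) → ℝ}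
    (C : List K) (D : K → Bool → W) (h : ∀ D' : K → Bool → W, (∀ c ∉ C, D' c = D c) → F D' ≤ G D') :
    EE P Q enc C F D ≤ EE P Q enc C G D := by
  induction C generalizing D with
  | nil => exact h D fun c _ => rfl
  | cons c' C ih =>
    simp only [EE]
    refine sum_le_sum fun z _ => sum_le_sum fun z' _ => ?_
    refine mul_le_mul_of_nonneg_left (mul_le_mul_of_nonneg_left (ih _ fun D' h' => h D' ?_)
      (hQ c' z')) (hP c' z)
    intro c hc
    rw [h' c fun h3 => hc (List.mem_cons_of_mem _ h3), Function.update_of_ne]
    exact fun h3 => hc (h3 ▸ List.mem_cons_self)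

theorem EC_le_of (hQ : ∀ c z, 0 ≤ Q c z) (hQ1 : ∀ c, ∑ z, Q c z = 1) {F : (K → Bool → W) → ℝ}
    {d : ℝ} (C : List K) (D : K → Bool → W) (h : ∀ D' : K → Bool → W,
      (∀ c ∈ C, D' c true = D' c false) → (∀ c ∉ C, D' c = D c) → F D' ≤ d) :
    EC Q enc C F D ≤ d := by
  induction C generalizing D with
  | nil => exact h D (fun c hc => absurd hc List.not_mem_nil) fun c _ => rfl
  | cons c' C ih =>
    simp only [EC]
    have h1 : ∀ z', Q c' z' * EC Q enc C F (Function.update D c' (mkp (enc c' z') (enc c' z'))) ≤
        Q c' z' * d := by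
      intro z'
      refine mul_le_mul_of_nonneg_left (ih _ fun D' h1 h2 => h D' ?_ ?_) (hQ c' z')
      · intro c hc
        by_cases hc2 : c ∈ C
        · exact h1 c hc2
        · have h3 : c = c' := by
            rcases List.mem_cons.1 hc with h3 | h3
            · exact h3
            · exact absurd h3 hc2
          subst h3
          rw [h2 c hc2, Function.update_self]
          rfl
      · intro c hc
        rw [h2 c fun h3 => hc (List.mem_cons_of_mem _ h3), Function.update_of_ne]
        exact fun h3 => hc (h3 ▸ List.mem_cons_self)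
    refine (sum_le_sum fun z' _ => h1 z').trans ?_
    rw [← sum_mul, hQ1, one_mul]

theorem EC_ge_of (hQ : ∀ c z, 0 ≤ Q c z) (hQ1 : ∀ c, ∑ z, Q c z = 1) {F : (K → Bool → W) → ℝ}
    {d : ℝ} (C : List K) (D : K → Bool → W) (h : ∀ D' : K → Bool → W,
      (∀ c ∈ C, D' c true = D' c false) → (∀ c ∉ C, D' c = D c) → d ≤ F D') :
    d ≤ EC Q enc C F D := by
  induction C generalizing D with
  | nil => exact h D (fun c hc => absurd hc List.not_mem_nil) fun c _ => rfl
  | cons c' C ih =>
    simp only [EC]
    have h1 : ∀ z', Q c' z' * d ≤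
        Q c' z' * EC Q enc C F (Function.update D c' (mkp (enc c' z') (enc c' z'))) := by
      intro z'
      refine mul_le_mul_of_nonneg_left (ih _ fun D' h1 h2 => h D' ?_ ?_) (hQ c' z')
      · intro c hc
        by_cases hc2 : c ∈ C
        · exact h1 c hc2
        · have h3 : c = c' := by
            rcases List.mem_cons.1 hc with h3 | h3
            · exact h3
            · exact absurd h3 hc2
          subst h3
          rw [h2 c hc2, Function.update_self]
          rfl
      · intro c hc
        rw [h2 c fun h3 => hc (List.mem_cons_of_mem _ h3), Function.update_of_ne]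
        exact fun h3 => hc (h3 ▸ List.mem_cons_self)
    refine le_trans ?_ (sum_le_sum fun z' _ => h1 z')
    rw [← sum_mul, hQ1, one_mul]

theorem swp_upd (C : List K) (σ : K → Bool) (B : K → Bool → W) (c : K) (v : Bool → W)
    (h : c ∉ C) : swp (c :: C) σ (Function.update B c v) =
      Function.update (swp C σ B) c (if σ c = true then fun t => v (!t) else v) := by
  funext c'
  by_cases hc : c' = c
  · subst hc
    simp only [swp, List.mem_cons, true_or, true_and, Function.update_self]
  · simp only [swp, List.mem_cons, hc, false_or, Function.update_of_ne hc]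

theorem col_upd (C : List K) (σ : K → Bool) (B : K → Bool → W) (c : K) (v : Bool → W)
    (h : c ∉ C) : col (c :: C) σ (Function.update B c v) =
      Function.update (col C σ B) c (fun _ => v (σ c)) := by
  funext c'
  by_cases hc : c' = c
  · subst hc
    simp only [col, List.mem_cons, true_or, if_true, Function.update_self]
  · simp only [col, List.mem_cons, hc, false_or, Function.update_of_ne hc]

theorem mkp_not (u v : W) : (fun t => mkp u v (!t)) = mkp v u := by
  funext t
  cases t <;> rfl

theorem EE_swp (F : (K → Bool → W) → ℝ) (σ : K → Bool) (C : List K) (hn : C.Nodup)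
    (D : K → Bool → W) : EE Q Q enc C (fun B => F (swp C σ B)) D = EE Q Q enc C F D := by
  induction C generalizing F D with
  | nil =>
    show F (swp [] σ D) = F D
    congr 1
  | cons c C ih =>
    have hc : c ∉ C := (List.nodup_cons.1 hn).1
    have hn' := (List.nodup_cons.1 hn).2
    have h1 : ∀ v : Bool → W, EE Q Q enc C (fun B => F (swp (c :: C) σ B))
        (Function.update D c v) = EE Q Q enc C F (Function.update D c
          (if σ c = true then fun t => v (!t) else v)) := by
      intro v
      rw [EE_upd _ c v C D hc, EE_upd _ c _ C D hc]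
      rw [← ih (fun D' => F (Function.update D' c (if σ c = true then fun t => v (!t) else v)))
        hn' D]
      congr 1
      funext B
      rw [swp_upd C σ B c v hc]
    simp only [EE, h1]
    by_cases hs : σ c = true
    · simp only [hs, if_true, mkp_not]
      rw [sum_comm]
      refine sum_congr rfl fun z _ => sum_congr rfl fun z' _ => ?_
      ring
    · simp only [hs]
      rfl

theorem EE_col (hQ1 : ∀ c, ∑ z, Q c z = 1) (F : (K → Bool → W) → ℝ) (σ : K → Bool) (C : List K)
    (hn : C.Nodup) (D : K → Bool → W) :
    EE Q Q enc C (fun B => F (col C σ B)) D = EC Q enc C F D := by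
  induction C generalizing F D with
  | nil =>
    show F (col [] σ D) = F D
    congr 1
  | cons c C ih =>
    have hc : c ∉ C := (List.nodup_cons.1 hn).1
    have hn' := (List.nodup_cons.1 hn).2
    have h1 : ∀ v : Bool → W, EE Q Q enc C (fun B => F (col (c :: C) σ B))
        (Function.update D c v) = EC Q enc C F (Function.update D c (fun _ => v (σ c))) := by
      intro v
      rw [EE_upd _ c v C D hc, EC_upd _ c _ C D hc]
      rw [← ih (fun D' => F (Function.update D' c (fun _ => v (σ c)))) hn' D]
      congr 1
      funext B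
      rw [col_upd C σ B c v hc]
    simp only [EE, EC, h1]
    have h2 : ∀ z : Z c, (fun _ : Bool => enc c z) = mkp (enc c z) (enc c z) := by
      intro z
      funext t
      cases t <;> rfl
    cases hs : σ c with
    | true =>
      have h3 : ∀ z z' : Z c, mkp (enc c z) (enc c z') true = enc c z := fun z z' => rfl
      simp only [h3, h2]
      refine sum_congr rfl fun z _ => ?_
      rw [← mul_sum, ← sum_mul, hQ1, one_mul]
    | false =>
      have h3 : ∀ z z' : Z c, mkp (enc c z) (enc c z') false = enc c z' := fun z z' => rfl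
      simp only [h3, h2]
      rw [sum_congr rfl fun z _ => (mul_sum _ _ _).symm, ← sum_mul, hQ1, one_mul]

theorem EE_EC_comm (F : (K → Bool → W) → ℝ) (C₁ C₂ : List K) (h : ∀ c ∈ C₁, c ∉ C₂)
    (D : K → Bool → W) : EE P Q enc C₁ (EC Q enc C₂ F) D = EC Q enc C₂ (EE P Q enc C₁ F) D := by
  induction C₁ generalizing D with
  | nil => rfl
  | cons c C₁ ih =>
    have h1 : ∀ v : Bool → W, EE P Q enc C₁ (EC Q enc C₂ F) (Function.update D c v) =
        EC Q enc C₂ (fun D' => EE P Q enc C₁ F (Function.update D' c v)) D := by
      intro v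
      rw [ih (fun c' hc' => h c' (List.mem_cons_of_mem _ hc')),
        EC_upd _ c v C₂ D (h c List.mem_cons_self)]
    simp only [EE, h1]
    have e1 : (fun D' : K → Bool → W => ∑ z, ∑ z', P c z * (Q c z' *
          EE P Q enc C₁ F (Function.update D' c (mkp (enc c z) (enc c z'))))) =
          fun D' => ∑ z, P c z * ∑ z', Q c z' *
            EE P Q enc C₁ F (Function.update D' c (mkp (enc c z) (enc c z'))) := by
      funext D'
      exact sum_congr rfl fun z _ => by rw [mul_sum]
    show _ = EC Q enc C₂ (fun D' : K → Bool → W => ∑ z, ∑ z', P c z * (Q c z' *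
          EE P Q enc C₁ F (Function.update D' c (mkp (enc c z) (enc c z'))))) D
    rw [e1, EC_sum]
    refine sum_congr rfl fun z _ => ?_
    rw [EC_sum, mul_sum]

theorem EE_abs_le (hP : ∀ c z, 0 ≤ P c z) (hP1 : ∀ c, ∑ z, P c z = 1) (hQ : ∀ c z, 0 ≤ Q c z)
    (hQ1 : ∀ c, ∑ z, Q c z = 1) {G : (K → Bool → W) → ℝ} {d : ℝ} (C : List K)
    (D : K → Bool → W) (h : ∀ D' : K → Bool → W, (∀ c ∉ C, D' c = D c) → |G D'| ≤ d) :
    |EE P Q enc C G D| ≤ d := by
  have h1 : EE P Q enc C (fun _ => d) D = d := by
    have := EE_affine (enc := enc) hP1 hQ1 0 d (fun _ => (0:ℝ)) C D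
    simpa using this
  have h2 : EE P Q enc C (fun _ => -d) D = -d := by
    have := EE_affine (enc := enc) hP1 hQ1 0 (-d) (fun _ => (0:ℝ)) C D
    simpa using this
  rw [abs_le]
  constructor
  · rw [← h2]
    exact EE_mono hP hQ C D fun D' h' => (abs_le.1 (h D' h')).1
  · conv_rhs => rw [← h1]
    exact EE_mono hP hQ C D fun D' h' => (abs_le.1 (h D' h')).2

/-- **The hybrid argument without collapse.** -/
theorem hyb3 (hP : ∀ c z, 0 ≤ P c z) (hP1 : ∀ c, ∑ z, P c z = 1) (hQ : ∀ c z, 0 ≤ Q c z)
    (hQ1 : ∀ c, ∑ z, Q c z = 1) (F : (K → Bool → W) → ℝ) (d : K → ℝ) (C : List K) (hn : C.Nodup)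
    (D : K → Bool → W) (h : ∀ c ∈ C, ∀ D' : K → Bool → W, (∀ c' ∉ C, D' c' = D c') →
      ∀ z' : Z c, |∑ z, P c z * F (Function.update D' c (mkp (enc c z) (enc c z'))) -
        ∑ z, Q c z * F (Function.update D' c (mkp (enc c z) (enc c z')))| ≤ d c) :
    |EE P Q enc C F D - EE Q Q enc C F D| ≤ (C.map d).sum := by
  induction C generalizing D with
  | nil => simp [EE]
  | cons c C ih =>
    have hc : c ∉ C := (List.nodup_cons.1 hn).1
    have hn' := (List.nodup_cons.1 hn).2
    have h1 : |∑ z, ∑ z', P c z * (Q c z' * EE P Q enc C F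
        (Function.update D c (mkp (enc c z) (enc c z')))) -
        ∑ z, ∑ z', P c z * (Q c z' * EE Q Q enc C F
        (Function.update D c (mkp (enc c z) (enc c z'))))| ≤ (C.map d).sum := by
      rw [← sum_sub_distrib]
      simp only [← sum_sub_distrib]
      refine (abs_sum_le_sum_abs _ _).trans ?_
      have h2 : ∀ z, |∑ z', (P c z * (Q c z' * EE P Q enc C F
          (Function.update D c (mkp (enc c z) (enc c z')))) - P c z * (Q c z' * EE Q Q enc C F
          (Function.update D c (mkp (enc c z) (enc c z')))))| ≤ P c z * (C.map d).sum := by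
        intro z
        refine (abs_sum_le_sum_abs _ _).trans ?_
        have h3 : ∀ z', |P c z * (Q c z' * EE P Q enc C F
            (Function.update D c (mkp (enc c z) (enc c z')))) - P c z * (Q c z' * EE Q Q enc C F
            (Function.update D c (mkp (enc c z) (enc c z'))))| ≤
            P c z * (Q c z' * (C.map d).sum) := by
          intro z'
          rw [← mul_sub, ← mul_sub, abs_mul, abs_mul, abs_of_nonneg (hP c z),
            abs_of_nonneg (hQ c z')]
          refine mul_le_mul_of_nonneg_left (mul_le_mul_of_nonneg_left (ih hn' _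
            fun c₁ hc₁ D' h' => h c₁ (List.mem_cons_of_mem _ hc₁) D' ?_) (hQ c z')) (hP c z)
          intro c₂ hc₂
          rw [h' c₂ fun h3 => hc₂ (List.mem_cons_of_mem _ h3), Function.update_of_ne]
          exact fun h3 => hc₂ (h3 ▸ List.mem_cons_self)
        refine (sum_le_sum fun z' _ => h3 z').trans ?_
        rw [← mul_sum, ← sum_mul, hQ1, one_mul]
      refine (sum_le_sum fun z _ => h2 z).trans ?_
      rw [← sum_mul, hP1, one_mul]
    have h2 : |∑ z, ∑ z', P c z * (Q c z' * EE Q Q enc C F
        (Function.update D c (mkp (enc c z) (enc c z')))) -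
        ∑ z, ∑ z', Q c z * (Q c z' * EE Q Q enc C F
        (Function.update D c (mkp (enc c z) (enc c z'))))| ≤ d c := by
      have h3 : ∀ z' : Z c, ∑ z, P c z * EE Q Q enc C F
          (Function.update D c (mkp (enc c z) (enc c z'))) -
          ∑ z, Q c z * EE Q Q enc C F (Function.update D c (mkp (enc c z) (enc c z'))) =
          EE Q Q enc C (fun D' => ∑ z, P c z * F (Function.update D' c
            (mkp (enc c z) (enc c z'))) - ∑ z, Q c z * F (Function.update D' c
            (mkp (enc c z) (enc c z')))) D := by
        intro z'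
        have e1 : (fun D' : K → Bool → W => ∑ z, P c z * F (Function.update D' c
            (mkp (enc c z) (enc c z'))) - ∑ z, Q c z * F (Function.update D' c
            (mkp (enc c z) (enc c z')))) = fun D' => ∑ z, (P c z - Q c z) *
              F (Function.update D' c (mkp (enc c z) (enc c z'))) := by
          funext D'
          rw [← sum_sub_distrib]
          exact sum_congr rfl fun z _ => by ring
        rw [e1, EE_lin, ← sum_sub_distrib]
        refine sum_congr rfl fun z _ => ?_
        rw [EE_upd _ c _ C D hc]
        ring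
      have h4 : ∑ z, ∑ z', P c z * (Q c z' * EE Q Q enc C F
          (Function.update D c (mkp (enc c z) (enc c z')))) -
          ∑ z, ∑ z', Q c z * (Q c z' * EE Q Q enc C F
          (Function.update D c (mkp (enc c z) (enc c z')))) =
          ∑ z', Q c z' * (∑ z, P c z * EE Q Q enc C F
          (Function.update D c (mkp (enc c z) (enc c z'))) -
          ∑ z, Q c z * EE Q Q enc C F (Function.update D c (mkp (enc c z) (enc c z')))) := by
        simp only [mul_sub, sum_sub_distrib, mul_sum]
        congr 1
        · rw [sum_comm]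
          exact sum_congr rfl fun z' _ => sum_congr rfl fun z _ => by ring
        · rw [sum_comm]
          exact sum_congr rfl fun z' _ => sum_congr rfl fun z _ => by ring
      rw [h4]
      refine (abs_sum_le_sum_abs _ _).trans ?_
      have h5 : ∀ z', |Q c z' * (∑ z, P c z * EE Q Q enc C F
          (Function.update D c (mkp (enc c z) (enc c z'))) -
          ∑ z, Q c z * EE Q Q enc C F (Function.update D c (mkp (enc c z) (enc c z'))))| ≤
          Q c z' * d c := by
        intro z'
        rw [abs_mul, abs_of_nonneg (hQ c z'), h3 z']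
        refine mul_le_mul_of_nonneg_left (EE_abs_le hQ hQ1 hQ hQ1 C D fun D' h' =>
          h c List.mem_cons_self D' (fun c' hc' => h' c' fun h6 =>
            hc' (List.mem_cons_of_mem _ h6)) z') (hQ c z')
      refine (sum_le_sum fun z' _ => h5 z').trans ?_
      rw [← sum_mul, hQ1, one_mul]
    have h3 : EE P Q enc (c :: C) F D - EE Q Q enc (c :: C) F D =
        (∑ z, ∑ z', P c z * (Q c z' * EE P Q enc C F
        (Function.update D c (mkp (enc c z) (enc c z')))) -
        ∑ z, ∑ z', P c z * (Q c z' * EE Q Q enc C F
        (Function.update D c (mkp (enc c z) (enc c z'))))) +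
        (∑ z, ∑ z', P c z * (Q c z' * EE Q Q enc C F
        (Function.update D c (mkp (enc c z) (enc c z')))) -
        ∑ z, ∑ z', Q c z * (Q c z' * EE Q Q enc C F
        (Function.update D c (mkp (enc c z) (enc c z'))))) := by
      simp only [EE]
      ring
    rw [h3, List.map_cons, List.sum_cons]
    refine (abs_add_le _ _).trans ?_
    linarith

end Pool.Agent.H9x.PN
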