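import Pool.Agent.H9x.PN.Win

/-!
# Families of data in which one window varies
-/

set_option autoImplicit false
set_option linter.unusedSectionVars false
set_option linter.unusedVariables false

namespace Pool.Agent.H9x.PN

open Finset H568R2 Pool.Agent.H676 Pool.Agent.H620R2.Gauge Pool.Agent.NPC Pool.Agent.H622R2
  Pool.Agent.H622R2.Exp

open Pool.Agent.H9x.SP (Sys Dt J orc base orc_on orc_off orc_free orc_loc tv tv_congr Blk Fools)
open Pool.Agent.H9x.SN (er er_congr er_off)
open Pool.Agent.H9x.RT (mkp)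

variable {Y : Sys} {ι : Type} [Fintype ι] [DecidableEq ι] {fr : Option ι → List Bool → Bool}
  {W : ℕ → List Y.K} {XX : Finset Y.K} {T w m k : ℕ}
variable {I : Type} [Fintype I] [DecidableEq I]

theorem Win.str (hW : Win Y fr W XX T w m k) {j d : ℕ}
    {F : (I → Bool) → Y.K → Bool → List Bool → Bool}
    (h1 : ∀ c, c ∉ W j → ∀ z z', F z c = F z' c)
    (h2 : ∀ j', j < j' → ∀ c ∈ W j', ∀ z, F z c true = F z c false)
    (h3 : ∀ c ∈ W j, ∀ i v, DTr d (fun z => F z c (tv Y c (orc Y ⟨F z, fr i⟩)) v))
    (i : Option ι) {y : List Bool} (hy : y.length ≤ T) :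
    DTr d (fun z => er (orc Y ⟨F z, fr i⟩) y) := by
  refine dtr_str (fun c hc v => ?_) hy
  set z₀ : I → Bool := fun _ => false
  by_cases hcj : c ∈ W j
  · exact h3 c hcj i v
  · by_cases hex : ∃ j', c ∈ W j'
    · obtain ⟨j', hj'⟩ := hex
      rcases lt_trichotomy j' j with hlt | heq | hgt
      · refine DTr.const ⟨F z₀ c (tv Y c (orc Y ⟨F z₀, fr i⟩)) v, fun z => ?_⟩
        rw [h1 c hcj z z₀, hW.a1 j' c hj' (F z) (F z₀) (fun c' hc' =>
          h1 c' (hc' j hlt.le) z z₀) i]
      · subst heq
        exact absurd hj' hcj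
      · refine DTr.const ⟨F z₀ c true v, fun z => ?_⟩
        have e1 : ∀ t, F z c t = F z₀ c true := by
          intro t
          rw [h1 c hcj z z₀]
          cases t
          · exact (h2 j' hgt c hj' z₀).symm
          · rfl
        rw [e1]
    · push Not at hex
      refine DTr.const ⟨F z₀ c (tv Y c (orc Y ⟨F z₀, fr i⟩)) v, fun z => ?_⟩
      rw [h1 c hcj z z₀, hW.a2 c hc hex (F z) (F z₀) (fun c' hc' =>
          h1 c' (hc' j) z z₀) i i]

/-- the questions for a mixture of contents -/
theorem Win.mix (hW : Win Y fr W XX T w m k) {j d : ℕ} {D B : Y.K → Bool → List Bool → Bool}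
    (hD : ∀ j', j < j' → ∀ c ∈ W j', D c true = D c false) (hB : ∀ c, c ∉ W j → B c = D c)
    {σ : Y.K → (I → Bool) → Bool} (hσ : ∀ c ∈ W j, DTr d (σ c)) (i : Option ι) {c : Y.K}
    (hc : c ∈ XX) : QC (w * d) m k true
      (fun b => tv Y c (orc Y ⟨col (W j) (fun c => σ c b) B, fr i⟩)) := by
  refine hW.aq I _ d (fun y hy => ?_) c hc
  refine hW.str (j := j) (F := fun b => col (W j) (fun c => σ c b) B) (fun c' hc' z z' => ?_)
    (fun j' hj' c' hc' z => ?_) (fun c' hc' i' v => ?_) i hy
  · rw [col_off hc', col_off hc']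
  · have hne : c' ∉ W j := fun h => absurd (hW.dj j j' c' h hc') (by omega)
    rw [col_off hne, hB c' hne]
    exact hD j' hj' c' hc'
  · refine (congrArg (DTr d) (funext fun z => ?_)).mp (DTr.comp (fun s => B c' s v) (hσ c' hc'))
    rw [col_on hc']

/-- the questions when one content varies -/
theorem Win.var (hW : Win Y fr W XX T w m k) {j : ℕ} {D B : Y.K → Bool → List Bool → Bool}
    (hD : ∀ j', j < j' → ∀ c ∈ W j', D c true = D c false) (hB : ∀ c, c ∉ W j → B c = D c)
    (Bc : Blk) {c₀ : Y.K} (hc₀ : c₀ ∈ W j) (v' : List Bool → Bool) (i : Option ι) {c : Y.K}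
    (hc : c ∈ XX) : QC (w * 1) m k true (fun z : Bc.I → Bool =>
      tv Y c (orc Y ⟨Function.update B c₀ (mkp (Bc.enc z) v'), fr i⟩)) := by
  refine hW.aq Bc.I _ 1 (fun y hy => ?_) c hc
  set F : (Bc.I → Bool) → Y.K → Bool → List Bool → Bool :=
    fun z => Function.update B c₀ (mkp (Bc.enc z) v') with hF
  have hoff : ∀ c', c' ≠ c₀ → ∀ z, F z c' = B c' := fun c' h z => Function.update_of_ne h _ _
  set z₀ : Bc.I → Bool := fun _ => false
  have htv : ∀ c' ∈ W j, ∀ i' z, tv Y c' (orc Y ⟨F z, fr i'⟩) = tv Y c' (orc Y ⟨F z₀, fr i'⟩) := by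
    intro c' hc' i' z
    refine hW.a1 j c' hc' (F z) (F z₀) (fun c'' hc'' => ?_) i'
    have hne : c'' ≠ c₀ := by
      rintro rfl
      exact hc'' j le_rfl hc₀
    rw [hoff c'' hne, hoff c'' hne]
  refine hW.str (j := j) (F := F) (fun c' hc' z z' => ?_)
    (fun j' hj' c' hc' z => ?_) (fun c' hc' i' v => ?_) i hy
  · have hne : c' ≠ c₀ := by
      rintro rfl
      exact hc' hc₀
    rw [hoff c' hne, hoff c' hne]
  · have hne : c' ∉ W j := fun h => absurd (hW.dj j j' c' h hc') (by omega)
    have hne' : c' ≠ c₀ := by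
      rintro rfl
      exact hne hc₀
    rw [hoff c' hne', hB c' hne]
    exact hD j' hj' c' hc'
  · have e1 : (fun z => F z c' (tv Y c' (orc Y ⟨F z, fr i'⟩)) v) =
        fun z => F z c' (tv Y c' (orc Y ⟨F z₀, fr i'⟩)) v := funext fun z => by
      rw [htv c' hc' i' z]
    rw [e1]
    set t := tv Y c' (orc Y ⟨F z₀, fr i'⟩)
    by_cases hne : c' = c₀
    · subst hne
      have e2 : ∀ z, F z c' t v = if t then Bc.enc z v else v' v := by
        intro z
        have : F z c' = mkp (Bc.enc z) v' := Function.update_self _ _ _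
        rw [this]
        unfold mkp
        split_ifs <;> rfl
      have e3 : (fun z => F z c' t v) = fun z => if t then Bc.enc z v else v' v := funext e2
      rw [e3]
      cases t
      · exact DTr.const ⟨v' v, fun z => rfl⟩
      · rcases Bc.cls v with ⟨i₀, hi₀⟩ | h0
        · refine Or.inr ⟨i₀, fun b => ⟨b, fun z => ?_⟩⟩
          show Bc.enc (Function.update z i₀ b) v = b
          rw [hi₀, Function.update_self]
        · refine DTr.const ⟨false, fun z => ?_⟩
          show Bc.enc z v = false
          exact h0 z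
    · refine DTr.const ⟨B c' t v, fun z => ?_⟩
      rw [hoff c' hne]

/-- some question separates more than `K` worlds from the first one -/
def bd (Y : Sys) (fr : Option ι → List Bool → Bool) (XX : Finset Y.K) (K : ℕ)
    (B : Y.K → Bool → List Bool → Bool) : Prop :=
  ∃ c ∈ XX, K < (univ.filter fun i : ι => tv Y c (orc Y ⟨B, fr (some i)⟩) ≠
    tv Y c (orc Y ⟨B, fr none⟩)).card

theorem exists_inj {S : Finset ι} {K : ℕ} (h : K < S.card) :
    ∃ f : Fin (K + 1) → ι, Function.Injective f ∧ ∀ l, f l ∈ S := by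
  have h1 : Nonempty (Fin (K + 1) ↪ {i // i ∈ S}) :=
    Function.Embedding.nonempty_of_card_le (by simpa using h)
  obtain ⟨f⟩ := h1
  exact ⟨fun l => (f l).1, fun a b hab => f.injective (Subtype.ext hab), fun l => (f l).2⟩

theorem card_of_inj {S : Finset ι} {K : ℕ} {f : Fin (K + 1) → ι} (hf : Function.Injective f)
    (h : ∀ l, f l ∈ S) : K < S.card := by
  have h1 : (univ.image f).card ≤ S.card := card_le_card fun i hi => by
    obtain ⟨l, _, rfl⟩ := mem_image.1 hi
    exact h l
  rw [card_image_of_injective _ hf, card_univ, Fintype.card_fin] at h1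
  omega

open Classical in
/-- the event as a function of one content -/
theorem qc_bd {K m' d : ℕ} {B : (I → Bool) → Y.K → Bool → List Bool → Bool} (hm : m ≤ m')
    (hm2 : 2 * (XX.card * Fintype.card ι ^ (K + 1)) ≤ 2 ^ m') (hm3 : K + 2 ≤ 2 ^ m')
    (h : ∀ c ∈ XX, ∀ i, QC d m k true (fun z => tv Y c (orc Y ⟨B z, fr i⟩))) :
    QC d m' (k + 3) true (fun z => decide (bd Y fr XX K (B z))) := by
  have key : ∀ z, decide (bd Y fr XX K (B z)) = true ↔ ∃ x : Bool × {c // c ∈ XX} ×
      (Fin (K + 1) → ι), (fun (x : Bool × {c // c ∈ XX} × (Fin (K + 1) → ι)) (z : I → Bool) =>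
        decide (Function.Injective x.2.2 ∧ ∀ l : Option (Fin (K + 1)),
          (match l with
            | none => !(xor x.1 (tv Y x.2.1.1 (orc Y ⟨B z, fr none⟩)))
            | some l => xor x.1 (tv Y x.2.1.1 (orc Y ⟨B z, fr (some (x.2.2 l))⟩))) = true)) x z =
        true := by
    intro z
    simp only [decide_eq_true_eq]
    constructor
    · rintro ⟨c, hc, h1⟩
      obtain ⟨f, hf, hfS⟩ := exists_inj h1
      refine ⟨(tv Y c (orc Y ⟨B z, fr none⟩), ⟨c, hc⟩, f), hf, fun l => ?_⟩
      rcases l with _ | l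
      · simp
      · have h2 := (mem_filter.1 (hfS l)).2
        show xor (tv Y c (orc Y ⟨B z, fr none⟩)) (tv Y c (orc Y ⟨B z, fr (some (f l))⟩)) = true
        generalize tv Y c (orc Y ⟨B z, fr none⟩) = a at *
        generalize tv Y c (orc Y ⟨B z, fr (some (f l))⟩) = b at *
        cases a <;> cases b <;> simp_all
    · rintro ⟨⟨s, c, f⟩, hf, h1⟩
      refine ⟨c.1, c.2, card_of_inj hf fun l => mem_filter.2 ⟨mem_univ _, ?_⟩⟩
      have h2 := h1 none
      have h3 := h1 (some l)
      simp only at h2 h3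
      generalize tv Y c.1 (orc Y ⟨B z, fr none⟩) = a at *
      generalize tv Y c.1 (orc Y ⟨B z, fr (some (f l))⟩) = b at *
      cases s <;> cases a <;> cases b <;> simp_all
  refine QC.ex (X := Bool × {c // c ∈ XX} × (Fin (K + 1) → ι)) ?_ _ (fun x => ?_) key
  · simp only [Fintype.card_prod, Fintype.card_bool, Fintype.card_coe, Fintype.card_fun,
      Fintype.card_fin]
    exact hm2
  · obtain ⟨s, c, f⟩ := x
    by_cases hf : Function.Injective f
    · refine QC.all (X := Option (Fin (K + 1)))
        (by rw [Fintype.card_option, Fintype.card_fin]; exact hm3)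
        (fun l z => match l with
            | none => !(xor s (tv Y c.1 (orc Y ⟨B z, fr none⟩)))
            | some l => xor s (tv Y c.1 (orc Y ⟨B z, fr (some (f l))⟩))) (fun l => ?_)
        fun z => by simp only [decide_eq_true_eq, hf, true_and]
      have hx : ∀ (s' : Bool) (i : Option ι), QC d m' (k + 1) true
          (fun z => xor s' (tv Y c.1 (orc Y ⟨B z, fr i⟩))) := by
        intro s' i
        have h1 := (h c.1 c.2 i).mono le_rfl hm
        cases s'
        · exact h1.inn.congr fun z => by simp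
        · have h2 : QC d m' (k + 1) true (fun z => !(tv Y c.1 (orc Y ⟨B z, fr i⟩))) :=
            QC.out (b := true) h1.not
          exact h2.congr fun z => by simp
      rcases l with _ | l
      · refine (hx (!s) none).congr fun z => ?_
        show (!(xor s _)) = xor (!s) _
        cases s <;> simp
      · exact hx s (some (f l))
    · refine (QC.const false _ _).congr fun z => ?_
      rw [decide_eq_false_iff_not]
      exact fun h => hf h.1

end Pool.Agent.H9x.PN
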