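import Pool.Agent.H9x.PN.Gen0
import Pool.Agent.H591R3.PHG.Main

/-!
# All levels of the projections of trees: basic properties
-/

set_option autoImplicit false
set_option linter.unusedSectionVars false

namespace Pool.Agent.H9x.PN

open Finset H568R2 Pool.Agent.H676 Pool.Agent.H620R2.Gauge Pool.Agent.NPC Pool.Agent.H591R3.PHG

variable {X : Type} [Fintype X] [DecidableEq X]

theorem gb_cond {n : ℕ} (hn : 5 ≤ n) : (1 - 1 / 2 ^ (2 * n)) * (1 - 1 / 2 ^ (4 * n)) ^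
    (8 * n * 2 ^ (4 * n)) / (1 / 2 ^ (4 * n)) +
      1 / 2 ^ (2 * n) * (1 - 1 / 2 ^ (4 * n)) ^ (8 * n * 2 ^ (4 * n)) ≤ (1 : ℝ) := by
  set t : ℝ := 1 / 2 ^ (4 * n) with ht
  set ξ : ℝ := 1 / 2 ^ (2 * n) with hξ
  set smin : ℕ := 8 * n * 2 ^ (4 * n) with hsmin
  have ht0 : 0 < t := by positivity
  have ht2 : t ≤ 1 / 2 := by
    rw [ht]
    apply one_div_le_one_div_of_le (by norm_num)
    calc (2 : ℝ) = 2 ^ 1 := by norm_num
      _ ≤ 2 ^ (4 * n) := pow_le_pow_right₀ (by norm_num) (by omega)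
  have hξ0 : 0 < ξ := by positivity
  have hξ1 : ξ ≤ 1 := by
    rw [hξ, div_le_one (by positivity)]
    exact one_le_pow₀ (by norm_num)
  obtain ⟨hl1, -, -⟩ := lam_bound (u := 0) hn (by omega)
  have hlam4 : (1 : ℝ) / 2 ^ (6 * n) ≤ 1 / 4 := by
    apply one_div_le_one_div_of_le (by norm_num)
    calc (4 : ℝ) = 2 ^ 2 := by norm_num
      _ ≤ 2 ^ (6 * n) := pow_le_pow_right₀ (by norm_num) (by omega)
  have h1 : (1 - t) ^ smin / t ≤ 1 / 4 := hl1.trans hlam4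
  have h2 : (1 - t) ^ smin ≤ 1 / 4 := by
    have h3 : (1 - t) ^ smin ≤ 1 / 4 * t := (div_le_iff₀ ht0).1 h1
    nlinarith
  have h0 : 0 ≤ (1 - t) ^ smin := pow_nonneg (by linarith) _
  have h5 : 0 ≤ (1 - t) ^ smin / t := by positivity
  have h3 : (1 - ξ) * (1 - t) ^ smin / t ≤ (1 - t) ^ smin / t := by
    rw [mul_div_assoc]
    nlinarith
  have h4 : ξ * (1 - t) ^ smin ≤ (1 - t) ^ smin := by nlinarith
  linarith

theorem gb_t0 (n : ℕ) : (0 : ℝ) < 1 / 2 ^ (4 * n) := by positivity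

theorem gb_t1 {n : ℕ} (hn : 5 ≤ n) : (1 : ℝ) / 2 ^ (4 * n) < 1 := by
  rw [div_lt_one (by positivity)]
  exact one_lt_pow₀ (by norm_num) (by omega)

theorem gb_ξ1 (n : ℕ) : (1 : ℝ) / 2 ^ (2 * n) ≤ 1 := by
  rw [div_le_one (by positivity)]
  exact one_le_pow₀ (by norm_num)

theorem gb_s1 {n : ℕ} (hn : 5 ≤ n) : 1 ≤ 8 * n * 2 ^ (4 * n) := by
  have : 0 < 8 * n * 2 ^ (4 * n) := by positivity
  omega

theorem gb_condL (n : ℕ) : (1 - 0) * (1 - 1 / 2 : ℝ) ^ (8 * n) / (1 / 2 ^ (4 * n)) +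
    0 * (1 - 1 / 2 : ℝ) ^ (8 * n) ≤ 1 := by
  rw [zero_mul, add_zero, sub_zero, one_mul]
  rw [div_le_one (by positivity)]
  rw [show (1 - 1 / 2 : ℝ) = 1 / 2 by norm_num, one_div_pow]
  apply one_div_le_one_div_of_le (by positivity)
  exact pow_le_pow_right₀ (by norm_num) (by omega)

theorem mu_nonneg {n : ℕ} (hn : 5 ≤ n) : ∀ (cs : List ℕ) (s : Idx X cs → Option Bool)
    (ω : Om X cs), 0 ≤ mu (1 / 2 ^ (4 * n)) (1 / 2 ^ (2 * n)) (8 * n * 2 ^ (4 * n)) cs s ω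
  | [], _, _ => zero_le_one
  | _ :: cs, s, ω => mul_nonneg
      (wt_nonneg (gb_t0 n) (gb_t1 hn) (gb_t0 n) (by positivity) (gb_ξ1 n) (gb_s1 hn) (gb_cond hn)
        s ω.1) (mu_nonneg hn cs _ ω.2)

theorem mu_sum {n : ℕ} (hn : 5 ≤ n) : ∀ (cs : List ℕ) (s : Idx X cs → Option Bool),
    ∑ ω : Om X cs, mu (1 / 2 ^ (4 * n)) (1 / 2 ^ (2 * n)) (8 * n * 2 ^ (4 * n)) cs s ω = 1
  | [], _ => by
      show ∑ _ω : Unit, (1 : ℝ) = 1
      simp
  | c :: cs, s => by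
      have h : ∑ ω : Om X (c :: cs), mu (1 / 2 ^ (4 * n)) (1 / 2 ^ (2 * n))
          (8 * n * 2 ^ (4 * n)) (c :: cs) s ω =
          ∑ ω : (Idx X cs → St c) × Om X cs, wt (G := Idx X cs) (1 / 2 ^ (4 * n))
            (1 / 2 ^ (4 * n)) (1 / 2 ^ (2 * n)) (8 * n * 2 ^ (4 * n)) s ω.1 *
            mu (1 / 2 ^ (4 * n)) (1 / 2 ^ (2 * n)) (8 * n * 2 ^ (4 * n)) cs
              (fun h => (ω.1 h).1) ω.2 := rfl
      rw [h, Fintype.sum_prod_type]
      simp only [← Finset.mul_sum, mu_sum hn cs, mul_one]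
      exact wt_sum (gb_t0 n) (gb_t1 hn) (gb_t0 n) (gb_s1 hn) s

theorem muL_nonneg {n : ℕ} (hn : 5 ≤ n) (cs : List ℕ) (ω : OmL X n cs) : 0 ≤ muL n cs ω :=
  mul_nonneg (wt_nonneg (by norm_num) (by norm_num) (gb_t0 n) le_rfl zero_le_one (by omega)
    (gb_condL n) _ ω.1) (mu_nonneg hn cs _ ω.2)

theorem muL_sum {n : ℕ} (hn : 5 ≤ n) (cs : List ℕ) : ∑ ω : OmL X n cs, muL n cs ω = 1 := by
  unfold muL
  rw [Fintype.sum_prod_type]
  simp only [← Finset.mul_sum, mu_sum hn cs, mul_one]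
  exact wt_sum (by norm_num) (by norm_num) (gb_t0 n) (by omega) _

theorem tr_lfm {t ξ : ℝ} {smin : ℕ} (z : X → Bool) (x : X) : ∀ (cs : List ℕ)
    (s : Idx X cs → Option Bool) (ω : Om X cs), mu t ξ smin cs s ω ≠ 0 →
      Tr cs (val s (lfm cs s ω z)) x = (rst cs s ω x).getD (z x)
  | [], _, _, _ => rfl
  | c :: cs, s, ω, h => by
      have h1 : wt (G := Idx X cs) t t ξ smin s ω.1 ≠ 0 := left_ne_zero_of_mul h
      have h2 : mu t ξ smin cs (fun h => (ω.1 h).1) ω.2 ≠ 0 := right_ne_zero_of_mul h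
      rw [← show _ = (rst (c :: cs) s ω x).getD (z x) from
        tr_lfm z x cs (fun h => (ω.1 h).1) ω.2 h2]
      show Tr cs (fun g => decide (∀ i : Fin c,
        val (I := Idx X cs × Fin c) s (XX s ω.1 (lfm cs (fun h => (ω.1 h).1) ω.2 z)) (g, i) =
          false)) x = _
      congr 1
      funext g'
      exact val_stage (G := Idx X cs) s ω.1 h1 _ g'

theorem tr_lfmL {n : ℕ} {cs : List ℕ} {ω : OmL X n cs} (h : muL n cs ω ≠ 0) (z : X → Bool) (x : X) :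
    Tr (8 * n :: cs) (lfmL n cs ω z) x = (rstL n cs ω x).getD (z x) := by
  have h1 : wt (G := Idx X cs) (1 / 2) (1 / 2 ^ (4 * n)) 0 (8 * n) (fun _ => none) ω.1 ≠ 0 :=
    left_ne_zero_of_mul h
  have h2 := right_ne_zero_of_mul h
  rw [← show _ = (rstL n cs ω x).getD (z x) from tr_lfm z x cs (fun h => (ω.1 h).1) ω.2 h2]
  show Tr cs (fun g => decide (∀ i : Fin (8 * n),
    val (I := Idx X cs × Fin (8 * n)) (fun _ => none)
      (XX (fun _ => none) ω.1 (lfm cs (fun h => (ω.1 h).1) ω.2 z)) (g, i) = false)) x = _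
  congr 1
  funext g'
  exact val_stage (G := Idx X cs) (fun _ => none) ω.1 h1 _ g'

theorem lfm_loc {z z' : X → Bool} : ∀ (cs : List ℕ) (s : Idx X cs → Option Bool) (ω : Om X cs)
    (g : Idx X cs), z (rt cs g) = z' (rt cs g) → lfm cs s ω z g = lfm cs s ω z' g
  | [], _, _, _, h => h
  | c :: cs, s, ω, g, h => by
      show xx (fun i : Fin c => s (g.1, i)) (ω.1 g.1) (lfm cs (fun h => (ω.1 h).1) ω.2 z g.1) g.2 =
        xx (fun i : Fin c => s (g.1, i)) (ω.1 g.1) (lfm cs (fun h => (ω.1 h).1) ω.2 z' g.1) g.2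
      rw [lfm_loc cs (fun h => (ω.1 h).1) ω.2 g.1 h]

theorem lfmL_loc {n : ℕ} {cs : List ℕ} (ω : OmL X n cs) {z z' : X → Bool} (g : Idx X (8 * n :: cs))
    (h : z (rt (8 * n :: cs) g) = z' (rt (8 * n :: cs) g)) : lfmL n cs ω z g = lfmL n cs ω z' g := by
  show xx (fun _ : Fin (8 * n) => none) (ω.1 g.1) (lfm cs (fun h => (ω.1 h).1) ω.2 z g.1) g.2 =
    xx (fun _ : Fin (8 * n) => none) (ω.1 g.1) (lfm cs (fun h => (ω.1 h).1) ω.2 z' g.1) g.2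
  rw [lfm_loc cs (fun h => (ω.1 h).1) ω.2 g.1 h]

end Pool.Agent.H9x.PN
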