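import Pool.Agent.H9x.PN.Gen0
import Pool.Agent.H591R3.PHG.Main

/-!
# The law of the statuses of the roots (piece G3 of project PN)
-/

set_option autoImplicit false
set_option linter.unusedSectionVars false

namespace Pool.Agent.H9x.PN

open Finset H568R2 Pool.Agent.H676 Pool.Agent.H620R2.Gauge Pool.Agent.NPC Pool.Agent.H591R3.PHG

open Pool.Agent.H591R3.PHG.LawAux (prod_sum ps half_pow sum_ps sum_option_bool)

/-- the statuses of the roots are independent -/
theorem law_mu {n : ℕ} (hn : 5 ≤ n) : ∀ (k : ℕ) (law : Option Bool → ℝ), Inv n law →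
    ∃ (as : List ℕ) (lw : Option Bool → ℝ), as.length = k ∧ (∀ b ∈ as, b ≤ 64 * n) ∧ Inv n lw ∧
      ∀ (X : Type) [Fintype X] [DecidableEq X] (Ψ : (X → Option Bool) → ℝ),
        Ex law (fun s : Idx X (pw as) → Option Bool => ∑ ω : Om X (pw as),
          mu (1 / 2 ^ (4 * n)) (1 / 2 ^ (2 * n)) (8 * n * 2 ^ (4 * n)) (pw as) s ω *
            Ψ (rst (pw as) s ω)) = Ex lw Ψ := by
  intro k
  induction k with
  | zero =>
    intro law hinv
    refine ⟨[], law, rfl, by simp, hinv, fun X _ _ Ψ => ?_⟩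
    unfold Ex
    refine Finset.sum_congr rfl fun s _ => ?_
    congr 1
    show ∑ ω : Unit, (1 : ℝ) * Ψ s = Ψ s
    simp
  | succ k ih =>
    intro law hinv
    have hn5 : (5 : ℝ) ≤ n := by exact_mod_cast hn
    obtain ⟨a, ha, h1, h2⟩ := exists_pow hn (B := 16 * n) hinv.lo hinv.hi (by linarith) le_rfl
    have hc2 : (((2 ^ a : ℕ)) : ℝ) = 2 ^ a := by push_cast; rfl
    have hinv' := inv_step (c := 2 ^ a) hn hinv (by rw [hc2]; exact h1)
      (by rw [hc2]; linarith)
    obtain ⟨as, lw, hlen, has, hlw, hX⟩ := ih _ hinv'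
    refine ⟨a :: as, lw, by simp [hlen], ?_, hlw, fun X _ _ Ψ => ?_⟩
    · intro a' ha'
      rcases List.mem_cons.1 ha' with rfl | h
      · exact ha
      · exact has a' h
    · rw [← hX X Ψ, ← law_stage (G := Idx X (pw as)) (c := 2 ^ a) (smin := 8 * n * 2 ^ (4 * n))
        (t := 1 / 2 ^ (4 * n)) (t' := 1 / 2 ^ (4 * n)) (ξ := 1 / 2 ^ (2 * n)) law]
      unfold Ex
      refine Finset.sum_congr rfl fun s _ => ?_
      congr 1
      show ∑ ω : (Idx X (pw as) → St (2 ^ a)) × Om X (pw as),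
        wt (G := Idx X (pw as)) _ _ _ _ s ω.1 * mu _ _ _ (pw as) (fun h => (ω.1 h).1) ω.2 *
          Ψ (rst (pw as) (fun h => (ω.1 h).1) ω.2) = _
      rw [Fintype.sum_prod_type]
      refine Finset.sum_congr rfl fun ρ _ => ?_
      rw [Finset.mul_sum]
      exact Finset.sum_congr rfl fun ω _ => mul_assoc _ _ _

/-- with the level of the leaves -/
theorem law_muL {n : ℕ} (hn : 5 ≤ n) (k : ℕ) :
    ∃ (as : List ℕ) (lw : Option Bool → ℝ), as.length = k ∧ (∀ b ∈ as, b ≤ 64 * n) ∧ Inv n lw ∧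
      ∀ (X : Type) [Fintype X] [DecidableEq X] (Ψ : (X → Option Bool) → ℝ),
        ∑ ω : OmL X n (pw as), muL n (pw as) ω * Ψ (rstL n (pw as) ω) = Ex lw Ψ := by
  obtain ⟨as, lw, hlen, has, hlw, hX⟩ := law_mu hn k _ (inv_start hn)
  refine ⟨as, lw, hlen, has, hlw, fun X _ _ Ψ => ?_⟩
  have h8 := law_stage (G := Idx X (pw as)) (c := 8 * n) (smin := 8 * n) (t := 1 / 2)
    (t' := 1 / 2 ^ (4 * n)) (ξ := 0) law0 (fun s => ∑ ω : Om X (pw as),
      mu (1 / 2 ^ (4 * n)) (1 / 2 ^ (2 * n)) (8 * n * 2 ^ (4 * n)) (pw as) s ω *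
        Ψ (rst (pw as) s ω))
  rw [Ex_law0, hX X Ψ] at h8
  rw [← h8]
  unfold muL rstL
  rw [Fintype.sum_prod_type]
  refine Finset.sum_congr rfl fun ρ _ => ?_
  rw [Finset.mul_sum]
  exact Finset.sum_congr rfl fun ω _ => mul_assoc _ _ _

/-- the weights for the number of children determined to be true -/
noncomputable def pt : Option Bool → ℝ := fun v => if v = some true then 0 else 1

theorem sum_pt {law : Option Bool → ℝ} (hl : ∑ v, law v = 1) :
    ∑ v, law v * pt v = 1 - law (some true) := by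
  rw [sum_option_bool] at hl ⊢
  unfold pt
  simp only [reduceCtorEq, if_false, if_true, Option.some.injEq, Bool.false_eq_true]
  linear_combination hl

theorem prod_pt {c : ℕ} (σ : Fin c → Option Bool) :
    ∏ i, pt (σ i) = if ∀ i, σ i ≠ some true then (1 : ℝ) else 0 := by
  by_cases h : ∀ i, σ i ≠ some true
  · rw [if_pos h]
    exact Finset.prod_eq_one fun i _ => if_neg (h i)
  · rw [if_neg h]
    push Not at h
    obtain ⟨i, hi⟩ := h
    exact Finset.prod_eq_zero (Finset.mem_univ i) (if_pos hi)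

open Classical in
theorem ind_ge {c : ℕ} (m : ℕ) (σ : Fin c → Option Bool) :
    ∏ i, pt (σ i) - 2 ^ m * ∏ i, ps (σ i) ≤
      if (∀ x, σ x ≠ some true) ∧ m ≤ (univ.filter fun x => σ x = none).card
        then (1 : ℝ) else 0 := by
  rw [prod_pt, ← half_pow]
  have h0 : (0 : ℝ) ≤ 2 ^ m * (1 / 2) ^ (live σ).card := by positivity
  by_cases h : ∀ i, σ i ≠ some true
  · rw [if_pos h]
    by_cases h1 : m ≤ (univ.filter fun x => σ x = none).card
    · rw [if_pos ⟨h, h1⟩]
      linarith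
    · rw [if_neg (fun h2 => h1 h2.2)]
      have h2 : (live σ).card ≤ m := by
        have h3 : (live σ).card = (univ.filter fun x => σ x = none).card := by
          unfold live
          congr 1
        omega
      have h3 : (1 : ℝ) ≤ 2 ^ m * (1 / 2) ^ (live σ).card := by
        calc (1 : ℝ) = 2 ^ (live σ).card * (1 / 2) ^ (live σ).card := by
              rw [← mul_pow]
              norm_num
          _ ≤ 2 ^ m * (1 / 2) ^ (live σ).card :=
              mul_le_mul_of_nonneg_right (pow_le_pow_right₀ (by norm_num) h2) (by positivity)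
      linarith
  · rw [if_neg h]
    have h1 : (0 : ℝ) ≤ if (∀ x, σ x ≠ some true) ∧ m ≤ (univ.filter fun x => σ x = none).card
        then (1 : ℝ) else 0 := by split_ifs <;> norm_num
    linarith

open Classical in
/-- many undetermined roots and no root which is determined to be true -/
theorem prob_ge {n : ℕ} (hn : 5 ≤ n) {lw : Option Bool → ℝ} (hlw : Inv n lw) {c : ℕ}
    (h1 : 1 / 2 ≤ (c : ℝ) * (lw none / 2 ^ (4 * n) + lw (some true)))
    (h2 : (c : ℝ) * (lw none / 2 ^ (4 * n) + lw (some true)) < 1) :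
    1 / 2 ≤ Ex lw (fun σ : Fin c → Option Bool =>
      if (∀ x, σ x ≠ some true) ∧ 2 ^ (4 * n - 3) ≤ (univ.filter fun x => σ x = none).card
        then (1 : ℝ) else 0) := by
  set p : ℝ := lw none / 2 ^ (4 * n) + lw (some true) with hp
  have hc0 : (0 : ℝ) ≤ c := Nat.cast_nonneg c
  have hq0 := hlw.nonneg none
  have hr0 := hlw.nonneg (some true)
  have hT0 : (0 : ℝ) < 2 ^ (4 * n) := by positivity
  have hX10 : (2 : ℝ) ^ 10 ≤ 2 ^ (2 * n) := pow_le_pow_right₀ (by norm_num) (by omega)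
  have hξ : (1 : ℝ) / 2 ^ (2 * n) ≤ 1 / 1024 := by
    apply one_div_le_one_div_of_le (by norm_num)
    calc (1024 : ℝ) = 2 ^ 10 := by norm_num
      _ ≤ _ := hX10
  -- the children determined to be true
  have hcr : (c : ℝ) * lw (some true) ≤ 1 / 512 := by
    have h3 : lw (some true) ≤ 2 * (1 / 2 ^ (2 * n)) * p := hlw.rare
    have hcp0 : 0 ≤ (c : ℝ) * p := by linarith
    calc (c : ℝ) * lw (some true) ≤ c * (2 * (1 / 2 ^ (2 * n)) * p) :=
          mul_le_mul_of_nonneg_left h3 hc0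
      _ = 2 * (1 / 2 ^ (2 * n)) * (c * p) := by ring
      _ ≤ 2 * (1 / 1024) * 1 := by
          apply mul_le_mul _ h2.le hcp0 (by norm_num)
          linarith
      _ = 1 / 512 := by norm_num
  -- the undetermined children
  obtain ⟨m, hm⟩ : ∃ m, m = 2 ^ (4 * n - 3) := ⟨_, rfl⟩
  have hm8 : (2 : ℝ) ^ (4 * n) = 8 * (m : ℝ) := by
    rw [hm]
    push_cast
    rw [show (8 : ℝ) = 2 ^ 3 by norm_num, ← pow_add]
    congr 1
    omega
  have hm17 : (131072 : ℝ) ≤ m := by
    rw [hm]
    push_cast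
    calc (131072 : ℝ) = 2 ^ 17 := by norm_num
      _ ≤ 2 ^ (4 * n - 3) := pow_le_pow_right₀ (by norm_num) (by omega)
  have hcq : 2 * (m : ℝ) ≤ c * lw none := by
    have h3 : (c : ℝ) * lw none = 2 ^ (4 * n) * (c * p - c * lw (some true)) := by
      rw [hp]
      field_simp
      ring
    rw [h3, hm8]
    nlinarith
  have hq1 : lw none ≤ 1 := by
    have hl := hlw.sum
    rw [sum_option_bool] at hl
    have := hlw.nonneg (some false)
    linarith
  have hr1 : lw (some true) ≤ 1 := by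
    have hl := hlw.sum
    rw [sum_option_bool] at hl
    have := hlw.nonneg (some false)
    linarith
  have e1 : (2 : ℝ) ^ m ≤ Real.exp (7 / 10 * m) := by
    have f1 : (2 : ℝ) ≤ Real.exp (7 / 10) := by
      have := Real.log_two_lt_d9
      rw [← Real.log_le_iff_le_exp (by norm_num)]
      linarith
    rw [mul_comm, Real.exp_nat_mul]
    exact pow_le_pow_left₀ (by norm_num) f1 _
  have e2 := InvStepAux.half_le c hq0 hq1
  have e3 : (2 : ℝ) ^ m * (1 - lw none / 2) ^ c ≤ 1 / 4 := by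
    calc (2 : ℝ) ^ m * (1 - lw none / 2) ^ c ≤
        Real.exp (7 / 10 * m) * Real.exp (-(c * lw none / 2)) :=
          mul_le_mul e1 e2 (pow_nonneg (by linarith) _) (Real.exp_pos _).le
      _ = Real.exp (7 / 10 * m + -(c * lw none / 2)) := (Real.exp_add _ _).symm
      _ ≤ Real.exp (-3) := Real.exp_le_exp.mpr (by linarith)
      _ ≤ 1 / 4 := by
          rw [Real.exp_neg, one_div]
          refine inv_anti₀ (by norm_num) ?_
          have := Real.add_one_le_exp (3 : ℝ)
          linarith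
  have e4 : 1 - 1 / 512 ≤ (1 - lw (some true)) ^ c := by
    have h3 := one_add_mul_le_pow (a := -lw (some true)) (by linarith) c
    have h4 : 1 + -lw (some true) = 1 - lw (some true) := by ring
    rw [h4] at h3
    linarith
  have e5 : Ex lw (fun σ : Fin c → Option Bool => ∏ i, pt (σ i) - 2 ^ m * ∏ i, ps (σ i)) =
      (1 - lw (some true)) ^ c - 2 ^ m * (1 - lw none / 2) ^ c := by
    rw [← sum_pt hlw.sum, ← sum_ps hlw.sum, ← prod_sum, ← prod_sum, Finset.mul_sum,
      ← Finset.sum_sub_distrib]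
    unfold Ex
    refine Finset.sum_congr rfl fun σ _ => ?_
    ring
  rw [← hm]
  refine le_trans ?_ (Ex_mono hlw.nonneg (fun σ => ind_ge m σ))
  rw [e5]
  linarith

open Classical in
/-- **G3.** -/
theorem exists_as {n : ℕ} (hn : 5 ≤ n) (k : ℕ) : ∃ (as : List ℕ) (a : ℕ), as.length = k ∧
    (∀ b ∈ as, b ≤ 64 * n) ∧ a ≤ 64 * n ∧
    1 / 2 ≤ ∑ ω : OmL (Fin (2 ^ a)) n (pw as), muL n (pw as) ω *
      (if (∀ x, rstL n (pw as) ω x ≠ some true) ∧
        2 ^ (4 * n - 3) ≤ (univ.filter fun x => rstL n (pw as) ω x = none).card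
        then (1 : ℝ) else 0) := by
  obtain ⟨as, lw, hlen, has, hlw, hX⟩ := law_muL hn k
  obtain ⟨a, ha, h1, h2⟩ := exists_pow hn (B := 1 / 2) hlw.lo hlw.hi le_rfl (by
    have : (5 : ℝ) ≤ n := by exact_mod_cast hn
    linarith)
  have hc2 : (((2 ^ a : ℕ)) : ℝ) = 2 ^ a := by push_cast; rfl
  refine ⟨as, a, hlen, has, ha, ?_⟩
  have h3 := prob_ge hn hlw (c := 2 ^ a) (by rw [hc2]; exact h1) (by rw [hc2]; linarith)
  rw [← hX (Fin (2 ^ a))] at h3
  exact h3

end Pool.Agent.H9x.PN
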