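import Pool.Agent.H9x.PN.Gen0

/-!
# The rows: the tree below a root padded to the fixed shape
-/

set_option autoImplicit false
set_option linter.unusedSectionVars false

namespace Pool.Agent.H9x.PN

open Finset H568R2 Pool.Agent.H676 Pool.Agent.H620R2.Gauge Pool.Agent.NPC Pool.Agent.H591R3.PHG

open Pool.Agent.H9x.SP (senc pad shp sval prj Tr_pad sval_senc senc_cls fa_shp)

variable {X : Type} [Fintype X] [DecidableEq X]

theorem Tr_atx (x : X) : ∀ (cs : List ℕ) (z : Idx X cs → Bool),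
    Tr cs (fun g : Idx Unit cs => z (atx x cs g)) () = Tr cs z x
  | [], _ => rfl
  | c :: cs, z => Tr_atx x cs (fun g => decide (∀ i : Fin c, z (g, i) = false))

theorem rt_atx (x : X) : ∀ (cs : List ℕ) (g : Idx Unit cs), rt cs (atx x cs g) = x
  | [], _ => rfl
  | _ :: cs, g => rt_atx x cs g.1

theorem sval_cnX {cs : List ℕ} {s k : ℕ}
    (h : List.Forall₂ (fun c c' => c ≤ c' ∧ 1 ≤ c') cs (shp s k)) (z : Idx X cs → Bool) (x : X) :
    sval s k (cnX cs s k z x) = Tr cs z x := by
  unfold cnX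
  rw [sval_senc, Tr_pad _ _ h, Tr_atx]

theorem cnX_cls (cs : List ℕ) (s k : ℕ) (x : X) (v : List Bool) :
    (∃ g : Idx X cs, rt cs g = x ∧ ∀ z : Idx X cs → Bool, cnX cs s k z x v = z g) ∨
      ∃ b, ∀ z : Idx X cs → Bool, cnX cs s k z x v = b := by
  rcases senc_cls s k v with ⟨i, hi⟩ | h
  · cases hg : prj cs (shp s k) i with
    | inl h' =>
      left
      refine ⟨atx x cs h', rt_atx x cs h', fun z => ?_⟩
      unfold cnX
      rw [hi]
      unfold pad
      rw [hg]
    | inr b =>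
      right
      refine ⟨b, fun z => ?_⟩
      unfold cnX
      rw [hi]
      unfold pad
      rw [hg]
  · right
    exact ⟨false, fun z => h _⟩

theorem fa_shp2 {n s k : ℕ} (hn : 1 ≤ n) (hs : n ≤ s) {as : List ℕ} (hlen : as.length = k + 1)
    (has : ∀ a ∈ as, a ≤ 64 * n) :
    List.Forall₂ (fun c c' => c ≤ c' ∧ 1 ≤ c') (8 * n :: pw as) (shp s k) :=
  List.Forall₂.cons ⟨by omega, by omega⟩
    (fa_shp k as hlen fun a ha => (has a ha).trans (by omega))

end Pool.Agent.H9x.PN
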