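import Pool.Agent.H9x.PN.GBas

/-!
# The questions become shallow decision trees in the values of the roots (piece G1 of project PN)
-/

set_option autoImplicit false
set_option linter.unusedSectionVars false

namespace Pool.Agent.H9x.PN

open Finset H568R2 Pool.Agent.H676 Pool.Agent.H620R2.Gauge Pool.Agent.NPC Pool.Agent.H591R3.PHG

variable {X : Type} [Fintype X] [DecidableEq X]

open Classical in
/-- for two functions at the same time -/
theorem mu_switch2 {n u : ℕ} (hn : 5 ≤ n) (hu : 8 * u ≤ n) :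
    ∀ (k : ℕ) (cs : List ℕ), cs.length = k → ∀ (s : Idx X cs → Option Bool) (m ℓ : ℕ)
      (F : Bool → List Bool → (Idx X cs → Bool) → Bool),
      (∀ b, ∀ y : List Bool, y.length ≤ ℓ + k * (2 * m + 1) → DTr (2 ^ (2 * u)) (F b y)) →
      ∑ ω : Om X cs, mu (1 / 2 ^ (4 * n)) (1 / 2 ^ (2 * n)) (8 * n * 2 ^ (4 * n)) cs s ω *
        (if ∀ y : List Bool, y.length ≤ ℓ → ∀ b, DTr (2 ^ (2 * u))
          (fun z : X → Bool => QF m (F b) k b y (lfm cs s ω z)) then (0 : ℝ) else 1) ≤
      k * (2 ^ (ℓ + k * (2 * m + 1) + 2) * (1 / 2) ^ (2 ^ (2 * u) + 1)) := by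
  set t : ℝ := 1 / 2 ^ (4 * n) with ht
  set ξ : ℝ := 1 / 2 ^ (2 * n) with hξ
  set smin : ℕ := 8 * n * 2 ^ (4 * n) with hsmin
  set r : ℕ := 2 ^ (2 * u) with hr
  have ht0 : 0 < t := by positivity
  have ht2 : t ≤ 1 / 2 := by
    rw [ht]
    apply one_div_le_one_div_of_le (by norm_num)
    calc (2 : ℝ) = 2 ^ 1 := by norm_num
      _ ≤ 2 ^ (4 * n) := pow_le_pow_right₀ (by norm_num) (by omega)
  have ht1 : t < 1 := by linarith
  have hξ0 : 0 < ξ := by positivity
  have hξ1 : ξ ≤ 1 := gb_ξ1 n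
  have hs1 : 1 ≤ smin := gb_s1 hn
  have hr1 : 1 ≤ r := Nat.one_le_two_pow
  obtain ⟨hl1, hl2, hl3⟩ := lam_bound hn hu
  have hlam4 : (1 : ℝ) / 2 ^ (6 * n) ≤ 1 / 4 := by
    apply one_div_le_one_div_of_le (by norm_num)
    calc (4 : ℝ) = 2 ^ 2 := by norm_num
      _ ≤ 2 ^ (6 * n) := pow_le_pow_right₀ (by norm_num) (by omega)
  intro k
  induction k with
  | zero =>
    intro cs hcs s m ℓ F hF
    match cs, hcs with
    | [], _ =>
      have h1 : ∀ ω : Om X [], (if ∀ y : List Bool, y.length ≤ ℓ → ∀ b, DTr r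
          (fun z : X → Bool => QF m (F b) 0 b y (lfm [] s ω z)) then (0 : ℝ) else 1) = 0 := by
        intro ω
        rw [if_pos]
        intro y hy b
        have h2 := hF b y (by omega)
        have e0 : (fun z : X → Bool => QF m (F b) 0 b y (lfm [] s ω z)) = F b y := by
          cases b <;> rfl
        rw [e0]
        exact h2
      rw [Finset.sum_eq_zero fun ω _ => by rw [h1, mul_zero]]
      simp
  | succ k ih =>
    intro cs hcs s m ℓ F hF
    match cs, hcs with
    | c :: cs, hcs =>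
      have hlen : cs.length = k := by simpa using hcs
      have hℓ : ℓ + (k + 1) * (2 * m + 1) = ℓ + k * (2 * m + 1) + (2 * m + 1) := by ring
      have hsw := fun b₀ : Bool => stage_switch (G := Idx X cs) (c := c) (smin := smin) (r := r)
        (t := t) (t' := t) (ξ := ξ) (lam := 1 / 2 ^ (6 * n)) ht0 ht2 ht0 ht1.le hξ0 hξ1 hs1 hl1
        hlam4 hr1 hl3 s m (ℓ + k * (2 * m + 1)) (F b₀)
        (fun y' hy' => hF b₀ y' (by rw [hℓ]; exact hy'))
      set bad : Bool → (Idx X cs → St c) → Prop := fun b₀ ρ => ¬ ∀ y : List Bool,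
        y.length ≤ ℓ + k * (2 * m + 1) → ∀ b,
        DTr r (fun z : Idx X cs → Bool => QF m (F b₀) 1 b y (XX s ρ z)) with hbad
      have hnn : ∀ ρ : Idx X cs → St c, 0 ≤ wt (G := Idx X cs) t t ξ smin s ρ := fun ρ =>
        wt_nonneg ht0 ht1 ht0 hξ0.le hξ1 hs1 (gb_cond hn) s ρ
      set E₁ : ℝ := k * (2 ^ (ℓ + k * (2 * m + 1) + 2) * (1 / 2) ^ (r + 1)) with hE₁
      have hE₁0 : 0 ≤ E₁ := by positivity
      have hsplit : ∑ ω : Om X (c :: cs), mu t ξ smin (c :: cs) s ω *
          (if ∀ y : List Bool, y.length ≤ ℓ → ∀ b, DTr r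
            (fun z : X → Bool => QF m (F b) (k + 1) b y (lfm (c :: cs) s ω z)) then (0 : ℝ) else 1) =
          ∑ ρ : Idx X cs → St c, wt (G := Idx X cs) t t ξ smin s ρ *
            ∑ ω : Om X cs, mu t ξ smin cs (fun h => (ρ h).1) ω *
              (if ∀ y : List Bool, y.length ≤ ℓ → ∀ b, DTr r
                (fun z : X → Bool => QF m (F b) (k + 1) b y
                  (XX (G := Idx X cs) s ρ (lfm cs (fun h => (ρ h).1) ω z))) then (0 : ℝ) else 1) := by
        show ∑ ω : (Idx X cs → St c) × Om X cs,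
          wt (G := Idx X cs) t t ξ smin s ω.1 * mu t ξ smin cs (fun h => (ω.1 h).1) ω.2 * _ = _
        rw [Fintype.sum_prod_type]
        refine Finset.sum_congr rfl fun ρ _ => ?_
        rw [Finset.mul_sum]
        exact Finset.sum_congr rfl fun ω _ => mul_assoc _ _ _
      rw [hsplit]
      have hterm : ∀ ρ : Idx X cs → St c, wt (G := Idx X cs) t t ξ smin s ρ *
            ∑ ω : Om X cs, mu t ξ smin cs (fun h => (ρ h).1) ω *
              (if ∀ y : List Bool, y.length ≤ ℓ → ∀ b, DTr r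
                (fun z : X → Bool => QF m (F b) (k + 1) b y
                  (XX (G := Idx X cs) s ρ (lfm cs (fun h => (ρ h).1) ω z))) then (0 : ℝ) else 1)
          ≤ wt (G := Idx X cs) t t ξ smin s ρ * (if bad true ρ then (1 : ℝ) else 0) +
            wt (G := Idx X cs) t t ξ smin s ρ * (if bad false ρ then (1 : ℝ) else 0) +
            wt (G := Idx X cs) t t ξ smin s ρ * E₁ := by
        intro ρ
        rw [← mul_add, ← mul_add]
        apply mul_le_mul_of_nonneg_left _ (hnn ρ)
        by_cases hb : bad true ρ ∨ bad false ρ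
        · have h3 : ∑ ω : Om X cs, mu t ξ smin cs (fun h => (ρ h).1) ω *
              (if ∀ y : List Bool, y.length ≤ ℓ → ∀ b, DTr r
                (fun z : X → Bool => QF m (F b) (k + 1) b y
                  (XX (G := Idx X cs) s ρ (lfm cs (fun h => (ρ h).1) ω z))) then (0 : ℝ) else 1) ≤
              1 := by
            refine le_trans (Finset.sum_le_sum fun ω _ => ?_)
              (mu_sum hn cs (fun h => (ρ h).1)).le
            have h4 := mu_nonneg hn cs (fun h => (ρ h).1) ω
            split_ifs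
            · rw [mul_zero]
              exact h4
            · rw [mul_one]
          have h5 : (1 : ℝ) ≤ (if bad true ρ then (1 : ℝ) else 0) +
              (if bad false ρ then (1 : ℝ) else 0) := by
            rcases hb with hb | hb
            · rw [if_pos hb]
              have : (0 : ℝ) ≤ if bad false ρ then (1 : ℝ) else 0 := by split_ifs <;> norm_num
              linarith
            · rw [if_pos hb]
              have : (0 : ℝ) ≤ if bad true ρ then (1 : ℝ) else 0 := by split_ifs <;> norm_num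
              linarith
          linarith
        · have hb' := not_or.1 hb
          rw [if_neg hb'.1, if_neg hb'.2, zero_add, zero_add]
          have hgood : ∀ b₀ : Bool, ∀ y : List Bool, y.length ≤ ℓ + k * (2 * m + 1) → ∀ b,
              DTr r (fun z : Idx X cs → Bool => QF m (F b₀) 1 b y (XX s ρ z)) := by
            intro b₀
            cases b₀
            · exact not_not.1 hb'.2
            · exact not_not.1 hb'.1
          have h5 := ih cs hlen (fun h => (ρ h).1) m ℓ
            (fun b y' z => QF m (F b) 1 (bot b k) y' (XX (G := Idx X cs) s ρ z))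
            (fun b y' hy' => hgood b y' hy' _)
          refine le_trans (le_of_eq (Finset.sum_congr rfl fun ω _ => ?_)) h5
          congr 1
          refine if_congr ?_ rfl rfl
          refine forall_congr' fun y => forall_congr' fun _ => forall_congr' fun b => ?_
          have e1 : (fun z : X → Bool => QF m (F b) (k + 1) b y
              (XX (G := Idx X cs) s ρ (lfm cs (fun h => (ρ h).1) ω z))) =
              fun z : X → Bool => QF m (fun y' z =>
                QF m (F b) 1 (bot b k) y' (XX (G := Idx X cs) s ρ z)) k b y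
                  (lfm cs (fun h => (ρ h).1) ω z) := by
            funext z
            rw [QF_peel, QF_comp m (fun y' => QF m (F b) 1 (bot b k) y') (XX (G := Idx X cs) s ρ)]
          rw [e1]
      refine (Finset.sum_le_sum fun ρ _ => hterm ρ).trans ?_
      rw [Finset.sum_add_distrib, Finset.sum_add_distrib, ← Finset.sum_mul,
        wt_sum ht0 ht1 ht0 hs1 s, one_mul]
      have h6 : 2 ^ (ℓ + k * (2 * m + 1) + 2) * (16 * (r : ℝ) * (1 / 2 ^ (6 * n))) ^ (r + 1) ≤
          1 / 2 * (2 ^ (ℓ + (k + 1) * (2 * m + 1) + 2) * (1 / 2) ^ (r + 1)) := by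
        rw [← mul_assoc]
        apply mul_le_mul
        · have h7 : (1 : ℝ) / 2 * 2 ^ (ℓ + (k + 1) * (2 * m + 1) + 2) =
              2 ^ (ℓ + k * (2 * m + 1) + 2 + 2 * m) := by
            rw [hℓ, show ℓ + k * (2 * m + 1) + (2 * m + 1) + 2 =
              ℓ + k * (2 * m + 1) + 2 + 2 * m + 1 by omega, pow_succ]
            ring
          rw [h7]
          exact pow_le_pow_right₀ (by norm_num) (by omega)
        · exact pow_le_pow_left₀ (by positivity) hl2 _
        · positivity
        · positivity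
      have h7 : E₁ ≤ k * (2 ^ (ℓ + (k + 1) * (2 * m + 1) + 2) * (1 / 2) ^ (r + 1)) := by
        rw [hE₁]
        apply mul_le_mul_of_nonneg_left _ (by positivity)
        apply mul_le_mul_of_nonneg_right _ (by positivity)
        apply pow_le_pow_right₀ (by norm_num)
        rw [hℓ]; omega
      have h8' : ∀ b₀ : Bool, ∑ ρ : Idx X cs → St c, wt (G := Idx X cs) t t ξ smin s ρ *
          (if bad b₀ ρ then (1 : ℝ) else 0) ≤
          1 / 2 * (2 ^ (ℓ + (k + 1) * (2 * m + 1) + 2) * (1 / 2) ^ (r + 1)) := by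
        intro b₀
        refine le_trans (le_of_eq (Finset.sum_congr rfl fun ρ _ => ?_)) ((hsw b₀).trans h6)
        exact congrArg (fun q => wt (G := Idx X cs) t t ξ smin s ρ * q) (if_congr Iff.rfl rfl rfl)
      have h8t := h8' true
      have h8f := h8' false
      push_cast
      have h9 : ((k : ℝ) + 1) * (2 ^ (ℓ + (k + 1) * (2 * m + 1) + 2) * (1 / 2) ^ (r + 1)) =
        k * (2 ^ (ℓ + (k + 1) * (2 * m + 1) + 2) * (1 / 2) ^ (r + 1)) +
          2 ^ (ℓ + (k + 1) * (2 * m + 1) + 2) * (1 / 2) ^ (r + 1) := by ring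
      rw [h9]
      linarith

open Classical in
/-- **G1.** -/
theorem mu_switch {n u : ℕ} (hn : 5 ≤ n) (hu : 8 * u ≤ n) :
    ∀ (k : ℕ) (cs : List ℕ), cs.length = k → ∀ (s : Idx X cs → Option Bool) (m ℓ : ℕ)
      (F : List Bool → (Idx X cs → Bool) → Bool),
      (∀ y : List Bool, y.length ≤ ℓ + k * (2 * m + 1) → DTr (2 ^ (2 * u)) (F y)) →
      ∑ ω : Om X cs, mu (1 / 2 ^ (4 * n)) (1 / 2 ^ (2 * n)) (8 * n * 2 ^ (4 * n)) cs s ω *
        (if ∀ y : List Bool, y.length ≤ ℓ → ∀ b, DTr (2 ^ (2 * u))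
          (fun z : X → Bool => QF m F k b y (lfm cs s ω z)) then (0 : ℝ) else 1) ≤
      k * (2 ^ (ℓ + k * (2 * m + 1) + 2) * (1 / 2) ^ (2 ^ (2 * u) + 1)) :=
  fun k cs hcs s m ℓ F hF => mu_switch2 hn hu k cs hcs s m ℓ (fun _ => F) (fun _ => hF)

open Classical in
/-- **G1, with the level of the leaves.** -/
theorem muL_switch {n u : ℕ} (hn : 5 ≤ n) (hu : 8 * u ≤ n) (k : ℕ) (cs : List ℕ)
    (hcs : cs.length = k) (m ℓ : ℕ) (F : List Bool → (Idx X (8 * n :: cs) → Bool) → Bool)
    (hF : ∀ y : List Bool, y.length ≤ ℓ + k * (2 * m + 1) → DTr (2 ^ (2 * u)) (F y)) :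
      ∑ ω : OmL X n cs, muL n cs ω *
        (if ∀ y : List Bool, y.length ≤ ℓ → ∀ b, DTr (2 ^ (2 * u))
          (fun z : X → Bool => QF m F k b y (lfmL n cs ω z)) then (0 : ℝ) else 1) ≤
      k * (2 ^ (ℓ + k * (2 * m + 1) + 2) * (1 / 2) ^ (2 ^ (2 * u) + 1)) := by
  set E : ℝ := k * (2 ^ (ℓ + k * (2 * m + 1) + 2) * (1 / 2) ^ (2 ^ (2 * u) + 1)) with hE
  have hs1 : 1 ≤ 8 * n := by omega
  set s0 : Idx X cs × Fin (8 * n) → Option Bool := fun _ => none with hs0
  have hnn : ∀ ρ : Idx X cs → St (8 * n),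
      0 ≤ wt (G := Idx X cs) (1 / 2) (1 / 2 ^ (4 * n)) 0 (8 * n) s0 ρ := fun ρ =>
    wt_nonneg (by norm_num) (by norm_num) (gb_t0 n) le_rfl zero_le_one hs1 (gb_condL n) s0 ρ
  unfold muL lfmL
  rw [Fintype.sum_prod_type]
  have hterm : ∀ ρ : Idx X cs → St (8 * n),
      ∑ ω : Om X cs, wt (G := Idx X cs) (1 / 2) (1 / 2 ^ (4 * n)) 0 (8 * n) s0 ρ *
        mu (1 / 2 ^ (4 * n)) (1 / 2 ^ (2 * n)) (8 * n * 2 ^ (4 * n)) cs (fun h => (ρ h).1) ω *
        (if ∀ y : List Bool, y.length ≤ ℓ → ∀ b, DTr (2 ^ (2 * u))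
          (fun z : X → Bool => QF m F k b y
            (XX (G := Idx X cs) s0 ρ (lfm cs (fun h => (ρ h).1) ω z))) then (0 : ℝ) else 1) ≤
      wt (G := Idx X cs) (1 / 2) (1 / 2 ^ (4 * n)) 0 (8 * n) s0 ρ * E := by
    intro ρ
    have h1 := mu_switch hn hu k cs hcs (fun h => (ρ h).1) m ℓ
      (fun y' z => F y' (XX (G := Idx X cs) s0 ρ z))
      (fun y' hy' => DTr_XX (G := Idx X cs) s0 ρ (hF y' hy'))
    have h2 := mul_le_mul_of_nonneg_left h1 (hnn ρ)
    rw [Finset.mul_sum] at h2
    refine le_trans (le_of_eq (Finset.sum_congr rfl fun ω _ => ?_)) h2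
    rw [mul_assoc]
    congr 2
    refine if_congr ?_ rfl rfl
    refine forall_congr' fun y => forall_congr' fun _ => forall_congr' fun b => ?_
    have e1 : (fun z : X → Bool => QF m F k b y
        (XX (G := Idx X cs) s0 ρ (lfm cs (fun h => (ρ h).1) ω z))) =
        fun z : X → Bool => QF m (fun y' z => F y' (XX (G := Idx X cs) s0 ρ z)) k b y
          (lfm cs (fun h => (ρ h).1) ω z) := by
      funext z
      rw [QF_comp m F (XX (G := Idx X cs) s0 ρ)]
    rw [e1]
  refine (Finset.sum_le_sum fun ρ _ => hterm ρ).trans (le_of_eq ?_)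
  rw [← Finset.sum_mul, wt_sum (by norm_num) (by norm_num) (gb_t0 n) hs1 s0, one_mul]

end Pool.Agent.H9x.PN
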