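import Pool.Agent.H9x.PN.Sys

/-!
# All levels of the projections of trees: definitions
-/

set_option autoImplicit false
set_option linter.unusedSectionVars false

namespace Pool.Agent.H9x.PN

open Finset H568R2 Pool.Agent.H676 Pool.Agent.H620R2.Gauge Pool.Agent.NPC Pool.Agent.H591R3.PHG

open Pool.Agent.H9x.SP (senc pad shp sval)

/-- the states of the nodes of all levels -/
def Om (X : Type) : List ℕ → Type
  | [] => Unit
  | c :: cs => (Idx X cs → St c) × Om X cs

instance instFintypeOm (X : Type) [Fintype X] [DecidableEq X] : ∀ cs : List ℕ, Fintype (Om X cs)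
  | [] => inferInstanceAs (Fintype Unit)
  | c :: cs => by
      haveI := instFintypeOm X cs
      exact inferInstanceAs (Fintype ((Idx X cs → St c) × Om X cs))

variable {X : Type}

/-- the weights of the states -/
noncomputable def mu [Fintype X] (t ξ : ℝ) (smin : ℕ) :
    (cs : List ℕ) → (Idx X cs → Option Bool) → Om X cs → ℝ
  | [], _, _ => 1
  | _ :: cs, s, ω => wt (G := Idx X cs) t t ξ smin s ω.1 * mu t ξ smin cs (fun h => (ω.1 h).1) ω.2

/-- the statuses of the roots -/
def rst : (cs : List ℕ) → (Idx X cs → Option Bool) → Om X cs → X → Option Bool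
  | [], s, _ => s
  | _ :: cs, _, ω => rst cs (fun h => (ω.1 h).1) ω.2

/-- the bits of the nodes of the last level, given by bits of the roots -/
def lfm : (cs : List ℕ) → (Idx X cs → Option Bool) → Om X cs → (X → Bool) → Idx X cs → Bool
  | [], _, _, z => z
  | _ :: cs, s, ω, z => XX (G := Idx X cs) s ω.1 (lfm cs (fun h => (ω.1 h).1) ω.2 z)

/-- the root of a node -/
def rt : (cs : List ℕ) → Idx X cs → X
  | [], g => g
  | _ :: cs, g => rt cs g.1

/-- the node below a root -/
def atx (x : X) : (cs : List ℕ) → Idx Unit cs → Idx X cs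
  | [], _ => x
  | _ :: cs, g => (atx x cs g.1, g.2)

/-! ### with the level of the leaves (bottom fan-in `8 n`, fair bits) -/

/-- the states of all levels -/
abbrev OmL (X : Type) (n : ℕ) (cs : List ℕ) : Type := (Idx X cs → St (8 * n)) × Om X cs

/-- the weights -/
noncomputable def muL [Fintype X] (n : ℕ) (cs : List ℕ) (ω : OmL X n cs) : ℝ :=
  wt (G := Idx X cs) (1 / 2) (1 / 2 ^ (4 * n)) 0 (8 * n) (fun _ => none) ω.1 *
    mu (1 / 2 ^ (4 * n)) (1 / 2 ^ (2 * n)) (8 * n * 2 ^ (4 * n)) cs (fun h => (ω.1 h).1) ω.2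

/-- the statuses of the roots -/
def rstL (n : ℕ) (cs : List ℕ) (ω : OmL X n cs) : X → Option Bool :=
  rst cs (fun h => (ω.1 h).1) ω.2

/-- the leaves, given by bits of the roots -/
def lfmL (n : ℕ) (cs : List ℕ) (ω : OmL X n cs) (z : X → Bool) : Idx X (8 * n :: cs) → Bool :=
  XX (G := Idx X cs) (fun _ => none) ω.1 (lfm cs (fun h => (ω.1 h).1) ω.2 z)

/-- the content of a row: the tree below `x` padded to the fixed shape -/
noncomputable def cnX (cs : List ℕ) (s k : ℕ) (z : Idx X cs → Bool) (x : X) :
    List Bool → Bool :=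
  senc s k (pad cs (shp s k) (fun g => z (atx x cs g)))

end Pool.Agent.H9x.PN
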