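import Pool.Agent.H9x.SN.World

/-!
# The system of codes: hidden bits below trees, questions of the level `k` below forrelation
-/

set_option autoImplicit false
set_option linter.unusedSectionVars false
set_option linter.unusedVariables false

namespace Pool.Agent.H9x.PN

open Finset Pool.Agent.NPC Pool.Agent.H622R2 Pool.Agent.H620R2.Gauge Pool.Agent.H622R2.Exp
  Pool.Agent.TH678.ETH Pool.Agent.TH678.SETH Pool.Agent.TH678.RS Pool.Agent.H9x.Q Filter
  Pool.Agent.H591R3.PHG

open Pool.Agent.H9x.RT (ll lev HZ HZ_iff Yes No)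
open Pool.Agent.H9x.SP (Sys Dt J orc base orc_on orc_off orc_free orc_loc tv tv_congr tv_true
  tv_false tv_iff enc_inj2 Blk Good sval)
open Pool.Agent.H9x.SN (er er_congr er_off nam nam_inj nam_len)

/-- the polynomial-time algorithm number `i` asks a question of the level `Σ_k`; only strings of
length at most `T` are read -/
def QuH (k : ℕ) (ma : ℕ → Alg × Polynomial ℕ) (i T : ℕ) (A : Oracle) (x : List Bool) : Prop :=
  Quant ((ma i).2.eval x.length) (fun y => ((ma i).1.out (CC.cut T A) y).getD []) k true x

/-- truth of a code -/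
def AcH (k : ℕ) (ma : ℕ → Alg × Polynomial ℕ) (S : ℕ → Polynomial ℕ) (c : ℕ × List Bool)
    (A : Oracle) : Prop :=
  if c.1 = 0 then CC.cut (lev S c) A (true :: nam 0 c.2) = true else
    QuH k ma (c.1 - 1) (lev S c) (er A) c.2

/-- the addresses of the blocks -/
def adH (kk : ℕ) (S : ℕ → Polynomial ℕ) (c : ℕ × List Bool) (w : List Bool) : List Bool :=
  if c.1 = 0 then false :: false :: false :: enc (List.replicate (kk + 1) (64 * lev S c))
    (8 * lev S c) (cS c.1 (lev S c) (pairBits c.2 w))
  else false :: true :: cS c.1 (lev S c) (c.2 ++ w)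

theorem adH_zero {kk : ℕ} {S : ℕ → Polynomial ℕ} {c : ℕ × List Bool} (h : c.1 = 0)
    (w : List Bool) : adH kk S c w = false :: false :: false ::
      enc (List.replicate (kk + 1) (64 * lev S c)) (8 * lev S c)
        (cS c.1 (lev S c) (pairBits c.2 w)) := if_pos h

theorem adH_pos {kk : ℕ} {S : ℕ → Polynomial ℕ} {c : ℕ × List Bool} (h : ¬ c.1 = 0)
    (w : List Bool) : adH kk S c w = false :: true :: cS c.1 (lev S c) (c.2 ++ w) := if_neg h

open Classical in
/-- the system of codes -/
noncomputable def sysH (kk k : ℕ) (ma : ℕ → Alg × Polynomial ℕ) (S : ℕ → Polynomial ℕ) : Sys where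
  K := ℕ × List Bool
  dK := inferInstance
  lev := lev S
  ac := AcH k ma S
  loc := by
    intro c A A' h
    have h1 : CC.cut (lev S c) A = CC.cut (lev S c) A' := by
      funext z
      unfold CC.cut
      split_ifs with hz
      · exact h z hz
      · rfl
    have h2 : CC.cut (lev S c) (er A) = CC.cut (lev S c) (er A') := by
      funext z
      unfold CC.cut
      split_ifs with hz
      · exact er_congr (h z hz)
      · rfl
    unfold AcH QuH
    rw [h1, h2]
  adr := adH kk S
  ok := fun c w => ¬ c.1 = 0 → w.length = ll (lev S c) + 1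
  inj := by
    rintro ⟨e, x⟩ w ⟨e', x'⟩ w' hw hw' h
    by_cases he : e = 0
    · by_cases he' : e' = 0
      · rw [adH_zero (c := (e, x)) he, adH_zero (c := (e', x')) he'] at h
        simp only [List.cons.injEq, true_and] at h
        obtain ⟨_, _, h3⟩ := enc_inj2 (by simp) h
        obtain ⟨h4, _, h6⟩ := cS_inj h3
        have h7 := congrArg unpair h6
        rw [unpair_pairBits, unpair_pairBits] at h7
        simp only [Prod.mk.injEq] at h7
        rw [h4, h7.1, h7.2]
        exact ⟨rfl, rfl⟩
      · rw [adH_zero (c := (e, x)) he, adH_pos (c := (e', x')) he'] at h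
        simp at h
    · by_cases he' : e' = 0
      · rw [adH_pos (c := (e, x)) he, adH_zero (c := (e', x')) he'] at h
        simp at h
      · rw [adH_pos (c := (e, x)) he, adH_pos (c := (e', x')) he'] at h
        simp only [List.cons.injEq, true_and] at h
        obtain ⟨h1, h2, h3⟩ := cS_inj h
        subst h1
        have h4 : w.length = w'.length := by rw [hw he, hw' he', h2]
        obtain ⟨h5, h6⟩ := List.append_inj' h3 h4
        subst h5
        exact ⟨rfl, h6⟩
  lt := by
    intro c w
    by_cases he : c.1 = 0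
    · rw [adH_zero he, List.length_cons, List.length_cons, List.length_cons,
        enc_len, length_cS]
      omega
    · rw [adH_pos he, List.length_cons, List.length_cons, length_cS]
      omega
  nf := by
    intro c w u
    by_cases he : c.1 = 0
    · rw [adH_zero he]
      simp
    · rw [adH_pos he]
      simp
  b0 := fun q => match q with
    | false :: false :: v => decide (HZ v)
    | _ => false

variable {kk k : ℕ} {ma : ℕ → Alg × Polynomial ℕ} {S R : ℕ → Polynomial ℕ}

/-- the bounds of the levels -/
structure Kh (k : ℕ) (ma : ℕ → Alg × Polynomial ℕ) (S R : ℕ → Polynomial ℕ) : Prop where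
  s0 : ∀ n, (S 0).eval n = 16 * n + 6
  big : ∀ e n, n + e + 5 ≤ (S e).eval n
  sq : ∀ i n, ((R i).eval n + 1) ^ 2 ≤ (S (i + 1)).eval n
  P : ∀ i n, (ma i).2.eval n ≤ (R i).eval n
  dep : ∀ i n (y : List Bool), y.length ≤ n + k * (2 * (ma i).2.eval n + 1) →
    (ma i).1.p.eval y.length ≤ (R i).eval n
  out : ∀ i n (y : List Bool), y.length ≤ n + k * (2 * (ma i).2.eval n + 1) →
    ∀ A T, (R i).eval n ≤ T → (ma i).1.out (CC.cut T A) y = (ma i).1.out A y

/-- the properties of the blocks -/
structure BkH (kk k : ℕ) (ma : ℕ → Alg × Polynomial ℕ) (S : ℕ → Polynomial ℕ)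
    (Bk : ℕ × List Bool → Blk) : Prop where
  yes : ∀ c : ℕ × List Bool, ¬ c.1 = 0 → ∀ V, (Bk c).good true V → Yes (lev S c) V
  no : ∀ c : ℕ × List Bool, ¬ c.1 = 0 → ∀ V, (Bk c).good false V → No (lev S c) V
  sip : ∀ c : ℕ × List Bool, c.1 = 0 → ∀ t V, (Bk c).good t V → sval (lev S c) kk V = !t

/-- truth of the hidden codes -/
theorem tv_zero (hK : Kh k ma S R) (D : Dt (sysH kk k ma S).K) {c : ℕ × List Bool}
    (h : c.1 = 0) : tv (sysH kk k ma S) c (orc (sysH kk k ma S) D) = D.fr (nam 0 c.2) := by
  have h1 : (sysH kk k ma S).ac c (orc (sysH kk k ma S) D) ↔ D.fr (nam 0 c.2) = true := by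
    show AcH k ma S c _ ↔ _
    unfold AcH
    rw [if_pos h]
    unfold CC.cut
    rw [if_pos, orc_free]
    rw [List.length_cons, nam_len]
    have := hK.big c.1 c.2.length
    show _ ≤ (S c.1).eval c.2.length
    omega
  rw [Bool.eq_iff_iff, tv_iff]
  exact h1

/-- the questions read only short strings -/
theorem quH_congr (hK : Kh k ma S R) {i T T' : ℕ} {A A' : Oracle} {x : List Bool}
    (hT : (R i).eval x.length ≤ T) (hT' : (R i).eval x.length ≤ T')
    (h : ∀ y : List Bool, y.length ≤ (R i).eval x.length → A y = A' y) :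
    QuH k ma i T A x ↔ QuH k ma i T' A' x := by
  unfold QuH
  have h1 : ∀ y : List Bool, y.length ≤ x.length + k * (2 * (ma i).2.eval x.length + 1) →
      (ma i).1.out (CC.cut T A) y = (ma i).1.out (CC.cut T' A') y := by
    intro y hy
    rw [hK.out i x.length y hy A T hT, hK.out i x.length y hy A' T' hT',
      ← hK.out i x.length y hy A _ le_rfl, ← hK.out i x.length y hy A' _ le_rfl]
    congr 1
    funext z
    unfold CC.cut
    split_ifs with hz
    · exact h z hz
    · rfl
  have key : ∀ (j : ℕ) (b : Bool) (y : List Bool), y.length + j * (2 * (ma i).2.eval x.length + 1)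
      ≤ x.length + k * (2 * (ma i).2.eval x.length + 1) →
      (Quant ((ma i).2.eval x.length) (fun y => ((ma i).1.out (CC.cut T A) y).getD []) j b y ↔
        Quant ((ma i).2.eval x.length) (fun y => ((ma i).1.out (CC.cut T' A') y).getD []) j b y) := by
    intro j
    induction j with
    | zero =>
      intro b y hy
      simp only [Quant]
      rw [h1 y (by omega)]
    | succ j ih =>
      intro b y hy
      have e : (j + 1) * (2 * (ma i).2.eval x.length + 1) = j * (2 * (ma i).2.eval x.length + 1) +
        (2 * (ma i).2.eval x.length + 1) := by ring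
      have hlen : ∀ w : List Bool, w.length ≤ (ma i).2.eval x.length →
          (pairBits w y).length + j * (2 * (ma i).2.eval x.length + 1) ≤
          x.length + k * (2 * (ma i).2.eval x.length + 1) := by
        intro w hw
        rw [length_pairBits]
        omega
      cases b with
      | true =>
        simp only [Quant]
        exact exists_congr fun w => and_congr_right fun hw => ih false _ (hlen w hw)
      | false =>
        simp only [Quant]
        exact forall_congr' fun w => forall_congr' fun hw => ih true _ (hlen w hw)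
  exact key k true x le_rfl

theorem R_le (hK : Kh k ma S R) (i n : ℕ) : (R i).eval n ≤ (S (i + 1)).eval n := by
  have h1 := hK.sq i n
  nlinarith

/-- truth of the codes of the questions -/
theorem tv_pos (hK : Kh k ma S R) (A : Oracle) {c : ℕ × List Bool} (h : ¬ c.1 = 0) :
    tv (sysH kk k ma S) c A = true ↔
      QuH k ma (c.1 - 1) ((R (c.1 - 1)).eval c.2.length) (er A) c.2 := by
  rw [tv_iff]
  show AcH k ma S c _ ↔ _
  unfold AcH
  rw [if_neg h]
  refine quH_congr hK ?_ le_rfl fun _ _ => rfl
  have h1 := R_le hK (c.1 - 1) c.2.length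
  have h2 : c.1 - 1 + 1 = c.1 := by omega
  rw [h2] at h1
  exact h1

theorem tv_pos_congr (hK : Kh k ma S R) {A A' : Oracle} {c : ℕ × List Bool} (h : ¬ c.1 = 0)
    (hA : ∀ y : List Bool, y.length ≤ (R (c.1 - 1)).eval c.2.length → er A y = er A' y) :
    tv (sysH kk k ma S) c A = tv (sysH kk k ma S) c A' := by
  rw [Bool.eq_iff_iff, tv_pos hK A h, tv_pos hK A' h]
  exact quH_congr hK le_rfl le_rfl hA

end Pool.Agent.H9x.PN
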