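import Pool.Agent.H9x.PN.Chain
import Pool.Agent.H9x.PN.Sys

/-!
# The windows of the system
-/

set_option autoImplicit false
set_option linter.unusedSectionVars false
set_option linter.unusedVariables false

namespace Pool.Agent.H9x.PN

open Finset H568R2 Pool.Agent.H676 Pool.Agent.NPC Pool.Agent.H622R2 Pool.Agent.H620R2.Gauge
  Pool.Agent.H622R2.Exp Pool.Agent.TH678.ETH Pool.Agent.TH678.SETH Pool.Agent.TH678.RS
  Pool.Agent.H9x.Q Filter Pool.Agent.H591R3.PHG

open Pool.Agent.H9x.RT (ll lev HZ HZ_iff Yes No UU mem_UU)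
open Pool.Agent.H9x.SP (Sys Dt J orc base orc_on orc_off orc_free orc_loc tv tv_congr tv_true
  tv_false tv_iff enc_inj2 Blk Good sval)
open Pool.Agent.H9x.SN (er er_congr er_off nam nam_inj nam_len out_iff dtr_runD)
open Pool.Agent.H9x.RU (quant_QF)

variable {kk k : ℕ} {ma : ℕ → Alg × Polynomial ℕ} {S R : ℕ → Polynomial ℕ}

/-- the free strings in the worlds -/
def frH (n : ℕ) (f₀ : List Bool → Bool) : Option (Fin n → Bool) → List Bool → Bool
  | none, u => if u.length = n + 1 then false else f₀ u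
  | some i, u => if u.length = n + 1 then decide (u = nam 0 (List.ofFn i)) else f₀ u

theorem frH_off {n : ℕ} {f₀ : List Bool → Bool} {u : List Bool} (h : u.length ≠ n + 1) :
    ∀ i, frH n f₀ i u = f₀ u
  | none => if_neg h
  | some _ => if_neg h

theorem frH_none {n : ℕ} {f₀ : List Bool → Bool} {x : List Bool} (h : x.length = n) :
    frH n f₀ none (nam 0 x) = false := by
  show (if (nam 0 x).length = n + 1 then false else f₀ (nam 0 x)) = false
  rw [if_pos]
  rw [nam_len, h]
  omega

theorem frH_some {n : ℕ} {f₀ : List Bool → Bool} {x : List Bool} (h : x.length = n)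
    (i : Fin n → Bool) : frH n f₀ (some i) (nam 0 x) = decide (x = List.ofFn i) := by
  show (if (nam 0 x).length = n + 1 then decide (nam 0 x = nam 0 (List.ofFn i)) else
    f₀ (nam 0 x)) = _
  rw [if_pos (by rw [nam_len, h]; omega), decide_eq_decide]
  exact ⟨fun h => (nam_inj h).2, fun h => by rw [h]⟩

open Classical in
/-- the codes of questions below the level `T` -/
noncomputable def XH (S : ℕ → Polynomial ℕ) (T : ℕ) : Finset (ℕ × List Bool) :=
  (UU S 0 T).filter fun c => ¬ c.1 = 0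

open Classical in
/-- the windows -/
noncomputable def WH (S : ℕ → Polynomial ℕ) (n T : ℕ) : ℕ → List (ℕ × List Bool)
  | 0 => (univ : Finset (Fin n → Bool)).toList.map fun i => (0, List.ofFn i)
  | j + 1 => ((XH S T).filter fun c => (16 * n + 6) ^ (2 ^ (j + 1)) ≤ lev S c ∧
      lev S c < (16 * n + 6) ^ (2 ^ (j + 2))).toList

theorem mem_XH (hK : Kh k ma S R) {T : ℕ} {c : ℕ × List Bool} :
    c ∈ XH S T ↔ lev S c ≤ T ∧ ¬ c.1 = 0 := by
  unfold XH
  rw [mem_filter, mem_UU (fun e n => by have := hK.big e n; omega)]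
  constructor
  · rintro ⟨⟨_, h⟩, h2⟩
    exact ⟨h, h2⟩
  · rintro ⟨h, h2⟩
    exact ⟨⟨Nat.zero_le _, h⟩, h2⟩

theorem mem_W0 {n T : ℕ} {c : ℕ × List Bool} :
    c ∈ WH S n T 0 ↔ c.1 = 0 ∧ c.2.length = n := by
  show c ∈ (univ : Finset (Fin n → Bool)).toList.map (fun i => ((0, List.ofFn i) : ℕ × List Bool)) ↔ _
  rw [List.mem_map]
  constructor
  · rintro ⟨i, _, rfl⟩
    exact ⟨rfl, List.length_ofFn⟩
  · rintro ⟨h1, h2⟩
    refine ⟨fun l => c.2[l.1]'(by rw [h2]; exact l.2), by simp, ?_⟩
    obtain ⟨e, x⟩ := c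
    simp only at h1 h2
    subst h1
    subst h2
    simp only [Prod.mk.injEq, true_and]
    exact List.ofFn_getElem

theorem mem_WS (hK : Kh k ma S R) {n T j : ℕ} {c : ℕ × List Bool} :
    c ∈ WH S n T (j + 1) ↔ (lev S c ≤ T ∧ ¬ c.1 = 0) ∧
      (16 * n + 6) ^ (2 ^ (j + 1)) ≤ lev S c ∧ lev S c < (16 * n + 6) ^ (2 ^ (j + 2)) := by
  show c ∈ (Finset.filter _ _).toList ↔ _
  rw [mem_toList, mem_filter, mem_XH hK]

theorem lev_zero (hK : Kh k ma S R) {c : ℕ × List Bool} (h : c.1 = 0) :
    lev S c = 16 * c.2.length + 6 := by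
  unfold lev
  rw [h, hK.s0]

theorem pow_tower {s a b : ℕ} (hs : 1 ≤ s) (h : a ≤ b) : s ^ (2 ^ a) ≤ s ^ (2 ^ b) :=
  Nat.pow_le_pow_right hs (Nat.pow_le_pow_right (by norm_num) h)

theorem WH_ge (hK : Kh k ma S R) {n T j : ℕ} {c : ℕ × List Bool} (h : c ∈ WH S n T j) :
    16 * n + 6 ≤ lev S c := by
  rcases j with _ | j
  · obtain ⟨h1, h2⟩ := mem_W0.1 h
    rw [lev_zero hK h1, h2]
  · obtain ⟨_, h2, _⟩ := (mem_WS hK).1 h
    refine le_trans ?_ h2
    have := pow_tower (s := 16 * n + 6) (by omega) (Nat.zero_le (j + 1))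
    simpa using this

theorem WH_ge2 (hK : Kh k ma S R) {n T j j' : ℕ} {c : ℕ × List Bool} (h : c ∈ WH S n T j')
    (hj : j + 1 ≤ j') : (16 * n + 6) ^ (2 ^ (j + 1)) ≤ lev S c := by
  obtain ⟨l, rfl⟩ : ∃ l, j' = l + 1 := ⟨j' - 1, by omega⟩
  obtain ⟨_, h2, _⟩ := (mem_WS hK).1 h
  exact (pow_tower (by omega) hj).trans h2

/-- the questions read strings much shorter than their level -/
theorem R_lt (hK : Kh k ma S R) {c : ℕ × List Bool} (h : ¬ c.1 = 0) {a : ℕ}
    (ha : lev S c < a * a) : (R (c.1 - 1)).eval c.2.length + 1 < a := by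
  have h1 := hK.sq (c.1 - 1) c.2.length
  have h2 : c.1 - 1 + 1 = c.1 := by omega
  rw [h2] at h1
  have h3 : ((R (c.1 - 1)).eval c.2.length + 1) ^ 2 < a * a := lt_of_le_of_lt h1 ha
  by_contra hcon
  push Not at hcon
  have := Nat.mul_le_mul hcon hcon
  rw [sq] at h3
  omega

theorem exists_win (s L : ℕ) (hs : 2 ≤ s) (hL : s ^ 2 ≤ L) :
    ∃ j, s ^ (2 ^ (j + 1)) ≤ L ∧ L < s ^ (2 ^ (j + 2)) := by
  have h1 : ∃ j, L < s ^ (2 ^ (j + 2)) := by
    refine ⟨L, ?_⟩
    calc L < 2 ^ L := Nat.lt_two_pow_self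
      _ ≤ s ^ L := Nat.pow_le_pow_left hs L
      _ ≤ s ^ (2 ^ (L + 2)) := Nat.pow_le_pow_right (by omega) (by
          have : L + 2 < 2 ^ (L + 2) := Nat.lt_two_pow_self
          omega)
  classical
  refine ⟨Nat.find h1, ?_, Nat.find_spec h1⟩
  rcases hj : Nat.find h1 with _ | j
  · exact hL
  · have := Nat.find_min h1 (m := j) (by omega)
    push Not at this
    exact this

/-- questions as quantified decision trees -/
theorem aq_H (hK : Kh k ma S R) {T : ℕ} (I : Type) [Fintype I] [DecidableEq I]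
    (G : (I → Bool) → Oracle) (d : ℕ)
    (hG : ∀ y : List Bool, y.length ≤ T → DTr d (fun z => er (G z) y)) (c : ℕ × List Bool)
    (hc : c ∈ XH S T) : QC (T * d) T k true (fun z => tv (sysH kk k ma S) c (G z)) := by
  obtain ⟨hlev, hc0⟩ := (mem_XH hK).1 hc
  set i := c.1 - 1 with hi
  set n := c.2.length with hn
  have hRT : (R i).eval n ≤ T := by
    have h1 := R_le hK i n
    have h2 : i + 1 = c.1 := by omega
    rw [h2] at h1
    exact h1.trans hlev
  set F : List Bool → (I → Bool) → Bool := fun y z =>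
    decide ((ma i).1.out (CC.cut ((R i).eval n) (er (G z))) y = some [true]) with hF
  have h1 : ∀ z, tv (sysH kk k ma S) c (G z) = QF ((ma i).2.eval n) F k true c.2 z := by
    intro z
    rw [Bool.eq_iff_iff, tv_pos hK (G z) hc0]
    unfold QuH
    refine quant_QF (n + k * (2 * (ma i).2.eval n + 1)) (fun y hy => ?_) k true c.2 le_rfl
    rw [out_iff]
    exact decide_eq_true_iff.symm
  refine QC.congr (qc_of_QF (t := T * d) (m := T) (L := n + k * (2 * (ma i).2.eval n + 1))
    ((hK.P i n).trans hRT) (F := F) (fun y hy => ?_) k true c.2 le_rfl) h1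
  have h2 := dtr_runD (T := (R i).eval n) (G := fun z => er (G z))
    (fun q hq => hG q (hq.trans hRT)) (ma i).1 y ((ma i).1.p.eval y.length) []
  exact DTr.mono h2 (Nat.mul_le_mul_right _ ((hK.dep i n y hy).trans hRT))

/-- **The windows of the system.** -/
theorem win_H (hK : Kh k ma S R) (n T : ℕ) (f₀ : List Bool → Bool) :
    Win (sysH kk k ma S) (frH n f₀) (WH S n T) (XH S T) T T T k := by
  have ha2 : ∀ (s : ℕ) (c : ℕ × List Bool), lev S c = s → lev S c ≤ T →
      (∀ j, c ∉ WH S n T j) → ∀ B B' : ℕ × List Bool → Bool → List Bool → Bool,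
      (∀ c', (∀ j, c' ∉ WH S n T j) → B c' = B' c') → ∀ i i' : Option (Fin n → Bool),
        tv (sysH kk k ma S) c (orc (sysH kk k ma S) ⟨B, frH n f₀ i⟩) =
          tv (sysH kk k ma S) c (orc (sysH kk k ma S) ⟨B', frH n f₀ i'⟩) := by
    intro s
    induction s using Nat.strong_induction_on with
    | _ s ih =>
      intro c hs hT hc B B' hB i i'
      by_cases h0 : c.1 = 0
      · have hne : (nam 0 c.2).length ≠ n + 1 := by
          intro h
          rw [nam_len] at h
          exact hc 0 (mem_W0.2 ⟨h0, by omega⟩)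
        rw [tv_zero hK _ h0, tv_zero hK _ h0]
        show frH n f₀ i (nam 0 c.2) = frH n f₀ i' (nam 0 c.2)
        rw [frH_off hne, frH_off hne]
      · have hlt : lev S c < (16 * n + 6) * (16 * n + 6) := by
          by_contra hcon
          push Not at hcon
          obtain ⟨j, hj1, hj2⟩ := exists_win (16 * n + 6) (lev S c) (by omega) (by rw [sq]; exact hcon)
          exact hc (j + 1) ((mem_WS hK).2 ⟨⟨hT, h0⟩, hj1, hj2⟩)
        have hR := R_lt hK h0 hlt
        refine tv_pos_congr hK h0 fun y hy => ?_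
        refine er_eq (Y := sysH kk k ma S) (T := (R (c.1 - 1)).eval c.2.length)
          (fun c' hc' => ?_) hy
        have hc'2 : lev S c' ≤ (R (c.1 - 1)).eval c.2.length := hc'
        have h1 : ∀ j, c' ∉ WH S n T j := fun j hj => by
          have := WH_ge hK hj
          omega
        have h2 : lev S c' < s := by
          have h3 := hK.sq (c.1 - 1) c.2.length
          have h4 : c.1 - 1 + 1 = c.1 := by omega
          rw [h4] at h3
          have h5 : ((R (c.1 - 1)).eval c.2.length + 1) ^ 2 ≤ lev S c := h3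
          nlinarith
        rw [ih (lev S c') h2 c' rfl (by omega) h1 B B' hB i i', hB c' h1]
  refine ⟨fun j => ?_, fun j j' c hj hj' => ?_, fun j c hc B B' hB i => ?_,
    fun c hT hc B B' hB i i' => ha2 _ c rfl hT hc B B' hB i i', fun j c hc => ?_,
    fun I _ _ G d hG c hc => aq_H hK I G d hG c hc⟩
  · rcases j with _ | j
    · exact List.Nodup.map (fun a b hab => List.ofFn_injective (congrArg Prod.snd hab))
        (nodup_toList _)
    · exact nodup_toList _
  · rcases j with _ | j
    · rcases j' with _ | j'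
      · rfl
      · exact absurd (mem_W0.1 hj).1 ((mem_WS hK).1 hj').1.2
    · rcases j' with _ | j'
      · exact absurd (mem_W0.1 hj').1 ((mem_WS hK).1 hj).1.2
      · have h1 := (mem_WS hK).1 hj
        have h2 := (mem_WS hK).1 hj'
        rcases lt_trichotomy j j' with hlt | heq | hgt
        · have h3 := pow_tower (s := 16 * n + 6) (by omega) (show j + 2 ≤ j' + 1 by omega)
          have := h1.2.2
          have := h2.2.1
          omega
        · rw [heq]
        · have h3 := pow_tower (s := 16 * n + 6) (by omega) (show j' + 2 ≤ j + 1 by omega)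
          have := h2.2.2
          have := h1.2.1
          omega
  · rcases j with _ | j
    · rw [tv_zero hK _ (mem_W0.1 hc).1, tv_zero hK _ (mem_W0.1 hc).1]
    · obtain ⟨⟨_, h0⟩, h1, h2⟩ := (mem_WS hK).1 hc
      have e1 : (16 * n + 6) ^ (2 ^ (j + 2)) =
          (16 * n + 6) ^ (2 ^ (j + 1)) * (16 * n + 6) ^ (2 ^ (j + 1)) := by
        rw [← pow_add, pow_succ 2 (j + 1)]
        congr 1
        ring
      rw [e1] at h2
      have hR := R_lt hK h0 h2
      refine tv_pos_congr hK h0 fun y hy => er_congr ?_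
      refine orc_loc (Y := sysH kk k ma S) (D := ⟨B, frH n f₀ i⟩) (D' := ⟨B', frH n f₀ i⟩)
        (n := (16 * n + 6) ^ (2 ^ (j + 1))) (fun c' hc' => ?_) (fun _ _ => rfl)
        y.length y rfl (by omega)
      have hc'2 : lev S c' < (16 * n + 6) ^ (2 ^ (j + 1)) := hc'
      exact hB c' fun j' hj' hcj => by
        have := WH_ge2 hK hcj hj'
        omega
  · rcases j with _ | j
    · refine Or.inr fun B => ?_
      obtain ⟨h0, h1⟩ := mem_W0.1 hc
      refine card_le_one.2 fun a ha b hb => ?_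
      have key : ∀ i : Fin n → Bool, tv (sysH kk k ma S) c
          (orc (sysH kk k ma S) ⟨B, frH n f₀ (some i)⟩) ≠ tv (sysH kk k ma S) c
          (orc (sysH kk k ma S) ⟨B, frH n f₀ none⟩) → c.2 = List.ofFn i := by
        intro i hi
        rw [tv_zero hK _ h0, tv_zero hK _ h0] at hi
        have h2 : frH n f₀ (some i) (nam 0 c.2) ≠ frH n f₀ none (nam 0 c.2) := hi
        rw [frH_none h1, frH_some h1] at h2
        simpa using h2
      have h3 := key a (mem_filter.1 ha).2
      have h4 := key b (mem_filter.1 hb).2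
      exact List.ofFn_injective (h3.symm.trans h4)
    · exact Or.inl ((mem_XH hK).2 ((mem_WS hK).1 hc).1)

end Pool.Agent.H9x.PN
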