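import Pool.Agent.H9x.PN.Nm0

/-!
# The numbers
-/

set_option autoImplicit false

namespace Pool.Agent.H9x.PN

open Filter

open Pool.Agent.H9x.SP (LB)

namespace Nu

/-- polynomially bounded functions -/
def PB (f : ℕ → ℕ) : Prop := ∃ d : ℕ, ∀ n, f n ≤ (n + 2) ^ d

theorem PB.mono {f g : ℕ → ℕ} (hg : PB g) (h : ∀ n, f n ≤ g n) : PB f := by
  obtain ⟨d, hd⟩ := hg
  exact ⟨d, fun n => (h n).trans (hd n)⟩

theorem PB.const (c : ℕ) : PB fun _ => c := ⟨c, fun n => by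
  calc c ≤ 2 ^ c := Nat.lt_two_pow_self.le
    _ ≤ (n + 2) ^ c := Nat.pow_le_pow_left (by omega) _⟩

theorem PB.id : PB fun n => n := ⟨1, fun n => by simp⟩

theorem PB.add {f g : ℕ → ℕ} (hf : PB f) (hg : PB g) : PB fun n => f n + g n := by
  obtain ⟨a, ha⟩ := hf
  obtain ⟨b, hb⟩ := hg
  refine ⟨a + b + 1, fun n => ?_⟩
  have h1 : (n + 2) ^ a ≤ (n + 2) ^ (a + b) := Nat.pow_le_pow_right (by omega) (by omega)
  have h2 : (n + 2) ^ b ≤ (n + 2) ^ (a + b) := Nat.pow_le_pow_right (by omega) (by omega)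
  have h3 := ha n
  have h4 := hb n
  show f n + g n ≤ _
  calc f n + g n ≤ (n + 2) ^ (a + b) + (n + 2) ^ (a + b) := by omega
    _ = (n + 2) ^ (a + b) * 2 := by ring
    _ ≤ (n + 2) ^ (a + b) * (n + 2) := Nat.mul_le_mul_left _ (by omega)
    _ = (n + 2) ^ (a + b + 1) := by ring

theorem PB.mul {f g : ℕ → ℕ} (hf : PB f) (hg : PB g) : PB fun n => f n * g n := by
  obtain ⟨a, ha⟩ := hf
  obtain ⟨b, hb⟩ := hg
  refine ⟨a + b, fun n => ?_⟩
  rw [pow_add]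
  exact Nat.mul_le_mul (ha n) (hb n)

theorem PB.pow {f : ℕ → ℕ} (hf : PB f) (k : ℕ) : PB fun n => f n ^ k := by
  obtain ⟨a, ha⟩ := hf
  refine ⟨a * k, fun n => ?_⟩
  rw [pow_mul]
  exact Nat.pow_le_pow_left (ha n) k

theorem PB.poly (P : Polynomial ℕ) : PB fun n => P.eval n := by
  induction P using Polynomial.induction_on' with
  | add p q hp hq =>
    simp only [Polynomial.eval_add]
    exact hp.add hq
  | monomial m a =>
    simp only [Polynomial.eval_monomial]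
    exact (PB.const a).mul (PB.id.pow m)

theorem PB.sum {f : ℕ → ℕ → ℕ} (h : ∀ j, PB fun n => f n j) (r : ℕ) :
    PB fun n => ∑ j ∈ Finset.range r, f n j := by
  induction r with
  | zero => simpa using PB.const 0
  | succ r ih =>
    simp only [Finset.sum_range_succ]
    exact ih.add (h r)

theorem PB.lt {f : ℕ → ℕ} (hf : PB f) : ∀ᶠ n in atTop, f n < 2 ^ n := by
  obtain ⟨d, hd⟩ := hf
  have h1 := tendsto_pow_const_div_const_pow_of_one_lt d (show (1:ℝ) < 2 by norm_num)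
  have h2 : ∀ᶠ m : ℕ in atTop, ((m:ℝ)) ^ d / 2 ^ m < 1 / 4 :=
    h1.eventually_lt_const (by norm_num)
  have h3 := (tendsto_add_atTop_nat 2).eventually h2
  filter_upwards [h3] with n hn
  rw [div_lt_div_iff₀ (by positivity) (by norm_num)] at hn
  have h4 : ((n + 2 : ℕ) : ℝ) ^ d < 2 ^ n := by
    have : (2:ℝ) ^ (n + 2) = 2 ^ n * 4 := by rw [pow_add]; norm_num
    rw [this] at hn
    linarith
  have h5 : (n + 2) ^ d < 2 ^ n := by exact_mod_cast h4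
  exact (hd n).trans_lt h5

/-- the parameter `t` -/
def tt (k n T K : ℕ) : ℕ := T * (K + 1) + (3 * T + n + k * (2 * T + 1) + k + 4) + n + 1

/-- the parameter `K` -/
def KK (k n T : ℕ) : ℕ → ℕ
  | 0 => 0
  | j + 1 => 2 * (16 * tt k n T (KK k n T j) * KK k n T j + tt k n T (KK k n T j) + 1) *
      (24 * tt k n T (KK k n T j)) ^ k

/-- numerator of the failure -/
def QQ (k n T L : ℕ) : ℕ → ℕ
  | 0 => 0
  | j + 1 => (T + 1) * (214 * L) + 2 * (24 * tt k n T (KK k n T j)) ^ k +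
      (2 * (24 * tt k n T (KK k n T j)) ^ k * (16 * tt k n T (KK k n T j)) + 1) * QQ k n T L j

theorem pb_tt (k : ℕ) {T K : ℕ → ℕ} (hT : PB T) (hK : PB K) : PB fun n => tt k n (T n) (K n) := by
  unfold tt
  exact (((hT.mul (hK.add (PB.const 1))).add (((((((PB.const 3).mul hT).add PB.id).add
    ((PB.const k).mul (((PB.const 2).mul hT).add (PB.const 1)))).add (PB.const k)).add
    (PB.const 4)))).add PB.id).add (PB.const 1)

theorem pb_KK (k : ℕ) {T : ℕ → ℕ} (hT : PB T) (j : ℕ) : PB fun n => KK k n (T n) j := by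
  induction j with
  | zero => exact PB.const 0
  | succ j ih =>
    have h1 := pb_tt k hT ih
    exact ((PB.const 2).mul (((((PB.const 16).mul h1).mul ih).add h1).add (PB.const 1))).mul
      (((PB.const 24).mul h1).pow k)

theorem pb_QQ (k : ℕ) {T L : ℕ → ℕ} (hT : PB T) (hL : PB L) (j : ℕ) :
    PB fun n => QQ k n (T n) (L n) j := by
  induction j with
  | zero => exact PB.const 0
  | succ j ih =>
    have h1 := pb_tt k hT (pb_KK k hT j)
    have h2 := ((PB.const 24).mul h1).pow k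
    exact (((hT.add (PB.const 1)).mul ((PB.const 214).mul hL)).add ((PB.const 2).mul h2)).add
      ((((((PB.const 2).mul h2)).mul ((PB.const 16).mul h1)).add (PB.const 1)).mul ih)

theorem eps_le (k n T t : ℕ) (h : 3 * T + n + k * (2 * T + 1) + k + 4 + n ≤ t) :
    epsS (2 ^ (3 * T + 1)) (2 ^ n) k T t ≤ 1 / 2 ^ n := by
  have hk : (k : ℝ) ≤ 2 ^ k := by exact_mod_cast Nat.lt_two_pow_self.le
  have h2n : ((2 ^ n : ℕ) : ℝ) + 1 ≤ 2 ^ (n + 1) := by
    push_cast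
    have : (1:ℝ) ≤ 2 ^ n := one_le_pow₀ (by norm_num)
    rw [pow_succ]
    linarith
  unfold epsS
  calc ((2 ^ (3 * T + 1) : ℕ) : ℝ) * (((2 ^ n : ℕ) : ℝ) + 1) *
        (k * 2 ^ (k * (2 * T + 1) + 2) * (1 / 2) ^ (t + 1))
      ≤ 2 ^ (3 * T + 1) * 2 ^ (n + 1) * (2 ^ k * 2 ^ (k * (2 * T + 1) + 2) *
        (1 / 2) ^ (t + 1)) := by
        push_cast
        gcongr
        push_cast at h2n
        exact h2n
    _ = 2 ^ (3 * T + 1 + (n + 1) + k + (k * (2 * T + 1) + 2)) * (1 / 2) ^ (t + 1) := by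
        rw [pow_add, pow_add, pow_add]
        ring
    _ ≤ 2 ^ (t - n) * (1 / 2) ^ (t + 1) := by
        gcongr
        · norm_num
        · omega
    _ ≤ 1 / 2 ^ n := by
        rw [one_div_pow, ← div_eq_mul_one_div, div_le_div_iff₀ (by positivity) (by positivity),
          one_mul, ← pow_add]
        exact pow_le_pow_right₀ (by norm_num) (by omega)

end Nu

open Nu in
theorem exists_num (k : ℕ) (Rp : Polynomial ℕ) (N₀ : ℕ) :
    ∃ (n r m' u T : ℕ) (Ks t : ℕ → ℕ) (q : ℕ → ℝ),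
      N₀ ≤ n ∧ 1 ≤ n ∧ Rp.eval n ≤ T ∧ 16 * n + 6 ≤ T ∧ T < (16 * n + 6) ^ (2 ^ r) ∧ r ≠ 0 ∧
      T ≤ m' ∧ (∀ j < r, 2 * (2 ^ (3 * T + 1) * (2 ^ n) ^ (Ks (j + 1) + 1)) ≤ 2 ^ m') ∧
      (∀ j < r, Ks (j + 1) + 2 ≤ 2 ^ m') ∧ 8 * u ≤ 16 * n + 6 ∧
      (k + 3) * (2 * m' + 1) + 16 * T + 84 + (k + 3) ≤ 2 ^ (2 * u) ∧
      (∀ j < r, T * (Ks j + 1) ≤ t j) ∧ (∀ j < r, 1 ≤ t j) ∧
      (∀ j < r, 2 * (16 * (t j : ℝ) * Ks j + t j + 1) ≤ pS k (t j) * (Ks (j + 1) + 1)) ∧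
      0 ≤ q 0 ∧ (∀ j < r, (T + 1) * (214 * LB u 1 (k + 3) / 2 ^ (16 * n + 6)) +
        2 / pS k (t j) * epsS (2 ^ (3 * T + 1)) (2 ^ n) k T (t j) +
        (2 / pS k (t j) * (16 * t j) + 1) * q j ≤ q (j + 1)) ∧ q r < 1 ∧
      144 * T ^ 2 * (Ks r + 1) < 2 ^ n := by
  obtain ⟨Tf, hTf⟩ : ∃ Tf : ℕ → ℕ, ∀ n, Tf n = Rp.eval n + 16 * n + 6 := ⟨_, fun n => rfl⟩
  have hT : PB Tf := by
    have h := ((PB.poly Rp).add ((PB.const 16).mul PB.id)).add (PB.const 6)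
    exact h.mono fun n => (hTf n).le
  obtain ⟨d, hd⟩ := hT
  have hT : PB Tf := ⟨d, hd⟩
  -- the number of rounds
  obtain ⟨r, hr⟩ : ∃ r, r = d + 1 := ⟨_, rfl⟩
  have hTr : ∀ n, Tf n < (16 * n + 6) ^ (2 ^ r) := by
    intro n
    calc Tf n ≤ (n + 2) ^ d := hd n
      _ ≤ (16 * n + 6) ^ d := Nat.pow_le_pow_left (by omega) _
      _ < (16 * n + 6) ^ (d + 1) := Nat.pow_lt_pow_right (by omega) (by omega)
      _ ≤ (16 * n + 6) ^ (2 ^ r) := by
        rw [hr]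
        exact Nat.pow_le_pow_right (by omega) Nat.lt_two_pow_self.le
  -- the other sizes
  obtain ⟨Km, hKm⟩ : ∃ Km : ℕ → ℕ, ∀ n, Km n = ∑ j ∈ Finset.range (r + 1), KK k n (Tf n) j :=
    ⟨_, fun n => rfl⟩
  have pKm : PB Km := (PB.sum (pb_KK k hT) (r + 1)).mono fun n => (hKm n).le
  have hKj : ∀ n, ∀ j ≤ r, KK k n (Tf n) j ≤ Km n := by
    intro n j hj
    rw [hKm]
    exact Finset.single_le_sum (f := fun j => KK k n (Tf n) j) (fun _ _ => Nat.zero_le _)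
      (Finset.mem_range.2 (by omega))
  obtain ⟨mf, hmf⟩ : ∃ mf : ℕ → ℕ, ∀ n, mf n = 3 * Tf n + 2 + n * (Km n + 1) + Km n + 2 :=
    ⟨_, fun n => rfl⟩
  have pm : PB mf := by
    have h := (((((PB.const 3).mul hT).add (PB.const 2)).add
      (PB.id.mul (pKm.add (PB.const 1)))).add pKm).add (PB.const 2)
    exact h.mono fun n => (hmf n).le
  obtain ⟨X, hX⟩ : ∃ X : ℕ → ℕ, ∀ n, X n = (k + 3) * (2 * mf n + 1) + 16 * Tf n + 84 + (k + 3) :=
    ⟨_, fun n => rfl⟩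
  have pX : PB X := by
    have h := ((((PB.const (k + 3)).mul (((PB.const 2).mul pm).add (PB.const 1))).add
      ((PB.const 16).mul hT)).add (PB.const 84)).add (PB.const (k + 3))
    exact h.mono fun n => (hX n).le
  obtain ⟨uf, huf⟩ : ∃ uf : ℕ → ℕ, ∀ n, uf n = Nat.clog 4 (X n) := ⟨_, fun n => rfl⟩
  have hu1 : ∀ n, X n ≤ 4 ^ uf n := by
    intro n
    rw [huf]
    exact Nat.le_pow_clog (by norm_num) _
  have hu2 : ∀ n, 4 ^ uf n ≤ 4 * X n := by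
    intro n
    have h1 : 1 < X n := by rw [hX]; omega
    have h2 : 0 < uf n := by rw [huf]; exact Nat.clog_pos (by norm_num) h1
    have h3 : 4 ^ (uf n - 1) < X n := by
      rw [huf]
      exact Nat.pow_pred_clog_lt_self (by norm_num) h1
    obtain ⟨v, hv⟩ : ∃ v, uf n = v + 1 := ⟨uf n - 1, by omega⟩
    rw [hv, Nat.add_sub_cancel] at h3
    rw [hv, pow_succ]
    omega
  have pu : PB fun n => 4 ^ uf n := ((PB.const 4).mul pX).mono hu2
  obtain ⟨Lf, hLf⟩ : ∃ Lf : ℕ → ℕ, ∀ n, Lf n = ((4 ^ uf n) ^ 2 + 1) *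
    (24 * 4 ^ uf n) ^ (2 * (k + 3)) := ⟨_, fun n => rfl⟩
  have pL : PB Lf := by
    have h := ((pu.pow 2).add (PB.const 1)).mul (((PB.const 24).mul pu).pow (2 * (k + 3)))
    exact h.mono fun n => (hLf n).le
  -- the choice of `n`
  have e1 := (pb_QQ k hT pL r).lt
  have e2 := (((PB.const 144).mul (hT.pow 2)).mul ((pb_KK k hT r).add (PB.const 1))).lt
  have e3 := pu.lt
  obtain ⟨n, ⟨⟨hn1, hn2⟩, hn3⟩, hn4⟩ := (((e1.and e2).and e3).and
    (eventually_ge_atTop (N₀ + 1))).exists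
  have hLB : LB (uf n) 1 (k + 3) = Lf n := by
    rw [hLf]
    unfold LB
    push_cast
    rw [pow_mul]
    norm_num
  have h24 : ∀ j, (0:ℝ) < 24 * (tt k n (Tf n) (KK k n (Tf n) j) : ℕ) := by
    intro j
    have : 0 < tt k n (Tf n) (KK k n (Tf n) j) := by
      unfold tt
      omega
    positivity
  have hpS : ∀ j, 2 / pS k (tt k n (Tf n) (KK k n (Tf n) j)) =
      2 * (24 * ((tt k n (Tf n) (KK k n (Tf n) j) : ℕ) : ℝ)) ^ k := by
    intro j
    unfold pS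
    rw [one_div_pow, div_div_eq_mul_div, div_one]
  refine ⟨n, r, mf n, uf n, Tf n, fun j => KK k n (Tf n) j, fun j => tt k n (Tf n)
    (KK k n (Tf n) j), fun j => (QQ k n (Tf n) (Lf n) j : ℝ) / 2 ^ n, by omega, by omega, ?_, ?_,
    hTr n, by omega, ?_, fun j hj => ?_, fun j hj => ?_, ?_, ?_, fun j hj => ?_, fun j hj => ?_,
    fun j hj => ?_, ?_, fun j hj => ?_, ?_, ?_⟩
  · rw [hTf]
    omega
  · rw [hTf]
    omega
  · rw [hmf]
    omega
  · have h1 := hKj n (j + 1) (by omega)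
    have h2 : n * (KK k n (Tf n) (j + 1) + 1) ≤ n * (Km n + 1) :=
      Nat.mul_le_mul_left _ (by omega)
    show 2 * (2 ^ (3 * Tf n + 1) * (2 ^ n) ^ (KK k n (Tf n) (j + 1) + 1)) ≤ _
    rw [← pow_mul, ← pow_add, ← pow_succ']
    refine Nat.pow_le_pow_right (by norm_num) ?_
    rw [hmf]
    omega
  · have h1 := hKj n (j + 1) (by omega)
    show KK k n (Tf n) (j + 1) + 2 ≤ _
    have h2 : mf n < 2 ^ mf n := Nat.lt_two_pow_self
    have h3 := hmf n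
    omega
  · have h1 : 4 ^ uf n < 4 ^ n := lt_of_lt_of_le hn3 (Nat.pow_le_pow_left (by norm_num) n)
    have h2 := (Nat.pow_lt_pow_iff_right (by norm_num)).1 h1
    omega
  · have h1 := hu1 n
    rw [hX] at h1
    rw [pow_mul]
    exact h1
  · show Tf n * (KK k n (Tf n) j + 1) ≤ tt k n (Tf n) (KK k n (Tf n) j)
    unfold tt
    omega
  · show 1 ≤ tt k n (Tf n) (KK k n (Tf n) j)
    unfold tt
    omega
  · show 2 * (16 * ((tt k n (Tf n) (KK k n (Tf n) j) : ℕ) : ℝ) * (KK k n (Tf n) j : ℕ) +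
      (tt k n (Tf n) (KK k n (Tf n) j) : ℕ) + 1) ≤
      pS k (tt k n (Tf n) (KK k n (Tf n) j)) * ((KK k n (Tf n) (j + 1) : ℕ) + 1)
    have h1 : (0:ℝ) < (24 * ((tt k n (Tf n) (KK k n (Tf n) j) : ℕ) : ℝ)) ^ k :=
      pow_pos (h24 j) k
    unfold pS
    rw [one_div_pow, div_mul_eq_mul_div, one_mul, le_div_iff₀ h1]
    simp only [KK]
    push_cast
    linarith
  · show (0:ℝ) ≤ ((QQ k n (Tf n) (Lf n) 0 : ℕ) : ℝ) / 2 ^ n
    positivity
  · show (Tf n + 1) * (214 * LB (uf n) 1 (k + 3) / 2 ^ (16 * n + 6)) +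
        2 / pS k (tt k n (Tf n) (KK k n (Tf n) j)) * epsS (2 ^ (3 * Tf n + 1)) (2 ^ n) k (Tf n)
          (tt k n (Tf n) (KK k n (Tf n) j)) +
        (2 / pS k (tt k n (Tf n) (KK k n (Tf n) j)) *
          (16 * ((tt k n (Tf n) (KK k n (Tf n) j) : ℕ) : ℝ)) + 1) *
        ((QQ k n (Tf n) (Lf n) j : ℝ) / 2 ^ n) ≤ (QQ k n (Tf n) (Lf n) (j + 1) : ℝ) / 2 ^ n
    rw [hpS, hLB]
    have h1 : epsS (2 ^ (3 * Tf n + 1)) (2 ^ n) k (Tf n) (tt k n (Tf n) (KK k n (Tf n) j)) ≤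
        1 / 2 ^ n := by
      apply eps_le
      unfold tt
      omega
    have h2 : (214 * (Lf n : ℝ)) / 2 ^ (16 * n + 6) ≤ (214 * (Lf n : ℝ)) / 2 ^ n := by
      apply div_le_div_of_nonneg_left (by positivity) (by positivity)
      exact pow_le_pow_right₀ (by norm_num) (by omega)
    simp only [QQ]
    push_cast
    obtain ⟨t, ht⟩ : ∃ t : ℝ, t = ((tt k n (Tf n) (KK k n (Tf n) j) : ℕ) : ℝ) := ⟨_, rfl⟩
    have ht0 : 0 < t := by
      have := h24 j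
      rw [← ht] at this
      linarith
    rw [← ht]
    have h4 : ((Tf n : ℝ) + 1) * (214 * (Lf n : ℝ) / 2 ^ (16 * n + 6)) ≤
        ((Tf n : ℝ) + 1) * (214 * (Lf n : ℝ) / 2 ^ n) := mul_le_mul_of_nonneg_left h2 (by positivity)
    have h5 : 2 * (24 * t) ^ k * epsS (2 ^ (3 * Tf n + 1)) (2 ^ n) k (Tf n)
        (tt k n (Tf n) (KK k n (Tf n) j)) ≤ 2 * (24 * t) ^ k * (1 / 2 ^ n) :=
      mul_le_mul_of_nonneg_left h1 (by positivity)
    refine (add_le_add (add_le_add h4 h5) le_rfl).trans (le_of_eq ?_)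
    field_simp
  · show (QQ k n (Tf n) (Lf n) r : ℝ) / 2 ^ n < 1
    rw [div_lt_one (by positivity)]
    exact_mod_cast hn1
  · exact hn2

end Pool.Agent.H9x.PN
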