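import Pool.Agent.H9x.SN.Hy
import Pool.Agent.H9x.SP.Stg

/-!
# Alternations of quantifiers in front of decision trees
-/

set_option autoImplicit false
set_option linter.unusedSectionVars false
set_option linter.unusedVariables false

namespace Pool.Agent.H9x.PN

open Finset H568R2 Pool.Agent.H676 Pool.Agent.H620R2.Gauge Pool.Agent.NPC Pool.Agent.H591R3.PHG

open Pool.Agent.H9x.SP (Blk Fools rep)

variable {I : Type} [Fintype I] [DecidableEq I]

/-- `k` alternating blocks of quantifiers over strings of length at most `m` (existential in front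
if `b`) followed by decision trees of depth `t` -/
def QC (t m : ℕ) : ℕ → Bool → ((I → Bool) → Bool) → Prop
  | 0, _, f => DTr t f
  | k + 1, true, f => ∃ g : List Bool → (I → Bool) → Bool, (∀ w, QC t m k false (g w)) ∧
      ∀ z, f z = true ↔ ∃ w : List Bool, w.length ≤ m ∧ g w z = true
  | k + 1, false, f => ∃ g : List Bool → (I → Bool) → Bool, (∀ w, QC t m k true (g w)) ∧
      ∀ z, f z = true ↔ ∀ w : List Bool, w.length ≤ m → g w z = true

theorem QC.congr {t m k : ℕ} {b : Bool} {f f' : (I → Bool) → Bool} (h : QC t m k b f)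
    (hf : ∀ z, f' z = f z) : QC t m k b f' := by
  have : f' = f := funext hf
  rw [this]
  exact h

theorem QC.const {t m : ℕ} (c : Bool) : ∀ (k : ℕ) (b : Bool), QC t m k b (fun _ : I → Bool => c)
  | 0, _ => DTr.const ⟨c, fun _ => rfl⟩
  | k + 1, true => ⟨fun _ _ => c, fun _ => QC.const c k false, fun z =>
      ⟨fun h => ⟨[], Nat.zero_le _, h⟩, fun ⟨_, _, h⟩ => h⟩⟩
  | k + 1, false => ⟨fun _ _ => c, fun _ => QC.const c k true, fun z =>
      ⟨fun h _ _ => h, fun h => h [] (Nat.zero_le _)⟩⟩

theorem QC.not {t m : ℕ} : ∀ {k : ℕ} {b : Bool} {f : (I → Bool) → Bool}, QC t m k b f →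
    QC t m k (!b) (fun z => !f z)
  | 0, _, f, h => DTr.comp (fun c => !c) h
  | k + 1, true, f, ⟨g, h1, h2⟩ => by
    refine ⟨fun w z => !g w z, fun w => (h1 w).not, fun z => ?_⟩
    rw [Bool.not_eq_true', ← Bool.not_eq_true, h2]
    push Not
    exact forall_congr' fun w => forall_congr' fun _ => by
      cases g w z <;> simp
  | k + 1, false, f, ⟨g, h1, h2⟩ => by
    refine ⟨fun w z => !g w z, fun w => (h1 w).not, fun z => ?_⟩
    rw [Bool.not_eq_true', ← Bool.not_eq_true, h2]
    push Not
    exact exists_congr fun w => and_congr_right fun _ => by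
      cases g w z <;> simp

theorem QC.inn {t m : ℕ} : ∀ {k : ℕ} {b : Bool} {f : (I → Bool) → Bool}, QC t m k b f →
    QC t m (k + 1) b f
  | 0, true, f, h => ⟨fun _ => f, fun _ => h, fun z =>
      ⟨fun h => ⟨[], Nat.zero_le _, h⟩, fun ⟨_, _, h⟩ => h⟩⟩
  | 0, false, f, h => ⟨fun _ => f, fun _ => h, fun z =>
      ⟨fun h _ _ => h, fun h => h [] (Nat.zero_le _)⟩⟩
  | k + 1, true, f, ⟨g, h1, h2⟩ => ⟨g, fun w => (h1 w).inn, h2⟩
  | k + 1, false, f, ⟨g, h1, h2⟩ => ⟨g, fun w => (h1 w).inn, h2⟩

theorem QC.out {t m k : ℕ} {b : Bool} {f : (I → Bool) → Bool} (h : QC t m k (!b) f) :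
    QC t m (k + 1) b f := by
  cases b
  · exact ⟨fun _ => f, fun _ => h, fun z =>
      ⟨fun h _ _ => h, fun h => h [] (Nat.zero_le _)⟩⟩
  · exact ⟨fun _ => f, fun _ => h, fun z =>
      ⟨fun h => ⟨[], Nat.zero_le _, h⟩, fun ⟨_, _, h⟩ => h⟩⟩

theorem exists_strs {X : Type} [Fintype X] [Nonempty X] {m : ℕ} (h : Fintype.card X ≤ 2 ^ m) :
    ∃ s : List Bool → X, ∀ x, ∃ w : List Bool, w.length ≤ m ∧ s w = x := by
  have h1 : Nonempty (X ↪ (Fin m → Bool)) :=
    Function.Embedding.nonempty_of_card_le (by simpa using h)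
  obtain ⟨f⟩ := h1
  have hinj : Function.Injective fun x => List.ofFn (f x) := fun x y hxy =>
    f.injective (List.ofFn_injective hxy)
  refine ⟨Function.invFun fun x => List.ofFn (f x), fun x => ⟨List.ofFn (f x), by simp, ?_⟩⟩
  exact Function.leftInverse_invFun hinj x

theorem QC.ex {X : Type} [Fintype X] {t m k : ℕ} (h : Fintype.card X ≤ 2 ^ m)
    (g : X → (I → Bool) → Bool) (hg : ∀ x, QC t m k false (g x)) {f : (I → Bool) → Bool}
    (hf : ∀ z, f z = true ↔ ∃ x, g x z = true) : QC t m (k + 1) true f := by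
  rcases isEmpty_or_nonempty X with hX | hX
  · refine (QC.const false (k + 1) true).congr fun z => ?_
    rw [← Bool.not_eq_true, hf]
    rintro ⟨x, _⟩
    exact hX.elim x
  · obtain ⟨s, hs⟩ := exists_strs h
    refine ⟨fun w => g (s w), fun w => hg _, fun z => ?_⟩
    rw [hf]
    constructor
    · rintro ⟨x, hx⟩
      obtain ⟨w, hw, rfl⟩ := hs x
      exact ⟨w, hw, hx⟩
    · rintro ⟨w, _, h⟩
      exact ⟨_, h⟩

theorem QC.all {X : Type} [Fintype X] {t m k : ℕ} (h : Fintype.card X ≤ 2 ^ m)
    (g : X → (I → Bool) → Bool) (hg : ∀ x, QC t m k true (g x)) {f : (I → Bool) → Bool}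
    (hf : ∀ z, f z = true ↔ ∀ x, g x z = true) : QC t m (k + 1) false f := by
  rcases isEmpty_or_nonempty X with hX | hX
  · refine (QC.const true (k + 1) false).congr fun z => ?_
    rw [hf]
    exact fun x => hX.elim x
  · obtain ⟨s, hs⟩ := exists_strs h
    refine ⟨fun w => g (s w), fun w => hg _, fun z => ?_⟩
    rw [hf]
    constructor
    · intro h w _
      exact h _
    · intro h x
      obtain ⟨w, hw, rfl⟩ := hs x
      exact h w hw

/-- quantifiers over shorter strings -/
theorem qc_of_QF {t m P L : ℕ} (hP : P ≤ m) {F : List Bool → (I → Bool) → Bool}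
    (hF : ∀ y : List Bool, y.length ≤ L → DTr t (F y)) : ∀ (k : ℕ) (b : Bool) (y : List Bool),
      y.length + k * (2 * P + 1) ≤ L → QC t m k b (QF P F k b y)
  | 0, b, y, h => hF y (by omega)
  | k + 1, true, y, h => by
    have e : (k + 1) * (2 * P + 1) = k * (2 * P + 1) + (2 * P + 1) := by ring
    refine ⟨fun w => if w.length ≤ P then QF P F k false (pairBits w y) else fun _ => false,
      fun w => ?_, fun z => ?_⟩
    · show QC t m k false (if w.length ≤ P then QF P F k false (pairBits w y) else fun _ => false)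
      split_ifs with hw
      · refine qc_of_QF hP hF k false _ ?_
        rw [length_pairBits]
        omega
      · exact QC.const false k false
    · simp only [QF, decide_eq_true_eq]
      constructor
      · rintro ⟨w, hw, h1⟩
        exact ⟨w, hw.trans hP, by rw [if_pos hw]; exact h1⟩
      · rintro ⟨w, _, h1⟩
        by_cases hw : w.length ≤ P
        · rw [if_pos hw] at h1
          exact ⟨w, hw, h1⟩
        · rw [if_neg hw] at h1
          simp at h1
  | k + 1, false, y, h => by
    have e : (k + 1) * (2 * P + 1) = k * (2 * P + 1) + (2 * P + 1) := by ring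
    refine ⟨fun w => if w.length ≤ P then QF P F k true (pairBits w y) else fun _ => true,
      fun w => ?_, fun z => ?_⟩
    · show QC t m k true (if w.length ≤ P then QF P F k true (pairBits w y) else fun _ => true)
      split_ifs with hw
      · refine qc_of_QF hP hF k true _ ?_
        rw [length_pairBits]
        omega
      · exact QC.const true k true
    · simp only [QF, decide_eq_true_eq]
      constructor
      · intro h1 w _
        by_cases hw : w.length ≤ P
        · rw [if_pos hw]
          exact h1 w hw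
        · rw [if_neg hw]
      · intro h1 w hw
        have := h1 w (hw.trans hP)
        rw [if_pos hw] at this
        exact this

/-- the innermost string -/
def core : ℕ → List Bool → List Bool
  | 0, y => y
  | j + 1, y => core j (unpair y).2

theorem QF_glue {m K : ℕ} {F G : List Bool → (I → Bool) → Bool} {c₀ : List Bool}
    (h : ∀ y, core K y = c₀ → F y = G (rep K (fun _ => []) y)) (z : I → Bool) :
    ∀ (j i : ℕ) (b : Bool) (u : List Bool), i + j = K → core i u = c₀ →
      QF m F j b u z = QF m G j b (rep i (fun _ => []) u) z := by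
  intro j
  induction j with
  | zero =>
    intro i b u hi hc
    have : i = K := by omega
    subst this
    simp only [QF]
    rw [h u hc]
  | succ j ih =>
    intro i b u hi hc
    have key : ∀ (b' : Bool) (w : List Bool), QF m F j b' (pairBits w u) z =
        QF m G j b' (pairBits w (rep i (fun _ => []) u)) z := by
      intro b' w
      have h1 := ih (i + 1) b' (pairBits w u) (by omega) (by
        simp only [core, unpair_pairBits]
        exact hc)
      rw [h1]
      simp only [rep, unpair_pairBits]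
    cases b with
    | true =>
      rw [QF, QF, decide_eq_decide]
      exact exists_congr fun w => and_congr_right fun _ => by rw [key]
    | false =>
      rw [QF, QF, decide_eq_decide]
      exact forall_congr' fun w => forall_congr' fun _ => by rw [key]

theorem QC.qf {t m : ℕ} : ∀ {k : ℕ} {b : Bool} {f : (I → Bool) → Bool}, QC t m k b f →
    ∃ F : List Bool → (I → Bool) → Bool, (∀ y, DTr t (F y)) ∧ ∀ z, f z = QF m F k b [] z
  | 0, b, f, h => ⟨fun _ => f, fun _ => h, fun z => rfl⟩
  | k + 1, true, f, ⟨g, h1, h2⟩ => by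
    choose F hF1 hF2 using fun w => (h1 w).qf
    refine ⟨fun y => F (unpair (core k y)).1 (rep k (fun _ => []) y), fun y => hF1 _ _,
      fun z => ?_⟩
    rw [Bool.eq_iff_iff, h2]
    simp only [QF, decide_eq_true_eq]
    refine exists_congr fun w => and_congr_right fun _ => ?_
    rw [hF2 w z, QF_glue (K := k) (G := F w) (c₀ := pairBits w []) (fun y hy => by
      rw [hy, unpair_pairBits]) z k 0 false (pairBits w []) (by omega) rfl]
    rfl
  | k + 1, false, f, ⟨g, h1, h2⟩ => by
    choose F hF1 hF2 using fun w => (h1 w).qf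
    refine ⟨fun y => F (unpair (core k y)).1 (rep k (fun _ => []) y), fun y => hF1 _ _,
      fun z => ?_⟩
    rw [Bool.eq_iff_iff, h2]
    simp only [QF, decide_eq_true_eq]
    refine forall_congr' fun w => forall_congr' fun _ => ?_
    rw [hF2 w z, QF_glue (K := k) (G := F w) (c₀ := pairBits w []) (fun y hy => by
      rw [hy, unpair_pairBits]) z k 0 true (pairBits w []) (by omega) rfl]
    rfl

/-- blocks which fool quantifiers -/
theorem fools_qc {B : Blk} {k u N Λ m : ℕ} {δ : ℝ} (h : Fools B k u N Λ δ) (hN : 1 ≤ N)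
    (hΛ : k * (2 * m + 1) ≤ Λ) {b : Bool} {f : (B.I → Bool) → Bool}
    (hf : QC (2 ^ (2 * u)) m k b f) :
    |∑ z, B.P true z * br f z - ∑ z, B.P false z * br f z| ≤ δ := by
  obtain ⟨F, hF1, hF2⟩ := hf.qf
  have h1 := h (Fin 1) (by simpa using hN) m 0 F (by omega) (fun y _ => hF1 y) (fun _ => [])
    (fun _ => le_rfl) b (fun v => v 0)
  have h2 : f = fun z => QF m F k b [] z := funext hF2
  rw [h2]
  exact h1

open Classical in
/-- **The switching lemma.** -/
theorem qc_switch {t : ℕ} (ht : 1 ≤ t) (m k : ℕ) {b : Bool} {f : (I → Bool) → Bool}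
    (hf : QC t m k b f) :
    Ex (wq ((1 / (24 * (t : ℝ))) ^ k)) (fun ρ : Restr I =>
      if ¬ DTr t (rs f ρ) then (1 : ℝ) else 0) ≤
      k * 2 ^ (k * (2 * m + 1) + 2) * (1 / 2) ^ (t + 1) := by
  obtain ⟨F, hF1, hF2⟩ := hf.qf
  have htR : (1 : ℝ) ≤ t := by exact_mod_cast ht
  set q : ℝ := 1 / (24 * t) with hq
  have h0 : 0 < q := by positivity
  have h1 : q ≤ 1 / 3 := by
    rw [hq]
    refine one_div_le_one_div_of_le (by norm_num) (by linarith)
  have hhalf : 12 * (t : ℝ) * q = 1 / 2 := by
    rw [hq]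
    field_simp
    norm_num
  have hsw := switch_alt ht h0.le h1 m F k 0 (fun y _ => hF1 y)
  rw [hhalf] at hsw
  have hw : ∀ a, 0 ≤ wq (q ^ k) a :=
    wq_nonneg (pow_nonneg h0.le k) (pow_le_one₀ h0.le (by linarith))
  refine (Ex_mono hw fun ρ => ?_).trans (hsw.trans (le_of_eq (by rw [Nat.zero_add])))
  by_cases hg : ∀ y : List Bool, y.length ≤ 0 → ∀ b, DTr t (rs (QF m F k b y) ρ)
  · rw [if_neg (not_not.2 hg), if_neg]
    rw [not_not]
    have h2 : f = QF m F k b [] := funext hF2
    rw [h2]
    exact hg [] le_rfl b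
  · rw [if_pos hg]
    split_ifs <;> norm_num

end Pool.Agent.H9x.PN
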