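import Pool.Agent.H9x.PN.Inst
import Pool.Agent.H9x.PN.Num

/-!
# One quantum family is wrong at one string
-/

set_option autoImplicit false
set_option linter.unusedSectionVars false
set_option linter.unusedVariables false

namespace Pool.Agent.H9x.PN

open Finset H568R2 Pool.Agent.H676 Pool.Agent.NPC Pool.Agent.H622R2 Pool.Agent.H620R2.Gauge
  Pool.Agent.H622R2.Exp Pool.Agent.TH678.ETH Pool.Agent.TH678.SETH Pool.Agent.TH678.RS
  Pool.Agent.H9x.Q Filter Pool.Agent.H591R3.PHG

open Pool.Agent.H9x.RT (ll lev HZ HZ_iff Yes No UU mem_UU card_lev)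
open Pool.Agent.H9x.SP (Sys Dt J orc base orc_on orc_off orc_free orc_loc tv tv_congr tv_true
  tv_false tv_iff enc_inj2 Blk Good sval Fools LB one_le_LB sum_lev_le)
open Pool.Agent.H9x.SN (er er_congr er_off nam nam_inj nam_len out_iff dtr_runD)

variable {kk k : ℕ} {ma : ℕ → Alg × Polynomial ℕ} {S R : ℕ → Polynomial ℕ}

/-- the strings of whose length there is a hidden one -/
def LH (f : List Bool → Bool) : Set (List Bool) :=
  {y | ∃ x : List Bool, x.length = y.length ∧ f (nam 0 x) = true}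

/-- the family decides the language of the hidden ones -/
def Rt (F : QFamily) (A : Oracle) (f : List Bool → Bool) : Prop :=
  ∀ y, (y ∈ LH f → 2 / 3 ≤ F.acc A y) ∧ (y ∉ LH f → F.acc A y ≤ 1 / 3)

theorem card_XH (hK : Kh k ma S R) (T : ℕ) : (XH S T).card ≤ 2 ^ (3 * T + 1) := by
  classical
  have hS : ∀ e n, n + e + 1 ≤ (S e).eval n := fun e n => by have := hK.big e n; omega
  have h1 : (XH S T).card ≤ (UU S 0 T).card := card_filter_le _ _
  have hmap : ∀ c ∈ UU S 0 T, lev S c ∈ range (T + 1) := fun c hc => by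
    rw [mem_range]
    have := ((mem_UU hS).1 hc).2
    omega
  have h2 : (UU S 0 T).card = ∑ s ∈ range (T + 1), ((UU S 0 T).filter fun c => lev S c = s).card :=
    card_eq_sum_card_fiberwise hmap
  have h3 : ∑ s ∈ range (T + 1), ((UU S 0 T).filter fun c => lev S c = s).card ≤
      ∑ s ∈ range (T + 1), 2 ^ (2 * T + 1) := by
    refine sum_le_sum fun s hs => (card_lev hS 0 T s).trans ?_
    rw [mem_range] at hs
    exact Nat.pow_le_pow_right (by norm_num) (by omega)
  rw [sum_const, card_range, smul_eq_mul] at h3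
  have h4 : T + 1 ≤ 2 ^ T := Nat.lt_two_pow_self
  calc (XH S T).card ≤ (T + 1) * 2 ^ (2 * T + 1) := by omega
    _ ≤ 2 ^ T * 2 ^ (2 * T + 1) := Nat.mul_le_mul_right _ h4
    _ = 2 ^ (3 * T + 1) := by rw [← pow_add]; congr 1; ring

theorem sum_W (hK : Kh k ma S R) {n T : ℕ} (hnT : 16 * n + 6 ≤ T) {L : ℝ} (hL : 0 ≤ L) (j : ℕ) :
    ((WH S n T j).map fun c => 107 * L / 8 ^ (lev S c)).sum ≤
      (T + 1) * (214 * L / 2 ^ (16 * n + 6)) := by
  classical
  have hS : ∀ e n, n + e + 1 ≤ (S e).eval n := fun e n => by have := hK.big e n; omega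
  have hnd : (WH S n T j).Nodup := (win_H (kk := k) hK n T (fun _ => false)).nd j
  have hsub : (WH S n T j).toFinset ⊆ UU S (16 * n + 6) T := by
    intro c hc
    rw [List.mem_toFinset] at hc
    rw [mem_UU hS]
    refine ⟨WH_ge hK hc, ?_⟩
    rcases j with _ | j
    · obtain ⟨h1, h2⟩ := mem_W0.1 hc
      rw [lev_zero hK h1, h2]
      exact hnT
    · exact ((mem_WS hK).1 hc).1.1
  have h1 : ((WH S n T j).map fun c => 107 * L / 8 ^ (lev S c)).sum =
      ∑ c ∈ (WH S n T j).toFinset, 107 * L / 8 ^ (lev S c) :=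
    (List.sum_toFinset _ hnd).symm
  rw [h1]
  refine (sum_le_sum_of_subset_of_nonneg hsub fun c _ _ => by positivity).trans ?_
  exact sum_lev_le hS (16 * n + 6) T hL

theorem epsS_mono {X X' N m t : ℕ} (h : X ≤ X') : epsS X N k m t ≤ epsS X' N k m t := by
  unfold epsS
  have h1 : (X : ℝ) ≤ X' := by exact_mod_cast h
  refine mul_le_mul_of_nonneg_right (mul_le_mul_of_nonneg_right h1 (by positivity)) (by positivity)

open Classical in
/-- few worlds are noticed at each string -/
theorem few_worlds (hK : Kh k ma S R) {n T K : ℕ} {f₀ : List Bool → Bool}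
    {B : ℕ × List Bool → Bool → List Bool → Bool}
    (hbd : ¬ bd (sysH kk k ma S) (frH n f₀) (XH S T) K B) {y : List Bool} (hy : y.length ≤ T) :
    (univ.filter fun i : Fin n → Bool => er (orc (sysH kk k ma S) ⟨B, frH n f₀ (some i)⟩) y ≠
      er (orc (sysH kk k ma S) ⟨B, frH n f₀ none⟩) y).card ≤ K + 1 := by
  have hW := win_H (kk := kk) hK n T f₀
  by_cases hfree : ∃ u, y = true :: u
  · obtain ⟨u, rfl⟩ := hfree
    rw [filter_false_of_mem fun i _ => by
      rw [ne_eq, not_not]
      rfl]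
    simp
  · push Not at hfree
    by_cases hp : ∃ c w, (sysH kk k ma S).ok c w ∧ y = (sysH kk k ma S).adr c w
    · obtain ⟨c, w, hok, rfl⟩ := hp
      have hlt : lev S c < ((sysH kk k ma S).adr c w).length := (sysH kk k ma S).lt c w
      have h1 : (univ.filter fun i : Fin n → Bool =>
          er (orc (sysH kk k ma S) ⟨B, frH n f₀ (some i)⟩) ((sysH kk k ma S).adr c w) ≠
          er (orc (sysH kk k ma S) ⟨B, frH n f₀ none⟩) ((sysH kk k ma S).adr c w)).card ≤
          (univ.filter fun i : Fin n → Bool =>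
            tv (sysH kk k ma S) c (orc (sysH kk k ma S) ⟨B, frH n f₀ (some i)⟩) ≠
            tv (sysH kk k ma S) c (orc (sysH kk k ma S) ⟨B, frH n f₀ none⟩)).card := by
        refine card_le_card fun i hi => ?_
        rw [mem_filter] at hi ⊢
        refine ⟨mem_univ _, fun heq => hi.2 ?_⟩
        rw [er_off hfree, er_off hfree, orc_on _ hok, orc_on _ hok]
        show B c _ w = B c _ w
        rw [heq]
      refine h1.trans ?_
      by_cases h0 : c.1 = 0
      · by_cases hn : c.2.length = n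
        · rcases hW.ad 0 c (mem_W0.2 ⟨h0, hn⟩) with h2 | h2
          · exact absurd h0 ((mem_XH hK).1 h2).2
          · exact (h2 B).trans (by omega)
        · rw [filter_false_of_mem fun i _ => by
            rw [ne_eq, not_not, tv_zero hK _ h0, tv_zero hK _ h0]
            show frH n f₀ (some i) (nam 0 c.2) = frH n f₀ none (nam 0 c.2)
            have hne : (nam 0 c.2).length ≠ n + 1 := by
              rw [nam_len]
              omega
            rw [frH_off hne, frH_off hne]]
          simp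
      · by_contra hcon
        push Not at hcon
        exact hbd ⟨c, (mem_XH hK).2 ⟨by omega, h0⟩, by omega⟩
    · push Not at hp
      rw [filter_false_of_mem fun i _ => by
        rw [ne_eq, not_not, er_off hfree, er_off hfree, orc_off _ hp, orc_off _ hp]
        rcases y with _ | ⟨c₁, u⟩
        · rfl
        · cases c₁
          · rfl
          · exact absurd rfl (hfree u)]
      simp

/-- **One family, in contents in which no question separates many worlds.** -/
theorem req_core (hK : Kh k ma S R) {Bk : ℕ × List Bool → Blk} (F : QFamily) (N₀ : ℕ)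
    (D₀ : Dt (sysH kk k ma S).K) {n T K : ℕ}
    (hRl : (F.circ n).length ≤ T) (hCs : Short T (F.circ n)) (hN : N₀ ≤ n)
    (hfin : 144 * T ^ 2 * (K + 1) < 2 ^ n) {B : ℕ × List Bool → Bool → List Bool → Bool}
    (hB1 : Good (Y := sysH kk k ma S) Bk B)
    (hB2 : ∀ c : ℕ × List Bool, (∀ j, c ∉ WH S n T j) → B c = D₀.bl c)
    (hB3 : ¬ bd (sysH kk k ma S) (frH n D₀.fr) (XH S T) K B) :
    ∃ (D' : Dt (sysH kk k ma S).K) (N' : ℕ), Good (Y := sysH kk k ma S) Bk D'.bl ∧
      (∀ c, lev S c < N₀ → D'.bl c = D₀.bl c) ∧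
      (∀ u : List Bool, u.length < N₀ → D'.fr u = D₀.fr u) ∧
      ∀ D'' : Dt (sysH kk k ma S).K, (∀ c, lev S c < N' → D''.bl c = D'.bl c) →
        (∀ u : List Bool, u.length < N' → D''.fr u = D'.fr u) →
          ¬ Rt F (er (orc (sysH kk k ma S) D'')) D''.fr := by
  set f₀ := D₀.fr with hf₀
  have hcN : Fintype.card (Fin n → Bool) = 2 ^ n := by simp
  by_contra hcon
  push Not at hcon
  -- the families decides the language in all worlds
  have hne : ∀ (i : Option (Fin n → Bool)), (∀ u : List Bool, u.length < N₀ →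
      frH n f₀ i u = D₀.fr u) := fun i u hu' => frH_off (by omega) i
  have hlow : ∀ c : ℕ × List Bool, lev S c < N₀ → B c = D₀.bl c := fun c hc =>
    hB2 c fun j hj => by
      have := WH_ge hK hj
      omega
  have hright : ∀ i : Option (Fin n → Bool), ((List.replicate n false ∈ LH (frH n f₀ i) →
      2 / 3 ≤ F.acc (er (orc (sysH kk k ma S) ⟨B, frH n f₀ i⟩)) (List.replicate n false)) ∧
      (List.replicate n false ∉ LH (frH n f₀ i) →
      F.acc (er (orc (sysH kk k ma S) ⟨B, frH n f₀ i⟩)) (List.replicate n false) ≤ 1 / 3)) := by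
    intro i
    obtain ⟨D'', h1, h2, h3⟩ := hcon ⟨B, frH n f₀ i⟩ (T + n + 2) hB1 hlow (hne i)
    have h4 : (List.replicate n false ∈ LH D''.fr ↔ List.replicate n false ∈ LH (frH n f₀ i)) := by
      show (∃ x : List Bool, _ ∧ _) ↔ (∃ x : List Bool, _ ∧ _)
      refine exists_congr fun x => and_congr_right fun hx => ?_
      rw [List.length_replicate] at hx
      rw [h2 (nam 0 x) (by rw [nam_len]; omega)]
    have h5 : F.acc (er (orc (sysH kk k ma S) D'')) (List.replicate n false) =
        F.acc (er (orc (sysH kk k ma S) ⟨B, frH n f₀ i⟩)) (List.replicate n false) := by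
      unfold QFamily.acc
      refine prob_congr (B := T) (fun y hy => er_congr ?_) _ ?_ _ _
      · exact orc_loc (n := T + n + 2) h1 h2 y.length y rfl (by omega)
      · rw [List.length_replicate]
        exact hCs
    have h6 := h3 (List.replicate n false)
    rw [h4, h5] at h6
    exact h6
  have h0 : List.replicate n false ∉ LH (frH n f₀ none) := by
    rintro ⟨x, hx, hx2⟩
    rw [List.length_replicate] at hx
    rw [frH_none hx] at hx2
    exact Bool.false_ne_true hx2
  have h1 : ∀ i : Fin n → Bool, List.replicate n false ∈ LH (frH n f₀ (some i)) := fun i =>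
    ⟨List.ofFn i, by simp, by rw [frH_some (by simp)]; simp⟩
  set C := F.circ n with hC
  have hCl : C.length ≤ T := hRl
  have h2 := sum_prob_diff (ι := Fin n → Bool) (er (orc (sysH kk k ma S) ⟨B, frH n f₀ none⟩))
    (fun i => er (orc (sysH kk k ma S) ⟨B, frH n f₀ (some i)⟩)) ((K : ℝ) + 1) T (by positivity)
    (fun y hy => by
      have h3 := few_worlds hK hB3 hy
      have h4 : ((univ.filter fun i : Fin n → Bool =>
          er (orc (sysH kk k ma S) ⟨B, frH n f₀ (some i)⟩) y ≠
          er (orc (sysH kk k ma S) ⟨B, frH n f₀ none⟩) y).card : ℝ) ≤ ((K + 1 : ℕ) : ℝ) := by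
        exact_mod_cast h3
      push_cast at h4
      exact h4) C hCs (n + 1 + F.anc.eval n) (List.replicate n false)
  have hacc : ∀ i : Option (Fin n → Bool), F.acc (er (orc (sysH kk k ma S) ⟨B, frH n f₀ i⟩))
      (List.replicate n false) = prob (er (orc (sysH kk k ma S) ⟨B, frH n f₀ i⟩)) C
        (n + 1 + F.anc.eval n) (List.replicate n false) := by
    intro i
    unfold QFamily.acc
    rw [List.length_replicate]
  have h3 : ∀ i : Fin n → Bool, (1 : ℝ) / 9 ≤
      (prob (er (orc (sysH kk k ma S) ⟨B, frH n f₀ (some i)⟩)) C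
        (n + 1 + F.anc.eval n) (List.replicate n false) -
      prob (er (orc (sysH kk k ma S) ⟨B, frH n f₀ none⟩)) C
        (n + 1 + F.anc.eval n) (List.replicate n false)) ^ 2 := by
    intro i
    have h4 := (hright none).2 h0
    have h5 := (hright (some i)).1 (h1 i)
    rw [hacc] at h4 h5
    nlinarith
  have h4 : ((2 : ℝ) ^ n) * (1 / 9) ≤ 16 * (C.length : ℝ) ^ 2 * ((K : ℝ) + 1) := by
    refine le_trans (le_trans (le_of_eq ?_) (sum_le_sum fun i (_ : i ∈ univ) => h3 i)) h2
    rw [sum_const, nsmul_eq_mul, card_univ, hcN]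
    push_cast
    rfl
  have h5 : (C.length : ℝ) ^ 2 ≤ (T : ℝ) ^ 2 := by
    refine pow_le_pow_left₀ (Nat.cast_nonneg _) ?_ 2
    exact_mod_cast hCl
  have h6 : (((144 * T ^ 2 * (K + 1) : ℕ)) : ℝ) < ((2 ^ n : ℕ) : ℝ) := by exact_mod_cast hfin
  push_cast at h6
  have h7 : (0 : ℝ) ≤ (K : ℝ) + 1 := by positivity
  nlinarith [mul_le_mul_of_nonneg_right h5 h7]

/-- **One family.** -/
theorem req_H (hK : Kh k ma S R) {Bk : ℕ × List Bool → Blk}
    (hBk : ∀ (c : ℕ × List Bool) (u N Λ : ℕ), (c.1 = 0 → 8 * u ≤ lev S c) →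
      Λ + 16 * lev S c + 84 + (k + 3) ≤ 2 ^ (2 * u) →
      Fools (Bk c) (k + 3) u N Λ (107 * LB u N (k + 3) / 8 ^ (lev S c)))
    (F : QFamily) (N₀ : ℕ) (D₀ : Dt (sysH kk k ma S).K)
    (hD : Good (Y := sysH kk k ma S) Bk D₀.bl) :
    ∃ (D' : Dt (sysH kk k ma S).K) (N' : ℕ), Good (Y := sysH kk k ma S) Bk D'.bl ∧
      (∀ c, lev S c < N₀ → D'.bl c = D₀.bl c) ∧
      (∀ u : List Bool, u.length < N₀ → D'.fr u = D₀.fr u) ∧
      ∀ D'' : Dt (sysH kk k ma S).K, (∀ c, lev S c < N' → D''.bl c = D'.bl c) →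
        (∀ u : List Bool, u.length < N' → D''.fr u = D'.fr u) →
          ¬ Rt F (er (orc (sysH kk k ma S) D'')) D''.fr := by
  obtain ⟨Rp, hRp⟩ := F.size
  obtain ⟨n, r, m', u, T, Ks, t, q, hN, hn1, hRT, hnT, hTr, hr, hTm, hm2, hm3, hu, hΛ, ht, ht1, hKK,
    hq0, hq, hqr, hfin⟩ := exists_num k Rp N₀
  set f₀ := D₀.fr with hf₀
  have hW := win_H (kk := kk) hK n T f₀
  have hcX := card_XH hK T
  have hcN : Fintype.card (Fin n → Bool) = 2 ^ n := by simp
  obtain ⟨B, hB1, hB2, hB3⟩ := hW.exists_good (Bk := Bk) (r := r) (m' := m') (u := u)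
    (Λ := (k + 3) * (2 * m' + 1)) (Ks := Ks) (t := t)
    (δ := fun c => 107 * LB u 1 (k + 3) / 8 ^ (lev S c)) hTm
    (fun j hj => by
      rw [hcN]
      exact le_trans (Nat.mul_le_mul_left _ (Nat.mul_le_mul_right _ hcX)) (hm2 j hj))
    hm3 (by omega) le_rfl
    (fun j hj c hc => hBk c u 1 _ (fun h0 => hu.trans (WH_ge hK hc)) (by
      have h1 : lev S c ≤ T := by
        rcases j with _ | j
        · obtain ⟨h1, h2⟩ := mem_W0.1 hc
          rw [lev_zero hK h1, h2]
          exact hnT
        · exact ((mem_WS hK).1 hc).1.1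
      omega)) ht ht1 hKK (q := q) hq0
    (fun j hj => by
      refine le_trans (add_le_add_left (add_le_add ?_ ?_) _) (hq j hj)
      · exact sum_W hK hnT (by have := one_le_LB u 1 (k + 3); linarith) j
      · have hpos : 0 < pS k (t j) := by
          have : (1 : ℝ) ≤ t j := by exact_mod_cast ht1 j hj
          unfold pS
          positivity
        rw [hcN]
        exact mul_le_mul_of_nonneg_left (epsS_mono hcX) (by positivity)) hqr hr
    (fun j hj => by
      obtain ⟨l, rfl⟩ : ∃ l, j = l + 1 := ⟨j - 1, by omega⟩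
      refine List.eq_nil_iff_forall_not_mem.2 fun c hc => ?_
      obtain ⟨⟨h1, _⟩, h2, _⟩ := (mem_WS hK).1 hc
      have h3 := pow_tower (s := 16 * n + 6) (by omega) hj
      omega) D₀.bl hD
  exact req_core hK F N₀ D₀ ((hRp n).1.trans hRT)
    (fun l r' hl => ((hRp n).2 l r' hl).trans hRT) hN hfin hB1 hB2 hB3

end Pool.Agent.H9x.PN
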