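import Pool.Agent.H9x.PN.Row0

/-!
# The expectation over the contents of the rows
-/

set_option autoImplicit false
set_option linter.unusedSectionVars false

namespace Pool.Agent.H9x.PN

open Finset Pool.Agent.NPC Pool.Agent.H622R2 Pool.Agent.H620R2.Gauge Pool.Agent.H622R2.Exp
  Pool.Agent.TH678.ETH Pool.Agent.TH678.SETH Pool.Agent.TH678.RS Pool.Agent.H9x.Q Filter
  Pool.Agent.H591R3.PHG

open Pool.Agent.H9x.RT (ll lev Yes No mkp EE)
open Pool.Agent.H9x.SP (Sys Blk Good)

theorem sgl_enc {a : ℕ} (p : Fin a → Bool) :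
    Function.extend (fun p : Fin a → Bool => List.ofFn p) (fun q => decide (q = p))
      (fun _ => false) = sgl p := by
  funext w
  by_cases h : ∃ q : Fin a → Bool, List.ofFn q = w
  · obtain ⟨q, rfl⟩ := h
    rw [Function.Injective.extend_apply List.ofFn_injective]
    unfold sgl
    rw [Bool.eq_iff_iff, decide_eq_true_eq, decide_eq_true_eq]
    exact ⟨fun h => by rw [h], fun h => List.ofFn_injective h⟩
  · rw [Function.extend_apply' _ _ _ h]
    unfold sgl
    symm
    rw [decide_eq_false_iff_not]
    intro h'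
    exact h ⟨p, h'.symm⟩

theorem zero_enc {a : ℕ} :
    Function.extend (fun p : Fin a → Bool => List.ofFn p) (fun _ => false)
      (fun _ => false) = fun _ => false := by
  funext w
  by_cases h : ∃ q : Fin a → Bool, List.ofFn q = w
  · obtain ⟨q, rfl⟩ := h
    rw [Function.Injective.extend_apply List.ofFn_injective]
  · rw [Function.extend_apply' _ _ _ h]

open Classical in
/-- one row -/
theorem row_one' {a : ℕ} (PT PF : ((Fin a → Bool) → Bool) → ℝ)
    (en : ((Fin a → Bool) → Bool) → List Bool → Bool)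
    (hT : ∀ z, PT z = if z = (fun _ => false) then 1 else 0)
    (hF : ∀ z, PF z = if ∃ p, z = fun q => decide (q = p) then 1 / 2 ^ a else 0)
    (he : ∀ z, en z = Function.extend (fun p : Fin a → Bool => List.ofFn p) z (fun _ => false))
    (Φ : (Bool → List Bool → Bool) → ℝ) :
    ∑ z, ∑ z', PT z * (PF z' * Φ (mkp (en z) (en z'))) =
      ∑ p : Fin a → Bool, 1 / 2 ^ a * Φ (mkp (fun _ => false) (sgl p)) := by
  have h1 : ∀ z, ∑ z', PT z * (PF z' * Φ (mkp (en z) (en z'))) =
      if z = (fun _ => false) then ∑ z', PF z' * Φ (mkp (fun _ => false) (en z')) else 0 := by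
    intro z
    split_ifs with hz
    · subst hz
      refine sum_congr rfl fun z' _ => ?_
      rw [hT, if_pos rfl, one_mul, he (fun _ => false), zero_enc]
    · refine sum_eq_zero fun z' _ => ?_
      rw [hT, if_neg hz, zero_mul]
  rw [sum_congr rfl fun z _ => h1 z, sum_ite_eq' univ, if_pos (mem_univ _)]
  have h7 : Function.Injective (fun (p q : Fin a → Bool) => decide (q = p)) := by
    intro p p' h
    have := congrFun h p
    simpa using this
  have h4 : ∀ z', PF z' * Φ (mkp (fun _ => false) (en z')) =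
      if z' ∈ (univ : Finset (Fin a → Bool)).image
        (fun (p : Fin a → Bool) => (fun q => decide (q = p) : (Fin a → Bool) → Bool)) then 1 / 2 ^ a *
        Φ (mkp (fun _ => false) (en z')) else 0 := by
    intro z'
    rw [hF]
    have h6 : (z' ∈ (univ : Finset (Fin a → Bool)).image
        (fun (p : Fin a → Bool) => (fun q => decide (q = p) : (Fin a → Bool) → Bool))) ↔
        ∃ p, z' = fun q => decide (q = p) := by
      rw [mem_image]
      exact ⟨fun ⟨p, _, hp⟩ => ⟨p, hp.symm⟩, fun ⟨p, hp⟩ => ⟨p, mem_univ _, hp.symm⟩⟩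
    by_cases h : ∃ p, z' = fun q => decide (q = p)
    · rw [if_pos h, if_pos (h6.2 h)]
    · rw [if_neg h, if_neg (mt h6.1 h), zero_mul]
  rw [sum_congr rfl fun z' _ => h4 z', sum_ite_mem, univ_inter,
    sum_image fun p _ p' _ h => h7 h]
  refine sum_congr rfl fun p _ => ?_
  rw [he, sgl_enc]

theorem row_one {a : ℕ} (b : Blk) (hb : b = rowB a) (Φ : (Bool → List Bool → Bool) → ℝ) :
    ∑ z, ∑ z', b.P true z * (b.P false z' * Φ (mkp (b.enc z) (b.enc z'))) =
      ∑ p : Fin a → Bool, 1 / 2 ^ a * Φ (mkp (fun _ => false) (sgl p)) := by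
  classical
  subst hb
  refine (row_one' ((rowB a).P true) ((rowB a).P false) (rowB a).enc ?_ ?_ ?_ Φ)
  · intro z
    unfold rowB
    simp only [if_true]
  · intro z
    unfold rowB
    simp only [Bool.false_eq_true, if_false]
  · intro z
    rfl

/-- the sum over a coordinate and over the functions -/
theorem sum_upd {ι X : Type} [Fintype ι] [DecidableEq ι] [Fintype X] [DecidableEq X] (i : ι)
    (G : (ι → X) → ℝ) :
    ∑ p : X, ∑ v : ι → X, G (Function.update v i p) = Fintype.card X * ∑ v, G v := by
  have h1 : ∑ p : X, ∑ v : ι → X, G (Function.update v i p) =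
      ∑ q : X × (ι → X), G (Function.update q.2 i q.1) := by
    rw [Fintype.sum_prod_type]
  have h2 : Function.Involutive (fun q : X × (ι → X) => (q.2 i, Function.update q.2 i q.1)) := by
    rintro ⟨p, v⟩
    simp
  have h3 : ∑ q : X × (ι → X), G (Function.update q.2 i q.1) = ∑ q : X × (ι → X), G q.2 := by
    rw [← Equiv.sum_comp (h2.toPerm _) fun q : X × (ι → X) => G q.2]
    rfl
  rw [h1, h3, Fintype.sum_prod_type]
  simp [card_univ]

open Classical in
/-- the contents of the rows in a list -/
noncomputable def rowL {K ι : Type} {a : ℕ} (cd : ι → K) (l : List ι) (v : ι → Fin a → Bool)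
    (D : K → Bool → List Bool → Bool) : K → Bool → List Bool → Bool :=
  fun c => if h : ∃ i, i ∈ l ∧ cd i = c then mkp (fun _ => false) (sgl (v h.choose)) else D c

theorem rowL_step {K ι : Type} [DecidableEq K] [DecidableEq ι] {a : ℕ} {cd : ι → K}
    (hcd : Function.Injective cd) {i : ι} {l : List ι} (hi : i ∉ l) (v : ι → Fin a → Bool)
    (p : Fin a → Bool) (D : K → Bool → List Bool → Bool) :
    rowL cd l v (Function.update D (cd i) (mkp (fun _ => false) (sgl p))) =
      rowL cd (i :: l) (Function.update v i p) D := by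
  funext c
  unfold rowL
  by_cases h : ∃ j, j ∈ l ∧ cd j = c
  · have h' : ∃ j, j ∈ i :: l ∧ cd j = c := ⟨h.choose, List.mem_cons_of_mem _ h.choose_spec.1,
      h.choose_spec.2⟩
    rw [dif_pos h, dif_pos h']
    have e1 : h'.choose = h.choose := hcd (h'.choose_spec.2.trans h.choose_spec.2.symm)
    have e2 : h.choose ≠ i := fun e => hi (e ▸ h.choose_spec.1)
    rw [e1, Function.update_of_ne e2]
  · rw [dif_neg h]
    by_cases hc : c = cd i
    · subst hc
      have h' : ∃ j, j ∈ i :: l ∧ cd j = cd i := ⟨i, List.mem_cons_self, rfl⟩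
      rw [dif_pos h', Function.update_self]
      have e1 : h'.choose = i := hcd h'.choose_spec.2
      rw [e1, Function.update_self]
    · have h' : ¬ ∃ j, j ∈ i :: l ∧ cd j = c := by
        rintro ⟨j, hj, e⟩
        rcases List.mem_cons.1 hj with e' | e'
        · exact hc (e' ▸ e.symm)
        · exact h ⟨j, e', e⟩
      rw [dif_neg h', Function.update_of_ne hc]

theorem EE_rowL {Y : Sys} {Bk : Y.K → Blk} {ι : Type} [Fintype ι] [DecidableEq ι] {a : ℕ}
    (cd : ι → Y.K) (hcd : Function.Injective cd) (hrow : ∀ i, Bk (cd i) = rowB a)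
    (F : (Y.K → Bool → List Bool → Bool) → ℝ) : ∀ (l : List ι), l.Nodup →
    ∀ D : Y.K → Bool → List Bool → Bool,
    EE (fun c => (Bk c).P true) (fun c => (Bk c).P false) (fun c => (Bk c).enc)
      (l.map cd) F D =
    ∑ v : ι → (Fin a → Bool), (1 / 2 ^ a : ℝ) ^ Fintype.card ι * F (rowL cd l v D)
  | [], _, D => by
    have h1 : ∀ v : ι → (Fin a → Bool), rowL cd [] v D = D := by
      intro v
      funext c
      unfold rowL
      rw [dif_neg]
      rintro ⟨i, hi, _⟩
      exact absurd hi List.not_mem_nil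
    simp only [h1, List.map_nil, EE]
    rw [sum_const, card_univ, Fintype.card_fun, Fintype.card_fun, Fintype.card_bool,
      Fintype.card_fin, nsmul_eq_mul]
    push_cast
    rw [← mul_assoc, ← mul_pow, mul_one_div_cancel (by positivity), one_pow, one_mul]
  | i :: l, hl, D => by
    have hi : i ∉ l := (List.nodup_cons.1 hl).1
    rw [List.map_cons]
    simp only [EE]
    refine (row_one (Bk (cd i)) (hrow i) fun w => EE (fun c => (Bk c).P true)
      (fun c => (Bk c).P false) (fun c => (Bk c).enc) (l.map cd) F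
      (Function.update D (cd i) w)).trans ?_
    have h1 : ∀ p : Fin a → Bool, 1 / 2 ^ a * EE (fun c => (Bk c).P true)
        (fun c => (Bk c).P false) (fun c => (Bk c).enc) (l.map cd) F
        (Function.update D (cd i) (mkp (fun _ => false) (sgl p))) =
        ∑ v : ι → (Fin a → Bool), 1 / 2 ^ a * ((1 / 2 ^ a : ℝ) ^ Fintype.card ι *
          F (rowL cd (i :: l) (Function.update v i p) D)) := by
      intro p
      rw [EE_rowL cd hcd hrow F l (List.nodup_cons.1 hl).2, mul_sum]
      refine sum_congr rfl fun v _ => ?_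
      rw [rowL_step hcd hi]
    rw [sum_congr rfl fun p _ => h1 p, sum_upd i fun v => 1 / 2 ^ a * ((1 / 2 ^ a : ℝ) ^
      Fintype.card ι * F (rowL cd (i :: l) v D)), Fintype.card_fun, Fintype.card_bool,
      Fintype.card_fin, mul_sum]
    refine sum_congr rfl fun v _ => ?_
    push_cast
    rw [← mul_assoc, mul_one_div_cancel (by positivity), one_mul]

/-- **The expectation over the contents of the rows.** -/
theorem EE_rows {Y : Sys} {Bk : Y.K → Blk} {ι : Type} [Fintype ι] [DecidableEq ι] {a : ℕ}
    (cd : ι → Y.K) (hcd : Function.Injective cd) (hrow : ∀ i, Bk (cd i) = rowB a)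
    (F : (Y.K → Bool → List Bool → Bool) → ℝ) (D : Y.K → Bool → List Bool → Bool) :
    EE (fun c => (Bk c).P true) (fun c => (Bk c).P false) (fun c => (Bk c).enc)
      ((univ : Finset ι).toList.map cd) F D =
    ∑ v : ι → (Fin a → Bool), (1 / 2 ^ a : ℝ) ^ Fintype.card ι * F (rowD cd v D) := by
  rw [EE_rowL cd hcd hrow F _ (nodup_toList _) D]
  refine sum_congr rfl fun v _ => ?_
  congr 2
  funext c
  unfold rowL rowD
  by_cases h : ∃ i, cd i = c
  · have h' : ∃ i, i ∈ (univ : Finset ι).toList ∧ cd i = c :=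
      ⟨h.choose, mem_toList.2 (mem_univ _), h.choose_spec⟩
    rw [dif_pos h, dif_pos h']
    have e1 : h'.choose = h.choose := hcd (h'.choose_spec.2.trans h.choose_spec.symm)
    rw [e1]
  · have h' : ¬ ∃ i, i ∈ (univ : Finset ι).toList ∧ cd i = c :=
      fun ⟨i, _, e⟩ => h ⟨i, e⟩
    rw [dif_neg h, dif_neg h']

end Pool.Agent.H9x.PN
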