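import Pool.Agent.H9x.PN.Row0

/-!
# Piece ROWPURE: counting rows by certificates
-/

set_option autoImplicit false
set_option linter.unusedSectionVars false

namespace Pool.Agent.H9x.PN

open Finset H568R2 Pool.Agent.H676

namespace RowP

/-- independent sets in digraphs of small outdegree -/
theorem indep {V : Type} [DecidableEq V] (T : V → Finset V) (t : ℕ) (hT : ∀ v, (T v).card ≤ t) :
    ∀ (K : ℕ) (A : Finset V), (2 * t + 1) * K ≤ A.card →
      ∃ S : Finset V, S ⊆ A ∧ S.card = K ∧ ∀ i ∈ S, ∀ j ∈ S, i ≠ j → j ∉ T i := by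
  intro K
  induction K with
  | zero => exact fun A _ => ⟨∅, empty_subset _, card_empty, fun i hi => absurd hi (notMem_empty i)⟩
  | succ K ih =>
    intro A hA
    have hA0 : 0 < A.card := by nlinarith
    obtain ⟨i, hiA, hi⟩ : ∃ i ∈ A, (A.filter fun j => i ∈ T j).card ≤ t := by
      by_contra hcon
      push Not at hcon
      have h1 : ∑ i ∈ A, (A.filter fun j => i ∈ T j).card = ∑ j ∈ A, (A.filter fun i => i ∈ T j).card := by
        simp only [card_filter]
        exact sum_comm
      have h2 : ∑ j ∈ A, (A.filter fun i => i ∈ T j).card ≤ ∑ _j ∈ A, t := by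
        refine sum_le_sum fun j _ => (card_le_card ?_).trans (hT j)
        intro i hi
        exact (mem_filter.1 hi).2
      have h3 : ∑ _i ∈ A, (t + 1) ≤ ∑ i ∈ A, (A.filter fun j => i ∈ T j).card :=
        sum_le_sum fun i hi => hcon i hi
      rw [sum_const, smul_eq_mul] at h2 h3
      rw [h1] at h3
      nlinarith
    set R : Finset V := insert i (T i ∪ A.filter fun j => i ∈ T j) with hR
    have hRc : R.card ≤ 2 * t + 1 := by
      refine (card_insert_le _ _).trans ?_
      have h4 := card_union_le (T i) (A.filter fun j => i ∈ T j)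
      have h5 := hT i
      omega
    obtain ⟨S, hS1, hS2, hS3⟩ := ih (A \ R) (by
      have h4 := le_card_sdiff R A
      have h5 : (2 * t + 1) * (K + 1) = (2 * t + 1) * K + (2 * t + 1) := by ring
      omega)
    have hiS : i ∉ S := fun h => (mem_sdiff.1 (hS1 h)).2 (mem_insert_self _ _)
    refine ⟨insert i S, ?_, ?_, ?_⟩
    · exact insert_subset hiA (hS1.trans sdiff_subset)
    · rw [card_insert_of_notMem hiS, hS2]
    · intro a ha b hb hab
      rcases mem_insert.1 ha with ha | ha
      · rcases mem_insert.1 hb with hb | hb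
        · exact absurd (ha.trans hb.symm) hab
        · intro h
          rw [ha] at h
          exact (mem_sdiff.1 (hS1 hb)).2 (mem_insert_of_mem (mem_union_left _ h))
      · rcases mem_insert.1 hb with hb | hb
        · intro h
          rw [hb] at h
          exact (mem_sdiff.1 (hS1 ha)).2 (mem_insert_of_mem (mem_union_right _
            (mem_filter.2 ⟨(mem_sdiff.1 (hS1 ha)).1, h⟩)))
        · exact hS3 a ha b hb hab

/-- certificates -/
theorem cert_of {I : Type} [Fintype I] [DecidableEq I] {t m : ℕ} {F : (I → Bool) → Bool}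
    (hF : QC t m 1 true F) (z : I → Bool) (hz : F z = true) :
    ∃ P : Finset I, P.card ≤ t ∧ ∀ y : I → Bool, (∀ x ∈ P, y x = z x) → F y = true := by
  obtain ⟨g, h1, h2⟩ := hF
  obtain ⟨w, hw, hg⟩ := (h2 z).1 hz
  obtain ⟨A, hA, hy⟩ := DTr.cert (h1 w) true z hg
  exact ⟨A, hA, fun y hy' => (h2 y).2 ⟨w, hw, hy y hy'⟩⟩

variable {ι Pos : Type} [Fintype ι] [DecidableEq ι] [Fintype Pos] [DecidableEq Pos]

/-- the rows in `S` are zero -/
def zs (S : Finset ι) (v : ι → Pos) : ι × Pos → Bool := fun x => decide (x.1 ∉ S ∧ v x.1 = x.2)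

theorem zs_congr {S : Finset ι} {v v' : ι → Pos} (h : ∀ i, i ∉ S → v i = v' i) :
    zs S v = zs S v' := by
  funext x
  unfold zs
  rw [decide_eq_decide]
  exact and_congr_right fun hx => by rw [h _ hx]

/-- the event of a set of rows -/
def Es (F : (ι × Pos → Bool) → Bool) (t : ℕ) (S : Finset ι) (v : ι → Pos) : Prop :=
  F (cf v) = false ∧ ∀ i ∈ S, ∃ P : Finset (ι × Pos), P.card ≤ t ∧
    (∀ y : ι × Pos → Bool, (∀ x ∈ P, y x = zs S v x) → F y = true) ∧ ∀ x ∈ P, x.1 ∈ S → x.1 = i

open Classical in
theorem card_Es (F : (ι × Pos → Bool) → Bool) (t : ℕ) (S : Finset ι) :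
    (univ.filter fun v : ι → Pos => Es F t S v).card ≤
      t ^ S.card * Fintype.card Pos ^ (Fintype.card ι - S.card) := by
  let r : (ι → Pos) → ({i // i ∉ S} → Pos) := fun v i => v i
  have h1 := card_eq_sum_card_fiberwise (f := r) (s := univ.filter fun v : ι → Pos => Es F t S v)
    (t := univ) (fun v _ => mem_univ _)
  rw [h1]
  have h2 : ∀ u ∈ (univ : Finset ({i // i ∉ S} → Pos)),
      ((univ.filter fun v : ι → Pos => Es F t S v).filter fun v => r v = u).card ≤ t ^ S.card := by
    intro u _
    rcases ((univ.filter fun v : ι → Pos => Es F t S v).filter fun v => r v = u).eq_empty_or_nonempty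
      with h | ⟨v₀, hv₀⟩
    · rw [h, card_empty]
      exact Nat.zero_le _
    · rw [mem_filter, mem_filter] at hv₀
      obtain ⟨⟨_, hE⟩, hr⟩ := hv₀
      obtain ⟨hF0, hP⟩ := hE
      have hP' : ∀ i : {i // i ∈ S}, ∃ P : Finset (ι × Pos), P.card ≤ t ∧
          (∀ y : ι × Pos → Bool, (∀ x ∈ P, y x = zs S v₀ x) → F y = true) ∧
          ∀ x ∈ P, x.1 ∈ S → x.1 = i := fun i => hP i i.2
      choose P hP1 hP2 hP3 using hP'
      let Q : {i // i ∈ S} → Finset Pos := fun i => ((P i).filter fun x => x.1 = (i : ι)).image Prod.snd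
      have hQ : ∀ i, (Q i).card ≤ t := fun i =>
        card_image_le.trans ((card_filter_le _ _).trans (hP1 i))
      have h3 : (((univ.filter fun v : ι → Pos => Es F t S v).filter fun v => r v = u)).card ≤
          (Fintype.piFinset Q).card := by
        refine card_le_card_of_injOn (fun v (i : {i // i ∈ S}) => v i) ?_ ?_
        · intro v hv
          rw [mem_coe, mem_filter, mem_filter] at hv
          obtain ⟨⟨_, hE', _⟩, hr'⟩ := hv
          rw [mem_coe, Fintype.mem_piFinset]
          intro i
          have hag : ∀ j, j ∉ S → v j = v₀ j := by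
            intro j hj
            have := congrFun (hr'.trans hr.symm) ⟨j, hj⟩
            exact this
          -- `cf v` does not agree with `zs` on `P i`
          have h4 : ∃ x ∈ P i, cf v x ≠ zs S v₀ x := by
            by_contra hcon
            push Not at hcon
            have := hP2 i (cf v) hcon
            rw [hE'] at this
            exact Bool.noConfusion this
          obtain ⟨x, hx, hne⟩ := h4
          have hxS : x.1 ∈ S := by
            by_contra hxS
            apply hne
            unfold cf zs
            rw [decide_eq_decide, hag _ hxS]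
            exact ⟨fun h => ⟨hxS, h⟩, fun h => h.2⟩
          have hxi : x.1 = i := hP3 i x hx hxS
          have hz : zs S v₀ x = false := by
            unfold zs
            exact decide_eq_false fun h => h.1 hxS
          have hc : cf v x = true := by
            rw [hz] at hne
            cases h : cf v x
            · exact absurd h hne
            · rfl
          have hv2 : v x.1 = x.2 := of_decide_eq_true hc
          show v i ∈ Q i
          rw [mem_image]
          exact ⟨x, mem_filter.2 ⟨hx, hxi⟩, by rw [← hv2, hxi]⟩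
        · intro v hv v' hv' hvv
          rw [mem_coe, mem_filter] at hv hv'
          funext j
          by_cases hj : j ∈ S
          · exact congrFun hvv ⟨j, hj⟩
          · exact congrFun (hv.2.trans hv'.2.symm) ⟨j, hj⟩
      refine h3.trans ?_
      rw [Fintype.card_piFinset]
      refine (prod_le_prod' fun i _ => hQ i).trans ?_
      rw [prod_const, card_univ, Fintype.card_coe]
  refine (sum_le_sum h2).trans ?_
  rw [sum_const, smul_eq_mul, mul_comm, card_univ, Fintype.card_fun]
  have h3 : Fintype.card {i // i ∉ S} = Fintype.card ι - S.card := by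
    rw [Fintype.card_subtype_compl, Fintype.card_coe]
  rw [h3]

end RowP

open RowP in
/-- **ROWPURE.** -/
theorem row_count {ι Pos : Type} [Fintype ι] [DecidableEq ι] [Fintype Pos] [DecidableEq Pos]
    [Nonempty Pos] {t m K K' : ℕ} (F : (ι × Pos → Bool) → Bool) (hF : QC t m 1 true F)
    (hK : t + (2 * t + 1) * K' ≤ K) :
    ((univ.filter fun v : ι → Pos =>
      K < (univ.filter fun i : ι => F (cfo i v) ≠ F (cf v)).card).card : ℝ) ≤
    ((Fintype.card ι : ℝ) * t / Fintype.card Pos) ^ K' * (Fintype.card Pos : ℝ) ^ Fintype.card ι := by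
  classical
  have hcert := cert_of hF
  -- the bad `v`
  have hsub : (univ.filter fun v : ι → Pos =>
      K < (univ.filter fun i : ι => F (cfo i v) ≠ F (cf v)).card) ⊆
      (powersetCard K' (univ : Finset ι)).biUnion fun S => univ.filter fun v => Es F t S v := by
    intro v hv
    rw [mem_filter] at hv
    obtain ⟨_, hv⟩ := hv
    -- the value at `cf v` is false
    have hf : F (cf v) = false := by
      by_contra hne
      rw [Bool.not_eq_false] at hne
      obtain ⟨P, hP1, hP2⟩ := hcert _ hne
      have h1 : (univ.filter fun i : ι => F (cfo i v) ≠ F (cf v)) ⊆ P.image Prod.fst := by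
        intro i hi
        rw [mem_filter, hne] at hi
        obtain ⟨_, hi⟩ := hi
        have h2 : ∃ x ∈ P, cfo i v x ≠ cf v x := by
          by_contra hcon
          push Not at hcon
          exact hi (hP2 _ hcon)
        obtain ⟨x, hx, hx2⟩ := h2
        rw [mem_image]
        refine ⟨x, hx, ?_⟩
        by_contra hxi
        apply hx2
        unfold cfo cf
        rw [decide_eq_decide]
        exact ⟨fun h => h.2, fun h => ⟨hxi, h⟩⟩
      have h3 := (card_le_card h1).trans (card_image_le.trans hP1)
      omega
    set A := univ.filter fun i : ι => F (cfo i v) ≠ F (cf v) with hA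
    have hAi : ∀ i ∈ A, F (cfo i v) = true := by
      intro i hi
      rw [hA, mem_filter, hf] at hi
      exact Bool.eq_true_of_not_eq_false hi.2
    have hch : ∀ i, ∃ P : Finset (ι × Pos), P.card ≤ t ∧ (i ∈ A →
        ∀ y : ι × Pos → Bool, (∀ x ∈ P, y x = cfo i v x) → F y = true) := by
      intro i
      by_cases hi : i ∈ A
      · obtain ⟨P, hP1, hP2⟩ := hcert _ (hAi i hi)
        exact ⟨P, hP1, fun _ => hP2⟩
      · exact ⟨∅, by simp, fun h => absurd h hi⟩
    choose P hP1 hP2 using hch
    obtain ⟨S, hS1, hS2, hS3⟩ := indep (fun i => (P i).image Prod.fst) t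
      (fun i => card_image_le.trans (hP1 i)) K' A (by omega)
    rw [mem_biUnion]
    refine ⟨S, mem_powersetCard.2 ⟨subset_univ _, hS2⟩, mem_filter.2 ⟨mem_univ _, hf, ?_⟩⟩
    intro i hi
    refine ⟨P i, hP1 i, ?_, ?_⟩
    · intro y hy
      refine hP2 i (hS1 hi) y fun x hx => ?_
      rw [hy x hx]
      unfold zs cfo
      rw [decide_eq_decide]
      by_cases hxS : x.1 ∈ S
      · have hxi : x.1 = i := by
          by_contra hne
          exact hS3 i hi x.1 hxS (fun h => hne h.symm) (mem_image_of_mem _ hx)
        exact ⟨fun h => absurd hxS h.1, fun h => absurd hxi h.1⟩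
      · exact ⟨fun h => ⟨fun h' => hxS (h' ▸ hi), h.2⟩, fun h => ⟨hxS, h.2⟩⟩
    · intro x hx hxS
      by_contra hne
      exact hS3 i hi x.1 hxS (fun h => hne h.symm) (mem_image_of_mem _ hx)
  have hcard := (card_le_card hsub).trans card_biUnion_le
  have hPos : 0 < Fintype.card Pos := Fintype.card_pos
  have hPosR : (0 : ℝ) < Fintype.card Pos := by exact_mod_cast hPos
  by_cases hK' : K' ≤ Fintype.card ι
  · have h1 : ∑ S ∈ powersetCard K' (univ : Finset ι), (univ.filter fun v => Es F t S v).card ≤
        Fintype.card ι ^ K' * (t ^ K' * Fintype.card Pos ^ (Fintype.card ι - K')) := by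
      have h2 : ∀ S ∈ powersetCard K' (univ : Finset ι), (univ.filter fun v => Es F t S v).card ≤
          t ^ K' * Fintype.card Pos ^ (Fintype.card ι - K') := by
        intro S hS
        have h3 := card_Es F t S
        rw [(mem_powersetCard.1 hS).2] at h3
        exact h3
      refine (sum_le_sum h2).trans ?_
      rw [sum_const, card_powersetCard, card_univ, smul_eq_mul]
      exact Nat.mul_le_mul_right _ (Nat.choose_le_pow _ _)
    have h2 := hcard.trans h1
    have h3 : ((univ.filter fun v : ι → Pos =>
        K < (univ.filter fun i : ι => F (cfo i v) ≠ F (cf v)).card).card : ℝ) ≤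
        (Fintype.card ι : ℝ) ^ K' * ((t : ℝ) ^ K' * (Fintype.card Pos : ℝ) ^ (Fintype.card ι - K')) := by
      exact_mod_cast h2
    refine h3.trans (le_of_eq ?_)
    have h4 : (Fintype.card Pos : ℝ) ^ Fintype.card ι =
        (Fintype.card Pos : ℝ) ^ (Fintype.card ι - K') * (Fintype.card Pos : ℝ) ^ K' := by
      rw [← pow_add]
      congr 1
      omega
    rw [h4, div_pow, mul_pow]
    field_simp
  · have h1 : powersetCard K' (univ : Finset ι) = ∅ := by
      rw [powersetCard_eq_empty, card_univ]
      omega
    rw [h1, sum_empty, Nat.le_zero] at hcard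
    rw [hcard, Nat.cast_zero]
    positivity

end Pool.Agent.H9x.PN
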