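import Pool.Agent.H9x.PN.Chain1
import Pool.Agent.H9x.PN.Inst
import Pool.Agent.H9x.PN.RowP
import Pool.Agent.H9x.PN.RowE

/-!
# The rows
-/

set_option autoImplicit false
set_option linter.unusedSectionVars false
set_option linter.unusedVariables false

namespace Pool.Agent.H9x.PN

open Finset H568R2 Pool.Agent.H676 Pool.Agent.NPC Pool.Agent.H622R2 Pool.Agent.H620R2.Gauge
  Pool.Agent.H622R2.Exp Pool.Agent.TH678.ETH Pool.Agent.TH678.SETH Pool.Agent.TH678.RS
  Pool.Agent.H9x.Q Filter Pool.Agent.H591R3.PHG

open Pool.Agent.H9x.RT (ll lev HZ HZ_iff Yes No UU mem_UU mkp EE EC)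
open Pool.Agent.H9x.SP (Sys Dt J orc base orc_on orc_off orc_free orc_loc tv tv_congr tv_true
  tv_false tv_iff enc_inj2 Blk Good sval)
open Pool.Agent.H9x.SN (er er_congr er_off nam nam_inj nam_len out_iff dtr_runD)

open Classical in
/-- the contents of the rows are given by bits -/
noncomputable def cnt {K ι : Type} {a : ℕ} (cd : ι → K) (D : K → Bool → List Bool → Bool)
    (z : ι × (Fin a → Bool) → Bool) : K → Bool → List Bool → Bool :=
  fun c => if h : ∃ i, cd i = c then
    (fun _ => Function.extend (fun p : Fin a → Bool => List.ofFn p) (fun p => z (h.choose, p))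
      (fun _ => false)) else D c

section

variable {K ι : Type} {a : ℕ} {cd : ι → K}

theorem rowD_on (hcd : Function.Injective cd) (v : ι → Fin a → Bool)
    (D : K → Bool → List Bool → Bool) (i : ι) :
    rowD cd v D (cd i) = mkp (fun _ => false) (sgl (v i)) := by
  unfold rowD
  have h : ∃ i', cd i' = cd i := ⟨i, rfl⟩
  rw [dif_pos h, hcd h.choose_spec]

theorem rowD_off (v : ι → Fin a → Bool) (D : K → Bool → List Bool → Bool) {c : K}
    (h : ∀ i, cd i ≠ c) : rowD cd v D c = D c := by
  unfold rowD
  rw [dif_neg (by push Not; exact h)]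

theorem cnt_on (hcd : Function.Injective cd) (z : ι × (Fin a → Bool) → Bool)
    (D : K → Bool → List Bool → Bool) (i : ι) (t : Bool) :
    cnt cd D z (cd i) t = Function.extend (fun p : Fin a → Bool => List.ofFn p)
      (fun p => z (i, p)) (fun _ => false) := by
  unfold cnt
  have h : ∃ i', cd i' = cd i := ⟨i, rfl⟩
  rw [dif_pos h, hcd h.choose_spec]

theorem cnt_off (z : ι × (Fin a → Bool) → Bool) (D : K → Bool → List Bool → Bool) {c : K}
    (h : ∀ i, cd i ≠ c) : cnt cd D z c = D c := by
  unfold cnt
  rw [dif_neg (by push Not; exact h)]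

theorem ext_sgl (p : Fin a → Bool) : Function.extend (fun p : Fin a → Bool => List.ofFn p)
    (fun p' => decide (p = p')) (fun _ => false) = sgl p := by
  funext w
  by_cases h : ∃ p' : Fin a → Bool, List.ofFn p' = w
  · obtain ⟨p', rfl⟩ := h
    rw [Function.Injective.extend_apply List.ofFn_injective]
    unfold sgl
    rw [decide_eq_decide]
    exact ⟨fun h => by rw [h], fun h => (List.ofFn_injective h).symm⟩
  · rw [Function.extend_apply' _ _ _ h]
    unfold sgl
    refine (decide_eq_false fun hw => h ⟨p, hw.symm⟩).symm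

theorem ext_zero : Function.extend (fun p : Fin a → Bool => List.ofFn p)
    (fun _ : Fin a → Bool => false) (fun _ => false) = fun _ => false := by
  funext w
  by_cases h : ∃ p' : Fin a → Bool, List.ofFn p' = w
  · obtain ⟨p', rfl⟩ := h
    rw [Function.Injective.extend_apply List.ofFn_injective]
  · rw [Function.extend_apply' _ _ _ h]

end

variable {kk k : ℕ} {ma : ℕ → Alg × Polynomial ℕ} {S R : ℕ → Polynomial ℕ}

open Classical in
/-- **The window of the rows.** -/
theorem row_step (hK : Kh 1 ma S R) {Bk : ℕ × List Bool → Blk} (hB : BkR S Bk) {n T K' K : ℕ}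
    (f₀ : List Bool → Bool) (hcX : (XH S T).card ≤ 2 ^ (3 * T + 1))
    (hKK : T + (2 * T + 1) * K' ≤ K) (D : ℕ × List Bool → Bool → List Bool → Bool)
    (hD : ∀ j', 1 ≤ j' → ∀ c ∈ WH S n T j', D c true = D c false) :
    EE (fun c => (Bk c).P true) (fun c => (Bk c).P false) (fun c => (Bk c).enc) (WH S n T 0)
      (fun B => ind (bd (sysH kk 1 ma S) (frH n f₀) (XH S T) K B)) D ≤
    (2 : ℝ) ^ (3 * T + 1) * (2 ^ n * T / 2 ^ (16 * n + 6)) ^ K' := by
  set Y := sysH kk 1 ma S with hY
  have hW : Win Y (frH n f₀) (WH S n T) (XH S T) T T T 1 := win_H (kk := kk) hK n T f₀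
  set a : ℕ := 16 * n + 6 with ha
  set cd : (Fin n → Bool) → ℕ × List Bool := fun i => (0, List.ofFn i) with hcd
  have hinj : Function.Injective cd := fun i i' h => List.ofFn_injective (congrArg Prod.snd h)
  have hrow : ∀ i, Bk (cd i) = rowB a := fun i => by
    rw [hB.row (cd i) rfl, lev_zero hK (c := cd i) rfl, List.length_ofFn]
  have hcN : Fintype.card (Fin n → Bool) = 2 ^ n := by simp
  have hcP : Fintype.card (Fin a → Bool) = 2 ^ a := by simp
  have h1 := EE_rows (Y := Y) (Bk := Bk) (a := a) cd hinj hrow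
    (fun B => ind (bd Y (frH n f₀) (XH S T) K B)) D
  refine le_trans (le_of_eq h1) ?_
  -- the rows and the other codes
  have hrW : ∀ i, cd i ∈ WH S n T 0 := fun i => mem_W0.2 ⟨rfl, List.length_ofFn⟩
  have hoff : ∀ c : ℕ × List Bool, c ∉ WH S n T 0 → ∀ i, cd i ≠ c := fun c hc i h =>
    hc (h ▸ hrW i)
  -- the strings of the worlds
  have hstr : ∀ (v : (Fin n → Bool) → (Fin a → Bool)) (i : Option (Fin n → Bool))
      (z : (Fin n → Bool) × (Fin a → Bool) → Bool),
      (∀ i', rowD cd v D (cd i') (frH n f₀ i (nam 0 (List.ofFn i'))) =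
        cnt cd D z (cd i') true) →
      ∀ y : List Bool, y.length ≤ T → er (orc Y ⟨rowD cd v D, frH n f₀ i⟩) y =
        er (orc Y ⟨cnt cd D z, frH n f₀ none⟩) y := by
    intro v i z hz y hy
    refine er_eq (Y := Y) (fun c hc => ?_) hy
    by_cases h0 : c ∈ WH S n T 0
    · obtain ⟨h00, h01⟩ := mem_W0.1 h0
      obtain ⟨i', hi'⟩ : ∃ i', cd i' = c := by
        have h2 : c ∈ (univ : Finset (Fin n → Bool)).toList.map cd := h0
        obtain ⟨i', _, hi'⟩ := List.mem_map.1 h2
        exact ⟨i', hi'⟩
      have h2 : tv Y c (orc Y ⟨rowD cd v D, frH n f₀ i⟩) = frH n f₀ i (nam 0 (List.ofFn i')) := by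
        have h3 := tv_zero (kk := kk) hK ⟨rowD cd v D, frH n f₀ i⟩ h00
        rw [← hi'] at h3 ⊢
        exact h3
      rw [h2, ← hi']
      refine (hz i').trans ?_
      show cnt (K := ℕ × List Bool) cd D z (cd i') true = cnt (K := ℕ × List Bool) cd D z (cd i') _
      rw [cnt_on hinj, cnt_on hinj]
    · have h2 : rowD cd v D c = D c := rowD_off v D (hoff c h0)
      have h3 : cnt cd D z c = D c := cnt_off z D (hoff c h0)
      by_cases hex : ∃ j, c ∈ WH S n T j
      · obtain ⟨j, hj⟩ := hex
        have hj1 : 1 ≤ j := by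
          rcases j with _ | j
          · exact absurd hj h0
          · omega
        have h4 : ∀ t, D c t = D c true := by
          intro t
          cases t
          · exact (hD j hj1 c hj).symm
          · rfl
        show rowD (K := ℕ × List Bool) cd v D c _ = cnt (K := ℕ × List Bool) cd D z c _
        rw [h2, h3, h4, h4 (tv Y c _)]
      · push Not at hex
        have h5 := hW.a2 c hc hex (rowD cd v D) (cnt cd D z) (fun c' hc' => by
          have h6 : rowD cd v D c' = D c' := rowD_off v D (hoff c' (hc' 0))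
          have h7 : cnt cd D z c' = D c' := cnt_off z D (hoff c' (hc' 0))
          exact h6.trans h7.symm) i none
        show rowD (K := ℕ × List Bool) cd v D c _ = cnt (K := ℕ × List Bool) cd D z c _
        rw [h2, h3]
        exact congrArg (D c) h5
  -- the truth of the questions as a function of bits
  set F : (c : ℕ × List Bool) → ((Fin n → Bool) × (Fin a → Bool) → Bool) → Bool :=
    fun c z => tv Y c (orc Y ⟨cnt cd D z, frH n f₀ none⟩) with hF
  have hnone : ∀ (v : (Fin n → Bool) → (Fin a → Bool)) (c : ℕ × List Bool), c ∈ XH S T →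
      tv Y c (orc Y ⟨rowD cd v D, frH n f₀ none⟩) = F c (cf v) := by
    intro v c hc
    refine hW.tv_er (hstr v none (cf v) fun i' => ?_) hc
    rw [rowD_on hinj, cnt_on hinj, frH_none List.length_ofFn]
    show sgl (v i') = _
    rw [← ext_sgl]
    rfl
  have hsome : ∀ (v : (Fin n → Bool) → (Fin a → Bool)) (i : Fin n → Bool) (c : ℕ × List Bool),
      c ∈ XH S T → tv Y c (orc Y ⟨rowD cd v D, frH n f₀ (some i)⟩) = F c (cfo i v) := by
    intro v i c hc
    refine hW.tv_er (hstr v (some i) (cfo i v) fun i' => ?_) hc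
    rw [rowD_on hinj, cnt_on hinj, frH_some List.length_ofFn]
    by_cases hii : i' = i
    · subst hii
      rw [decide_eq_true rfl]
      have h8 : (fun p : Fin a → Bool => cfo i' v (i', p)) = fun _ => false := by
        funext p
        simp [cfo]
      rw [h8, ext_zero]
      rfl
    · rw [decide_eq_false fun h => hii (List.ofFn_injective h)]
      have h8 : (fun p : Fin a → Bool => cfo i v (i', p)) = fun p => decide (v i' = p) := by
        funext p
        simp [cfo, hii]
      rw [h8, ext_sgl]
      rfl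
  have hQC : ∀ c ∈ XH S T, QC T T 1 true (F c) := by
    intro c hc
    have h2 := hW.aq ((Fin n → Bool) × (Fin a → Bool))
      (fun z => orc Y ⟨cnt cd D z, frH n f₀ none⟩) 1 (fun y hy => ?_) c hc
    · rw [Nat.mul_one] at h2
      exact h2
    · refine dtr_str (Y := Y) (F := fun z => cnt cd D z) (fun c' hc' w => ?_) hy
      by_cases h0 : c' ∈ WH S n T 0
      · obtain ⟨i', hi'⟩ : ∃ i', cd i' = c' := by
          have h2 : c' ∈ (univ : Finset (Fin n → Bool)).toList.map cd := h0
          obtain ⟨i', _, hi'⟩ := List.mem_map.1 h2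
          exact ⟨i', hi'⟩
        have h9 : (fun z : (Fin n → Bool) × (Fin a → Bool) → Bool => cnt (K := ℕ × List Bool) cd D z c'
            (tv Y c' (orc Y ⟨cnt cd D z, frH n f₀ none⟩)) w) = fun z =>
            Function.extend (fun p : Fin a → Bool => List.ofFn p) (fun p => z (i', p))
              (fun _ => false) w := by
          funext z
          rw [← hi', cnt_on hinj]
        refine (congrArg (DTr 1) h9).mpr ?_
        by_cases hp : ∃ p : Fin a → Bool, List.ofFn p = w
        · obtain ⟨p, rfl⟩ := hp
          refine Or.inr ⟨(i', p), fun b => ⟨b, fun z => ?_⟩⟩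
          show Function.extend (fun p : Fin a → Bool => List.ofFn p)
            (fun p' => Function.update z (i', p) b (i', p')) (fun _ => false) (List.ofFn p) = b
          rw [Function.Injective.extend_apply List.ofFn_injective, Function.update_self]
        · refine DTr.const ⟨false, fun z => ?_⟩
          rw [Function.extend_apply' _ _ _ hp]
      · have h3 : ∀ z : (Fin n → Bool) × (Fin a → Bool) → Bool, cnt cd D z c' = D c' :=
          fun z => cnt_off z D (hoff c' h0)
        by_cases hex : ∃ j, c' ∈ WH S n T j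
        · obtain ⟨j, hj⟩ := hex
          have hj1 : 1 ≤ j := by
            rcases j with _ | j
            · exact absurd hj h0
            · omega
          have h4 : ∀ t, D c' t = D c' true := by
            intro t
            cases t
            · exact (hD j hj1 c' hj).symm
            · rfl
          refine DTr.const ⟨D c' true w, fun z => ?_⟩
          show cnt (K := ℕ × List Bool) cd D z c' _ w = _
          rw [h3, h4]
        · push Not at hex
          set z₀ : (Fin n → Bool) × (Fin a → Bool) → Bool := fun _ => false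
          refine DTr.const ⟨D c' (tv Y c' (orc Y ⟨cnt cd D z₀, frH n f₀ none⟩)) w,
            fun z => ?_⟩
          have h5 := hW.a2 c' hc' hex (cnt cd D z) (cnt cd D z₀) (fun c'' hc'' => by
            have h6 : cnt cd D z c'' = D c'' := cnt_off z D (hoff c'' (hc'' 0))
            have h7 : cnt cd D z₀ c'' = D c'' := cnt_off _ D (hoff c'' (hc'' 0))
            exact h6.trans h7.symm) none none
          show cnt (K := ℕ × List Bool) cd D z c' _ w = _
          rw [h3]
          exact congrArg (fun t => D c' t w) h5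
  -- the count
  have hcount : ∀ c ∈ XH S T, ((univ.filter fun v : (Fin n → Bool) → (Fin a → Bool) =>
      K < (univ.filter fun i : Fin n → Bool => F c (cfo i v) ≠ F c (cf v)).card).card : ℝ) ≤
      (2 ^ n * T / 2 ^ a) ^ K' * (2 ^ a) ^ (2 ^ n) := by
    intro c hc
    have h2 := row_count (ι := Fin n → Bool) (Pos := Fin a → Bool) (F c) (hQC c hc) hKK
    rw [hcN, hcP] at h2
    push_cast at h2
    exact h2
  have hind : ∀ v : (Fin n → Bool) → (Fin a → Bool),
      ind (bd Y (frH n f₀) (XH S T) K (rowD cd v D)) ≤ ∑ c ∈ XH S T,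
        (if K < (univ.filter fun i : Fin n → Bool => F c (cfo i v) ≠ F c (cf v)).card
          then (1 : ℝ) else 0) := by
    intro v
    by_cases hb : bd Y (frH n f₀) (XH S T) K (rowD cd v D)
    · rw [ind_true hb]
      obtain ⟨c, hc, hlt⟩ := hb
      refine le_trans (le_of_eq ?_) (single_le_sum (f := fun c => if K < (univ.filter fun i : Fin n → Bool =>
        F c (cfo i v) ≠ F c (cf v)).card then (1 : ℝ) else 0)
        (fun c _ => by split_ifs <;> norm_num) hc)
      rw [if_pos]
      refine lt_of_lt_of_eq hlt (congrArg _ (filter_congr fun i _ => ?_))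
      rw [hnone v c hc, hsome v i c hc]
    · rw [ind_false hb]
      exact sum_nonneg fun c _ => by split_ifs <;> norm_num
  rw [hcN]
  have hpos : (0 : ℝ) < (2 : ℝ) ^ a := by positivity
  calc ∑ v : (Fin n → Bool) → (Fin a → Bool), (1 / 2 ^ a : ℝ) ^ (2 ^ n) *
        ind (bd Y (frH n f₀) (XH S T) K (rowD cd v D))
      ≤ ∑ v : (Fin n → Bool) → (Fin a → Bool), (1 / 2 ^ a : ℝ) ^ (2 ^ n) * ∑ c ∈ XH S T,
        (if K < (univ.filter fun i : Fin n → Bool => F c (cfo i v) ≠ F c (cf v)).card
          then (1 : ℝ) else 0) :=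
        sum_le_sum fun v _ => mul_le_mul_of_nonneg_left (hind v) (by positivity)
    _ = (1 / 2 ^ a : ℝ) ^ (2 ^ n) * ∑ c ∈ XH S T,
        ((univ.filter fun v : (Fin n → Bool) → (Fin a → Bool) =>
          K < (univ.filter fun i : Fin n → Bool => F c (cfo i v) ≠ F c (cf v)).card).card : ℝ) := by
        rw [← mul_sum, sum_comm]
        congr 1
        refine sum_congr rfl fun c _ => ?_
        rw [sum_boole]
    _ ≤ (1 / 2 ^ a : ℝ) ^ (2 ^ n) * ∑ c ∈ XH S T,
        ((2 ^ n * T / 2 ^ a : ℝ) ^ K' * (2 ^ a) ^ (2 ^ n)) :=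
        mul_le_mul_of_nonneg_left (sum_le_sum hcount) (by positivity)
    _ = ((XH S T).card : ℝ) * (2 ^ n * T / 2 ^ a) ^ K' := by
        rw [sum_const, nsmul_eq_mul, one_div, inv_pow]
        have : ((2 : ℝ) ^ a) ^ (2 ^ n) ≠ 0 := by positivity
        field_simp
    _ ≤ (2 : ℝ) ^ (3 * T + 1) * (2 ^ n * T / 2 ^ a) ^ K' := by
        refine mul_le_mul_of_nonneg_right ?_ (by positivity)
        exact_mod_cast hcX

end Pool.Agent.H9x.PN
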