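import Pool.Agent.H9x.PN.Req
import Pool.Agent.H9x.PN.RowS
import Pool.Agent.H9x.PN.Num1

/-!
# One quantum family is wrong at one string: rows with a single one
-/

set_option autoImplicit false
set_option linter.unusedSectionVars false
set_option linter.unusedVariables false

namespace Pool.Agent.H9x.PN

open Finset H568R2 Pool.Agent.H676 Pool.Agent.NPC Pool.Agent.H622R2 Pool.Agent.H620R2.Gauge
  Pool.Agent.H622R2.Exp Pool.Agent.TH678.ETH Pool.Agent.TH678.SETH Pool.Agent.TH678.RS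
  Pool.Agent.H9x.Q Filter Pool.Agent.H591R3.PHG

open Pool.Agent.H9x.RT (ll lev HZ HZ_iff Yes No UU mem_UU card_lev)
open Pool.Agent.H9x.SP (Sys Dt J orc base orc_on orc_off orc_free orc_loc tv tv_congr tv_true
  tv_false tv_iff enc_inj2 Blk Good sval Fools LB one_le_LB sum_lev_le)
open Pool.Agent.H9x.SN (er er_congr er_off nam nam_inj nam_len out_iff dtr_runD)

variable {kk : ℕ} {ma : ℕ → Alg × Polynomial ℕ} {S R : ℕ → Polynomial ℕ}

/-- **One family.** -/
theorem req_R (hK : Kh 1 ma S R) {Bk : ℕ × List Bool → Blk} (hB : BkR S Bk)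
    (hBk : ∀ (c : ℕ × List Bool) (u N Λ : ℕ), ¬ c.1 = 0 →
      Λ + 16 * lev S c + 84 + (1 + 3) ≤ 2 ^ (2 * u) →
      Fools (Bk c) (1 + 3) u N Λ (107 * LB u N (1 + 3) / 8 ^ (lev S c)))
    (F : QFamily) (N₀ : ℕ) (D₀ : Dt (sysH kk 1 ma S).K)
    (hD : Good (Y := sysH kk 1 ma S) Bk D₀.bl) :
    ∃ (D' : Dt (sysH kk 1 ma S).K) (N' : ℕ), Good (Y := sysH kk 1 ma S) Bk D'.bl ∧
      (∀ c, lev S c < N₀ → D'.bl c = D₀.bl c) ∧
      (∀ u : List Bool, u.length < N₀ → D'.fr u = D₀.fr u) ∧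
      ∀ D'' : Dt (sysH kk 1 ma S).K, (∀ c, lev S c < N' → D''.bl c = D'.bl c) →
        (∀ u : List Bool, u.length < N' → D''.fr u = D'.fr u) →
          ¬ Rt F (er (orc (sysH kk 1 ma S) D'')) D''.fr := by
  obtain ⟨Rp, hRp⟩ := F.size
  obtain ⟨n, r, m', u, T, K', Ks, t, q, hN, hn1, hRT, hnT, hTr, hr, hTm, hm2, hm3, hu, hΛ, ht, ht1,
    hKK, hK1, hq1, hq, hqr, hfin⟩ := exists_num1 1 Rp N₀
  set f₀ := D₀.fr with hf₀
  have hW := win_H (kk := kk) hK n T f₀
  have hcX := card_XH hK T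
  have hcN : Fintype.card (Fin n → Bool) = 2 ^ n := by simp
  obtain ⟨B, hB1, hB2, hB3⟩ := hW.exists_good1 (Bk := Bk) (r := r) (m' := m') (u := u)
    (Λ := (1 + 3) * (2 * m' + 1)) (Ks := Ks) (t := t)
    (δ := fun c => 107 * LB u 1 (1 + 3) / 8 ^ (lev S c)) hTm
    (fun j hj => by
      rw [hcN]
      exact le_trans (Nat.mul_le_mul_left _ (Nat.mul_le_mul_right _ hcX)) (hm2 j hj))
    hm3 (by omega) le_rfl
    (fun j hj hj1 c hc => by
      obtain ⟨l, rfl⟩ : ∃ l, j = l + 1 := ⟨j - 1, by omega⟩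
      obtain ⟨⟨h1, h2⟩, _⟩ := (mem_WS hK).1 hc
      exact hBk c u 1 _ h2 (by omega)) ht ht1 hKK (q := q)
    (fun D hD => (row_step hK hB f₀ hcX hK1 D hD).trans hq1)
    (fun j hj hj1 => by
      refine le_trans (add_le_add_left (add_le_add ?_ ?_) _) (hq j hj hj1)
      · exact sum_W hK hnT (by have := one_le_LB u 1 (1 + 3); linarith) j
      · have hpos : 0 < pS 1 (t j) := by
          have : (1 : ℝ) ≤ t j := by exact_mod_cast ht1 j hj hj1
          unfold pS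
          positivity
        rw [hcN]
        exact mul_le_mul_of_nonneg_left (epsS_mono hcX) (by positivity)) hqr hr
    (fun j hj => by
      obtain ⟨l, rfl⟩ : ∃ l, j = l + 1 := ⟨j - 1, by omega⟩
      refine List.eq_nil_iff_forall_not_mem.2 fun c hc => ?_
      obtain ⟨⟨h1, _⟩, h2, _⟩ := (mem_WS hK).1 hc
      have h3 := pow_tower (s := 16 * n + 6) (by omega) hj
      omega) D₀.bl hD
  exact req_core hK F N₀ D₀ ((hRp n).1.trans hRT)
    (fun l r' hl => ((hRp n).2 l r' hl).trans hRT) hN hfin hB1 hB2 hB3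

end Pool.Agent.H9x.PN
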