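import Pool.Agent.H9x.PN.ChainO
import Pool.Agent.H9x.PN.Inst
import Pool.Agent.H9x.PN.GSw
import Pool.Agent.H9x.PN.GBas
import Pool.Agent.H9x.PN.GRow

/-!
# The rows of trees
-/

set_option autoImplicit false
set_option linter.unusedSectionVars false
set_option linter.unusedVariables false

namespace Pool.Agent.H9x.PN

open Finset H568R2 Pool.Agent.H676 Pool.Agent.NPC Pool.Agent.H622R2 Pool.Agent.H620R2.Gauge
  Pool.Agent.H622R2.Exp Pool.Agent.TH678.ETH Pool.Agent.TH678.SETH Pool.Agent.TH678.RS
  Pool.Agent.H9x.Q Filter Pool.Agent.H591R3.PHG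

open Pool.Agent.H9x.RT (ll lev HZ HZ_iff Yes No UU mem_UU mkp EE EC)
open Pool.Agent.H9x.SP (Sys Dt J orc base orc_on orc_off orc_free orc_loc tv tv_congr tv_true
  tv_false tv_iff enc_inj2 Blk sval)
open Pool.Agent.H9x.SN (er er_congr er_off nam nam_inj nam_len out_iff dtr_runD)

open Classical in
/-- the contents of some codes are replaced -/
noncomputable def rowG {K X : Type} (cd : X → K) (g : X → Bool → List Bool → Bool)
    (D : K → Bool → List Bool → Bool) : K → Bool → List Bool → Bool :=
  fun c => if h : ∃ x, cd x = c then g h.choose else D c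

theorem rowG_on {K X : Type} {cd : X → K} (hcd : Function.Injective cd)
    (g : X → Bool → List Bool → Bool) (D : K → Bool → List Bool → Bool) (x : X) :
    rowG cd g D (cd x) = g x := by
  unfold rowG
  have h : ∃ x', cd x' = cd x := ⟨x, rfl⟩
  rw [dif_pos h, hcd h.choose_spec]

theorem rowG_off {K X : Type} {cd : X → K} (g : X → Bool → List Bool → Bool)
    (D : K → Bool → List Bool → Bool) {c : K} (h : ∀ x, cd x ≠ c) : rowG cd g D c = D c := by
  unfold rowG
  rw [dif_neg (by push Not; exact h)]

/-- a single one -/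
def sg {X : Type} [DecidableEq X] (x : X) : X → Bool := fun y => decide (y = x)

variable {X : Type} [Fintype X] [DecidableEq X]

/-- decision trees notice few single ones -/
theorem dtr_sens {r N' : ℕ} {g : (X → Bool) → Bool} (hg : DTr r g) {e : Fin N' → X}
    (he : Function.Injective e) :
    (univ.filter fun i : Fin N' => g (sg (e i)) ≠ g (fun _ => false)).card ≤ r := by
  classical
  obtain ⟨A, hA, hy⟩ := hg.cert (g fun _ => false) (fun _ => false) rfl
  refine le_trans ?_ hA
  refine card_le_card_of_injOn e (fun i hi => ?_) he.injOn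
  rw [mem_coe, mem_filter] at hi
  rw [mem_coe]
  by_contra hcon
  refine hi.2 (hy _ fun l hl => ?_)
  show decide (l = e i) = false
  refine decide_eq_false fun h => hcon ?_
  rw [← h]
  exact hl

variable {kk k : ℕ} {ma : ℕ → Alg × Polynomial ℕ} {S R : ℕ → Polynomial ℕ}

/-- the contents of the rows -/
noncomputable def phi (cs : List ℕ) (s lv kk : ℕ) (as : List ℕ) {K : Type} (cd : X → K)
    (ω : OmL X s as) (D : K → Bool → List Bool → Bool) : K → Bool → List Bool → Bool :=
  rowG cd (fun x => mkp (if rstL s as ω x = none then cnX (8 * s :: as) lv kk (lfmL s as ω (sg x)) x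
    else D (cd x) true) (cnX (8 * s :: as) lv kk (lfmL s as ω (fun _ => false)) x)) D

theorem cnX_congr {cs : List ℕ} {lv kk : ℕ} {z z' : Idx X cs → Bool} {x : X}
    (h : ∀ g, rt cs g = x → z g = z' g) : cnX cs lv kk z x = cnX cs lv kk z' x := by
  funext v
  rcases cnX_cls cs lv kk x v with ⟨g, hg, h1⟩ | ⟨b, h1⟩
  · rw [h1, h1, h g hg]
  · rw [h1, h1]

open Classical in
/-- **The window of the rows.** -/
theorem row_stepG (hK : Kh k ma S R) {n s T u₁ K N' : ℕ} {as : List ℕ}
    (hs : 5 ≤ s) (hu₁ : 8 * u₁ ≤ s) (hlen : as.length = k) (hT : T ≤ 2 ^ (2 * u₁))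
    (hKr : 2 ^ (2 * u₁) ≤ K) {emb : X → (Fin n → Bool)} (hemb : Function.Injective emb)
    (P : OmL X s (pw as) → Prop) (e : {ω // P ω} → Fin N' → X)
    (he1 : ∀ ω, Function.Injective (e ω)) (he2 : ∀ ω i, rstL s (pw as) ω.1 (e ω i) = none)
    (f₀ : List Bool → Bool) (hcX : (XH S T).card ≤ 2 ^ (3 * T + 1))
    (D : ℕ × List Bool → Bool → List Bool → Bool)
    (hD : ∀ j', 1 ≤ j' → ∀ c ∈ WH S n T j', D c true = D c false) (lv : ℕ) :
    ∑ ω : {ω // P ω}, muL s (pw as) ω.1 *
      ind (bd (sysH kk k ma S) (fun i => frH n f₀ (i.map fun l => emb (e ω l))) (XH S T) K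
        (phi (8 * s :: pw as) s lv kk (pw as) (fun x => ((0 : ℕ), List.ofFn (emb x))) ω.1 D)) ≤
    (2 : ℝ) ^ (3 * T + 1) * (k * (2 ^ (k * (2 * T + 1) + 2) * (1 / 2) ^ (2 ^ (2 * u₁) + 1))) := by
  set Y := sysH kk k ma S with hY
  set cs : List ℕ := 8 * s :: pw as with hcs
  have hW : Win Y (frH n f₀) (WH S n T) (XH S T) T T T k := win_H (kk := kk) hK n T f₀
  set cd : X → ℕ × List Bool := fun x => ((0 : ℕ), List.ofFn (emb x)) with hcd
  have hinj : Function.Injective cd := fun i i' h =>
    hemb (List.ofFn_injective (congrArg Prod.snd h))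
  set cn : (Idx X cs → Bool) → ℕ × List Bool → Bool → List Bool → Bool := fun z =>
    rowG cd (fun x _ => cnX cs lv kk z x) D with hcn
  have hrW : ∀ x, cd x ∈ WH S n T 0 := fun x => mem_W0.2 ⟨rfl, List.length_ofFn⟩
  have hoff : ∀ c : ℕ × List Bool, c ∉ WH S n T 0 → ∀ x, cd x ≠ c := fun c hc x h =>
    hc (h ▸ hrW x)
  -- the strings of the worlds
  have hstr : ∀ (ω : {ω // P ω}) (i : Option (Fin N')) (z : Idx X cs → Bool),
      (∀ x, phi cs s lv kk (pw as) cd ω.1 D (cd x) (frH n f₀ (i.map fun l => emb (e ω l))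
        (nam 0 (List.ofFn (emb x)))) = cnX cs lv kk z x) →
      ∀ y : List Bool, y.length ≤ T →
        er (orc Y ⟨phi cs s lv kk (pw as) cd ω.1 D, frH n f₀ (i.map fun l => emb (e ω l))⟩) y =
        er (orc Y ⟨cn z, frH n f₀ none⟩) y := by
    intro ω i z hz y hy
    refine er_eq (Y := Y) (fun c hc => ?_) hy
    set i' : Option (Fin n → Bool) := i.map fun l => emb (e ω l) with hi'
    show phi (K := ℕ × List Bool) cs s lv kk (pw as) cd ω.1 D c _ = cn z c _
    by_cases h0 : c ∈ WH S n T 0
    · obtain ⟨h00, h01⟩ := mem_W0.1 h0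
      have ht1 : tv Y c (orc Y ⟨phi cs s lv kk (pw as) cd ω.1 D, frH n f₀ i'⟩) =
          frH n f₀ i' (nam 0 c.2) := tv_zero (kk := kk) hK _ h00
      have ht2 : tv Y c (orc Y ⟨cn z, frH n f₀ none⟩) = false :=
        (tv_zero (kk := kk) hK ⟨cn z, frH n f₀ none⟩ h00).trans (frH_none h01)
      rw [ht1, ht2]
      by_cases hx : ∃ x, cd x = c
      · obtain ⟨x, hx⟩ := hx
        rw [← hx]
        show phi (K := ℕ × List Bool) cs s lv kk (pw as) cd ω.1 D (cd x)
          (frH n f₀ i' (nam 0 (List.ofFn (emb x)))) = cn z (cd x) false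
        rw [hz x, hcn]
        show _ = rowG cd (fun x _ => cnX cs lv kk z x) D (cd x) false
        rw [rowG_on hinj]
      · push Not at hx
        have h2 : phi (K := ℕ × List Bool) cs s lv kk (pw as) cd ω.1 D c = D c := rowG_off _ D hx
        have h3 : cn z c = D c := rowG_off _ D hx
        rw [h2, h3]
        rcases i with _ | l
        · rw [hi', Option.map_none, frH_none h01]
        · rw [hi', Option.map_some, frH_some h01, decide_eq_false]
          intro h
          refine hx (e ω l) ?_
          rw [hcd]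
          obtain ⟨c1, c2⟩ := c
          simp only at h00 h ⊢
          rw [h00, h]
    · have h2 : phi (K := ℕ × List Bool) cs s lv kk (pw as) cd ω.1 D c = D c :=
        rowG_off _ D (hoff c h0)
      have h3 : cn z c = D c := rowG_off _ D (hoff c h0)
      by_cases hex : ∃ j, c ∈ WH S n T j
      · obtain ⟨j, hj⟩ := hex
        have hj1 : 1 ≤ j := by
          rcases j with _ | j
          · exact absurd hj h0
          · omega
        have h4 : ∀ t, D c t = D c true := by
          intro t
          cases t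
          · exact (hD j hj1 c hj).symm
          · rfl
        rw [h2, h3, h4, h4 (tv Y c (orc Y ⟨cn z, frH n f₀ none⟩))]
      · push Not at hex
        have h5 := hW.a2 c hc hex (phi cs s lv kk (pw as) cd ω.1 D) (cn z) (fun c' hc' => by
          have h6 : phi (K := ℕ × List Bool) cs s lv kk (pw as) cd ω.1 D c' = D c' :=
            rowG_off _ D (hoff c' (hc' 0))
          have h7 : cn z c' = D c' := rowG_off _ D (hoff c' (hc' 0))
          exact h6.trans h7.symm) i' none
        rw [h2, h3]
        exact congrArg (D c) h5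
  -- the truth of the questions as a function of the leaves
  set F : (c : ℕ × List Bool) → (Idx X cs → Bool) → Bool :=
    fun c z => tv Y c (orc Y ⟨cn z, frH n f₀ none⟩) with hF
  have hnone : ∀ (ω : {ω // P ω}) (c : ℕ × List Bool), c ∈ XH S T →
      tv Y c (orc Y ⟨phi cs s lv kk (pw as) cd ω.1 D,
        frH n f₀ ((none : Option (Fin N')).map fun l => emb (e ω l))⟩) =
        F c (lfmL s (pw as) ω.1 (fun _ => false)) := by
    intro ω c hc
    refine hW.tv_er (hstr ω none _ fun x => ?_) hc
    rw [Option.map_none, frH_none List.length_ofFn]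
    show rowG cd _ D (cd x) false = _
    rw [rowG_on hinj]
    rfl
  have hsome : ∀ (ω : {ω // P ω}) (i : Fin N') (c : ℕ × List Bool), c ∈ XH S T →
      tv Y c (orc Y ⟨phi cs s lv kk (pw as) cd ω.1 D,
        frH n f₀ ((some i).map fun l => emb (e ω l))⟩) =
        F c (lfmL s (pw as) ω.1 (sg (e ω i))) := by
    intro ω i c hc
    refine hW.tv_er (hstr ω (some i) _ fun x => ?_) hc
    rw [Option.map_some, frH_some List.length_ofFn]
    show rowG cd _ D (cd x) _ = _
    rw [rowG_on hinj]
    by_cases hx : x = e ω i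
    · subst hx
      rw [decide_eq_true rfl]
      show (if rstL s (pw as) ω.1 (e ω i) = none then _ else _) = _
      rw [if_pos (he2 ω i)]
    · rw [decide_eq_false fun h => hx (hemb (List.ofFn_injective h))]
      show cnX cs lv kk (lfmL s (pw as) ω.1 (fun _ => false)) x = _
      refine cnX_congr fun g hg => lfmL_loc ω.1 g ?_
      show false = decide (rt cs g = e ω i)
      rw [hg]
      exact (decide_eq_false hx).symm
  have hQC : ∀ c ∈ XH S T, QC (2 ^ (2 * u₁)) T k true (F c) := by
    intro c hc
    have h2 := hW.aq (Idx X cs) (fun z => orc Y ⟨cn z, frH n f₀ none⟩) 1 (fun y hy => ?_) c hc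
    · rw [Nat.mul_one] at h2
      exact h2.mono hT le_rfl
    · refine dtr_str (Y := Y) (F := fun z => cn z) (fun c' hc' w => ?_) hy
      by_cases h0 : c' ∈ WH S n T 0
      · by_cases hx : ∃ x, cd x = c'
        · obtain ⟨x, hx⟩ := hx
          have h9 : (fun z : Idx X cs → Bool => cn z c' (tv Y c' (orc Y ⟨cn z, frH n f₀ none⟩)) w) =
              fun z => cnX cs lv kk z x w := by
            funext z
            rw [← hx]
            show rowG cd (fun x _ => cnX cs lv kk z x) D (cd x) _ w = _
            rw [rowG_on hinj]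
          refine (congrArg (DTr 1) h9).mpr ?_
          rcases cnX_cls cs lv kk x w with ⟨g, _, h1⟩ | ⟨b, h1⟩
          · refine Or.inr ⟨g, fun b => ⟨b, fun z => ?_⟩⟩
            show cnX cs lv kk (Function.update z g b) x w = b
            rw [h1, Function.update_self]
          · exact DTr.const ⟨b, h1⟩
        · push Not at hx
          refine DTr.const ⟨D c' false w, fun z => ?_⟩
          have h3 : cn z c' = D c' := rowG_off _ D hx
          have ht2 : tv Y c' (orc Y ⟨cn z, frH n f₀ none⟩) = false :=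
            (tv_zero (kk := kk) hK ⟨cn z, frH n f₀ none⟩ (mem_W0.1 h0).1).trans
              (frH_none (mem_W0.1 h0).2)
          show cn z c' (tv Y c' (orc Y ⟨cn z, frH n f₀ none⟩)) w = _
          rw [h3, ht2]
      · have h3 : ∀ z : Idx X cs → Bool, cn z c' = D c' :=
          fun z => rowG_off _ D (hoff c' h0)
        by_cases hex : ∃ j, c' ∈ WH S n T j
        · obtain ⟨j, hj⟩ := hex
          have hj1 : 1 ≤ j := by
            rcases j with _ | j
            · exact absurd hj h0
            · omega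
          have h4 : ∀ t, D c' t = D c' true := by
            intro t
            cases t
            · exact (hD j hj1 c' hj).symm
            · rfl
          refine DTr.const ⟨D c' true w, fun z => ?_⟩
          show cn z c' _ w = _
          rw [h3, h4]
        · push Not at hex
          set z₀ : Idx X cs → Bool := fun _ => false
          refine DTr.const ⟨D c' (tv Y c' (orc Y ⟨cn z₀, frH n f₀ none⟩)) w, fun z => ?_⟩
          have h5 := hW.a2 c' hc' hex (cn z) (cn z₀) (fun c'' hc'' => by
            have h6 : cn z c'' = D c'' := rowG_off _ D (hoff c'' (hc'' 0))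
            have h7 : cn z₀ c'' = D c'' := rowG_off _ D (hoff c'' (hc'' 0))
            exact h6.trans h7.symm) none none
          show cn z c' _ w = _
          rw [h3]
          exact congrArg (fun t => D c' t w) h5
  choose! F' hF'1 hF'2 using fun c hc => (hQC c hc).qf
  set bad : ℕ × List Bool → OmL X s (pw as) → ℝ := fun c ω =>
    if ∀ y : List Bool, y.length ≤ 0 → ∀ b, DTr (2 ^ (2 * u₁))
      (fun z : X → Bool => QF T (F' c) k b y (lfmL s (pw as) ω z)) then (0 : ℝ) else 1 with hbad
  have hbad0 : ∀ c ω, 0 ≤ bad c ω := fun c ω => by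
    simp only [hbad]
    split_ifs <;> norm_num
  have hpt : ∀ ω : {ω // P ω}, ind (bd Y (fun i => frH n f₀ (i.map fun l => emb (e ω l)))
      (XH S T) K (phi cs s lv kk (pw as) cd ω.1 D)) ≤ ∑ c ∈ XH S T, bad c ω.1 := by
    intro ω
    by_cases hb : bd Y (fun i => frH n f₀ (i.map fun l => emb (e ω l))) (XH S T) K
        (phi cs s lv kk (pw as) cd ω.1 D)
    · rw [ind_true hb]
      obtain ⟨c, hc, hlt⟩ := hb
      refine le_trans (le_of_eq ?_) (single_le_sum (f := fun c => bad c ω.1)
        (fun c _ => hbad0 c ω.1) hc)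
      show 1 = bad c ω.1
      simp only [hbad]
      rw [if_neg]
      intro hg
      have h1 := hg [] le_rfl true
      have h2 : (fun z : X → Bool => QF T (F' c) k true [] (lfmL s (pw as) ω.1 z)) =
          fun z => F c (lfmL s (pw as) ω.1 z) := funext fun z => (hF'2 c hc _).symm
      rw [h2] at h1
      have h3 := dtr_sens h1 (he1 ω)
      have h4 : (univ.filter fun i : Fin N' =>
          tv Y c (orc Y ⟨phi cs s lv kk (pw as) cd ω.1 D,
            frH n f₀ ((some i).map fun l => emb (e ω l))⟩) ≠
          tv Y c (orc Y ⟨phi cs s lv kk (pw as) cd ω.1 D,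
            frH n f₀ ((none : Option (Fin N')).map fun l => emb (e ω l))⟩)).card ≤
          2 ^ (2 * u₁) := by
        refine le_trans (le_of_eq (congrArg _ (filter_congr fun i _ => ?_))) h3
        rw [hnone ω c hc, hsome ω i c hc]
      exact absurd (lt_of_lt_of_le hlt (h4.trans hKr)) (lt_irrefl _)
    · rw [ind_false hb]
      exact sum_nonneg fun c _ => hbad0 c ω.1
  have hmu0 : ∀ ω : OmL X s (pw as), 0 ≤ muL s (pw as) ω := fun ω => muL_nonneg hs (pw as) ω
  have hpl : (pw as).length = k := by rw [pw, List.length_map]; exact hlen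
  have hsw : ∀ c ∈ XH S T, ∑ ω : OmL X s (pw as), muL s (pw as) ω * bad c ω ≤
      k * (2 ^ (k * (2 * T + 1) + 2) * (1 / 2) ^ (2 ^ (2 * u₁) + 1)) := by
    intro c hc
    have h1 := muL_switch (X := X) hs hu₁ k (pw as) hpl T 0 (F' c) (fun y _ => hF'1 c hc y)
    rw [Nat.zero_add] at h1
    exact h1
  have hfull : ∑ ω : {ω // P ω}, muL s (pw as) ω.1 * ∑ c ∈ XH S T, bad c ω.1 ≤
      ∑ ω : OmL X s (pw as), muL s (pw as) ω * ∑ c ∈ XH S T, bad c ω := by
    have h1 : ∑ ω ∈ univ.filter P, muL s (pw as) ω * ∑ c ∈ XH S T, bad c ω =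
        ∑ ω : {ω // P ω}, muL s (pw as) ω.1 * ∑ c ∈ XH S T, bad c ω.1 :=
      Finset.sum_subtype (univ.filter P) (fun x => by simp)
        (fun ω => muL s (pw as) ω * ∑ c ∈ XH S T, bad c ω)
    rw [← h1]
    exact sum_le_sum_of_subset_of_nonneg (filter_subset _ _) fun ω _ _ =>
      mul_nonneg (hmu0 ω) (sum_nonneg fun c _ => hbad0 c ω)
  refine (sum_le_sum fun ω _ => mul_le_mul_of_nonneg_left (hpt ω) (hmu0 ω.1)).trans
    (hfull.trans ?_)
  rw [sum_congr rfl fun ω _ => mul_sum _ _ _, sum_comm]
  refine (sum_le_sum hsw).trans ?_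
  rw [sum_const, nsmul_eq_mul]
  refine mul_le_mul_of_nonneg_right ?_ (by positivity)
  exact_mod_cast hcX

end Pool.Agent.H9x.PN
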