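import Pool.Agent.H9x.PN.Req
import Pool.Agent.H9x.PN.RowG
import Pool.Agent.H9x.PN.GLaw
import Pool.Agent.H9x.PN.Num2
import Pool.Agent.H9x.PN.BlkP

/-!
# One quantum family is wrong at one string: rows of trees
-/

set_option autoImplicit false
set_option linter.unusedSectionVars false
set_option linter.unusedVariables false

namespace Pool.Agent.H9x.PN

open Finset H568R2 Pool.Agent.H676 Pool.Agent.NPC Pool.Agent.H622R2 Pool.Agent.H620R2.Gauge
  Pool.Agent.H622R2.Exp Pool.Agent.TH678.ETH Pool.Agent.TH678.SETH Pool.Agent.TH678.RS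
  Pool.Agent.H9x.Q Filter Pool.Agent.H591R3.PHG

open Pool.Agent.H9x.RT (ll lev HZ HZ_iff Yes No UU mem_UU card_lev mkp)
open Pool.Agent.H9x.SP (Sys Dt J orc base orc_on orc_off orc_free orc_loc tv tv_congr tv_true
  tv_false tv_iff enc_inj2 Blk Good sval Fools LB one_le_LB sum_lev_le)
open Pool.Agent.H9x.SN (er er_congr er_off nam nam_inj nam_len out_iff dtr_runD)

variable {kk k : ℕ} {ma : ℕ → Alg × Polynomial ℕ} {S R : ℕ → Polynomial ℕ}

open Classical in
/-- few worlds are noticed at each string -/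
theorem few_worldsG (hK : Kh k ma S R) {n T K N' : ℕ} {e : Fin N' → (Fin n → Bool)}
    (he : Function.Injective e) {f₀ : List Bool → Bool}
    {B : ℕ × List Bool → Bool → List Bool → Bool}
    (hbd : ¬ bd (sysH kk k ma S) (fun i : Option (Fin N') => frH n f₀ (i.map e)) (XH S T) K B) {y : List Bool} (hy : y.length ≤ T) :
    (univ.filter fun i : Fin N' => er (orc (sysH kk k ma S) ⟨B, frH n f₀ (some (e i))⟩) y ≠
      er (orc (sysH kk k ma S) ⟨B, frH n f₀ none⟩) y).card ≤ K + 1 := by
  have hW := (win_H (kk := kk) hK n T f₀).precomp he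
  by_cases hfree : ∃ u, y = true :: u
  · obtain ⟨u, rfl⟩ := hfree
    rw [filter_false_of_mem fun i _ => by
      rw [ne_eq, not_not]
      rfl]
    simp
  · push Not at hfree
    by_cases hp : ∃ c w, (sysH kk k ma S).ok c w ∧ y = (sysH kk k ma S).adr c w
    · obtain ⟨c, w, hok, rfl⟩ := hp
      have hlt : lev S c < ((sysH kk k ma S).adr c w).length := (sysH kk k ma S).lt c w
      have h1 : (univ.filter fun i : Fin N' =>
          er (orc (sysH kk k ma S) ⟨B, frH n f₀ (some (e i))⟩) ((sysH kk k ma S).adr c w) ≠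
          er (orc (sysH kk k ma S) ⟨B, frH n f₀ none⟩) ((sysH kk k ma S).adr c w)).card ≤
          (univ.filter fun i : Fin N' =>
            tv (sysH kk k ma S) c (orc (sysH kk k ma S) ⟨B, frH n f₀ (some (e i))⟩) ≠
            tv (sysH kk k ma S) c (orc (sysH kk k ma S) ⟨B, frH n f₀ none⟩)).card := by
        refine card_le_card fun i hi => ?_
        rw [mem_filter] at hi ⊢
        refine ⟨mem_univ _, fun heq => hi.2 ?_⟩
        rw [er_off hfree, er_off hfree, orc_on _ hok, orc_on _ hok]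
        show B c _ w = B c _ w
        rw [heq]
      refine h1.trans ?_
      by_cases h0 : c.1 = 0
      · by_cases hn : c.2.length = n
        · rcases hW.ad 0 c (mem_W0.2 ⟨h0, hn⟩) with h2 | h2
          · exact absurd h0 ((mem_XH hK).1 h2).2
          · exact (h2 B).trans (by omega)
        · rw [filter_false_of_mem fun i _ => by
            rw [ne_eq, not_not, tv_zero hK _ h0, tv_zero hK _ h0]
            show frH n f₀ (some (e i)) (nam 0 c.2) = frH n f₀ none (nam 0 c.2)
            have hne : (nam 0 c.2).length ≠ n + 1 := by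
              rw [nam_len]
              omega
            rw [frH_off hne, frH_off hne]]
          simp
      · by_contra hcon
        push Not at hcon
        exact hbd ⟨c, (mem_XH hK).2 ⟨by omega, h0⟩, lt_trans (Nat.lt_succ_self K) hcon⟩
    · push Not at hp
      rw [filter_false_of_mem fun i _ => by
        rw [ne_eq, not_not, er_off hfree, er_off hfree, orc_off _ hp, orc_off _ hp]
        rcases y with _ | ⟨c₁, u⟩
        · rfl
        · cases c₁
          · rfl
          · exact absurd rfl (hfree u)]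
      simp

/-- **One family, in contents in which no question separates many worlds.** -/
theorem req_coreG (hK : Kh k ma S R) {Bk : ℕ × List Bool → Blk} (F : QFamily) (N₀ : ℕ)
    (D₀ : Dt (sysH kk k ma S).K) {n T K M : ℕ} {e : Fin M → (Fin n → Bool)}
    (he : Function.Injective e)
    (hRl : (F.circ n).length ≤ T) (hCs : Short T (F.circ n)) (hN : N₀ ≤ n)
    (hfin : 144 * T ^ 2 * (K + 1) < M) {B : ℕ × List Bool → Bool → List Bool → Bool}
    (hB1 : Good (Y := sysH kk k ma S) Bk B)
    (hB2 : ∀ c : ℕ × List Bool, (∀ j, c ∉ WH S n T j) → B c = D₀.bl c)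
    (hB3 : ¬ bd (sysH kk k ma S) (fun i : Option (Fin M) => frH n D₀.fr (i.map e)) (XH S T) K B) :
    ∃ (D' : Dt (sysH kk k ma S).K) (N' : ℕ), Good (Y := sysH kk k ma S) Bk D'.bl ∧
      (∀ c, lev S c < N₀ → D'.bl c = D₀.bl c) ∧
      (∀ u : List Bool, u.length < N₀ → D'.fr u = D₀.fr u) ∧
      ∀ D'' : Dt (sysH kk k ma S).K, (∀ c, lev S c < N' → D''.bl c = D'.bl c) →
        (∀ u : List Bool, u.length < N' → D''.fr u = D'.fr u) →
          ¬ Rt F (er (orc (sysH kk k ma S) D'')) D''.fr := by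
  set f₀ := D₀.fr with hf₀
  by_contra hcon
  push Not at hcon
  -- the families decides the language in all worlds
  have hne : ∀ (i : Option (Fin n → Bool)), (∀ u : List Bool, u.length < N₀ →
      frH n f₀ i u = D₀.fr u) := fun i u hu' => frH_off (by omega) i
  have hlow : ∀ c : ℕ × List Bool, lev S c < N₀ → B c = D₀.bl c := fun c hc =>
    hB2 c fun j hj => by
      have := WH_ge hK hj
      omega
  have hright : ∀ i : Option (Fin n → Bool), ((List.replicate n false ∈ LH (frH n f₀ i) →
      2 / 3 ≤ F.acc (er (orc (sysH kk k ma S) ⟨B, frH n f₀ i⟩)) (List.replicate n false)) ∧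
      (List.replicate n false ∉ LH (frH n f₀ i) →
      F.acc (er (orc (sysH kk k ma S) ⟨B, frH n f₀ i⟩)) (List.replicate n false) ≤ 1 / 3)) := by
    intro i
    obtain ⟨D'', h1, h2, h3⟩ := hcon ⟨B, frH n f₀ i⟩ (T + n + 2) hB1 hlow (hne i)
    have h4 : (List.replicate n false ∈ LH D''.fr ↔ List.replicate n false ∈ LH (frH n f₀ i)) := by
      show (∃ x : List Bool, _ ∧ _) ↔ (∃ x : List Bool, _ ∧ _)
      refine exists_congr fun x => and_congr_right fun hx => ?_
      rw [List.length_replicate] at hx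
      rw [h2 (nam 0 x) (by rw [nam_len]; omega)]
    have h5 : F.acc (er (orc (sysH kk k ma S) D'')) (List.replicate n false) =
        F.acc (er (orc (sysH kk k ma S) ⟨B, frH n f₀ i⟩)) (List.replicate n false) := by
      unfold QFamily.acc
      refine prob_congr (B := T) (fun y hy => er_congr ?_) _ ?_ _ _
      · exact orc_loc (n := T + n + 2) h1 h2 y.length y rfl (by omega)
      · rw [List.length_replicate]
        exact hCs
    have h6 := h3 (List.replicate n false)
    rw [h4, h5] at h6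
    exact h6
  have h0 : List.replicate n false ∉ LH (frH n f₀ none) := by
    rintro ⟨x, hx, hx2⟩
    rw [List.length_replicate] at hx
    rw [frH_none hx] at hx2
    exact Bool.false_ne_true hx2
  have h1 : ∀ i : Fin n → Bool, List.replicate n false ∈ LH (frH n f₀ (some i)) := fun i =>
    ⟨List.ofFn i, by simp, by rw [frH_some (by simp)]; simp⟩
  set C := F.circ n with hC
  have hCl : C.length ≤ T := hRl
  have h2 := sum_prob_diff (ι := Fin M) (er (orc (sysH kk k ma S) ⟨B, frH n f₀ none⟩))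
    (fun i => er (orc (sysH kk k ma S) ⟨B, frH n f₀ (some (e i))⟩)) ((K : ℝ) + 1) T (by positivity)
    (fun y hy => by
      have h3 := few_worldsG hK he hB3 hy
      have h4 : ((univ.filter fun i : Fin M =>
          er (orc (sysH kk k ma S) ⟨B, frH n f₀ (some (e i))⟩) y ≠
          er (orc (sysH kk k ma S) ⟨B, frH n f₀ none⟩) y).card : ℝ) ≤ ((K + 1 : ℕ) : ℝ) := by
        exact_mod_cast h3
      push_cast at h4
      exact h4) C hCs (n + 1 + F.anc.eval n) (List.replicate n false)
  have hacc : ∀ i : Option (Fin n → Bool), F.acc (er (orc (sysH kk k ma S) ⟨B, frH n f₀ i⟩))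
      (List.replicate n false) = prob (er (orc (sysH kk k ma S) ⟨B, frH n f₀ i⟩)) C
        (n + 1 + F.anc.eval n) (List.replicate n false) := by
    intro i
    unfold QFamily.acc
    rw [List.length_replicate]
  have h3 : ∀ i : Fin M, (1 : ℝ) / 9 ≤
      (prob (er (orc (sysH kk k ma S) ⟨B, frH n f₀ (some (e i))⟩)) C
        (n + 1 + F.anc.eval n) (List.replicate n false) -
      prob (er (orc (sysH kk k ma S) ⟨B, frH n f₀ none⟩)) C
        (n + 1 + F.anc.eval n) (List.replicate n false)) ^ 2 := by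
    intro i
    have h4 := (hright none).2 h0
    have h5 := (hright (some (e i))).1 (h1 (e i))
    rw [hacc] at h4 h5
    nlinarith
  have h4 : (M : ℝ) * (1 / 9) ≤ 16 * (C.length : ℝ) ^ 2 * ((K : ℝ) + 1) := by
    refine le_trans (le_trans (le_of_eq ?_) (sum_le_sum fun i (_ : i ∈ univ) => h3 i)) h2
    rw [sum_const, nsmul_eq_mul, card_univ, Fintype.card_fin]
  have h5 : (C.length : ℝ) ^ 2 ≤ (T : ℝ) ^ 2 := by
    refine pow_le_pow_left₀ (Nat.cast_nonneg _) ?_ 2
    exact_mod_cast hCl
  have h6 : (((144 * T ^ 2 * (K + 1) : ℕ)) : ℝ) < (M : ℝ) := by exact_mod_cast hfin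
  push_cast at h6
  have h7 : (0 : ℝ) ≤ (K : ℝ) + 1 := by positivity
  nlinarith [mul_le_mul_of_nonneg_right h5 h7]


theorem phi_update {X : Type} [Fintype X] [DecidableEq X] {cs : List ℕ} {s lv kk : ℕ}
    {as : List ℕ} {K : Type} [DecidableEq K] {cd : X → K} (hcd : Function.Injective cd)
    (ω : OmL X s as) (D : K → Bool → List Bool → Bool) {c : K} (hc : ∀ x, cd x ≠ c)
    (v : Bool → List Bool → Bool) :
    phi cs s lv kk as cd ω (Function.update D c v) =
      Function.update (phi cs s lv kk as cd ω D) c v := by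
  funext c'
  by_cases h : c' = c
  · subst h
    rw [Function.update_self]
    exact (rowG_off _ _ hc).trans (Function.update_self _ _ _)
  · rw [Function.update_of_ne h]
    by_cases hx : ∃ x, cd x = c'
    · obtain ⟨x, rfl⟩ := hx
      refine (rowG_on hcd _ _ x).trans ?_
      refine Eq.trans ?_ (rowG_on hcd _ _ x).symm
      rw [Function.update_of_ne h]
    · push Not at hx
      refine (rowG_off _ _ hx).trans ?_
      rw [Function.update_of_ne h]
      exact (rowG_off _ _ hx).symm

open Classical in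
/-- **One family.** -/
theorem req_G (hK : Kh (kk + 1) ma S R) {Bk : ℕ × List Bool → Blk}
    (hBs : ∀ c : ℕ × List Bool, c.1 = 0 → ∀ t V, (Bk c).good t V ↔ sval (lev S c) kk V = t)
    (hBk : ∀ (c : ℕ × List Bool) (u N Λ : ℕ), ¬ c.1 = 0 →
      Λ + 16 * lev S c + 84 + (kk + 1 + 3) ≤ 2 ^ (2 * u) →
      Fools (Bk c) (kk + 1 + 3) u N Λ (107 * LB u N (kk + 1 + 3) / 8 ^ (lev S c)))
    (F : QFamily) (N₀ : ℕ) (D₀ : Dt (sysH kk (kk + 1) ma S).K)
    (hD : Good (Y := sysH kk (kk + 1) ma S) Bk D₀.bl) :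
    ∃ (D' : Dt (sysH kk (kk + 1) ma S).K) (N' : ℕ),
      Good (Y := sysH kk (kk + 1) ma S) Bk D'.bl ∧
      (∀ c, lev S c < N₀ → D'.bl c = D₀.bl c) ∧
      (∀ u : List Bool, u.length < N₀ → D'.fr u = D₀.fr u) ∧
      ∀ D'' : Dt (sysH kk (kk + 1) ma S).K, (∀ c, lev S c < N' → D''.bl c = D'.bl c) →
        (∀ u : List Bool, u.length < N' → D''.fr u = D'.fr u) →
          ¬ Rt F (er (orc (sysH kk (kk + 1) ma S) D'')) D''.fr := by
  obtain ⟨Rp, hRp⟩ := F.size
  obtain ⟨s, r, m', u, u₁, T, Ks, t, q, hN, hs, hRT, hnT, hTr, hr, hTm, hm2, hm3, hu, ht, ht1,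
    hKK, hu₁, hTu, hK1, hq1, hq, hqr, hfin⟩ := exists_num2 (kk + 1) Rp N₀
  obtain ⟨as, a, hlen, has, ha, hlaw⟩ := exists_as hs (kk + 1)
  set n := 64 * s with hn
  set f₀ := D₀.fr with hf₀
  set X := Fin (2 ^ a) with hX
  set lv := 16 * n + 6 with hlv
  set cs : List ℕ := 8 * s :: pw as with hcs
  set M := 2 ^ (4 * s - 3) with hM
  have hcX := card_XH hK T
  -- names of the roots
  obtain ⟨emb⟩ : Nonempty (X ↪ (Fin n → Bool)) := Function.Embedding.nonempty_of_card_le (by
    rw [Fintype.card_fun, Fintype.card_bool, Fintype.card_fin, Fintype.card_fin]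
    exact Nat.pow_le_pow_right (by norm_num) ha)
  set cd : X → ℕ × List Bool := fun x => ((0 : ℕ), List.ofFn (emb x)) with hcd
  have hinj : Function.Injective cd := fun i i' h =>
    emb.injective (List.ofFn_injective (congrArg Prod.snd h))
  have hrW : ∀ x, cd x ∈ WH S n T 0 := fun x => mem_W0.2 ⟨rfl, List.length_ofFn⟩
  have hoff : ∀ c : ℕ × List Bool, c ∉ WH S n T 0 → ∀ x, cd x ≠ c := fun c hc x h =>
    hc (h ▸ hrW x)
  have hfa : List.Forall₂ (fun c c' => c ≤ c' ∧ 1 ≤ c') cs (SP.shp lv kk) :=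
    fa_shp2 (by omega) (by omega) hlen has
  -- the good outcomes
  obtain ⟨P, hP⟩ : ∃ P : OmL X s (pw as) → Prop, ∀ ω, P ω ↔
      ((∀ x, rstL s (pw as) ω x ≠ some true) ∧
        M ≤ (univ.filter fun x => rstL s (pw as) ω x = none).card) ∧ muL s (pw as) ω ≠ 0 :=
    ⟨_, fun _ => Iff.rfl⟩
  have hmu0 : ∀ ω : OmL X s (pw as), 0 ≤ muL s (pw as) ω := fun ω => muL_nonneg hs (pw as) ω
  have hex : ∀ ω : {ω // P ω}, ∃ e : Fin M → X, Function.Injective e ∧
      ∀ i, rstL s (pw as) ω.1 (e i) = none := by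
    intro ω
    have h1 : Fintype.card (Fin M) ≤ Fintype.card {x // rstL s (pw as) ω.1 x = none} := by
      rw [Fintype.card_fin, Fintype.card_subtype]
      exact ((hP _).1 ω.2).1.2
    obtain ⟨g⟩ := Function.Embedding.nonempty_of_card_le h1
    exact ⟨fun i => (g i).1, fun i i' h => g.injective (Subtype.ext h), fun i => (g i).2⟩
  choose e he1 he2 using hex
  have hsub : ∑ ω : {ω // P ω}, muL s (pw as) ω.1 = ∑ ω ∈ univ.filter P, muL s (pw as) ω :=
    (Finset.sum_subtype (univ.filter P) (fun x => by simp) (fun ω => muL s (pw as) ω)).symm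
  have hsum1 : ∑ ω : {ω // P ω}, muL s (pw as) ω.1 ≤ 1 := by
    rw [hsub, ← muL_sum (X := X) hs (pw as)]
    exact sum_le_sum_of_subset_of_nonneg (filter_subset _ _) fun ω _ _ => hmu0 ω
  have hsum2 : 1 / 2 ≤ ∑ ω : {ω // P ω}, muL s (pw as) ω.1 := by
    rw [hsub, sum_filter]
    refine hlaw.trans (sum_le_sum fun ω _ => ?_)
    by_cases h0 : muL s (pw as) ω = 0
    · rw [h0]
      simp
    · split_ifs with h1 h2 h2
      · rw [mul_one]
      · exact absurd ((hP ω).2 ⟨h1, h0⟩) h2
      · rw [mul_zero]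
        exact hmu0 ω
      · rw [mul_zero]
  have hneP : Nonempty {ω // P ω} := by
    by_contra hcon
    rw [not_nonempty_iff] at hcon
    rw [univ_eq_empty, sum_empty] at hsum2
    norm_num at hsum2
  have hinj2 : ∀ ω, Function.Injective fun l => emb (e ω l) := fun ω =>
    emb.injective.comp (he1 ω)
  have hGood : ∀ ω : {ω // P ω}, Good (Y := sysH kk (kk + 1) ma S) Bk
      (phi cs s lv kk (pw as) cd ω.1 D₀.bl) := by
    intro ω c t
    by_cases hx : ∃ x, cd x = c
    · obtain ⟨x, rfl⟩ := hx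
      have hlev : lev S (cd x) = lv := by
        rw [lev_zero hK rfl, List.length_ofFn]
      have h1 : phi (K := ℕ × List Bool) cs s lv kk (pw as) cd ω.1 D₀.bl (cd x) = _ :=
        rowG_on hinj _ _ x
      show (Bk (cd x)).good t (phi (K := ℕ × List Bool) cs s lv kk (pw as) cd ω.1 D₀.bl (cd x) t)
      rw [h1, hBs (cd x) rfl, hlev]
      cases t
      · show sval lv kk (cnX cs lv kk (lfmL s (pw as) ω.1 fun _ => false) x) = false
        rw [sval_cnX hfa, tr_lfmL ((hP _).1 ω.2).2]
        have h2 := ((hP _).1 ω.2).1.1 x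
        cases h3 : rstL s (pw as) ω.1 x with
        | none => rfl
        | some b =>
          cases b
          · rfl
          · exact absurd h3 h2
      · show sval lv kk (if rstL s (pw as) ω.1 x = none then
          cnX cs lv kk (lfmL s (pw as) ω.1 (sg x)) x else D₀.bl (cd x) true) = true
        split_ifs with h2
        · rw [sval_cnX hfa, tr_lfmL ((hP _).1 ω.2).2, h2]
          show decide (x = x) = true
          exact decide_eq_true rfl
        · rw [← hlev]
          exact (hBs (cd x) rfl _ _).1 (hD (cd x) true)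
    · push Not at hx
      have h1 : phi (K := ℕ × List Bool) cs s lv kk (pw as) cd ω.1 D₀.bl c = D₀.bl c :=
        rowG_off _ _ hx
      show (Bk c).good t (phi (K := ℕ × List Bool) cs s lv kk (pw as) cd ω.1 D₀.bl c t)
      rw [h1]
      exact hD c t
  obtain ⟨ω, B, hB1, hB2, hB3⟩ := exists_goodO (Y := sysH kk (kk + 1) ma S) (Bk := Bk)
    (μ := fun ω : {ω // P ω} => muL s (pw as) ω.1)
    (Φ := fun ω D => phi cs s lv kk (pw as) cd ω.1 D)
    (fr := fun ω i => frH n f₀ (i.map fun l => emb (e ω l)))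
    (r := r) (m' := m') (u := u) (Λ := (kk + 1 + 3) * (2 * m' + 1)) (Ks := Ks) (t := t)
    (δ := fun c => 107 * LB u 1 (kk + 1 + 3) / 8 ^ (lev S c))
    (fun ω => (win_H (kk := kk) hK n T f₀).precomp (hinj2 ω))
    (fun ω => hmu0 ω.1) hsum1
    (fun ω j hj c hc D v => phi_update hinj ω.1 D (hoff c fun h0 => by
      have := (win_H (kk := kk) hK n T f₀).dj 0 j c h0 hc
      omega) v)
    (fun ω D c hc => rowG_off _ _ (hoff c hc))
    (fun c => by have := one_le_LB u 1 (kk + 1 + 3); positivity)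
    hTm
    (fun j hj => by
      rw [Fintype.card_fin]
      exact le_trans (Nat.mul_le_mul_left _ (Nat.mul_le_mul_right _ hcX)) (hm2 j hj))
    hm3 (by omega) le_rfl
    (fun j hj hj1 c hc => by
      obtain ⟨l, rfl⟩ : ∃ l, j = l + 1 := ⟨j - 1, by omega⟩
      obtain ⟨⟨h1, h2⟩, _⟩ := (mem_WS hK).1 hc
      exact hBk c u 1 _ h2 (by omega)) ht ht1 hKK (q := q)
    (fun D hD => (row_stepG hK hs hu₁ hlen hTu hK1 emb.injective P e he1 he2 f₀ hcX D hD lv).trans hq1)
    (fun j hj hj1 => by
      refine le_trans (add_le_add_left (add_le_add ?_ ?_) _) (hq j hj hj1)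
      · exact sum_W hK hnT (by have := one_le_LB u 1 (kk + 1 + 3); linarith) j
      · have hpos : 0 < pS (kk + 1) (t j) := by
          have : (1 : ℝ) ≤ t j := by exact_mod_cast ht1 j hj hj1
          unfold pS
          positivity
        rw [Fintype.card_fin]
        exact mul_le_mul_of_nonneg_left (epsS_mono hcX) (by positivity))
    (lt_of_lt_of_le hqr hsum2) hr
    (fun j hj => by
      obtain ⟨l, rfl⟩ : ∃ l, j = l + 1 := ⟨j - 1, by omega⟩
      refine List.eq_nil_iff_forall_not_mem.2 fun c hc => ?_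
      obtain ⟨⟨h1, _⟩, h2, _⟩ := (mem_WS hK).1 hc
      have h3 : lv ^ 2 ^ r ≤ (16 * n + 6) ^ 2 ^ (l + 1) :=
        pow_tower (s := 16 * n + 6) (by omega) hj
      omega) D₀.bl hGood
  exact req_coreG hK F N₀ D₀ (hinj2 ω) ((hRp n).1.trans hRT)
    (fun l r' hl => ((hRp n).2 l r' hl).trans hRT) hN hfin hB1 (fun c hc =>
      (hB2 c fun j _ => hc j).trans (rowG_off _ _ (hoff c (hc 0)))) hB3

end Pool.Agent.H9x.PN
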