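import Pool.Agent.H9x.PN.Step
import Pool.Agent.H9x.PN.Sys

/-!
# Rows with at most a single one: definitions
-/

set_option autoImplicit false
set_option linter.unusedSectionVars false

namespace Pool.Agent.H9x.PN

open Finset Pool.Agent.NPC Pool.Agent.H622R2 Pool.Agent.H620R2.Gauge Pool.Agent.H622R2.Exp
  Pool.Agent.TH678.ETH Pool.Agent.TH678.SETH Pool.Agent.TH678.RS Pool.Agent.H9x.Q Filter
  Pool.Agent.H591R3.PHG

open Pool.Agent.H9x.RT (ll lev Yes No mkp)
open Pool.Agent.H9x.SP (Sys Blk Good)

/-- the content with a single one -/
def sgl {a : ℕ} (p : Fin a → Bool) : List Bool → Bool := fun w => decide (w = List.ofFn p)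

open Classical in
/-- the block with the content zero (true) or with a single one at a random string of length `a`
(false) -/
noncomputable def rowB (a : ℕ) : Blk where
  I := Fin a → Bool
  fI := inferInstance
  dI := inferInstance
  P := fun t z => if t then (if z = fun _ => false then 1 else 0) else
    (if ∃ p, z = fun q => decide (q = p) then 1 / 2 ^ a else 0)
  nn := fun t z => by split_ifs <;> positivity
  s1 := fun t => by
    cases t
    · have h1 : (univ.filter fun z : (Fin a → Bool) → Bool =>
          ∃ p, z = fun q => decide (q = p)) = univ.image fun p q => decide (q = p) := by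
        ext z
        simp [eq_comm]
      have h2 : Function.Injective (fun (p q : Fin a → Bool) => decide (q = p)) := by
        intro p p' h
        have := congrFun h p
        simpa using this
      simp only [Bool.false_eq_true, if_false]
      rw [← sum_filter, sum_const, h1, card_image_of_injective _ h2, card_univ]
      simp
    · simp
  enc := fun z => Function.extend (fun p : Fin a → Bool => List.ofFn p) z (fun _ => false)
  cls := fun v => by
    by_cases h : ∃ p : Fin a → Bool, List.ofFn p = v
    · obtain ⟨p, rfl⟩ := h
      exact Or.inl ⟨p, fun z => Function.Injective.extend_apply List.ofFn_injective z _ p⟩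
    · exact Or.inr fun z => Function.extend_apply' _ _ _ h
  good := fun t V => (∀ w : List Bool, w.length = a → V w = false) ↔ t = true
  sup := fun t z h => by
    cases t
    · simp only [Bool.false_eq_true, if_false, ne_eq, ite_eq_right_iff, Classical.not_imp] at h
      obtain ⟨⟨p, rfl⟩, _⟩ := h
      simp only [Bool.false_eq_true, iff_false]
      intro h
      have h1 := h (List.ofFn p) List.length_ofFn
      rw [Function.Injective.extend_apply List.ofFn_injective] at h1
      simp at h1
    · simp only [if_true, ne_eq, ite_eq_right_iff, Classical.not_imp] at h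
      obtain ⟨rfl, _⟩ := h
      simp only [iff_true]
      intro w _
      by_cases h : ∃ p : Fin a → Bool, List.ofFn p = w
      · obtain ⟨p, rfl⟩ := h
        exact Function.Injective.extend_apply List.ofFn_injective _ _ p
      · exact Function.extend_apply' _ _ _ h

/-- the properties of the blocks -/
structure BkR (S : ℕ → Polynomial ℕ) (Bk : ℕ × List Bool → Blk) : Prop where
  yes : ∀ c : ℕ × List Bool, ¬ c.1 = 0 → ∀ V, (Bk c).good true V → Yes (lev S c) V
  no : ∀ c : ℕ × List Bool, ¬ c.1 = 0 → ∀ V, (Bk c).good false V → No (lev S c) V
  row : ∀ c : ℕ × List Bool, c.1 = 0 → Bk c = rowB (lev S c)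

open Classical in
/-- the contents of the rows are zero (true) and a single one (false) -/
noncomputable def rowD {K ι : Type} {a : ℕ} (cd : ι → K) (v : ι → Fin a → Bool)
    (D : K → Bool → List Bool → Bool) : K → Bool → List Bool → Bool :=
  fun c => if h : ∃ i, cd i = c then mkp (fun _ => false) (sgl (v h.choose)) else D c

/-- all rows have a one -/
def cf {ι Pos : Type} [DecidableEq ι] [DecidableEq Pos] (v : ι → Pos) : ι × Pos → Bool :=
  fun x => decide (v x.1 = x.2)

/-- all rows but one have a one -/
def cfo {ι Pos : Type} [DecidableEq ι] [DecidableEq Pos] (i : ι) (v : ι → Pos) : ι × Pos → Bool :=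
  fun x => decide (x.1 ≠ i ∧ v x.1 = x.2)

end Pool.Agent.H9x.PN
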