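import Pool.Agent.H9x.PN.Fam
import Pool.Agent.H9x.PN.Cube

/-!
# One window
-/

set_option autoImplicit false
set_option linter.unusedSectionVars false
set_option linter.unusedVariables false

namespace Pool.Agent.H9x.PN

open Finset H568R2 Pool.Agent.H676 Pool.Agent.H620R2.Gauge Pool.Agent.NPC Pool.Agent.H622R2
  Pool.Agent.H622R2.Exp

open Pool.Agent.H9x.SP (Sys Dt J orc base orc_on orc_off orc_free orc_loc tv tv_congr Blk Fools)
open Pool.Agent.H9x.SN (er er_congr er_off)
open Pool.Agent.H9x.RT (mkp EE EC)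

open Classical in
/-- the indicator of an event -/
noncomputable def ind (p : Prop) : ℝ := if p then 1 else 0

theorem ind_nonneg (p : Prop) : 0 ≤ ind p := by
  unfold ind
  split_ifs <;> norm_num

theorem ind_le_one (p : Prop) : ind p ≤ 1 := by
  unfold ind
  split_ifs <;> norm_num

theorem ind_true {p : Prop} (h : p) : ind p = 1 := if_pos h

theorem ind_false {p : Prop} (h : ¬ p) : ind p = 0 := if_neg h

theorem ind_congr {p q : Prop} (h : p ↔ q) : ind p = ind q := by
  rw [propext h]

theorem br_decide {I : Type} [Fintype I] [DecidableEq I] (p : (I → Bool) → Prop)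
    [∀ z, Decidable (p z)] (z : I → Bool) : br (fun z => decide (p z)) z = ind (p z) := by
  unfold br ind
  by_cases h : p z
  · simp [h]
  · simp [h]

variable {Y : Sys} {ι : Type} [Fintype ι] [DecidableEq ι] {fr : Option ι → List Bool → Bool}
  {W : ℕ → List Y.K} {XX : Finset Y.K} {T w m k : ℕ}

open Classical in
theorem union_bound {I : Type} [Fintype I] [DecidableEq I] {X : Type} [Fintype X] {p β : ℝ}
    (h0 : 0 ≤ p) (h1 : p ≤ 1) (g : X → Restr I → Prop)
    (h : ∀ x, Ex (wq p) (fun ρ : Restr I => if ¬ g x ρ then (1 : ℝ) else 0) ≤ β) :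
    Ex (wq p) (fun ρ : Restr I => if ∀ x, g x ρ then (0 : ℝ) else 1) ≤ Fintype.card X * β := by
  have h2 : Ex (wq p) (fun ρ : Restr I => if ∀ x, g x ρ then (0 : ℝ) else 1) ≤
      ∑ x, Ex (wq p) (fun ρ : Restr I => if ¬ g x ρ then (1 : ℝ) else 0) := by
    refine (Ex_mono (wq_nonneg h0 h1) (G := fun ρ => ∑ x, if ¬ g x ρ then (1 : ℝ) else 0)
      fun ρ => ?_).trans (le_of_eq ?_)
    · by_cases hg : ∀ x, g x ρ
      · rw [if_pos hg]
        exact sum_nonneg fun x _ => by split_ifs <;> norm_num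
      · rw [if_neg hg]
        push Not at hg
        obtain ⟨x, hx⟩ := hg
        refine le_trans (le_of_eq ?_) (single_le_sum (f := fun x => if ¬ g x ρ then (1 : ℝ) else 0)
          (fun x _ => by split_ifs <;> norm_num) (mem_univ x))
        simp [hx]
    · unfold Ex
      rw [sum_comm]
      exact sum_congr rfl fun ρ _ => mul_sum _ _ _
  refine h2.trans ((sum_le_sum fun x _ => h x).trans (le_of_eq ?_))
  rw [sum_const, card_univ, nsmul_eq_mul]

/-- the worlds separated from the first one by a code -/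
noncomputable def dset (Y : Sys) (fr : Option ι → List Bool → Bool) (D : Y.K → Bool → List Bool → Bool)
    (c : Y.K) : Finset ι :=
  univ.filter fun i : ι => tv Y c (orc Y ⟨D, fr (some i)⟩) ≠ tv Y c (orc Y ⟨D, fr none⟩)

/-- the truth of the codes of the window does not depend on the contents of the window -/
theorem Win.tvD (hW : Win Y fr W XX T w m k) {j : ℕ} {D B : Y.K → Bool → List Bool → Bool}
    (hB : ∀ c, c ∉ W j → B c = D c) {c : Y.K} (hc : c ∈ W j) (i : Option ι) :
    tv Y c (orc Y ⟨B, fr i⟩) = tv Y c (orc Y ⟨D, fr i⟩) :=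
  hW.a1 j c hc B D (fun c' hc' => hB c' (hc' j le_rfl)) i

theorem Win.cube (hW : Win Y fr W XX T w m k) {j K K' t : ℕ} {p ε : ℝ}
    {D B : Y.K → Bool → List Bool → Bool} (hD : ∀ j', j < j' → ∀ c ∈ W j', D c true = D c false)
    (hB : ∀ c, c ∉ W j → B c = D c) (hS : ∀ c ∈ W j, (dset Y fr D c).card ≤ K + 1)
    (ht : w * (K + 1) ≤ t) (ht1 : 1 ≤ t) (hp : p = (1 / (24 * (t : ℝ))) ^ k)
    (hε : XX.card * (Fintype.card ι + 1) * (k * 2 ^ (k * (2 * m + 1) + 2) * (1 / 2) ^ (t + 1)) ≤ ε)
    (hK : 2 * (16 * (t : ℝ) * K + t + 1) ≤ p * (K' + 1)) :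
    Av (fun β : ι → Bool => ind (bd Y fr XX K'
      (swp (W j) (fun c => par (dset Y fr D c) β) B))) ≤
    2 / p * (ε + 16 * t * Av (fun β : ι → Bool => ind (bd Y fr XX K
      (col (W j) (fun c => xor (tv Y c (orc Y ⟨D, fr none⟩)) (par (dset Y fr D c) β)) B)))) := by
  classical
  have htR : (1 : ℝ) ≤ t := by exact_mod_cast ht1
  have hq0 : (0 : ℝ) < 1 / (24 * t) := by positivity
  have hq1 : 1 / (24 * (t : ℝ)) ≤ 1 := by
    rw [div_le_one (by positivity)]
    linarith
  have hp0 : 0 < p := by rw [hp]; positivity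
  have hp1 : p ≤ 1 := by rw [hp]; exact pow_le_one₀ hq0.le hq1
  set τ : Option ι → Y.K → Bool := fun i c => tv Y c (orc Y ⟨D, fr i⟩) with hτ
  set σ : (ι → Bool) → Y.K → Bool := fun β c => par (dset Y fr D c) β with hσ
  set h : {c // c ∈ XX} → Option ι → (ι → Bool) → Bool := fun c i β =>
    tv Y c.1 (orc Y ⟨col (W j) (fun c => xor (τ none c) (σ β c)) B, fr i⟩) with hh
  have hdtr : ∀ c ∈ W j, DTr (K + 1) (fun β => xor (τ none c) (σ β c)) := fun c hc =>
    DTr.comp (fun b => xor (τ none c) b) (par_dtr _ (hS c hc))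
  have hqc : ∀ (c : {c // c ∈ XX}) (i : Option ι), QC t m k true (h c i) := fun c i =>
    (hW.mix hD hB (σ := fun c β => xor (τ none c) (σ β c)) hdtr i c.2).mono ht le_rfl
  have h1 : Ex (wq p) (fun ρ : Restr ι => if ∀ x i, DTr t (rs (h x i) ρ) then (0 : ℝ) else 1) ≤ ε := by
    have h2 := union_bound (X := {c // c ∈ XX} × Option ι) hp0.le hp1
      (fun x ρ => DTr t (rs (h x.1 x.2) ρ)) (β := k * 2 ^ (k * (2 * m + 1) + 2) * (1 / 2) ^ (t + 1))
      fun x => by
        rw [hp]
        exact qc_switch ht1 m k (hqc x.1 x.2)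
    refine le_trans (le_of_eq ?_) (h2.trans (le_trans (le_of_eq ?_) hε))
    · congr 1
      funext ρ
      refine if_congr ?_ rfl rfl
      exact ⟨fun h x => h x.1 x.2, fun h x i => h (x, i)⟩
    · rw [Fintype.card_prod, Fintype.card_coe, Fintype.card_option]
      push_cast
      ring
  have h2 := PN.cube (I := ι) {c // c ∈ XX} h t K K' p ε ht1 hp0 hp1 h1 hK
  have hsw : ∀ (β : ι → Bool) (c : {c // c ∈ XX}) (i : ι), h c (some i) (flp i β) =
      tv Y c.1 (orc Y ⟨swp (W j) (σ β) B, fr (some i)⟩) := by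
    intro β c i
    have e1 : col (W j) (fun c => xor (τ none c) (σ (flp i β) c)) B =
        col (W j) (τ (some i)) (swp (W j) (σ β) B) := by
      rw [col_swp]
      funext c'
      by_cases hc' : c' ∈ W j
      · funext s
        rw [col_on hc', col_on hc']
        congr 1
        show xor (τ none c') (par (dset Y fr D c') (flp i β)) =
          xor (τ (some i) c') (par (dset Y fr D c') β)
        rw [par_flp, ← Bool.xor_assoc]
        congr 1
        have e2 : i ∈ dset Y fr D c' ↔ τ (some i) c' ≠ τ none c' := by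
          unfold dset
          rw [mem_filter]
          exact ⟨fun h => h.2, fun h => ⟨mem_univ _, h⟩⟩
        cases ha : τ none c' <;> cases hb : τ (some i) c' <;> simp [e2, ha, hb]
      · rw [col_off hc', col_off hc']
    show tv Y c.1 (orc Y ⟨col (W j) (fun c => xor (τ none c) (σ (flp i β) c)) B, fr (some i)⟩) = _
    rw [e1, orc_col]
    intro c' hc'
    refine (hW.tvD (D := D) (fun c'' hc'' => ?_) hc' (some i)).symm
    rw [swp_off hc'', hB c'' hc'']
  have hsn : ∀ (β : ι → Bool) (c : {c // c ∈ XX}), h c none β =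
      tv Y c.1 (orc Y ⟨swp (W j) (σ β) B, fr none⟩) := by
    intro β c
    have e1 : col (W j) (fun c => xor (τ none c) (σ β c)) B =
        col (W j) (τ none) (swp (W j) (σ β) B) := by
      rw [col_swp]
    show tv Y c.1 (orc Y ⟨col (W j) (fun c => xor (τ none c) (σ β c)) B, fr none⟩) = _
    rw [e1, orc_col]
    intro c' hc'
    refine (hW.tvD (D := D) (fun c'' hc'' => ?_) hc' none).symm
    rw [swp_off hc'', hB c'' hc'']
  refine le_trans (le_of_eq ?_) (h2.trans (le_of_eq ?_))
  · congr 1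
    funext β
    unfold ind
    refine if_congr ?_ rfl rfl
    unfold bd
    constructor
    · rintro ⟨c, hc, hlt⟩
      refine ⟨⟨c, hc⟩, ?_⟩
      rw [hsn β ⟨c, hc⟩]
      simp only [hsw β ⟨c, hc⟩]
      exact hlt
    · rintro ⟨⟨c, hc⟩, hlt⟩
      refine ⟨c, hc, ?_⟩
      rw [hsn β ⟨c, hc⟩] at hlt
      simp only [hsw β ⟨c, hc⟩] at hlt
      exact hlt
  · congr 4
    funext β
    unfold ind
    refine if_congr ?_ rfl rfl
    unfold bd
    exact ⟨fun ⟨⟨c, hc⟩, hlt⟩ => ⟨c, hc, hlt⟩, fun ⟨c, hc, hlt⟩ => ⟨⟨c, hc⟩, hlt⟩⟩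

variable {Bk : Y.K → Blk}

open Classical in
/-- **One window.** -/
theorem Win.step (hW : Win Y fr W XX T w m k) {j K K' t m' u Λ : ℕ} {p ε : ℝ} {δ : Y.K → ℝ}
    {D : Y.K → Bool → List Bool → Bool} (hD : ∀ j', j < j' → ∀ c ∈ W j', D c true = D c false)
    (hm : m ≤ m') (hm2 : 2 * (XX.card * Fintype.card ι ^ (K' + 1)) ≤ 2 ^ m')
    (hm3 : K' + 2 ≤ 2 ^ m') (hu : w ≤ 2 ^ (2 * u)) (hΛ : (k + 3) * (2 * m' + 1) ≤ Λ)
    (hfool : ∀ c ∈ W j, Fools (Bk c) (k + 3) u 1 Λ (δ c))
    (ht : w * (K + 1) ≤ t) (ht1 : 1 ≤ t) (hp : p = (1 / (24 * (t : ℝ))) ^ k)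
    (hε : XX.card * (Fintype.card ι + 1) * (k * 2 ^ (k * (2 * m + 1) + 2) * (1 / 2) ^ (t + 1)) ≤ ε)
    (hK : 2 * (16 * (t : ℝ) * K + t + 1) ≤ p * (K' + 1)) :
    EE (fun c => (Bk c).P true) (fun c => (Bk c).P false) (fun c => (Bk c).enc) (W j)
      (fun B => ind (bd Y fr XX K' B)) D ≤
    (((W j).map δ).sum + 2 / p * ε) + (2 / p * (16 * t) + 1) *
      EC (fun c => (Bk c).P false) (fun c => (Bk c).enc) (W j)
        (fun B => ind (bd Y fr XX K B)) D := by
  have hP : ∀ (c : Y.K) (z : (Bk c).I → Bool), 0 ≤ (Bk c).P true z := fun c z => (Bk c).nn true z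
  have hQ : ∀ (c : Y.K) (z : (Bk c).I → Bool), 0 ≤ (Bk c).P false z := fun c z => (Bk c).nn false z
  have hP1 : ∀ c : Y.K, ∑ z, (Bk c).P true z = 1 := fun c => (Bk c).s1 true
  have hQ1 : ∀ c : Y.K, ∑ z, (Bk c).P false z = 1 := fun c => (Bk c).s1 false
  have htR : (1 : ℝ) ≤ t := by exact_mod_cast ht1
  have hp0 : 0 < p := by rw [hp]; positivity
  have hε0 : 0 ≤ ε := le_trans (by positivity) hε
  have hEC0 : 0 ≤ EC (fun c => (Bk c).P false) (fun c => (Bk c).enc) (W j)
        (fun B => ind (bd Y fr XX K B)) D :=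
    EC_ge_of hQ hQ1 _ _ fun D' _ _ => ind_nonneg _
  -- the first step
  have h1 := hyb3 (P := fun c => (Bk c).P true) (Q := fun c => (Bk c).P false)
    (enc := fun c => (Bk c).enc) hP hP1 hQ hQ1 (fun B => ind (bd Y fr XX K' B)) δ (W j)
    (hW.nd j) D (fun c hc D' hD' z' => by
      have h2 : QC (2 ^ (2 * u)) m' (k + 3) true (fun z : (Bk c).I → Bool =>
          decide (bd Y fr XX K' (Function.update D' c (mkp ((Bk c).enc z) ((Bk c).enc z'))))) :=
        qc_bd hm hm2 hm3 fun c' hc' i => (hW.var hD hD' (Bk c) hc ((Bk c).enc z') i hc').mono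
          (by omega) le_rfl
      have h3 := fools_qc (hfool c hc) le_rfl hΛ h2
      simp only [br_decide] at h3
      exact h3)
  -- the second step
  have h2 : EE (fun c => (Bk c).P false) (fun c => (Bk c).P false) (fun c => (Bk c).enc) (W j)
      (fun B => ind (bd Y fr XX K' B)) D ≤ 2 / p * ε + (2 / p * (16 * t) + 1) *
      EC (fun c => (Bk c).P false) (fun c => (Bk c).enc) (W j)
        (fun B => ind (bd Y fr XX K B)) D := by
    by_cases hc : ∃ c ∈ W j, c ∈ XX ∧ K < (dset Y fr D c).card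
    · obtain ⟨c, hcW, hcX, hlt⟩ := hc
      have e1 : 1 ≤ EC (fun c => (Bk c).P false) (fun c => (Bk c).enc) (W j)
          (fun B => ind (bd Y fr XX K B)) D := by
        refine EC_ge_of hQ hQ1 _ _ fun D' _ hD' => ?_
        rw [ind_true]
        refine ⟨c, hcX, ?_⟩
        simp only [hW.tvD hD' hcW]
        exact hlt
      have e2 : EE (fun c => (Bk c).P false) (fun c => (Bk c).P false) (fun c => (Bk c).enc) (W j)
          (fun B => ind (bd Y fr XX K' B)) D ≤ 1 := by
        have e3 := EE_mono (enc := fun c => (Bk c).enc) hQ hQ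
          (F := fun B => ind (bd Y fr XX K' B)) (G := fun B => 1 + 0 * ind (bd Y fr XX K' B)) (W j) D
          fun D' _ => by
            have := ind_le_one (bd Y fr XX K' D')
            linarith
        rw [EE_affine hQ1 hQ1, zero_mul, add_zero] at e3
        exact e3
      have e4 : 0 ≤ 2 / p * ε := by positivity
      have e5 : 0 ≤ 2 / p * (16 * t) := by positivity
      nlinarith
    · push Not at hc
      have hS : ∀ c ∈ W j, (dset Y fr D c).card ≤ K + 1 := by
        intro c hcW
        rcases hW.ad j c hcW with h | h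
        · have := hc c hcW h
          omega
        · have := h D
          have e1 : (dset Y fr D c).card ≤ 1 := this
          omega
      set F : (Y.K → Bool → List Bool → Bool) → ℝ := fun B => ind (bd Y fr XX K' B) with hF
      set G : (Y.K → Bool → List Bool → Bool) → ℝ := fun B => ind (bd Y fr XX K B) with hG
      set N2 : ℝ := (2 : ℝ) ^ Fintype.card ι with hN2
      have hN0 : 0 < N2 := by positivity
      have hcard : ((univ : Finset (ι → Bool)).card : ℝ) = N2 := by
        rw [card_univ, Fintype.card_fun, Fintype.card_bool]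
        push_cast
        rfl
      set σ : (ι → Bool) → Y.K → Bool := fun β c => par (dset Y fr D c) β with hσ
      set τ : Y.K → Bool := fun c => tv Y c (orc Y ⟨D, fr none⟩) with hτ
      have e1 : EE (fun c => (Bk c).P false) (fun c => (Bk c).P false) (fun c => (Bk c).enc) (W j)
          (fun B => ∑ β : ι → Bool, N2⁻¹ * F (swp (W j) (σ β) B)) D =
          EE (fun c => (Bk c).P false) (fun c => (Bk c).P false) (fun c => (Bk c).enc) (W j) F D := by
        rw [EE_lin univ (fun _ => N2⁻¹) (fun β B => F (swp (W j) (σ β) B))]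
        rw [sum_congr rfl fun β _ => by rw [EE_swp F (σ β) (W j) (hW.nd j) D]]
        rw [sum_const, nsmul_eq_mul, hcard, ← mul_assoc, mul_inv_cancel₀ hN0.ne', one_mul]
      have e2 : EE (fun c => (Bk c).P false) (fun c => (Bk c).P false) (fun c => (Bk c).enc) (W j)
          (fun B => ∑ β : ι → Bool, N2⁻¹ * G (col (W j) (fun c => xor (τ c) (σ β c)) B)) D =
          EC (fun c => (Bk c).P false) (fun c => (Bk c).enc) (W j) G D := by
        rw [EE_lin univ (fun _ => N2⁻¹) (fun β B => G (col (W j) (fun c => xor (τ c) (σ β c)) B))]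
        rw [sum_congr rfl fun β _ => by
          rw [EE_col hQ1 G (fun c => xor (τ c) (σ β c)) (W j) (hW.nd j) D]]
        rw [sum_const, nsmul_eq_mul, hcard, ← mul_assoc, mul_inv_cancel₀ hN0.ne', one_mul]
      have e3 := EE_mono (enc := fun c => (Bk c).enc) hQ hQ
        (F := fun B => ∑ β : ι → Bool, N2⁻¹ * F (swp (W j) (σ β) B))
        (G := fun B => 2 / p * ε + 2 / p * (16 * t) *
          ∑ β : ι → Bool, N2⁻¹ * G (col (W j) (fun c => xor (τ c) (σ β c)) B)) (W j) D
        fun B hB => by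
          have e4 := hW.cube hD hB hS ht ht1 hp hε hK
          have e5 : ∀ H : (ι → Bool) → ℝ, ∑ β, N2⁻¹ * H β = Av H := by
            intro H
            unfold Av
            rw [← mul_sum, div_eq_inv_mul]
          simp only [e5]
          refine e4.trans (le_of_eq ?_)
          ring
      rw [e1, EE_affine hQ1 hQ1, e2] at e3
      linarith
  have h3 := (abs_le.1 h1).2
  linarith

end Pool.Agent.H9x.PN
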