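import Pool.Agent.H9x.PN.QC
import Pool.Agent.H9x.SN.Low
import Pool.Agent.H9x.PN.EEL
import Pool.Agent.H9x.PN.Cube0

/-!
# Windows of codes
-/

set_option autoImplicit false
set_option linter.unusedSectionVars false
set_option linter.unusedVariables false

namespace Pool.Agent.H9x.PN

open Finset H568R2 Pool.Agent.H676 Pool.Agent.H620R2.Gauge Pool.Agent.NPC Pool.Agent.H622R2
  Pool.Agent.H622R2.Exp

open Pool.Agent.H9x.SP (Sys Dt J orc base orc_on orc_off orc_free orc_loc tv tv_congr Blk Fools)
open Pool.Agent.H9x.SN (er er_congr er_off)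

section

variable {K : Type*} [DecidableEq K] {W : Type*}

theorem swp_off {C : List K} {σ : K → Bool} {B : K → Bool → W} {c : K} (h : c ∉ C) :
    swp C σ B c = B c := if_neg fun h' => h h'.1

theorem col_off {C : List K} {σ : K → Bool} {B : K → Bool → W} {c : K} (h : c ∉ C) :
    col C σ B c = B c := if_neg h

theorem col_on {C : List K} {σ : K → Bool} {B : K → Bool → W} {c : K} (h : c ∈ C) (t : Bool) :
    col C σ B c t = B c (σ c) := by
  unfold col
  rw [if_pos h]

theorem col_swp (C : List K) (σ ρ : K → Bool) (B : K → Bool → W) :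
    col C σ (swp C ρ B) = col C (fun c => xor (σ c) (ρ c)) B := by
  funext c
  unfold col swp
  by_cases hc : c ∈ C
  · rw [if_pos hc, if_pos hc]
    funext t
    show (if c ∈ C ∧ ρ c = true then fun t => B c (!t) else B c) (σ c) = B c (xor (σ c) (ρ c))
    cases hρ : ρ c
    · rw [if_neg (by simp), Bool.xor_false]
    · rw [if_pos ⟨hc, rfl⟩, Bool.xor_true]
  · rw [if_neg hc, if_neg hc, if_neg fun h => hc h.1]

end

theorem QC.mono {I : Type} [Fintype I] [DecidableEq I] {t t' m m' : ℕ} (ht : t ≤ t')
    (hm : m ≤ m') : ∀ {k : ℕ} {b : Bool} {f : (I → Bool) → Bool}, QC t m k b f → QC t' m' k b f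
  | 0, b, f, h => DTr.mono h ht
  | k + 1, true, f, ⟨g, h1, h2⟩ => by
    refine ⟨fun w => if w.length ≤ m then g w else fun _ => false, fun w => ?_, fun z => ?_⟩
    · show QC t' m' k false (if w.length ≤ m then g w else fun _ => false)
      split_ifs
      · exact (h1 w).mono ht hm
      · exact QC.const false k false
    · rw [h2]
      constructor
      · rintro ⟨w, hw, h3⟩
        exact ⟨w, hw.trans hm, by simp only [if_pos hw]; exact h3⟩
      · rintro ⟨w, _, h3⟩
        by_cases hw : w.length ≤ m
        · simp only [if_pos hw] at h3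
          exact ⟨w, hw, h3⟩
        · simp only [if_neg hw] at h3
          simp at h3
  | k + 1, false, f, ⟨g, h1, h2⟩ => by
    refine ⟨fun w => if w.length ≤ m then g w else fun _ => true, fun w => ?_, fun z => ?_⟩
    · show QC t' m' k true (if w.length ≤ m then g w else fun _ => true)
      split_ifs
      · exact (h1 w).mono ht hm
      · exact QC.const true k true
    · rw [h2]
      constructor
      · intro h3 w _
        by_cases hw : w.length ≤ m
        · simp only [if_pos hw]
          exact h3 w hw
        · simp only [if_neg hw]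
      · intro h3 w hw
        have := h3 w (hw.trans hm)
        simp only [if_pos hw] at this
        exact this

/-! ### Parities -/

section

variable {ι : Type} [Fintype ι] [DecidableEq ι]

/-- the parity of the coordinates in `S` -/
def par (S : Finset ι) (b : ι → Bool) : Bool := decide (Odd (S.filter fun i => b i = true).card)

theorem par_flp (S : Finset ι) (i : ι) (b : ι → Bool) :
    par S (flp i b) = xor (decide (i ∈ S)) (par S b) := by
  unfold par
  by_cases hi : i ∈ S
  · have hS : S = insert i (S.erase i) := (insert_erase hi).symm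
    have h1 : ∀ b' : ι → Bool, (S.filter fun j => b' j = true).card =
        (if b' i = true then 1 else 0) + ((S.erase i).filter fun j => b' j = true).card := by
      intro b'
      conv_lhs => rw [hS]
      rw [filter_insert]
      split_ifs with h
      · rw [card_insert_of_notMem (by simp), add_comm]
      · rw [zero_add]
    have h2 : ((S.erase i).filter fun j => flp i b j = true) =
        ((S.erase i).filter fun j => b j = true) := by
      refine filter_congr fun j hj => ?_
      unfold flp
      rw [Function.update_of_ne (ne_of_mem_erase hj)]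
    rw [h1 b, h1 (flp i b), h2]
    have h3 : flp i b i = !b i := Function.update_self _ _ _
    rw [h3, decide_eq_true hi]
    rw [Bool.eq_iff_iff]
    cases hb : b i
    · simp [add_comm 1, Nat.odd_add_one]
    · simp [add_comm 1, Nat.odd_add_one]
  · have h2 : (S.filter fun j => flp i b j = true) = (S.filter fun j => b j = true) := by
      refine filter_congr fun j hj => ?_
      unfold flp
      rw [Function.update_of_ne]
      rintro rfl
      exact hi hj
    rw [h2, decide_eq_false hi, Bool.false_xor]

theorem par_dtr (S : Finset ι) {K : ℕ} (h : S.card ≤ K) : DTr K (par S) := by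
  refine DTr.of_junta ⟨S, h, fun x y hxy => ?_⟩
  unfold par
  have : (S.filter fun i => x i = true) = S.filter fun i => y i = true :=
    filter_congr fun i hi => by rw [hxy i hi]
  rw [this]

end

/-! ### Strings -/

variable {Y : Sys} {I : Type} [Fintype I] [DecidableEq I]

theorem dtr_str {d T : ℕ} {F : (I → Bool) → Y.K → Bool → List Bool → Bool}
    {f : List Bool → Bool} (h : ∀ c, Y.lev c ≤ T → ∀ w, DTr d (fun z => F z c
      (tv Y c (orc Y ⟨F z, f⟩)) w)) {y : List Bool} (hy : y.length ≤ T) :
    DTr d (fun z => er (orc Y ⟨F z, f⟩) y) := by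
  by_cases hfree : ∃ u, y = true :: u
  · obtain ⟨u, rfl⟩ := hfree
    exact DTr.const ⟨false, fun _ => rfl⟩
  · push Not at hfree
    have her : (fun z => er (orc Y ⟨F z, f⟩) y) = fun z => orc Y ⟨F z, f⟩ y :=
      funext fun z => er_off hfree
    rw [her]
    by_cases hp : ∃ c w, Y.ok c w ∧ y = Y.adr c w
    · obtain ⟨c, w, hok, rfl⟩ := hp
      have hlt := Y.lt c w
      have h1 : (fun z => orc Y ⟨F z, f⟩ (Y.adr c w)) =
          fun z => F z c (tv Y c (orc Y ⟨F z, f⟩)) w := funext fun z => orc_on _ hok
      rw [h1]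
      exact h c (by omega) w
    · push Not at hp
      refine DTr.const ⟨Y.b0 y, fun z => ?_⟩
      rw [orc_off _ hp]
      rcases y with _ | ⟨c₁, u⟩
      · rfl
      · cases c₁
        · rfl
        · exact absurd rfl (hfree u)

/-- only the contents for the true truth values matter -/
theorem orc_col {C : List Y.K} {σ : Y.K → Bool} {B : Y.K → Bool → List Bool → Bool}
    {f : List Bool → Bool} (h : ∀ c ∈ C, σ c = tv Y c (orc Y ⟨B, f⟩)) :
    orc Y ⟨col C σ B, f⟩ = orc Y ⟨B, f⟩ := by
  funext y
  generalize hm : y.length = m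
  induction m using Nat.strong_induction_on generalizing y with
  | _ m ih =>
    by_cases hp : ∃ c w, Y.ok c w ∧ y = Y.adr c w
    · obtain ⟨c, w, hok, rfl⟩ := hp
      have hlt := Y.lt c w
      rw [orc_on _ hok, orc_on _ hok]
      show col C σ B c (tv Y c _) w = B c (tv Y c _) w
      by_cases hc : c ∈ C
      · rw [col_on hc, h c hc]
      · rw [col_off hc, tv_congr fun z hz => ih z.length (by omega) z rfl]
    · push Not at hp
      rw [orc_off _ hp, orc_off _ hp]
      rcases y with _ | ⟨c₁, u⟩
      · rfl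
      · cases c₁ <;> rfl

/-- equal contents for the truth values give equal strings -/
theorem er_eq {T : ℕ} {B B' : Y.K → Bool → List Bool → Bool} {f f' : List Bool → Bool}
    (h : ∀ c, Y.lev c ≤ T → B c (tv Y c (orc Y ⟨B, f⟩)) = B' c (tv Y c (orc Y ⟨B', f'⟩)))
    {y : List Bool} (hy : y.length ≤ T) : er (orc Y ⟨B, f⟩) y = er (orc Y ⟨B', f'⟩) y := by
  by_cases hfree : ∃ u, y = true :: u
  · obtain ⟨u, rfl⟩ := hfree
    rfl
  · push Not at hfree
    rw [er_off hfree, er_off hfree]
    by_cases hp : ∃ c w, Y.ok c w ∧ y = Y.adr c w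
    · obtain ⟨c, w, hok, rfl⟩ := hp
      have hlt := Y.lt c w
      rw [orc_on _ hok, orc_on _ hok]
      show B c (tv Y c _) w = B' c (tv Y c _) w
      rw [h c (by omega)]
    · push Not at hp
      rw [orc_off _ hp, orc_off _ hp]
      rcases y with _ | ⟨c₁, u⟩
      · rfl
      · cases c₁
        · rfl
        · exact absurd rfl (hfree u)

/-- the windows of codes, the worlds and the questions -/
structure Win (Y : Sys) {ι : Type} [Fintype ι] [DecidableEq ι] (fr : Option ι → List Bool → Bool)
    (W : ℕ → List Y.K) (XX : Finset Y.K) (T w m k : ℕ) : Prop where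
  nd : ∀ j, (W j).Nodup
  dj : ∀ j j' c, c ∈ W j → c ∈ W j' → j = j'
  a1 : ∀ j c, c ∈ W j → ∀ B B' : Y.K → Bool → List Bool → Bool,
    (∀ c', (∀ j', j ≤ j' → c' ∉ W j') → B c' = B' c') →
      ∀ i, tv Y c (orc Y ⟨B, fr i⟩) = tv Y c (orc Y ⟨B', fr i⟩)
  a2 : ∀ c, Y.lev c ≤ T → (∀ j, c ∉ W j) → ∀ B B' : Y.K → Bool → List Bool → Bool,
    (∀ c', (∀ j, c' ∉ W j) → B c' = B' c') →
      ∀ i i', tv Y c (orc Y ⟨B, fr i⟩) = tv Y c (orc Y ⟨B', fr i'⟩)
  ad : ∀ j c, c ∈ W j → c ∈ XX ∨ ∀ B : Y.K → Bool → List Bool → Bool,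
    (univ.filter fun i : ι => tv Y c (orc Y ⟨B, fr (some i)⟩) ≠
      tv Y c (orc Y ⟨B, fr none⟩)).card ≤ 1
  aq : ∀ (I : Type) [Fintype I] [DecidableEq I] (G : (I → Bool) → Oracle) (d : ℕ),
    (∀ y : List Bool, y.length ≤ T → DTr d (fun z => er (G z) y)) →
      ∀ c ∈ XX, QC (w * d) m k true (fun z => tv Y c (G z))

end Pool.Agent.H9x.PN
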